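import Pool.Agent.H69.BD.Vmain

/-!
# THEOREM L (MP_187c26_nt): the discriminant of `ℚ(x)`, `x ^ m = b`, and the index of `ℤ[x]`

`idxZ x = [𝓞_(ℚ(x)) : ℤ[x]]` (`Pool.Agent.H69.BD.idxZ`, `idxZ_eq : idxZ x = (zx gen).relIndex (ints ℚ⟮x⟯)`).
PROOF. `F := ℚ⟮x⟯`, `θ := gen`, `θ^m = b`, `1, θ, …, θ^(m-1)` is a `ℚ`-basis (power basis). (1) `disc(1, …, θ^(m-1)) = (index)^2 discr F`: the `ℤ`-basis `ω` of `𝓞 F` and the integral matrix `P` with `θ^i = ∑ P_ij ω_j`: `Algebra.discr_of_matrix_vecMul`/`mulVec`: `disc(θ^i) = (det P)^2 discr F` and `|det P| = index` (`≤` is not needed, but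
we need `|det P| ≤ index` or `=`: Mathlib `Module.Basis.toMatrix`/`AddSubgroup.relIndex`/`Submodule.natAbs_det_equiv`-type lemma, or `Int.natAbs det = cardQuot`; see also the team files `Pool/Agent/H72/BD/Minor.lean`, `Pool/Agent/H11/FR/Loc.lean`).
(2) `|disc(1, …, θ^(m-1))| = |N(f'(θ))| = |N(m θ^(m-1))| = m^m b^(m-1)` (`Algebra.discr_powerBasis_eq_norm`, `f = X^m - b` the minimal polynomial of degree `m`; `|N(θ)| = b` since `N(θ)^m = N(b) = b^m`). Hence `m^m ≤ m^m b^(m-1) = (index)^2 |discr F|`; take logarithms.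
-/

set_option autoImplicit false

open Polynomial NumberField IntermediateField

namespace Pool.Agent.H36.LE

private theorem minpoly_eq {Ω : Type} [Field Ω] [CharZero Ω] (b m : ℕ) (hm : 1 ≤ m) (x : Ω)
    (hx : x ^ m = (b : Ω)) (hdeg : Module.finrank ℚ ℚ⟮x⟯ = m) : minpoly ℚ x = X ^ m - C (b : ℚ) := by
  have hint := Pool.Agent.H69.BD.integral_rad b m hm x hx
  have hd : minpoly ℚ x ∣ X ^ m - C (b : ℚ) := minpoly.dvd ℚ x (by simp [hx])
  have hdeg' : (minpoly ℚ x).natDegree = m := by rw [← hdeg, adjoin.finrank hint]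
  exact (eq_of_monic_of_dvd_of_natDegree_le (minpoly.monic hint) (monic_X_pow_sub_C _ (by omega)) hd
    (by rw [natDegree_X_pow_sub_C, hdeg'])).symm

private theorem norm_gen {F : Type} [Field F] [NumberField F] (b m : ℕ) (hm : 1 ≤ m) (θ : F)
    (hθ : θ ^ m = (b : F)) (hdeg : Module.finrank ℚ F = m) : |Algebra.norm ℚ θ| = (b : ℚ) := by
  have h1 : (Algebra.norm ℚ θ) ^ m = (b : ℚ) ^ m := by
    rw [← map_pow, hθ]
    have : (b : F) = algebraMap ℚ F (b : ℚ) := by simp
    rw [this, Algebra.norm_algebraMap, hdeg]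
  have h2 : |Algebra.norm ℚ θ| ^ m = (b : ℚ) ^ m := by
    rw [← abs_pow, h1, abs_of_nonneg (by positivity)]
  exact (pow_left_inj₀ (abs_nonneg _) (by positivity) (by omega)).1 h2

private theorem disc_pb {F : Type} [Field F] [NumberField F] (b m : ℕ) (hb : 1 ≤ b) (hm : 1 ≤ m)
    (pb : PowerBasis ℚ F) (hmin : minpoly ℚ pb.gen = X ^ m - C (b : ℚ)) :
    (m : ℚ) ^ m ≤ |Algebra.discr ℚ pb.basis| := by
  have hdim : pb.dim = m := by
    rw [← pb.natDegree_minpoly, hmin, natDegree_X_pow_sub_C]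
  have hdeg : Module.finrank ℚ F = m := by rw [pb.finrank, hdim]
  have hθ : pb.gen ^ m = (b : F) := by
    have := minpoly.aeval ℚ pb.gen
    rw [hmin] at this
    simpa [sub_eq_zero] using this
  have hN := norm_gen b m hm pb.gen hθ hdeg
  rw [Algebra.discr_powerBasis_eq_norm, abs_mul, abs_pow, abs_neg, abs_one, one_pow, one_mul, hmin]
  have h1 : aeval pb.gen (derivative (X ^ m - C (b : ℚ))) = algebraMap ℚ F (m : ℚ) * pb.gen ^ (m - 1) := by
    simp [derivative_X_pow]
  rw [h1, map_mul, map_pow, Algebra.norm_algebraMap, hdeg, abs_mul, abs_pow, abs_pow, hN, abs_of_nonneg (by positivity)]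
  have hb' : (1 : ℚ) ≤ (b : ℚ) ^ (m - 1) := one_le_pow₀ (by exact_mod_cast hb)
  exact le_mul_of_one_le_right (by positivity) hb'

private theorem zx_closure {F : Type} [Field F] [NumberField F] (b m : ℕ) (hm : 1 ≤ m)
    (pb : PowerBasis ℚ F) (hmin : minpoly ℚ pb.gen = X ^ m - C (b : ℚ)) :
    Pool.Agent.H72.BD.zx pb.gen = AddSubgroup.closure (Set.range pb.basis) := by
  classical
  have hdim : pb.dim = m := by
    rw [← pb.natDegree_minpoly, hmin, natDegree_X_pow_sub_C]
  have hθ : pb.gen ^ m = (b : F) := by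
    have := minpoly.aeval ℚ pb.gen
    rw [hmin] at this
    simpa [sub_eq_zero] using this
  have hmon : (X ^ m - C (b : ℤ)).Monic := monic_X_pow_sub_C _ (by omega)
  have hz : aeval pb.gen (X ^ m - C (b : ℤ)) = 0 := by simp [hθ]
  have h1 := Submodule.span_range_natDegree_eq_adjoin hmon hz
  rw [natDegree_X_pow_sub_C] at h1
  have h2 : (Finset.image (fun i => pb.gen ^ i) (Finset.range m) : Set F) = Set.range pb.basis := by
    ext y
    rw [Finset.coe_image, Set.mem_image, Set.mem_range]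
    constructor
    · rintro ⟨i, hi, rfl⟩
      rw [Finset.coe_range, Set.mem_Iio] at hi
      exact ⟨⟨i, by omega⟩, by rw [PowerBasis.basis_eq_pow]⟩
    · rintro ⟨i, rfl⟩
      refine ⟨i, ?_, by rw [PowerBasis.basis_eq_pow]⟩
      rw [Finset.coe_range, Set.mem_Iio, ← hdim]
      exact i.2
  rw [h2] at h1
  rw [← Submodule.span_int_eq_addSubgroupClosure, h1]
  rfl

private theorem ints_closure {F : Type} [Field F] [NumberField F] {ι : Type}
    (e : Module.Free.ChooseBasisIndex ℤ (𝓞 F) ≃ ι) :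
    Pool.Agent.H72.BD.ints F = AddSubgroup.closure (Set.range ((integralBasis F).reindex e)) := by
  rw [Module.Basis.coe_reindex, EquivLike.range_comp, ← Submodule.span_int_eq_addSubgroupClosure]
  ext y
  rw [Submodule.mem_toAddSubgroup, NumberField.mem_span_integralBasis]
  constructor
  · intro hy
    exact ⟨⟨y, hy⟩, rfl⟩
  · rintro ⟨z, rfl⟩
    exact z.2

private theorem core {F : Type} [Field F] [NumberField F] (b m : ℕ) (hb : 1 ≤ b) (hm : 1 ≤ m)
    (pb : PowerBasis ℚ F) (hmin : minpoly ℚ pb.gen = X ^ m - C (b : ℚ)) :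
    (m : ℝ) * Real.log m ≤ Real.log |(NumberField.discr F : ℝ)| +
      2 * Real.log ((Pool.Agent.H72.BD.zx pb.gen).relIndex (Pool.Agent.H72.BD.ints F) : ℕ) := by
  classical
  have e : Module.Free.ChooseBasisIndex ℤ (𝓞 F) ≃ Fin pb.dim := Fintype.equivOfCardEq (by
    rw [← Module.finrank_eq_card_basis (integralBasis F), Fintype.card_fin, pb.finrank])
  have h1 := zx_closure b m hm pb hmin
  have h2 := ints_closure e
  have hle : Pool.Agent.H72.BD.zx pb.gen ≤ Pool.Agent.H72.BD.ints F := by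
    rw [h1, AddSubgroup.closure_le]
    rintro _ ⟨i, rfl⟩
    rw [PowerBasis.basis_eq_pow]
    have hθ : pb.gen ^ m = (b : F) := by
      have := minpoly.aeval ℚ pb.gen
      rw [hmin] at this
      simpa [sub_eq_zero] using this
    have hint : IsIntegral ℤ pb.gen := by
      refine IsIntegral.of_pow (by omega : 0 < m) ?_
      rw [hθ]
      have := isIntegral_algebraMap (R := ℤ) (A := F) (x := (b : ℤ))
      simpa using this
    exact hint.pow i
  have h3 := AddSubgroup.relIndex_eq_abs_det _ _ hle pb.basis ((integralBasis F).reindex e) h1 h2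
  have h4 : Algebra.discr ℚ pb.basis =
      (((integralBasis F).reindex e).det pb.basis) ^ 2 * (NumberField.discr F : ℚ) := by
    have h := Algebra.discr_of_matrix_vecMul (A := ℚ) ((integralBasis F).reindex e)
      (((integralBasis F).reindex e).toMatrix pb.basis)
    rw [Module.Basis.toMatrix_map_vecMul] at h
    rw [h, Module.Basis.det_apply, NumberField.coe_discr, Module.Basis.coe_reindex, Algebra.discr_reindex]
  have h5 := disc_pb b m hb hm pb hmin
  rw [h4, abs_mul, abs_pow, ← h3] at h5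
  have h6 : (m : ℝ) ^ m ≤ (((Pool.Agent.H72.BD.zx pb.gen).relIndex (Pool.Agent.H72.BD.ints F) : ℕ) : ℝ) ^ 2 *
      |(NumberField.discr F : ℝ)| := by
    exact_mod_cast h5
  have hm' : (0 : ℝ) < (m : ℝ) ^ m := by
    have : (0 : ℝ) < m := by exact_mod_cast hm
    positivity
  have h7 := Real.log_le_log hm' h6
  have hpos := lt_of_lt_of_le hm' h6
  have hi : (((Pool.Agent.H72.BD.zx pb.gen).relIndex (Pool.Agent.H72.BD.ints F) : ℕ) : ℝ) ≠ 0 := by
    intro h
    rw [h] at hpos
    simp at hpos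
  have hdd : |(NumberField.discr F : ℝ)| ≠ 0 := by
    intro h
    rw [h] at hpos
    simp at hpos
  rw [Real.log_pow, Real.log_mul (pow_ne_zero 2 hi) hdd, Real.log_pow] at h7
  push_cast at h7 ⊢
  linarith

theorem disc_index {Ω : Type} [Field Ω] [CharZero Ω] (b m : ℕ) (hb : 1 ≤ b) (hm : 1 ≤ m) (x : Ω)
    (hx : x ^ m = (b : Ω)) (hdeg : Module.finrank ℚ ℚ⟮x⟯ = m) [NumberField ℚ⟮x⟯] :
    (m : ℝ) * Real.log m ≤ Real.log |(NumberField.discr ℚ⟮x⟯ : ℝ)| +
      2 * Real.log (Pool.Agent.H69.BD.idxZ x) := by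
  have hint := Pool.Agent.H69.BD.integral_rad b m hm x hx
  have hmin : minpoly ℚ (adjoin.powerBasis hint).gen = X ^ m - C (b : ℚ) := by
    rw [adjoin.powerBasis_gen]
    exact (minpoly_gen ℚ x).trans (minpoly_eq b m hm x hx hdeg)
  have h := core b m hb hm (adjoin.powerBasis hint) hmin
  rw [adjoin.powerBasis_gen, ← Pool.Agent.H69.BD.idxZ_eq] at h
  exact h

end Pool.Agent.H36.LE
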