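import Pool.Agent.H36.LE.FinC
import Pool.Agent.H36.LE.DiscA

/-!
# THEOREM L (MP_187c26_nt), the theorem in a fixed field `Ω`

Imports: `thmL`, `disc_index`.
PROOF. `E := adjoin ℚ {x, α} ≤ Ω`, finite dimensional, a number field; `x' := ⟨x, _⟩`, `a := ⟨α, _⟩`. `[E : ℚ] = m d'`, `d' = [ℚ(x, α) : ℚ(x)] = natDegree (minpoly ℚ⟮x⟯ α) ≤ d` (`α` is integral over `ℚ⟮x⟯`; tower law, `IntermediateField.adjoin_adjoin_left`, `finrank_mul_finrank`, or `relfinrank`). `Rd b m d' ι x'`: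
`ℚ⟮x'⟯ ≃ₐ[ℚ] ℚ⟮x⟯` (`IntermediateField` lift/map along `E.val`: `IntermediateField.lift`, `liftAlgEquiv`, or both are generated by elements with the same minimal polynomial), so the degrees and the discriminants agree (`NumberField.discr_eq_discr_of_algEquiv`), and `disc_index`: `log |disc| ≥ m log m - 2 log (idxZ x) ≥ m log m - 2 ι m`.
`absLogHeight₁ a = absLogHeight₁ α` (`Pool.Agent.H4.RR.absLogHeight_eq` for `E → Ω` and for `id`). `thmL` with `d'`: `c ≤ (d' + s)^400 h ≤ (d + s)^400 h` (`h ≥ 0`).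
-/

set_option autoImplicit false

open Polynomial NumberField IntermediateField

namespace Pool.Agent.H36.LE

private theorem fd_height (E Ω : Type) [Field E] [NumberField E] [Field Ω] [CharZero Ω] (f : E →+* Ω) (a : E) :
    absLogHeight₁ (f a) = absLogHeight₁ a := by
  have h1 := Pool.Agent.H4.RR.absLogHeight_eq E Ω f a
  have h2 := Pool.Agent.H4.RR.absLogHeight_eq E E (RingHom.id E) a
  rw [RingHom.id_apply] at h2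
  rw [h1, h2]

theorem thmL_adjoin (b : ℕ) (hb : 2 ≤ b) (ι : ℝ) (hι : 0 ≤ ι) : ∃ c : ℝ, 0 < c ∧
    ∀ (Ω : Type) [Field Ω] [CharZero Ω] (m d s : ℕ) (x α : Ω), 1 ≤ m → x ^ m = (b : Ω) →
      Module.finrank ℚ ℚ⟮x⟯ = m → Real.log (Pool.Agent.H69.BD.idxZ x) ≤ ι * m →
      m.primeFactors.card ≤ s → IsIntegral ℚ α → (minpoly ℚ⟮x⟯ α).natDegree ≤ d → α ≠ 0 →
      (∀ k : ℕ, 1 ≤ k → ∀ j : ℤ, α ^ k ≠ (b : Ω) ^ j) →
      c ≤ ((d + s : ℕ) : ℝ) ^ 400 * absLogHeight₁ α := by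
  obtain ⟨c, hc, h⟩ := thmL b hb ι hι
  refine ⟨c, hc, ?_⟩
  intro Ω _ _ m d s x α hm hx hdeg hidx hs hα hmd hα0 hk
  have hxi := Pool.Agent.H69.BD.integral_rad b m hm x hx
  have i1 : FiniteDimensional ℚ ℚ⟮x⟯ := adjoin.finiteDimensional hxi
  have i2 : NumberField ℚ⟮x⟯ := {}
  have hαF : IsIntegral ℚ⟮x⟯ α := hα.tower_top
  have i3 : FiniteDimensional ℚ⟮x⟯ ℚ⟮x⟯⟮α⟯ := adjoin.finiteDimensional hαF
  have i4 : FiniteDimensional ℚ ℚ⟮x⟯⟮α⟯ := FiniteDimensional.trans ℚ ℚ⟮x⟯ ℚ⟮x⟯⟮α⟯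
  have i5 : NumberField ℚ⟮x⟯⟮α⟯ := {}
  obtain ⟨f, hf⟩ : ∃ f : ℚ⟮x⟯⟮α⟯ →ₐ[ℚ] Ω, ∀ z, f z = (z : Ω) :=
    ⟨(ℚ⟮x⟯⟮α⟯.val : ℚ⟮x⟯⟮α⟯ →+* Ω).toRatAlgHom, fun z => rfl⟩
  obtain ⟨x', hx'⟩ : ∃ x' : ℚ⟮x⟯⟮α⟯, (x' : Ω) = x :=
    ⟨algebraMap ℚ⟮x⟯ ℚ⟮x⟯⟮α⟯ (AdjoinSimple.gen ℚ x), rfl⟩
  obtain ⟨a, ha⟩ : ∃ a : ℚ⟮x⟯⟮α⟯, (a : Ω) = α := ⟨AdjoinSimple.gen ℚ⟮x⟯ α, rfl⟩
  have hmap : ℚ⟮x'⟯.map f = ℚ⟮x⟯ := by
    rw [adjoin_map, Set.image_singleton, hf, hx']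
  let e : ℚ⟮x'⟯ ≃ₐ[ℚ] ℚ⟮x⟯ := (ℚ⟮x'⟯.equivMap f).trans (IntermediateField.equivOfEq hmap)
  have hdisc : NumberField.discr ℚ⟮x'⟯ = NumberField.discr ℚ⟮x⟯ := NumberField.discr_eq_discr_of_algEquiv _ e
  have hrd : Rd b m (minpoly ℚ⟮x⟯ α).natDegree ι x' := by
    refine ⟨by omega, hm, ?_, ?_, ?_, ?_⟩
    · have h1 : f (x' ^ m) = f (b : ℚ⟮x⟯⟮α⟯) := by rw [map_pow, map_natCast, hf, hx', hx]
      exact f.injective h1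
    · rw [e.toLinearEquiv.finrank_eq, hdeg]
    · rw [← adjoin.finrank hαF, ← hdeg, Module.finrank_mul_finrank]
    · rw [hdisc]
      have h1 := disc_index b m (by omega) hm x hx hdeg
      nlinarith [h1, hidx]
  have ha0 : a ≠ 0 := by
    rintro rfl
    exact hα0 (by rw [← ha]; rfl)
  have h1 := h ℚ⟮x⟯⟮α⟯ m (minpoly ℚ⟮x⟯ α).natDegree s x' a hrd hs ha0 (by
    intro k hk1 j h2
    apply hk k hk1 j
    have h3 := congrArg f h2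
    rw [map_pow, map_zpow₀, map_natCast, hf, ha] at h3
    exact h3)
  have h2 : absLogHeight₁ a = absLogHeight₁ α := by
    rw [← fd_height _ Ω (ℚ⟮x⟯⟮α⟯.val : ℚ⟮x⟯⟮α⟯ →+* Ω) a]
    congr 1
  rw [h2] at h1
  have h3 : (0 : ℝ) ≤ (((minpoly ℚ⟮x⟯ α).natDegree + s : ℕ) : ℝ) ^ 400 :=
    pow_nonneg (Nat.cast_nonneg _) _
  have h4 : 0 ≤ absLogHeight₁ α := by
    by_contra hcon
    have h5 := mul_nonpos_of_nonneg_of_nonpos h3 (not_le.1 hcon).le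
    linarith
  refine h1.trans (mul_le_mul_of_nonneg_right ?_ h4)
  refine pow_le_pow_left₀ (Nat.cast_nonneg _) ?_ _
  exact_mod_cast Nat.add_le_add_right hmd s

end Pool.Agent.H36.LE
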