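import Pool.Agent.H36.LE.PbA

/-!
# THEOREM L (MP_187c26_nt), chapter P: the multiples of a polynomial in a box

Imports `PbA` (may be sorried).
PROOF. The multiples of `G ≠ 0` in `BS n L` are the image of `BS (n - dX G) (L - natDegree G)` under the injective linear map `P ↦ G * P`: for `P ≠ 0`, `natDegree (G P) = natDegree G + natDegree P`,
`dX (G P) = dX G + dX P` (`dX_mul`), and `mem_BS`. (If `dX G ≥ n` or `natDegree G ≥ L` both sides are `0`: `n - dX G = 0` in `ℕ`.) `finrank_BS`, `LinearMap.finrank_range_of_inj`.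
`finrank_le_of_dvd`: `V ≤` the multiples, `Submodule.finrank_mono`.
-/

set_option autoImplicit false

open Polynomial NumberField IntermediateField
open scoped Polynomial.Bivariate

namespace Pool.Agent.H36.LE

variable {k : Type} [Field k]

/-- The multiples of `G` in the box. -/
def ML (G : k[X][Y]) (n L : ℕ) : Submodule k k[X][Y] where
  carrier := {P | P ∈ BS k n L ∧ G ∣ P}
  zero_mem' := ⟨zero_mem _, dvd_zero _⟩
  add_mem' := fun h1 h2 => ⟨add_mem h1.1 h2.1, dvd_add h1.2 h2.2⟩
  smul_mem' := fun c P h => ⟨Submodule.smul_mem _ _ h.1, dvd_smul_of_dvd c h.2⟩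

theorem finrank_ML (G : k[X][Y]) (hG : G ≠ 0) (n L : ℕ) :
    Module.finrank k (ML G n L) = (n - dX G) * (L - G.natDegree) := by
  classical
  have h1 : ∀ P : k[X][Y], P ∈ BS k (n - dX G) (L - G.natDegree) → G * P ∈ ML G n L := by
    intro P hP
    refine ⟨?_, Dvd.intro _ rfl⟩
    rw [mem_BS] at hP ⊢
    by_cases h0 : P = 0
    · left
      rw [h0, mul_zero]
    · right
      rcases hP with hP | ⟨h2, h3⟩
      · exact absurd hP h0
      · rw [natDegree_mul hG h0, dX_mul G P hG h0]
        omega
  let f : BS k (n - dX G) (L - G.natDegree) →ₗ[k] ML G n L :=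
    { toFun := fun P => ⟨G * P.1, h1 P.1 P.2⟩
      map_add' := fun P Q => Subtype.ext (mul_add _ _ _)
      map_smul' := fun c P => Subtype.ext (mul_smul_comm _ _ _) }
  have hf : Function.Bijective f := by
    constructor
    · intro P Q h
      apply Subtype.ext
      exact mul_left_cancel₀ hG (congrArg Subtype.val h)
    · rintro ⟨Q, hQ1, P, rfl⟩
      refine ⟨⟨P, ?_⟩, rfl⟩
      rw [mem_BS] at hQ1 ⊢
      by_cases h0 : P = 0
      · exact Or.inl h0
      · right
        rcases hQ1 with h2 | ⟨h2, h3⟩
        · exact absurd h2 (mul_ne_zero hG h0)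
        · rw [natDegree_mul hG h0] at h2
          rw [dX_mul G P hG h0] at h3
          omega
  rw [← (LinearEquiv.ofBijective f hf).finrank_eq, finrank_BS]

theorem finrank_le_of_dvd (G : k[X][Y]) (hG : G ≠ 0) (n L : ℕ) (V : Submodule k k[X][Y])
    (hV : V ≤ BS k n L) (hd : ∀ P ∈ V, G ∣ P) :
    Module.finrank k V ≤ (n - dX G) * (L - G.natDegree) := by
  rw [← finrank_ML G hG n L]
  have h1 : V ≤ ML G n L := fun P hP => ⟨hV hP, hd P hP⟩
  have h2 : ML G n L ≤ BS k n L := fun P hP => hP.1
  have := isNoetherian_of_isNoetherianRing_of_finite k (BS k n L)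
  have : Module.Finite k (ML G n L) :=
    Module.Finite.of_injective (Submodule.inclusion h2) (Submodule.inclusion_injective h2)
  exact Submodule.finrank_mono h1

end Pool.Agent.H36.LE
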