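import Mathlib

/-!
# THEOREM L (MP_187c26_nt), chapter PR: primes

At least `T^(3/4)` primes in `(T/4, T]` for large `T`.
PROOF. `Mathlib/NumberTheory/Chebyshev.lean`: `Chebyshev.theta_ge (n) : n log 2 - log (n+1) - 2 √n log n ≤ θ n` and `Chebyshev.theta_le_log4_mul_x : θ x ≤ log 4 * x`. So
`θ T - θ (T/4) ≥ T log 2 - log (T+1) - 2 √T log T - (T/4) log 4 = (T/2) log 2 - log (T+1) - 2 √T log T ≥ T/4` for large `T`, and every prime `p ∈ (T/4, T]` contributes `log p ≤ log T` (`theta_eq_sum_Icc`),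
so the number is at least `(T/4)/log T ≥ T^(3/4)` for large `T`.
-/

set_option autoImplicit false

namespace Pool.Agent.H36.LE

private theorem sum_union_le {ι : Type} [DecidableEq ι] (s t : Finset ι) (f : ι → ℝ)
    (hf : ∀ i, 0 ≤ f i) : ∑ i ∈ s ∪ t, f i ≤ ∑ i ∈ s, f i + ∑ i ∈ t, f i := by
  rw [← Finset.sum_union_inter]
  have : 0 ≤ ∑ i ∈ s ∩ t, f i := Finset.sum_nonneg fun i _ => hf i
  linarith

theorem many_primes : ∃ T₀ : ℕ, ∀ T : ℕ, T₀ ≤ T →
    T ^ 3 ≤ ((Finset.Icc 1 T).filter fun p => p.Prime ∧ T < 4 * p).card ^ 4 := by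
  classical
  refine ⟨200 ^ 8, fun T hT => ?_⟩
  obtain ⟨S, hS⟩ : ∃ S : Finset ℕ, S = (Finset.Icc 1 T).filter fun p => p.Prime ∧ T < 4 * p := ⟨_, rfl⟩
  rw [← hS]
  have hT0 : (0 : ℝ) < T := by
    have : 0 < T := lt_of_lt_of_le (by norm_num) hT
    exact_mod_cast this
  -- the eighth root
  obtain ⟨y, hy⟩ : ∃ y : ℝ, y = (T : ℝ) ^ ((1 : ℝ) / 8) := ⟨_, rfl⟩
  have hy8 : y ^ 8 = T := by
    rw [hy, ← Real.rpow_natCast, ← Real.rpow_mul hT0.le]
    norm_num
  have hy0 : 0 ≤ y := by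
    rw [hy]
    exact Real.rpow_nonneg hT0.le _
  have hy200 : 200 ≤ y := by
    by_contra hcon
    push Not at hcon
    have h1 : y ^ 8 < 200 ^ 8 := pow_lt_pow_left₀ hcon hy0 (by norm_num)
    rw [hy8] at h1
    have h2 : ((200 ^ 8 : ℕ) : ℝ) ≤ T := by exact_mod_cast hT
    push_cast at h2
    linarith
  have hlog : Real.log T ≤ 8 * y := by
    rw [← hy8, Real.log_pow]
    have := Real.log_le_sub_one_of_pos (by linarith : 0 < y)
    push_cast
    linarith
  have hlog0 : 0 < Real.log T := Real.log_pos (by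
    have : 1 < T := lt_of_lt_of_le (by norm_num) hT
    exact_mod_cast this)
  have hsq : √(T : ℝ) = y ^ 4 := by
    rw [← hy8, show y ^ 8 = (y ^ 4) ^ 2 by ring, Real.sqrt_sq (by positivity)]
  have hlog1 : Real.log ((T : ℝ) + 1) ≤ 1 + 8 * y := by
    have h1 : (T : ℝ) + 1 ≤ T * 2 := by
      have : (1 : ℝ) ≤ T := by
        have : 1 ≤ T := le_trans (by norm_num) hT
        exact_mod_cast this
      linarith
    have h2 := Real.log_le_log (by positivity) h1
    rw [Real.log_mul hT0.ne' two_ne_zero] at h2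
    have h3 := Real.log_two_lt_d9
    linarith
  have h2l := Real.log_two_gt_d9
  -- Chebyshev
  have hge := Chebyshev.theta_ge T
  have hle := Chebyshev.theta_le_log4_mul_x (x := ((T / 4 : ℕ) : ℝ)) (Nat.cast_nonneg _)
  have hlog4 : Real.log 4 = 2 * Real.log 2 := by
    rw [show (4 : ℝ) = 2 ^ 2 by norm_num, Real.log_pow]
    norm_num
  have hsplit : Chebyshev.theta (T : ℝ) ≤ Chebyshev.theta ((T / 4 : ℕ) : ℝ) + S.card * Real.log T := by
    rw [Chebyshev.theta_eq_sum_Icc, Chebyshev.theta_eq_sum_Icc, Nat.floor_natCast, Nat.floor_natCast]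
    have hsub : (Finset.Icc 0 T).filter (fun p => p.Prime) ⊆
        (Finset.Icc 0 (T / 4)).filter (fun p => p.Prime) ∪ S := by
      intro q hq
      rw [Finset.mem_filter, Finset.mem_Icc] at hq
      rw [Finset.mem_union, Finset.mem_filter, Finset.mem_Icc, hS, Finset.mem_filter, Finset.mem_Icc]
      by_cases h : T < 4 * q
      · exact Or.inr ⟨⟨hq.2.pos, hq.1.2⟩, hq.2, h⟩
      · exact Or.inl ⟨⟨Nat.zero_le _, by omega⟩, hq.2⟩
    have hnn : ∀ q : ℕ, 0 ≤ Real.log (q : ℝ) := fun q => Real.log_natCast_nonneg q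
    refine (Finset.sum_le_sum_of_subset_of_nonneg hsub fun q _ _ => hnn q).trans ?_
    refine (sum_union_le _ _ _ hnn).trans ?_
    refine add_le_add le_rfl ?_
    rw [← nsmul_eq_mul]
    refine Finset.sum_le_card_nsmul _ _ _ fun q hq => ?_
    rw [hS, Finset.mem_filter, Finset.mem_Icc] at hq
    exact Real.log_le_log (by exact_mod_cast hq.1.1) (by exact_mod_cast hq.1.2)
  have hdiv : ((T / 4 : ℕ) : ℝ) ≤ T / 4 := by
    have := Nat.cast_div_le (α := ℝ) (m := T) (n := 4)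
    exact_mod_cast this
  have hmain : y ^ 6 * Real.log T ≤ S.card * Real.log T := by
    have e1 : Chebyshev.theta ((T / 4 : ℕ) : ℝ) ≤ (2 * Real.log 2) * (T / 4) := by
      rw [hlog4] at hle
      exact hle.trans (mul_le_mul_of_nonneg_left hdiv (by linarith))
    have e2 : (T : ℝ) * Real.log 2 - (1 + 8 * y) - 2 * y ^ 4 * (8 * y) ≤
        T * Real.log 2 - Real.log (T + 1) - 2 * √(T : ℝ) * Real.log T := by
      rw [hsq]
      have : 2 * y ^ 4 * Real.log T ≤ 2 * y ^ 4 * (8 * y) :=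
        mul_le_mul_of_nonneg_left hlog (by positivity)
      linarith
    have e3 : y ^ 6 * Real.log T ≤ y ^ 6 * (8 * y) := mul_le_mul_of_nonneg_left hlog (by positivity)
    have e4 : y ^ 6 * (8 * y) + (1 + 8 * y) + 2 * y ^ 4 * (8 * y) ≤ (T : ℝ) / 2 * Real.log 2 := by
      have f1 : 200 * y ^ 7 ≤ y ^ 8 := by
        have : y ^ 8 = y * y ^ 7 := by ring
        rw [this]
        exact mul_le_mul_of_nonneg_right hy200 (by positivity)
      have f2 : y ^ 5 ≤ y ^ 7 := pow_le_pow_right₀ (by linarith) (by norm_num)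
      have f3 : y ≤ y ^ 7 := le_self_pow₀ (by linarith) (by norm_num)
      have f4 : 1 ≤ y ^ 7 := one_le_pow₀ (by linarith)
      have f5 : y ^ 6 * (8 * y) = 8 * y ^ 7 := by ring
      have f6 : 2 * y ^ 4 * (8 * y) = 16 * y ^ 5 := by ring
      rw [f5, f6, ← hy8]
      have f7 : (0 : ℝ) ≤ y ^ 8 := by positivity
      have f8 : y ^ 8 / 2 * 0.69 ≤ y ^ 8 / 2 * Real.log 2 :=
        mul_le_mul_of_nonneg_left (by linarith) (by linarith)
      linarith
    linarith
  have hcard : y ^ 6 ≤ S.card := le_of_mul_le_mul_right hmain hlog0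
  have h1 : (T : ℝ) ^ 3 ≤ (S.card : ℝ) ^ 4 := by
    calc (T : ℝ) ^ 3 = (y ^ 6) ^ 4 := by rw [← hy8]; ring
      _ ≤ (S.card : ℝ) ^ 4 := pow_le_pow_left₀ (by positivity) hcard 4
  exact_mod_cast h1

end Pool.Agent.H36.LE
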