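import Pool.Agent.H36.LE.DefsB
import Pool.Agent.H4.RR.AbsHeight

/-!
# THEOREM L (MP_187c26_nt), chapter MI: the conjugates of `x`, orthogonality

PROOFS. `norm_emb`: `‖τ x‖ ^ m = b`. `sum_pow_emb`: `F := ℚ⟮x⟯`; every `σ : F → ℂ` has exactly `d` extensions to `E` (`Pool.Agent.H4.RR.card_fiber_comp F E`, `finrank F E = d` from `m * finrank F E = m * d`), so `∑_τ (τ x)^e = d ∑_σ (σ x)^e`; `σ ↦ σ x` is a bijection from the `m` embeddings to the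
roots of the minimal polynomial of `x`, which is `X^m - b` (it divides `X^m - b` and has degree `m`): these are `ζ^i x₀`, `i < m`, `ζ` a primitive `m`-th root of unity (`IsPrimitiveRoot`, `Complex.isPrimitiveRoot_exp`), so `∑_σ (σ x)^e = x₀^e ∑_i ζ^(i e) = 0` (geometric sum, `ζ^e ≠ 1`). (Or: the set of the `σ x` is
stable under multiplication by `ζ`, so the sum `S` satisfies `S = ζ^e S`.)
`sum_emb`: expand `‖∑ h_j (τ x)^(γ j)‖^2 = ∑_(j, j') h_j conj(h_j') (τ x)^(γ j) conj(τ x)^(γ j')` and `conj(τ x) = ρ^2 / τ x`: the terms with `j ≠ j'` are constants times `(τ x)^(γ (j - j'))`, `m` does not divide `γ (j - j')` (`γ` prime to `m`, `0 < |j - j'| < n ≤ m`), sum `0`; the terms with `j = j'` give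
`|h_j|^2 ρ^(2 γ j)` for each of the `m d` embeddings (`NumberField.Embeddings.card`).
`rho_pow_le`: `γ j ≤ (n - 1) γ ≤ m` and `ρ ≥ 1`, `ρ^m = b`.
-/

set_option autoImplicit false

open Polynomial NumberField IntermediateField

namespace Pool.Agent.H36.LE

/-- `b ^ (1/m)`. -/
noncomputable def rho (b m : ℕ) : ℝ := (b : ℝ) ^ ((m : ℝ)⁻¹)

variable {E : Type} [Field E] [NumberField E] {b m d : ℕ} {ι : ℝ} {x : E}

private theorem rho_pow (hx : Rd b m d ι x) : rho b m ^ m = b := by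
  unfold rho
  exact Real.rpow_inv_natCast_pow (Nat.cast_nonneg _) (by have := hx.m1; omega)

private theorem rho_pos (hx : Rd b m d ι x) : 0 < rho b m := by
  unfold rho
  exact Real.rpow_pos_of_pos (by exact_mod_cast hx.b1) _

theorem norm_emb (hx : Rd b m d ι x) (τ : E →+* ℂ) : ‖τ x‖ = rho b m := by
  have h1 : ‖τ x‖ ^ m = rho b m ^ m := by
    rw [rho_pow hx, ← norm_pow, ← map_pow, hx.pow, map_natCast]
    simp
  exact (pow_left_inj₀ (norm_nonneg _) (rho_pos hx).le (by have := hx.m1; omega)).1 h1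

theorem log_rho (hx : Rd b m d ι x) : Real.log (rho b m) = Real.log b / m := by
  unfold rho
  rw [Real.log_rpow (by exact_mod_cast hx.b1)]
  ring

private theorem mic_minpoly (hx : Rd b m d ι x) : minpoly ℚ x = X ^ m - C (b : ℚ) := by
  have hm : m ≠ 0 := by have := hx.m1; omega
  have hint : IsIntegral ℚ x := Algebra.IsIntegral.isIntegral x
  have h1 : minpoly ℚ x ∣ X ^ m - C (b : ℚ) := by
    apply minpoly.dvd
    rw [map_sub, map_pow, aeval_X, aeval_C, hx.pow]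
    simp
  have h2 : (X ^ m - C (b : ℚ)).natDegree ≤ (minpoly ℚ x).natDegree := by
    rw [natDegree_X_pow_sub_C, ← IntermediateField.adjoin.finrank hint, hx.deg]
  exact (eq_of_monic_of_dvd_of_natDegree_le (minpoly.monic hint) (monic_X_pow_sub_C _ hm) h1 h2).symm

private theorem mic_twist (hx : Rd b m d ι x) (ζ : ℂ) (hζ : ζ ^ m = 1) (τ : ℚ⟮x⟯ →+* ℂ) :
    ∃ τ' : ℚ⟮x⟯ →+* ℂ, τ' (AdjoinSimple.gen ℚ x) = ζ * τ (AdjoinSimple.gen ℚ x) := by
  have hint : IsIntegral ℚ x := Algebra.IsIntegral.isIntegral x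
  have hg : (AdjoinSimple.gen ℚ x) ^ m = (b : ℚ⟮x⟯) := by
    apply (algebraMap ℚ⟮x⟯ E).injective
    rw [map_pow, AdjoinSimple.algebraMap_gen, hx.pow, map_natCast]
  have hmem : ζ * τ (AdjoinSimple.gen ℚ x) ∈ (minpoly ℚ x).aroots ℂ := by
    rw [mem_aroots]
    refine ⟨minpoly.ne_zero hint, ?_⟩
    rw [mic_minpoly hx, map_sub, map_pow, aeval_X, aeval_C, mul_pow, hζ, one_mul, ← map_pow, hg, map_natCast]
    simp
  refine ⟨((algHomAdjoinIntegralEquiv ℚ hint).symm ⟨_, hmem⟩).toRingHom, ?_⟩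
  exact algHomAdjoinIntegralEquiv_symm_apply_gen ℚ hint ⟨_, hmem⟩

private theorem mic_ext (τ τ' : ℚ⟮x⟯ →+* ℂ)
    (h : τ (AdjoinSimple.gen ℚ x) = τ' (AdjoinSimple.gen ℚ x)) : τ = τ' := by
  have hint : IsIntegral ℚ x := Algebra.IsIntegral.isIntegral x
  have h1 : τ.toRatAlgHom = τ'.toRatAlgHom := by
    apply (adjoin.powerBasis hint).algHom_ext
    rw [adjoin.powerBasis_gen]
    exact h
  ext y
  exact congrArg (fun f : ℚ⟮x⟯ →ₐ[ℚ] ℂ => f y) h1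

private theorem mic_F (hx : Rd b m d ι x) (e : ℤ) (he : ¬ (m : ℤ) ∣ e) :
    ∑ τ : ℚ⟮x⟯ →+* ℂ, (τ (AdjoinSimple.gen ℚ x)) ^ e = 0 := by
  have hm : m ≠ 0 := by have := hx.m1; omega
  obtain ⟨ζ, hζ⟩ : ∃ ζ : ℂ, IsPrimitiveRoot ζ m := ⟨_, Complex.isPrimitiveRoot_exp m hm⟩
  have hζ0 : ζ ≠ 0 := hζ.ne_zero hm
  choose g hg using mic_twist hx ζ hζ.pow_eq_one
  have hinj : Function.Injective g := by
    intro τ τ' h
    apply mic_ext
    have h1 := hg τ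
    rw [h, hg τ'] at h1
    exact (mul_left_cancel₀ hζ0 h1).symm
  have hbij : Function.Bijective g := Finite.injective_iff_bijective.1 hinj
  have h1 : ∑ τ : ℚ⟮x⟯ →+* ℂ, (τ (AdjoinSimple.gen ℚ x)) ^ e =
      ∑ τ : ℚ⟮x⟯ →+* ℂ, (g τ (AdjoinSimple.gen ℚ x)) ^ e :=
    (Function.Bijective.sum_comp hbij (fun τ => (τ (AdjoinSimple.gen ℚ x)) ^ e)).symm
  have h2 : ∑ τ : ℚ⟮x⟯ →+* ℂ, (g τ (AdjoinSimple.gen ℚ x)) ^ e =
      ζ ^ e * ∑ τ : ℚ⟮x⟯ →+* ℂ, (τ (AdjoinSimple.gen ℚ x)) ^ e := by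
    rw [Finset.mul_sum]
    refine Finset.sum_congr rfl fun τ _ => ?_
    rw [hg, mul_zpow]
  rw [h2] at h1
  have h3 : ζ ^ e ≠ 1 := fun h => he ((hζ.zpow_eq_one_iff_dvd e).1 h)
  have h4 : (1 - ζ ^ e) * ∑ τ : ℚ⟮x⟯ →+* ℂ, (τ (AdjoinSimple.gen ℚ x)) ^ e = 0 := by
    rw [sub_mul, one_mul, ← h1, sub_self]
  rcases mul_eq_zero.1 h4 with h5 | h5
  · exact absurd (sub_eq_zero.1 h5).symm h3
  · exact h5

private theorem mic_comp (F E : Type) [Field E] [NumberField E] [Field F] [NumberField F]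
    [Algebra F E] (f : (F →+* ℂ) → ℂ) :
    ∑ σ : E →+* ℂ, f (σ.comp (algebraMap F E)) = (Module.finrank F E : ℂ) * ∑ τ : F →+* ℂ, f τ := by
  classical
  rw [← Finset.sum_fiberwise (s := (Finset.univ : Finset (E →+* ℂ)))
    (g := fun σ => σ.comp (algebraMap F E)), Finset.mul_sum]
  refine Finset.sum_congr rfl fun τ _ => ?_
  have h2 : ∀ σ ∈ (Finset.univ.filter fun σ : E →+* ℂ => σ.comp (algebraMap F E) = τ),
      f (σ.comp (algebraMap F E)) = f τ := by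
    intro σ hσ
    rw [(Finset.mem_filter.1 hσ).2]
  rw [Finset.sum_congr rfl h2, Finset.sum_const, nsmul_eq_mul]
  congr 2
  exact Pool.Agent.H4.RR.card_fiber_comp F E τ

theorem sum_pow_emb (hx : Rd b m d ι x) (e : ℤ) (he : ¬ (m : ℤ) ∣ e) :
    ∑ τ : E →+* ℂ, (τ x) ^ e = 0 := by
  have h1 := mic_comp ℚ⟮x⟯ E (fun τ => (τ (AdjoinSimple.gen ℚ x)) ^ e)
  rw [mic_F hx e he, mul_zero] at h1
  rw [← h1]
  refine Finset.sum_congr rfl fun τ _ => ?_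
  rw [RingHom.comp_apply, AdjoinSimple.algebraMap_gen]

theorem sum_emb (hx : Rd b m d ι x) (n γ : ℕ) (hn : n ≤ m) (hγ : γ.Coprime m) (h : Fin n → ℂ) :
    ∑ τ : E →+* ℂ, ‖∑ j : Fin n, h j * τ x ^ (γ * (j : ℕ))‖ ^ 2 =
      (m * d : ℝ) * ∑ j : Fin n, rho b m ^ (2 * (γ * (j : ℕ))) * ‖h j‖ ^ 2 := by
  have hρ := rho_pos hx
  have hu : ∀ τ : E →+* ℂ, τ x ≠ 0 := by
    intro τ h0
    have h1 := norm_emb hx τ
    rw [h0, norm_zero] at h1
    exact hρ.ne h1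
  have hconj : ∀ τ : E →+* ℂ, (starRingEnd ℂ) (τ x) = ((rho b m : ℝ) : ℂ) ^ 2 * (τ x)⁻¹ := by
    intro τ
    rw [eq_mul_inv_iff_mul_eq₀ (hu τ), mul_comm, Complex.mul_conj, Complex.normSq_eq_norm_sq, norm_emb hx]
    push_cast
    rfl
  have hterm : ∀ τ : E →+* ℂ, ((‖∑ j : Fin n, h j * τ x ^ (γ * (j : ℕ))‖ ^ 2 : ℝ) : ℂ) =
      ∑ j : Fin n, ∑ j' : Fin n, (h j * (starRingEnd ℂ) (h j') * ((rho b m : ℝ) : ℂ) ^ (2 * (γ * (j' : ℕ)))) *
        τ x ^ ((γ : ℤ) * ((j : ℕ) - (j' : ℕ) : ℤ)) := by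
    intro τ
    have h1 : ((‖∑ j : Fin n, h j * τ x ^ (γ * (j : ℕ))‖ ^ 2 : ℝ) : ℂ) =
        (∑ j : Fin n, h j * τ x ^ (γ * (j : ℕ))) *
          (starRingEnd ℂ) (∑ j : Fin n, h j * τ x ^ (γ * (j : ℕ))) := by
      rw [Complex.mul_conj, Complex.normSq_eq_norm_sq]
    rw [h1, map_sum, Finset.sum_mul_sum]
    refine Finset.sum_congr rfl fun j _ => Finset.sum_congr rfl fun j' _ => ?_
    rw [map_mul, map_pow, hconj, mul_pow, ← pow_mul, mul_sub, zpow_sub₀ (hu τ), inv_pow]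
    have h2 : (τ x) ^ ((γ : ℤ) * ((j : ℕ) : ℤ)) = (τ x) ^ (γ * (j : ℕ)) := by
      rw [← zpow_natCast]
      push_cast
      rfl
    have h3 : (τ x) ^ ((γ : ℤ) * ((j' : ℕ) : ℤ)) = (τ x) ^ (γ * (j' : ℕ)) := by
      rw [← zpow_natCast]
      push_cast
      rfl
    rw [h2, h3]
    field_simp
  have hsum : ∀ j j' : Fin n, ∑ τ : E →+* ℂ, τ x ^ ((γ : ℤ) * ((j : ℕ) - (j' : ℕ) : ℤ)) =
      if j = j' then (m * d : ℂ) else 0 := by
    intro j j'
    split_ifs with hj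
    · rw [hj, sub_self, mul_zero]
      simp only [zpow_zero, Finset.sum_const, nsmul_eq_mul, mul_one]
      rw [Finset.card_univ, NumberField.Embeddings.card, hx.fin]
      push_cast
      rfl
    · apply sum_pow_emb hx
      intro hd
      have hcop : IsCoprime (m : ℤ) (γ : ℤ) := Nat.isCoprime_iff_coprime.2 hγ.symm
      have h1 := hcop.dvd_of_dvd_mul_left hd
      have h2 : (j : ℕ) < n := j.2
      have h3 : (j' : ℕ) < n := j'.2
      have h4 : ((j : ℕ) : ℤ) - ((j' : ℕ) : ℤ) ≠ 0 := by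
        intro h5
        apply hj
        apply Fin.ext
        omega
      have h5 := Int.le_of_dvd (abs_pos.2 h4) ((dvd_abs _ _).2 h1)
      rcases abs_cases (((j : ℕ) : ℤ) - ((j' : ℕ) : ℤ)) with h6 | h6 <;> omega
  have key : ((∑ τ : E →+* ℂ, ‖∑ j : Fin n, h j * τ x ^ (γ * (j : ℕ))‖ ^ 2 : ℝ) : ℂ) =
      (((m * d : ℝ) * ∑ j : Fin n, rho b m ^ (2 * (γ * (j : ℕ))) * ‖h j‖ ^ 2 : ℝ) : ℂ) := by
    rw [Complex.ofReal_sum, Finset.sum_congr rfl fun τ _ => hterm τ, Finset.sum_comm]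
    have h1 : ∀ j : Fin n, ∑ τ : E →+* ℂ, ∑ j' : Fin n,
        (h j * (starRingEnd ℂ) (h j') * ((rho b m : ℝ) : ℂ) ^ (2 * (γ * (j' : ℕ)))) *
        τ x ^ ((γ : ℤ) * ((j : ℕ) - (j' : ℕ) : ℤ)) =
        (m * d : ℂ) * (((rho b m : ℝ) : ℂ) ^ (2 * (γ * (j : ℕ))) * ((‖h j‖ : ℝ) : ℂ) ^ 2) := by
      intro j
      rw [Finset.sum_comm]
      have h2 : ∀ j' : Fin n, ∑ τ : E →+* ℂ,
          (h j * (starRingEnd ℂ) (h j') * ((rho b m : ℝ) : ℂ) ^ (2 * (γ * (j' : ℕ)))) *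
          τ x ^ ((γ : ℤ) * ((j : ℕ) - (j' : ℕ) : ℤ)) =
          if j = j' then (h j * (starRingEnd ℂ) (h j') * ((rho b m : ℝ) : ℂ) ^ (2 * (γ * (j' : ℕ)))) *
            (m * d : ℂ) else 0 := by
        intro j'
        rw [← Finset.mul_sum, hsum]
        split_ifs <;> simp
      rw [Finset.sum_congr rfl fun j' _ => h2 j', Finset.sum_ite_eq]
      simp only [Finset.mem_univ, if_true]
      rw [Complex.mul_conj, Complex.normSq_eq_norm_sq]
      push_cast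
      ring
    rw [Finset.sum_congr rfl fun j _ => h1 j, ← Finset.mul_sum]
    push_cast
    rfl
  exact_mod_cast key

theorem rho_pow_le (hx : Rd b m d ι x) (n γ : ℕ) (h : (n - 1) * γ ≤ m) (j : Fin n) :
    rho b m ^ (2 * (γ * (j : ℕ))) ≤ (b : ℝ) ^ 2 := by
  have hb : (1 : ℝ) ≤ b := by exact_mod_cast hx.b1
  have hρ1 : 1 ≤ rho b m := by
    unfold rho
    exact Real.one_le_rpow hb (by positivity)
  have hj : (j : ℕ) ≤ n - 1 := by have := j.2; omega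
  have h1 : γ * (j : ℕ) ≤ m := by
    calc γ * (j : ℕ) ≤ γ * (n - 1) := Nat.mul_le_mul_left _ hj
      _ = (n - 1) * γ := mul_comm _ _
      _ ≤ m := h
  calc rho b m ^ (2 * (γ * (j : ℕ))) ≤ rho b m ^ (2 * m) := pow_le_pow_right₀ hρ1 (by omega)
    _ = (b : ℝ) ^ 2 := by rw [mul_comm 2 m, pow_mul, rho_pow hx]

end Pool.Agent.H36.LE
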