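import Pool.Agent.H36.LE.NmA
import Pool.Agent.H36.LE.MiC

/-!
# THEOREM L (MP_187c26_nt), chapter N: the lattice `LK a K`

Imports `NmA` (`emb_ind`), `MiC` (`norm_emb`), may be sorried.
PROOFS. `lk_mul`: `v (t w) ≤ 1` for `w` integral (as in `LK.smul_mem'`), `v (t (w y)) = v (t w) v (t y)`.
`lat_ph`, `full`: a positive multiple `n y` is integral over `ℤ` (`exists_integral_multiple`), so `v (t (n y)) ≤ 1 ≤ max(1, v (t a))^K`. `fg`: let `N ≥ 1` with `N a` integral; for `y ∈ LK a K` and every finite place `v` of `E` (`M = E`, `t = id`):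
`v (N^K y) = v(N)^K v(y) ≤ (v(N) max(1, v a))^K = max(v N, v (N a))^K ≤ 1`, so `N^K y ∈ 𝓞 E` (`v y ≤ 1` for all finite places implies integral: `IsDedekindDomain.HeightOneSpectrum.mem_integers_of_valuation_le_one`; relate `FinitePlace` to the valuation, `NumberField.FinitePlace` API).
So `LK a K` is contained in the finitely generated group `N^(-K) 𝓞 E`, hence finitely generated (`ℤ` noetherian). `ind`: `ph z_j = D (τ z_j)_τ` with the invertible diagonal matrix of the factors `wt a K τ / √m ≠ 0`, and `emb_ind` (`LinearIndependent.map'` or directly).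
`mulx`: `T h = (τ x h_τ)_τ`, `‖T h‖ = ρ ‖h‖` (`norm_emb`, `EuclideanSpace.norm_eq`).
-/

set_option autoImplicit false

open Polynomial NumberField IntermediateField

namespace Pool.Agent.H36.LE

variable {E : Type} [Field E] [NumberField E]

private theorem fp_int {M : Type} [Field M] [NumberField M] (v : FinitePlace M) (w : M)
    (hw : IsIntegral ℤ w) : v w ≤ 1 := by
  have h := FinitePlace.norm_le_one M v.maximalIdeal (⟨w, hw⟩ : 𝓞 M)
  rw [FinitePlace.norm_embedding_eq] at h
  exact h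

private theorem int_of_fp {M : Type} [Field M] [NumberField M] (w : M)
    (h : ∀ v : FinitePlace M, v w ≤ 1) : IsIntegral ℤ w := by
  obtain ⟨c, hc⟩ := IsDedekindDomain.HeightOneSpectrum.mem_integers_of_valuation_le_one
    (R := 𝓞 M) M w (fun P => by
      have h1 := h (FinitePlace.mk P)
      rw [FinitePlace.mk_apply, FinitePlace.norm_embedding,
        NumberField.HeightOneSpectrum.adicAbv_def] at h1
      exact (WithZeroMulInt.toNNReal_le_one_iff
        (NumberField.HeightOneSpectrum.one_lt_absNorm_nnreal P)).1 (by exact_mod_cast h1))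
  rw [← hc]
  exact c.2

theorem lk_mul (a : E) (K : ℕ) (w y : E) (hw : IsIntegral ℤ w) (hy : y ∈ LK a K) :
    w * y ∈ LK a K := by
  intro M _ _ t v
  rw [map_mul, map_mul]
  calc v (t w) * v (t y) ≤ 1 * max 1 (v (t a)) ^ K :=
        mul_le_mul (fp_int v _ (map_isIntegral_int t hw)) (hy M t v) (apply_nonneg v _) zero_le_one
    _ = _ := one_mul _

private theorem lk_of_int (a : E) (K : ℕ) (y : E) (hy : IsIntegral ℤ y) : y ∈ LK a K := by
  intro M _ _ t v
  exact (fp_int v _ (map_isIntegral_int t hy)).trans (one_le_pow₀ (le_max_left _ _))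

private theorem ex_mult (y : E) : ∃ n : ℕ, n ≠ 0 ∧ IsIntegral ℤ (n • y) := by
  have h1 : IsAlgebraic ℤ y :=
    (IsFractionRing.isAlgebraic_iff ℤ ℚ E).2 (Algebra.IsAlgebraic.isAlgebraic y)
  obtain ⟨z, hz, hzy⟩ := h1.exists_integral_multiple
  refine ⟨z.natAbs, Int.natAbs_ne_zero.2 hz, ?_⟩
  rcases Int.natAbs_eq z with h | h
  · rw [← natCast_zsmul, ← h]
    exact hzy
  · have h2 : ((z.natAbs : ℕ) : ℤ) = - z := by omega
    rw [← natCast_zsmul, h2, neg_smul]
    exact hzy.neg

private theorem lk_fg (a : E) (K : ℕ) : (LK a K).FG := by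
  obtain ⟨n, hn, hna⟩ := ex_mult a
  have hn0 : (n : E) ≠ 0 := Nat.cast_ne_zero.2 hn
  have hinj : Function.Injective (LinearMap.mulLeft ℤ ((n : E) ^ K)) := by
    intro y z h
    exact mul_left_cancel₀ (pow_ne_zero K hn0) h
  refine Submodule.fg_of_fg_map_injective (LinearMap.mulLeft ℤ ((n : E) ^ K)) hinj ?_
  have hfg : (LinearMap.range ((IsScalarTower.toAlgHom ℤ (𝓞 E) E).toLinearMap)).FG := by
    rw [LinearMap.range_eq_map]
    exact (Module.finite_def.1 inferInstance : (⊤ : Submodule ℤ (𝓞 E)).FG).map _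
  refine hfg.of_le ?_
  rintro _ ⟨y, hy, rfl⟩
  have hint : IsIntegral ℤ ((n : E) ^ K * y) := by
    refine int_of_fp _ fun v => ?_
    have h1 := hy E (RingHom.id E) v
    rw [RingHom.id_apply, RingHom.id_apply] at h1
    rw [map_mul, map_pow]
    have h2 : v (n : E) ≤ 1 := by
      have h3 := fp_int v ((n : ℤ) : E) (isIntegral_intCast (n : ℤ))
      exact_mod_cast h3
    have h4 : v (n : E) * v a ≤ 1 := by
      rw [← map_mul, ← nsmul_eq_mul]
      exact fp_int v _ hna
    have h5 : v (n : E) * max 1 (v a) ≤ 1 := by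
      rw [mul_max_of_nonneg _ _ (apply_nonneg v _), mul_one]
      exact max_le h2 h4
    calc v (n : E) ^ K * v y ≤ v (n : E) ^ K * max 1 (v a) ^ K :=
          mul_le_mul_of_nonneg_left h1 (pow_nonneg (apply_nonneg v _) K)
      _ = (v (n : E) * max 1 (v a)) ^ K := (mul_pow _ _ _).symm
      _ ≤ 1 := pow_le_one₀ (mul_nonneg (apply_nonneg v _) (zero_le_one.trans (le_max_left _ _))) h5
  exact ⟨⟨(n : E) ^ K * y, hint⟩, rfl⟩

omit [NumberField E] in
private theorem wt_pos (a : E) (K : ℕ) (τ : E →+* ℂ) : 0 < wt a K τ := by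
  unfold wt
  have : (0 : ℝ) < max 1 ‖τ a‖ := zero_lt_one.trans_le (le_max_left _ _)
  positivity

private theorem ph_apply (m K : ℕ) (a y : E) (τ : E →+* ℂ) :
    ph m a K y τ = τ y * ((wt a K τ / Real.sqrt m : ℝ) : ℂ) := rfl

theorem lat_ph (m K : ℕ) (hm : 1 ≤ m) (a : E) : Lat (ph m a K) (LK a K) := by
  refine ⟨lk_fg a K, fun y => ?_, fun r z hz => ?_⟩
  · obtain ⟨n, hn, hny⟩ := ex_mult y
    exact ⟨n, hn, lk_of_int a K _ hny⟩
  · rw [Fintype.linearIndependent_iff]
    intro c hc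
    refine Fintype.linearIndependent_iff.1 (emb_ind z hz) c ?_
    funext τ
    have h1 := congrArg (fun f : EuclideanSpace ℂ (E →+* ℂ) => f τ) hc
    have hw : ((wt a K τ / Real.sqrt m : ℝ) : ℂ) ≠ 0 := by
      have hm' : (0 : ℝ) < m := by exact_mod_cast hm
      have hpos : 0 < wt a K τ / Real.sqrt m := div_pos (wt_pos a K τ) (Real.sqrt_pos.2 hm')
      exact Complex.ofReal_ne_zero.2 hpos.ne'
    have h2 : (∑ i, c i * τ (z i)) * ((wt a K τ / Real.sqrt m : ℝ) : ℂ) = 0 := by
      rw [Finset.sum_mul]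
      simp only [WithLp.ofLp_sum, Finset.sum_apply, PiLp.smul_apply, ph_apply, smul_eq_mul,
        PiLp.zero_apply] at h1
      rw [← h1]
      exact Finset.sum_congr rfl fun i _ => mul_assoc _ _ _
    rw [Finset.sum_apply]
    exact (mul_eq_zero.1 h2).resolve_right hw

theorem mulx {b m d : ℕ} {ι : ℝ} {x : E} (hx : Rd b m d ι x) (a : E) (K : ℕ) :
    ∃ T : EuclideanSpace ℂ (E →+* ℂ) →ₗ[ℂ] EuclideanSpace ℂ (E →+* ℂ),
      (∀ h, ‖T h‖ ≤ rho b m * ‖h‖) ∧ ∀ y, T (ph m a K y) = ph m a K (x * y) := by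
  refine ⟨{ toFun := fun h => WithLp.toLp 2 fun τ => τ x * h τ
            map_add' := fun h h' => by
              ext τ
              simp [mul_add]
            map_smul' := fun c h => by
              ext τ
              simp [mul_left_comm] }, fun h => ?_, fun y => ?_⟩
  · have hρ : 0 ≤ rho b m := Real.rpow_nonneg (Nat.cast_nonneg b) _
    refine le_of_sq_le_sq ?_ (mul_nonneg hρ (norm_nonneg _))
    rw [mul_pow, EuclideanSpace.norm_sq_eq, EuclideanSpace.norm_sq_eq, Finset.mul_sum]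
    refine Finset.sum_le_sum fun τ _ => ?_
    show ‖τ x * h τ‖ ^ 2 ≤ _
    rw [norm_mul, norm_emb hx, mul_pow]
  · ext τ
    show τ x * ph m a K y τ = ph m a K (x * y) τ
    rw [ph_apply, ph_apply, map_mul, mul_assoc]

end Pool.Agent.H36.LE
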