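import Pool.Agent.H36.LE.Defs

/-!
# THEOREM L (MP_187c26_nt), chapter L: bases of `Λ ∩ U`

`Λ` is a finitely generated subgroup of a finite dimensional `ℚ`-space `E` such that every `y ∈ E` has a multiple in `Λ`; `U ≤ U'` subspaces.
PROOFS. `N := Λ ⊓ U.restrictScalars ℤ`, `M := Λ ⊓ U'.restrictScalars ℤ` are finitely generated (`ℤ` noetherian), torsion free (subgroups of a `ℚ`-space), so free. `ℤ`-independent = `ℚ`-independent in `E`
(`LinearIndependent.iff_fractionRing` : `LinearIndependent ℤ b ↔ LinearIndependent ℚ b`).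
`card`: `z` is `ℚ`-independent in `U` and spans `U` over `ℚ`: for `y ∈ U` some `n • y ∈ Λ ∩ U`, so `n • y ∈ span ℤ z`, `y ∈ span ℚ z`. So `z` is a `ℚ`-basis of `U`.
`exists_ext`: `M / N` (as the quotient of `M` by the comap of `N`) is torsion free: `n • y ∈ U`, `n ≠ 0` implies `y ∈ U` (`U` is a `ℚ`-subspace); finitely generated torsion free over `ℤ`, so free
(`Module.free_of_finite_type_torsion_free'` or its new name). Lift a basis of `M / N` to `u : Fin r → E`, `u i ∈ M`. Then `(z, u)` is `ℤ`-independent (`LinearIndependent.sum_elim_of_quotient` or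
`Submodule.linearIndependent...`) and generates `M` (for `y ∈ M` subtract the combination of the `u` with the same class; the rest is in `N = span ℤ z`). Its cardinality is `dim U'` by the argument of `card`, so
`r = dim U' - dim U` (reindex to `Fin (dim U' - dim U)`).
`exists_zb`: `exists_ext` with `U = ⊥` (empty family) and reindexing; or a `ℤ`-basis of `N`.
`exists_matrix`: `y i ∈ span ℤ (range z)` gives integers `A i j` (`Submodule.mem_span_range_iff_exists_fun`); if `det A = 0` some `v ≠ 0` in `ℚ^κ` has `v A = 0` (`Matrix.exists_vecMul_eq_zero_iff` over `ℚ`),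
so `∑ v_i y_i = 0`, contradiction.
-/

set_option autoImplicit false

open Polynomial NumberField IntermediateField

namespace Pool.Agent.H36.LE

variable {H : Type} [NormedAddCommGroup H] [InnerProductSpace ℂ H] {E : Type} [AddCommGroup E]
  [Module ℚ E] [Module.Finite ℚ E] {φ : E →+ H} {Λ : Submodule ℤ E} {U U' : Submodule ℚ E}
  {κ : Type} [Fintype κ]

omit [Module.Finite ℚ E] [Fintype κ] in
private theorem span_zq {z : κ → E} {y : E} (hy : y ∈ Submodule.span ℤ (Set.range z)) :
    y ∈ Submodule.span ℚ (Set.range z) := by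
  induction hy using Submodule.span_induction with
  | mem x hx => exact Submodule.subset_span hx
  | zero => exact Submodule.zero_mem _
  | add x y _ _ hx hy => exact Submodule.add_mem _ hx hy
  | smul n x _ hx =>
    have h1 : n • x = (n : ℚ) • x := (Int.cast_smul_eq_zsmul ℚ n x).symm
    rw [h1]
    exact Submodule.smul_mem _ _ hx

omit [Module.Finite ℚ E] [Fintype κ] in
private theorem span_eq (h : Lat φ Λ) {z : κ → E} (hz : IsZB Λ U z) : Submodule.span ℚ (Set.range z) = U := by
  refine le_antisymm (Submodule.span_le.2 ?_) ?_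
  · rintro _ ⟨i, rfl⟩
    exact hz.memU i
  · intro y hy
    obtain ⟨n, hn, hny⟩ := h.full y
    have h1 : n • y ∈ U := by
      have h2 : n • y = (n : ℚ) • y := (Nat.cast_smul_eq_nsmul ℚ n y).symm
      rw [h2]
      exact Submodule.smul_mem _ _ hy
    have h3 := span_zq (hz.gen _ hny h1)
    have h4 : y = (n : ℚ)⁻¹ • (n • y) := by
      have h2 : n • y = (n : ℚ) • y := (Nat.cast_smul_eq_nsmul ℚ n y).symm
      rw [h2, smul_smul, inv_mul_cancel₀ (Nat.cast_ne_zero.2 hn), one_smul]
    rw [h4]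
    exact Submodule.smul_mem _ _ h3

theorem IsZB.card_eq (h : Lat φ Λ) {z : κ → E} (hz : IsZB Λ U z) :
    Fintype.card κ = Module.finrank ℚ U := by
  rw [← span_eq h hz, finrank_span_eq_card hz.li]

omit [Module.Finite ℚ E] [Fintype κ] in
private theorem reindex {κ' : Type} [Fintype κ'] (e : κ' ≃ κ) {z : κ → E} (hz : IsZB Λ U z) :
    IsZB Λ U (fun i => z (e i)) := by
  refine ⟨hz.li.comp _ e.injective, fun i => hz.memL _, fun i => hz.memU _, fun y hy hyU => ?_⟩
  have h1 : Set.range (fun i => z (e i)) = Set.range z := e.surjective.range_comp z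
  rw [h1]
  exact hz.gen y hy hyU

theorem Lat.exists_ext (h : Lat φ Λ) (hU : U ≤ U') {z : κ → E} (hz : IsZB Λ U z) :
    ∃ u : Fin (Module.finrank ℚ U' - Module.finrank ℚ U) → E, IsZB Λ U' (Sum.elim z u) := by
  have hN : IsNoetherian ℤ Λ := isNoetherian_of_fg_of_noetherian Λ h.fg
  obtain ⟨M, hM⟩ : ∃ M : Submodule ℤ E, M = Λ ⊓ U'.restrictScalars ℤ := ⟨_, rfl⟩
  have hMfg : M.FG := by
    have h1 : M = (M.comap Λ.subtype).map Λ.subtype := by
      rw [Submodule.map_comap_subtype, inf_eq_right.2]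
      rw [hM]
      exact inf_le_left
    rw [h1]
    exact (IsNoetherian.noetherian (M.comap Λ.subtype)).map _
  obtain ⟨π, hπ⟩ : ∃ π : E →ₗ[ℤ] E ⧸ U, π = U.mkQ.restrictScalars ℤ := ⟨_, rfl⟩
  have hπ1 : ∀ y, π y = U.mkQ y := fun y => by rw [hπ]; rfl
  obtain ⟨L, hL⟩ : ∃ L : Submodule ℤ (E ⧸ U), L = M.map π := ⟨_, rfl⟩
  have hLfg : L.FG := by
    rw [hL]
    exact hMfg.map _
  have hLfin : Module.Finite ℤ L := Module.Finite.iff_fg.2 hLfg
  have hadd : IsAddTorsionFree (E ⧸ U) := IsAddTorsionFree.of_module_rat _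
  have hLtf : Module.IsTorsionFree ℤ (E ⧸ U) := inferInstance
  have hLfree : Module.Free ℤ L := inferInstance
  obtain ⟨b⟩ : Nonempty (Module.Basis (Module.Free.ChooseBasisIndex ℤ L) ℤ L) := ⟨Module.Free.chooseBasis ℤ L⟩
  have hb : ∀ i, ∃ u ∈ M, U.mkQ u = (b i : E ⧸ U) := by
    intro i
    have h1 : (b i : E ⧸ U) ∈ M.map π := by
      rw [← hL]
      exact (b i).2
    obtain ⟨u, hu, hue⟩ := h1
    exact ⟨u, hu, by rw [← hπ1]; exact hue⟩
  choose u0 hu0 hu1 using hb
  have hli : LinearIndependent ℚ (fun i => U.mkQ (u0 i)) := by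
    rw [← LinearIndependent.iff_fractionRing ℤ ℚ]
    have h1 : (fun i => U.mkQ (u0 i)) = fun i => (L.subtype (b i)) := by
      funext i
      exact hu1 i
    rw [h1]
    exact b.linearIndependent.map' L.subtype (Submodule.ker_subtype L)
  have hz0 : LinearIndependent ℚ (fun i => (⟨z i, hz.memU i⟩ : U)) := by
    refine LinearIndependent.of_comp U.subtype ?_
    exact hz.li
  have key : IsZB Λ U' (Sum.elim z u0) := by
    refine ⟨?_, ?_, ?_, ?_⟩
    · exact LinearIndependent.sumElim_of_quotient hz0 u0 hli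
    · rintro (i | i)
      · exact hz.memL i
      · have h1 := hu0 i
        rw [hM] at h1
        exact h1.1
    · rintro (i | i)
      · exact hU (hz.memU i)
      · have h1 := hu0 i
        rw [hM] at h1
        exact h1.2
    · intro y hy hyU
      have hyM : y ∈ M := by
        rw [hM]
        exact ⟨hy, hyU⟩
      have hyL : U.mkQ y ∈ L := by
        rw [hL, ← hπ1]
        exact Submodule.mem_map_of_mem hyM
      have h1 := b.sum_repr ⟨U.mkQ y, hyL⟩
      have h2 : ∑ i, (b.repr ⟨U.mkQ y, hyL⟩ i) • (b i : E ⧸ U) = U.mkQ y := by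
        have h3 := congrArg L.subtype h1
        rw [map_sum] at h3
        exact h3
      have h3 : y - ∑ i, (b.repr ⟨U.mkQ y, hyL⟩ i) • u0 i ∈ U := by
        refine (Submodule.Quotient.mk_eq_zero U).1 ?_
        change U.mkQ (y - ∑ i, (b.repr ⟨U.mkQ y, hyL⟩ i) • u0 i) = 0
        have h4 : U.mkQ (∑ i, (b.repr ⟨U.mkQ y, hyL⟩ i) • u0 i) = U.mkQ y := by
          rw [map_sum]
          refine Eq.trans (Finset.sum_congr rfl fun i _ => ?_) h2
          rw [map_zsmul, hu1]
        rw [map_sub, h4, sub_self]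
      have h4 : y - ∑ i, (b.repr ⟨U.mkQ y, hyL⟩ i) • u0 i ∈ Λ := by
        refine Λ.sub_mem hy (Λ.sum_mem fun i _ => Λ.smul_mem _ ?_)
        have h5 := hu0 i
        rw [hM] at h5
        exact h5.1
      have h5 := hz.gen _ h4 h3
      have h6 : y = (y - ∑ i, (b.repr ⟨U.mkQ y, hyL⟩ i) • u0 i) + ∑ i, (b.repr ⟨U.mkQ y, hyL⟩ i) • u0 i := by
        rw [sub_add_cancel]
      rw [h6]
      refine Submodule.add_mem _ ?_ (Submodule.sum_mem _ fun i _ => Submodule.smul_mem _ _ ?_)
      · refine Submodule.span_mono ?_ h5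
        rintro _ ⟨i, rfl⟩
        exact ⟨Sum.inl i, rfl⟩
      · exact Submodule.subset_span ⟨Sum.inr i, rfl⟩
  have hcard := key.card_eq h
  rw [Fintype.card_sum, hz.card_eq h] at hcard
  have e : Fin (Module.finrank ℚ U' - Module.finrank ℚ U) ≃ Module.Free.ChooseBasisIndex ℤ L :=
    Fintype.equivOfCardEq (by rw [Fintype.card_fin]; omega)
  refine ⟨fun i => u0 (e i), ?_⟩
  have h1 := reindex (Equiv.sumCongr (Equiv.refl κ) e) key
  have h2 : (fun i => Sum.elim z u0 ((Equiv.sumCongr (Equiv.refl κ) e) i)) = Sum.elim z (fun i => u0 (e i)) := by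
    funext i
    rcases i with i | i
    · rfl
    · rfl
  rw [h2] at h1
  exact h1

theorem Lat.exists_zb (h : Lat φ Λ) (U : Submodule ℚ E) :
    ∃ z : Fin (Module.finrank ℚ U) → E, IsZB Λ U z := by
  have h0 : IsZB Λ (⊥ : Submodule ℚ E) (fun i : Fin 0 => (i.elim0 : E)) := by
    refine ⟨linearIndependent_empty_type, fun i => i.elim0, fun i => i.elim0, fun y _ hy => ?_⟩
    rw [(Submodule.mem_bot ℚ).1 hy]
    exact Submodule.zero_mem _
  obtain ⟨u, hu⟩ := h.exists_ext (bot_le : ⊥ ≤ U) h0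
  have h1 : Module.finrank ℚ (⊥ : Submodule ℚ E) = 0 := finrank_bot ℚ E
  have e : Fin (Module.finrank ℚ U) ≃ Fin 0 ⊕ Fin (Module.finrank ℚ U - Module.finrank ℚ (⊥ : Submodule ℚ E)) :=
    Fintype.equivOfCardEq (by
      rw [Fintype.card_sum, Fintype.card_fin, Fintype.card_fin, Fintype.card_fin, h1]
      omega)
  exact ⟨_, reindex e hu⟩

theorem IsZB.exists_matrix [DecidableEq κ] {z : κ → E} (hz : IsZB Λ U z) (y : κ → E)
    (hy : LinearIndependent ℚ y) (hy2 : ∀ i, y i ∈ Λ ∧ y i ∈ U) :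
    ∃ A : Matrix κ κ ℤ, A.det ≠ 0 ∧ ∀ i, y i = ∑ j, A i j • z j := by
  have h1 : ∀ i, ∃ c : κ → ℤ, ∑ j, c j • z j = y i := fun i =>
    (Submodule.mem_span_range_iff_exists_fun ℤ).1 (hz.gen _ (hy2 i).1 (hy2 i).2)
  choose A hA using h1
  refine ⟨Matrix.of A, ?_, fun i => (hA i).symm⟩
  intro hdet
  obtain ⟨B, hB⟩ : ∃ B : Matrix κ κ ℚ, B = (Matrix.of A).map (Int.castRingHom ℚ) := ⟨_, rfl⟩
  have hBd : B.det = 0 := by
    have h2 := (Int.castRingHom ℚ).map_det (Matrix.of A)
    rw [hdet, map_zero] at h2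
    rw [hB]
    exact h2.symm
  obtain ⟨v, hv, hvB⟩ := Matrix.exists_vecMul_eq_zero_iff.2 hBd
  apply hv
  have h3 : ∑ i, v i • y i = 0 := by
    have h4 : ∀ i, v i • y i = ∑ j, (v i * B i j) • z j := by
      intro i
      rw [← hA i, Finset.smul_sum]
      refine Finset.sum_congr rfl fun j _ => ?_
      rw [hB, Matrix.map_apply, Matrix.of_apply, ← smul_smul]
      congr 1
      exact (Int.cast_smul_eq_zsmul ℚ _ _).symm
    simp only [h4]
    rw [Finset.sum_comm]
    refine Finset.sum_eq_zero fun j _ => ?_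
    rw [← Finset.sum_smul]
    have h5 := congrFun hvB j
    have h6 : ∑ i, v i * B i j = 0 := h5
    rw [h6, zero_smul]
  have h4 := (Fintype.linearIndependent_iff.1 hy) v h3
  funext i
  exact h4 i

end Pool.Agent.H36.LE
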