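import Pool.Agent.H36.LE.GdB
import Pool.Agent.H36.LE.Zb

/-!
# THEOREM L (MP_187c26_nt), chapter L: covolumes

Imports `GdA`, `GdB`, `Zb` (may be sorried). `vl φ Λ U` = infimum of `gd (φ ∘ z)` over all independent `z : Fin (dim U) → E` in `Λ ∩ U`.
PROOFS. `vl_eq`: the infimum is attained at every `ℤ`-basis `z`: another family `y` (same index type, after reindexing with `card_eq`, `gd_reindex`) is `y_i = ∑ A_ij z_j` with `A` integral, `det A ≠ 0`
(`exists_matrix`), `φ y_i = ∑ A_ij • φ z_j`, so `gd (φ y) = |det A| ^ 2 gd (φ z) ≥ gd (φ z)` (`gd_comb`, `|det A| ≥ 1`). (`ciInf_le` with bound below `0`, `le_ciInf`; the index type is not empty by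
`exists_zb`.) `vl_le`: `ciInf_le` after reindexing. `vl_pos`: `vl_eq` at a basis, `gd_pos_iff`, `Lat.ind`. `vl_bot`: empty family, `Matrix.det_isEmpty`.
`vl_sub`: `z` a basis of `Λ ∩ (U ⊓ U')`, extend it by `u` to a basis of `Λ ∩ U` and by `w` to a basis of `Λ ∩ U'` (`exists_ext`). The family `(z, u, w)` lies in `Λ ∩ (U ⊔ U')`, it has `dim (U ⊔ U')` elements
(`Submodule.finrank_sup_add_finrank_inf_eq`) and it spans `U ⊔ U'` over `ℚ`, so it is independent (`linearIndependent_of_top_le_span_of_card_eq_finrank`, or directly). So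
`vl (U ⊔ U') ≤ gd (φ (z, u, w))`, and `gd_fischer`. `vl_map`: `z` a basis of `Λ ∩ U`; `θ z_i ∈ Λ ∩ θ U` independent, `dim θ U = dim U`; `gd (φ (θ z)) = gd (T (φ z)) ≤ ρ ^ (2 dim U) gd (φ z)` (`gd_contr0`).
`vl_filt`: `z` a basis of `Λ ∩ V'`, `(z, u)` of `Λ ∩ V`. The classes of the `u_i` modulo `V'` are independent (`(z, u)` is independent and `z` spans `V'` over `ℚ`), so `X ≤ gd (T φ u)`;
`gd (φ z) * gd (T φ u) ≤ B ^ (2 (dim V - dim V')) gd (φ z, φ u)` (`gd_contr`), `vl V' = gd (φ z)`, `vl V = gd (φ (z, u))` (`Sum.elim` and composition: `Sum.comp_elim`).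
-/

set_option autoImplicit false

open Polynomial NumberField IntermediateField

namespace Pool.Agent.H36.LE

variable {H H' : Type} [NormedAddCommGroup H] [InnerProductSpace ℂ H] [NormedAddCommGroup H']
  [InnerProductSpace ℂ H'] {E : Type} [AddCommGroup E]
  [Module ℚ E] [Module.Finite ℚ E] {φ : E →+ H} {Λ : Submodule ℤ E} {U : Submodule ℚ E}
  {κ : Type} [Fintype κ] [DecidableEq κ]

omit [DecidableEq κ] in
private theorem zspan (h : Lat φ Λ) {z : κ → E} (hz : IsZB Λ U z) : Submodule.span ℚ (Set.range z) = U := by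
  have h1 : Submodule.span ℚ (Set.range z) ≤ U := by
    rw [Submodule.span_le]
    rintro _ ⟨i, rfl⟩
    exact hz.memU i
  refine Submodule.eq_of_le_of_finrank_le h1 ?_
  rw [finrank_span_eq_card hz.li, hz.card_eq h]

omit [Module.Finite ℚ E] [DecidableEq κ] in
private theorem phi_comb (z : κ → E) (c : κ → ℤ) : φ (∑ j, c j • z j) = ∑ j, ((c j : ℤ) : ℂ) • φ (z j) := by
  rw [map_sum]
  refine Finset.sum_congr rfl fun j _ => ?_
  rw [map_zsmul]
  exact (Int.cast_smul_eq_zsmul ℂ _ _).symm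

private theorem bdd (φ : E →+ H) (Λ : Submodule ℤ E) (U : Submodule ℚ E) :
    BddBelow (Set.range fun z : {z : Fin (Module.finrank ℚ U) → E // LinearIndependent ℚ z ∧ ∀ i, z i ∈ Λ ∧ z i ∈ U} =>
      gd (fun i => φ (z.1 i))) := by
  refine ⟨0, ?_⟩
  rintro _ ⟨z, rfl⟩
  exact gd_nonneg _

theorem Lat.vl_le (h : Lat φ Λ) (z : κ → E) (hc : Fintype.card κ = Module.finrank ℚ U)
    (hz : LinearIndependent ℚ z) (hz2 : ∀ i, z i ∈ Λ ∧ z i ∈ U) :
    vl φ Λ U ≤ gd (fun i => φ (z i)) := by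
  have e : Fin (Module.finrank ℚ U) ≃ κ := Fintype.equivOfCardEq (by rw [Fintype.card_fin, hc])
  have h1 := ciInf_le (bdd φ Λ U) ⟨fun i => z (e i), hz.comp _ e.injective, fun i => hz2 _⟩
  refine h1.trans (le_of_eq ?_)
  exact gd_reindex e (fun i => φ (z i))

theorem Lat.vl_eq (h : Lat φ Λ) {z : κ → E} (hz : IsZB Λ U z) :
    vl φ Λ U = gd (fun i => φ (z i)) := by
  have hc := hz.card_eq h
  refine le_antisymm (h.vl_le z hc hz.li fun i => ⟨hz.memL i, hz.memU i⟩) ?_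
  have e : Fin (Module.finrank ℚ U) ≃ κ := Fintype.equivOfCardEq (by rw [Fintype.card_fin, hc])
  have hne : Nonempty {z : Fin (Module.finrank ℚ U) → E // LinearIndependent ℚ z ∧ ∀ i, z i ∈ Λ ∧ z i ∈ U} :=
    ⟨⟨fun i => z (e i), hz.li.comp _ e.injective, fun i => ⟨hz.memL _, hz.memU _⟩⟩⟩
  refine le_ciInf fun y => ?_
  obtain ⟨y, hy1, hy2⟩ := y
  obtain ⟨A, hA, hAy⟩ := hz.exists_matrix (fun i => y (e.symm i)) (hy1.comp _ e.symm.injective) fun i => hy2 _
  have h1 : gd (fun i => φ (y i)) = gd (fun i => φ (y (e.symm i))) :=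
    (gd_reindex e.symm (fun i => φ (y i))).symm
  have h2 : (fun i => φ (y (e.symm i))) = fun i => ∑ j, (A.map (Int.castRingHom ℂ)) i j • φ (z j) := by
    funext i
    rw [hAy i, phi_comb]
    rfl
  rw [h1, h2, gd_comb]
  have h3 : (A.map (Int.castRingHom ℂ)).det = ((A.det : ℤ) : ℂ) := by
    have h4 := (Int.castRingHom ℂ).map_det A
    exact h4.symm
  have h5 : (1 : ℝ) ≤ ‖(A.map (Int.castRingHom ℂ)).det‖ := by
    rw [h3, Complex.norm_intCast]
    exact_mod_cast Int.one_le_abs hA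
  have h6 := gd_nonneg (fun i => φ (z i))
  nlinarith [mul_nonneg h6 (mul_nonneg (sub_nonneg.2 h5) (by linarith : (0:ℝ) ≤ ‖(A.map (Int.castRingHom ℂ)).det‖ + 1))]

theorem Lat.vl_pos (h : Lat φ Λ) (U : Submodule ℚ E) : 0 < vl φ Λ U := by
  obtain ⟨z, hz⟩ := h.exists_zb U
  rw [h.vl_eq hz, gd_pos_iff]
  exact h.ind _ z hz.li

theorem Lat.vl_bot (h : Lat φ Λ) : vl φ Λ ⊥ = 1 := by
  have h0 : IsZB Λ (⊥ : Submodule ℚ E) (fun i : Fin 0 => (i.elim0 : E)) := by
    refine ⟨linearIndependent_empty_type, fun i => i.elim0, fun i => i.elim0, fun y _ hy => ?_⟩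
    rw [(Submodule.mem_bot ℚ).1 hy]
    exact Submodule.zero_mem _
  rw [h.vl_eq h0]
  unfold gd
  rw [Matrix.det_isEmpty, Complex.one_re]

/-- `log vl` is submodular. -/
theorem Lat.vl_sub (h : Lat φ Λ) (U U' : Submodule ℚ E) :
    vl φ Λ (U ⊔ U') * vl φ Λ (U ⊓ U') ≤ vl φ Λ U * vl φ Λ U' := by
  obtain ⟨z, hz⟩ := h.exists_zb (U ⊓ U')
  obtain ⟨u, hu⟩ := h.exists_ext (inf_le_left : U ⊓ U' ≤ U) hz
  obtain ⟨w, hw⟩ := h.exists_ext (inf_le_right : U ⊓ U' ≤ U') hz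
  have hd := Submodule.finrank_sup_add_finrank_inf_eq U U'
  have h1 : Module.finrank ℚ (U ⊓ U' : Submodule ℚ E) ≤ Module.finrank ℚ U := Submodule.finrank_mono inf_le_left
  have h2 : Module.finrank ℚ (U ⊓ U' : Submodule ℚ E) ≤ Module.finrank ℚ U' := Submodule.finrank_mono inf_le_right
  have hcard : Fintype.card (Fin (Module.finrank ℚ (U ⊓ U' : Submodule ℚ E)) ⊕
      (Fin (Module.finrank ℚ U - Module.finrank ℚ (U ⊓ U' : Submodule ℚ E)) ⊕
      Fin (Module.finrank ℚ U' - Module.finrank ℚ (U ⊓ U' : Submodule ℚ E)))) =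
      Module.finrank ℚ (U ⊔ U' : Submodule ℚ E) := by
    rw [Fintype.card_sum, Fintype.card_sum, Fintype.card_fin, Fintype.card_fin, Fintype.card_fin]
    omega
  have hsp : Submodule.span ℚ (Set.range (Sum.elim z (Sum.elim u w))) = U ⊔ U' := by
    refine le_antisymm ?_ ?_
    · rw [Submodule.span_le]
      rintro _ ⟨i | i | i, rfl⟩
      · exact Submodule.mem_sup_left (hz.memU i).1
      · exact Submodule.mem_sup_left (hu.memU (Sum.inr i))
      · exact Submodule.mem_sup_right (hw.memU (Sum.inr i))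
    · refine sup_le ?_ ?_
      · refine (zspan h hu).ge.trans (Submodule.span_mono ?_)
        rintro _ ⟨i | i, rfl⟩
        · exact ⟨Sum.inl i, rfl⟩
        · exact ⟨Sum.inr (Sum.inl i), rfl⟩
      · refine (zspan h hw).ge.trans (Submodule.span_mono ?_)
        rintro _ ⟨i | i, rfl⟩
        · exact ⟨Sum.inl i, rfl⟩
        · exact ⟨Sum.inr (Sum.inr i), rfl⟩
  have hli : LinearIndependent ℚ (Sum.elim z (Sum.elim u w)) := by
    rw [linearIndependent_iff_card_eq_finrank_span, Set.finrank, hsp]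
    exact hcard
  have h3 := h.vl_le (U := U ⊔ U') (Sum.elim z (Sum.elim u w)) hcard hli (by
    rintro (i | i | i)
    · exact ⟨hz.memL i, Submodule.mem_sup_left (hz.memU i).1⟩
    · exact ⟨hu.memL (Sum.inr i), Submodule.mem_sup_left (hu.memU (Sum.inr i))⟩
    · exact ⟨hw.memL (Sum.inr i), Submodule.mem_sup_right (hw.memU (Sum.inr i))⟩)
  have e1 : (fun i => φ (Sum.elim z (Sum.elim u w) i)) =
      Sum.elim (fun i => φ (z i)) (Sum.elim (fun i => φ (u i)) (fun i => φ (w i))) := by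
    funext i
    rcases i with i | i | i <;> rfl
  have e2 : (fun i => φ (Sum.elim z u i)) = Sum.elim (fun i => φ (z i)) (fun i => φ (u i)) := by
    funext i
    rcases i with i | i <;> rfl
  have e3 : (fun i => φ (Sum.elim z w i)) = Sum.elim (fun i => φ (z i)) (fun i => φ (w i)) := by
    funext i
    rcases i with i | i <;> rfl
  rw [e1] at h3
  rw [h.vl_eq hz, h.vl_eq hu, h.vl_eq hw, e2, e3]
  exact (mul_le_mul_of_nonneg_right h3 (gd_nonneg _)).trans (gd_fischer _ _ _)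

theorem Lat.vl_map (h : Lat φ Λ) (θ : E ≃ₗ[ℚ] E) (T : H →ₗ[ℂ] H) (ρ : ℝ) (hρ : 0 ≤ ρ)
    (hT : ∀ h, ‖T h‖ ≤ ρ * ‖h‖) (hθ : ∀ y ∈ Λ, θ y ∈ Λ) (hc : ∀ y, T (φ y) = φ (θ y))
    (U : Submodule ℚ E) :
    vl φ Λ (U.map (θ : E →ₗ[ℚ] E)) ≤ ρ ^ (2 * Module.finrank ℚ U) * vl φ Λ U := by
  obtain ⟨z, hz⟩ := h.exists_zb U
  have hf : Module.finrank ℚ (U.map (θ : E →ₗ[ℚ] E)) = Module.finrank ℚ U :=
    LinearEquiv.finrank_map_eq θ U
  have h1 := h.vl_le (U := U.map (θ : E →ₗ[ℚ] E)) (fun i => θ (z i)) (by rw [Fintype.card_fin, hf])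
    (hz.li.map' (θ : E →ₗ[ℚ] E) θ.ker) (fun i => ⟨hθ _ (hz.memL i), Submodule.mem_map_of_mem (hz.memU i)⟩)
  refine h1.trans ?_
  rw [h.vl_eq hz]
  have h2 : (fun i => φ (θ (z i))) = fun i => T (φ (z i)) := by
    funext i
    rw [hc]
  rw [h2]
  have h3 := gd_contr0 T ρ hρ hT (fun i => φ (z i))
  rw [Fintype.card_fin] at h3
  exact h3

/-- One step of a filtration: `T ∘ φ` kills `V'`, and is at least `X` on independent families modulo `V'`. -/
theorem Lat.vl_filt (h : Lat φ Λ) (T : H →ₗ[ℂ] H') (B : ℝ) (hB : 0 ≤ B)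
    (hT : ∀ h, ‖T h‖ ≤ B * ‖h‖) {V' V : Submodule ℚ E} (hV : V' ≤ V)
    (h0 : ∀ y ∈ V', T (φ y) = 0) (X : ℝ)
    (hX : ∀ w : Fin (Module.finrank ℚ V - Module.finrank ℚ V') → E, (∀ i, w i ∈ Λ ∧ w i ∈ V) →
      LinearIndependent ℚ (fun i => V'.mkQ (w i)) → X ≤ gd (fun i => T (φ (w i)))) :
    vl φ Λ V' * X ≤
      B ^ (2 * (Module.finrank ℚ V - Module.finrank ℚ V')) * vl φ Λ V := by
  obtain ⟨z, hz⟩ := h.exists_zb V'
  obtain ⟨u, hu⟩ := h.exists_ext hV hz
  have hli : LinearIndependent ℚ (fun i => V'.mkQ (u i)) := by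
    obtain ⟨-, h2, h3⟩ := linearIndependent_sum.1 hu.li
    refine LinearIndependent.map h2 ?_
    rw [Submodule.ker_mkQ]
    have h4 : Submodule.span ℚ (Set.range (Sum.elim z u ∘ Sum.inl)) = V' := by
      have h5 : Sum.elim z u ∘ Sum.inl = z := rfl
      rw [h5]
      exact zspan h hz
    rw [h4] at h3
    exact h3.symm
  have h1 := hX u (fun i => ⟨hu.memL (Sum.inr i), hu.memU (Sum.inr i)⟩) hli
  have h2 := gd_contr T B hB hT (fun i => φ (z i)) (fun i => φ (u i)) (fun i => h0 _ (hz.memU i))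
  rw [Fintype.card_fin] at h2
  have e2 : (fun i => φ (Sum.elim z u i)) = Sum.elim (fun i => φ (z i)) (fun i => φ (u i)) := by
    funext i
    rcases i with i | i <;> rfl
  rw [h.vl_eq hz, h.vl_eq hu, e2]
  exact (mul_le_mul_of_nonneg_left h1 (gd_nonneg _)).trans h2

end Pool.Agent.H36.LE
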