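import Pool.Agent.H36.LE.NmB
import Pool.Agent.H36.LE.NmC
import Pool.Agent.H36.LE.VlA

/-!
# THEOREM L (MP_187c26_nt), chapter N: crude lower bound of the covolumes

Imports may be sorried.
PROOF. `z : Fin (dim U) → E` a basis of `LK ∩ U` (`Lat.exists_zb`, `lat_ph`), `vl = gd (ph ∘ z)` (`vl_eq`). `M`, `t` from `exists_M E E` (algebra `E` over itself) with `det (t_i z_j) ≠ 0`. `v (t_i z_j) ≤ max(1, v(t_i a))^K` by definition of `LK`, so `v (det) ≤ ∏_i max(1, v(t_i a))^K` (`v_det_le`): `gd_ph_ge` with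
`D = 1`, `A = 1`.
-/

set_option autoImplicit false

open Polynomial NumberField IntermediateField

namespace Pool.Agent.H36.LE

theorem crude {E : Type} [Field E] [NumberField E] (m K : ℕ) (hm : 1 ≤ m) (a : E)
    (U : Submodule ℚ E) :
    ((m : ℝ) ^ Module.finrank ℚ U)⁻¹ *
      Real.exp (-(2 * K * Module.finrank ℚ U * absLogHeight₁ a)) ≤
      vl (ph m a K) (LK a K) U := by
  have hL : Lat (ph m a K) (LK a K) := lat_ph m K hm a
  obtain ⟨z, hz⟩ := hL.exists_zb U
  rw [hL.vl_eq hz]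
  obtain ⟨M, _, _, -, hM⟩ := exists_M E E
  obtain ⟨t, ht⟩ := hM _ z hz.li
  have h1 := gd_ph_ge m K hm a z t (1 : M) 1 one_pos (fun σ => by rw [map_one, norm_one]) ht (fun v => by
    rw [map_one, one_mul]
    exact v_det_le v _ _ fun i j => hz.memL j M (t i) v)
  rw [one_pow, one_mul] at h1
  exact h1

end Pool.Agent.H36.LE
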