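import Mathlib

/-!
# THEOREM L (MP_187c26_nt), chapter N: local freeness

`N` is a finitely generated `𝓞 F`-submodule of an `F`-space `E`, of rank `k`, `ℓ` a prime number: some `u : Fin k → E` in `N`, independent over `F`, generates `N` locally at `ℓ`.
PROOF. `S` := the image in `𝓞 F` of the integers prime to `ℓ` (submonoid; `Algebra.algebraMapSubmonoid (𝓞 F) (Ideal.primeCompl (span {ℓ}))` as in `IsDedekindDomain.isPrincipalIdealRing_localization_over_prime`). `A := Localization S` is a principal ideal domain (that theorem, for the prime ideal `(ℓ)` of `ℤ`), a domain with fraction field `F`.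
`N' := LocalizedModule S N` (or the `A`-submodule of `E` spanned by `N`, with `A ⊂ F`: `{n⁻¹ y}`) is a finitely generated torsion free `A`-module, so it is free (`Module.free_of_finite_type_torsion_free'` or its present name) of rank `k = dim_F (F N)`. Multiply the basis vectors by elements of `S` (units of `A`) so that they lie in `N`: `u_j ∈ N`. For
`y ∈ N`: `y = ∑ c_j u_j`, `c_j ∈ A`; with a common denominator `n ∈ S`: `n y = ∑ f_j u_j`, `f_j ∈ 𝓞 F`. Independence over `F`: clear denominators. (Alternative by hand: choose `u : Fin k → N` independent over `F` with `v_ℓ` of the index of `∑ 𝓞 F u_j` in `N` minimal.)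
-/

set_option autoImplicit false

open Polynomial NumberField IntermediateField

namespace Pool.Agent.H36.LE

private theorem lf_aux {O A F E : Type} [CommRing O] [CommRing A] [IsDomain A]
    [IsPrincipalIdealRing A] [Field F] [Field E] [Algebra O A] [Algebra A F] [Algebra F E]
    [Algebra A E] [Algebra O E] [IsScalarTower O A E] [IsScalarTower A F E] (S : Submonoid O)
    [IsLocalization S A] [IsFractionRing A F] (N : Submodule O E) (hN : N.FG) (k : ℕ)
    (hk : Module.finrank F (Submodule.span F (N : Set E)) = k) :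
    ∃ u : Fin k → E, LinearIndependent F u ∧ (∀ j, u j ∈ N) ∧
      ∀ y ∈ N, ∃ (s : S) (f : Fin k → O), (s : O) • y = ∑ j, f j • u j := by
  classical
  obtain ⟨T, hT⟩ := hN
  have hfg : (Submodule.span A (N : Set E)).FG := by
    refine ⟨T, le_antisymm (Submodule.span_mono ?_) (Submodule.span_le.2 ?_)⟩
    · rw [← hT]
      exact Submodule.subset_span
    · intro y hy
      rw [← hT] at hy
      exact Submodule.span_subset_span O A (T : Set E) hy
  have : Module.Finite A (Submodule.span A (N : Set E)) := Module.Finite.iff_fg.2 hfg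
  have htf : ∀ r : A, r ≠ 0 → ∀ x y : E, r • x = r • y → x = y := by
    intro r hr x y h
    rw [algebra_compatible_smul F r x, algebra_compatible_smul F r y] at h
    have hr' : algebraMap A F r ≠ 0 := fun h0 =>
      hr ((IsFractionRing.injective A F) (by rw [h0, map_zero]))
    exact smul_right_injective E hr' h
  have : Module.IsTorsionFree A (Submodule.span A (N : Set E)) := by
    refine ⟨fun r hr x y h => Subtype.ext (htf r hr.ne_zero _ _ ?_)⟩
    exact congrArg Subtype.val h
  have hcl : ∀ y ∈ Submodule.span A (N : Set E), ∃ s : S, (s : O) • y ∈ N := by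
    intro y hy
    induction hy using Submodule.span_induction with
    | mem y hy => exact ⟨1, by rw [OneMemClass.coe_one, one_smul]; exact hy⟩
    | zero => exact ⟨1, by rw [smul_zero]; exact N.zero_mem⟩
    | add y z _ _ hy hz =>
      obtain ⟨s, hs⟩ := hy
      obtain ⟨t, ht⟩ := hz
      refine ⟨s * t, ?_⟩
      rw [smul_add, Submonoid.coe_mul]
      refine N.add_mem ?_ ?_
      · rw [mul_comm, mul_smul]
        exact N.smul_mem _ hs
      · rw [mul_smul]
        exact N.smul_mem _ ht
    | smul a y _ hy =>
      obtain ⟨s, hs⟩ := hy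
      obtain ⟨⟨f, t⟩, hft⟩ := IsLocalization.surj S a
      refine ⟨t * s, ?_⟩
      have h1 : ((t * s : S) : O) • (a • y) = f • ((s : O) • y) := by
        have h2 : algebraMap O A (t : O) * a = algebraMap O A f := by
          rw [mul_comm]
          exact hft
        rw [Submonoid.coe_mul, algebra_compatible_smul A ((t : O) * (s : O)),
          algebra_compatible_smul A f, algebra_compatible_smul A (s : O), smul_smul, smul_smul,
          ← h2, map_mul]
        congr 1
        ring
      rw [h1]
      exact N.smul_mem _ hs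
  obtain ⟨k', b⟩ := Module.basisOfFiniteTypeTorsionFree' (R := A)
    (M := Submodule.span A (N : Set E))
  have hc : ∀ j, ∃ s : S, (s : O) • ((b j : Submodule.span A (N : Set E)) : E) ∈ N := fun j =>
    hcl _ (b j).2
  choose n hn using hc
  have hw : ∀ j, ∃ w : Aˣ, (w : A) = algebraMap O A (n j : O) := fun j =>
    ⟨(IsLocalization.map_units A (n j)).unit, rfl⟩
  choose w hw using hw
  have hbu : ∀ j, (((b.unitsSMul w) j : Submodule.span A (N : Set E)) : E) =
      (n j : O) • ((b j : Submodule.span A (N : Set E)) : E) := by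
    intro j
    rw [Module.Basis.unitsSMul_apply, Units.smul_def, hw, Submodule.coe_smul, algebraMap_smul]
  have hliA : LinearIndependent A
      (fun j => (((b.unitsSMul w) j : Submodule.span A (N : Set E)) : E)) :=
    (b.unitsSMul w).linearIndependent.map' (Submodule.span A (N : Set E)).subtype
      (Submodule.ker_subtype _)
  have hliF : LinearIndependent F
      (fun j => (((b.unitsSMul w) j : Submodule.span A (N : Set E)) : E)) :=
    (LinearIndependent.iff_fractionRing A F).1 hliA
  have hrep : ∀ y ∈ N, ∃ c : Fin k' → A,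
      y = ∑ j, c j • (((b.unitsSMul w) j : Submodule.span A (N : Set E)) : E) := by
    intro y hy
    refine ⟨fun j => (b.unitsSMul w).repr ⟨y, Submodule.subset_span hy⟩ j, ?_⟩
    have h1 := congrArg Subtype.val
      ((b.unitsSMul w).sum_repr ⟨y, Submodule.subset_span hy⟩)
    rw [Submodule.coe_sum] at h1
    exact h1.symm
  have hkk : k' = k := by
    have h1 := finrank_span_eq_card hliF
    rw [Fintype.card_fin] at h1
    have h2 : Submodule.span F (Set.range
        (fun j => (((b.unitsSMul w) j : Submodule.span A (N : Set E)) : E))) =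
        Submodule.span F (N : Set E) := by
      refine le_antisymm (Submodule.span_le.2 ?_) (Submodule.span_le.2 ?_)
      · rintro _ ⟨j, rfl⟩
        exact Submodule.span_subset_span A F (N : Set E) ((b.unitsSMul w) j).2
      · intro y hy
        obtain ⟨c, hc⟩ := hrep y hy
        rw [hc]
        refine Submodule.sum_mem _ fun j _ => ?_
        rw [algebra_compatible_smul F (c j)]
        exact Submodule.smul_mem _ _ (Submodule.subset_span ⟨j, rfl⟩)
    rw [← h1, ← hk, h2]
  subst hkk
  refine ⟨_, hliF, fun j => ?_, fun y hy => ?_⟩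
  · rw [hbu]
    exact hn j
  · obtain ⟨c, hc⟩ := hrep y hy
    obtain ⟨s, hs⟩ := IsLocalization.exist_integer_multiples_of_finite S c
    choose f hf using hs
    refine ⟨s, f, ?_⟩
    rw [hc, Finset.smul_sum]
    refine Finset.sum_congr rfl fun j _ => ?_
    rw [← smul_assoc, ← hf j, algebraMap_smul]

theorem loc_free {F E : Type} [Field F] [NumberField F] [Field E] [Algebra F E]
    (N : Submodule (𝓞 F) E) (hN : N.FG) (k : ℕ)
    (hk : Module.finrank F (Submodule.span F (N : Set E)) = k) (ℓ : ℕ) (hℓ : ℓ.Prime) :
    ∃ u : Fin k → E, LinearIndependent F u ∧ (∀ j, u j ∈ N) ∧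
      ∀ y ∈ N, ∃ (n : ℤ) (f : Fin k → 𝓞 F), ¬ (ℓ : ℤ) ∣ n ∧ n • y = ∑ j, f j • u j := by
  classical
  obtain ⟨P, hP⟩ : ∃ P : Ideal ℤ, P = Ideal.span {(ℓ : ℤ)} := ⟨_, rfl⟩
  have hℓ0 : (ℓ : ℤ) ≠ 0 := by exact_mod_cast hℓ.ne_zero
  have hPp : P.IsPrime := by
    rw [hP]
    exact (Ideal.span_singleton_prime hℓ0).2 (Nat.prime_iff_prime_int.1 hℓ)
  have hP0 : P ≠ ⊥ := by
    rw [hP, Ne, Ideal.span_singleton_eq_bot]
    exact hℓ0
  have hS : Algebra.algebraMapSubmonoid (𝓞 F) P.primeCompl ≤ nonZeroDivisors (𝓞 F) :=
    map_le_nonZeroDivisors_of_injective _ (FaithfulSMul.algebraMap_injective ℤ (𝓞 F))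
      P.primeCompl_le_nonZeroDivisors
  have hded : IsDedekindDomain (Localization.subalgebra.ofField F _ hS) :=
    IsLocalization.isDedekindDomain (𝓞 F) hS _
  have hpid : IsPrincipalIdealRing (Localization.subalgebra.ofField F _ hS) :=
    IsDedekindDomain.isPrincipalIdealRing_localization_over_prime (𝓞 F) P hP0
  obtain ⟨u, hu, huN, hy⟩ := lf_aux (A := Localization.subalgebra.ofField F _ hS) (F := F)
    (Algebra.algebraMapSubmonoid (𝓞 F) P.primeCompl) N hN k hk
  refine ⟨u, hu, huN, fun y hyN => ?_⟩
  obtain ⟨⟨_, n, hn, rfl⟩, f, hf⟩ := hy y hyN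
  refine ⟨n, f, fun hdvd => hn ?_, ?_⟩
  · rw [hP]
    exact Ideal.mem_span_singleton.2 hdvd
  · rw [← hf]
    exact (algebraMap_smul (𝓞 F) n y).symm

end Pool.Agent.H36.LE
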