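import Pool.Agent.H36.LE.NmB

/-!
# THEOREM L (MP_187c26_nt), chapter N: the local bound with the discriminant

Imports `NmB` (`v_det_le`, may be sorried).
PROOFS. `exists_prime_below`: `v` corresponds to a maximal ideal `𝔓` of `𝓞 M`, `ℓ` the prime number in `𝔓`; for `n : ℤ` prime to `ℓ`: `1 = u n + w ℓ`, `v(ℓ) < 1`, `v(n), v(u), v(w) ≤ 1`, so `v(n) < 1` is impossible (`FinitePlace.add_le`). (`v ≤ 1` on integers: see `LK.smul_mem'` in `Defs`.)
`det_loc`: write `f_(c,j) = ∑_i g_(c,i,j) ω_i` with `g ∈ ℤ`. Put `n_c z_c = ∑_(i,j) g_(c,i,j) ω_i u_j`. Let `Z = (t_s (z_c))_(s,c)`; then `(∏_c n_c) det Z = det (t_s(n_c z_c)) = det (Q) det (g)` up to a bijection `Fin (m k) ≃ Fin m × Fin k` (`finProdFinEquiv`), with `Q_(s,(i,j)) = t_s(ω_i) t_s(u_j)` and `g` an integral matrix,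
`v (det g) ≤ 1`, `v (∏ n_c) = 1`. And `t_s(ω_i) = σ_(s)(ω_i)` where `t_s ∘ algebraMap = σ(e s)` for a unique `e s : Fin m`. So `Q = B * W`, `B_(s,(p,j)) = if p = e s then t_s (u_j) else 0`, `W_((p,j),(i,j')) = if j = j' then σ_p(ω_i) else 0` (`= (σ_p(ω_i)) ⊗ₖ 1`, `Matrix.det_kronecker`): `det W = (det (σ_p(ω_i)))^k`.
`v (det B) ≤ ∏_s B_s` (`v_det_le`, rows `s`, entries `0` or `t_s(u_j)`, `B_s ≥ 0` follows from `hB0`).
-/

set_option autoImplicit false

open Polynomial NumberField IntermediateField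

namespace Pool.Agent.H36.LE

private theorem v_int_le {M : Type} [Field M] [NumberField M] (v : FinitePlace M) (n : ℤ) : v (n : M) ≤ 1 := by
  have h2 := FinitePlace.norm_le_one M v.maximalIdeal (n : 𝓞 M)
  rw [FinitePlace.norm_embedding_eq] at h2
  exact_mod_cast h2

theorem exists_prime_below {M : Type} [Field M] [NumberField M] (v : FinitePlace M) :
    ∃ ℓ : ℕ, ℓ.Prime ∧ ∀ n : ℤ, ¬ (ℓ : ℤ) ∣ n → v (n : M) = 1 := by
  have hP : (v.maximalIdeal.asIdeal).IsPrime := v.maximalIdeal.isPrime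
  have hne : NeZero v.maximalIdeal.asIdeal := ⟨v.maximalIdeal.ne_bot⟩
  refine ⟨Ideal.absNorm (v.maximalIdeal.asIdeal.under ℤ), Nat.absNorm_under_prime _, fun n hn => ?_⟩
  have h1 := (FinitePlace.norm_eq_one_iff_notMem M v.maximalIdeal (n : 𝓞 M)).2 ?_
  · rw [FinitePlace.norm_embedding_eq] at h1
    exact_mod_cast h1
  · intro hmem
    apply hn
    exact Int.cast_mem_ideal_iff.1 hmem

private theorem v_det_int {M : Type} [Field M] [NumberField M] (v : FinitePlace M) {κ : Type} [Fintype κ]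
    [DecidableEq κ] (G : Matrix κ κ ℤ) : v (Matrix.of fun i j => ((G i j : ℤ) : M)).det ≤ 1 := by
  have h1 : (Matrix.of fun i j => ((G i j : ℤ) : M)).det = ((G.det : ℤ) : M) := by
    have h2 := (Int.castRingHom M).map_det G
    rw [eq_intCast] at h2
    rw [h2]
    rfl
  rw [h1]
  exact v_int_le v _

private theorem det_fac {F E M : Type} [Field F] [NumberField F] [Field E] [NumberField E] [Algebra F E]
    [Field M] [NumberField M] (v : FinitePlace M) (m k : ℕ) (σ : Fin m ≃ (F →+* M))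
    (ω : Module.Basis (Fin m) ℤ (𝓞 F)) (u : Fin k → E)
    (t : Fin (m * k) → (E →+* M)) (B : Fin (m * k) → ℝ) (hB0 : ∀ s, 0 ≤ B s)
    (hB : ∀ s j, v (t s (u j)) ≤ B s) (e : Fin (m * k) → Fin m) :
    v (Matrix.of fun (x y : Fin m × Fin k) =>
      σ (e (finProdFinEquiv x)) (ω y.1 : F) * t (finProdFinEquiv x) (u y.2)).det ≤
      v (Matrix.of fun i j => σ i (ω j : F)).det ^ k * ∏ s, B s := by
  classical
  have h1 : (Matrix.of fun (x y : Fin m × Fin k) =>
      σ (e (finProdFinEquiv x)) (ω y.1 : F) * t (finProdFinEquiv x) (u y.2)) =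
      (Matrix.of fun (x y : Fin m × Fin k) =>
        if y.1 = e (finProdFinEquiv x) then t (finProdFinEquiv x) (u y.2) else 0) *
      Matrix.kroneckerMap (fun a b => a * b) (Matrix.of fun i j => σ i (ω j : F)) (1 : Matrix (Fin k) (Fin k) M) := by
    ext x y
    rw [Matrix.mul_apply, Matrix.of_apply, Fintype.sum_prod_type]
    rw [Finset.sum_eq_single (e (finProdFinEquiv x))]
    · rw [Finset.sum_eq_single y.2]
      · rw [Matrix.of_apply, if_pos rfl, Matrix.kroneckerMap_apply, Matrix.of_apply, Matrix.one_apply_eq]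
        ring
      · intro j _ hj
        rw [Matrix.kroneckerMap_apply, Matrix.one_apply_ne hj, mul_zero, mul_zero]
      · intro h
        exact absurd (Finset.mem_univ _) h
    · intro p _ hp
      refine Finset.sum_eq_zero fun j _ => ?_
      rw [Matrix.of_apply, if_neg hp, zero_mul]
    · intro h
      exact absurd (Finset.mem_univ _) h
  have h2 : (Matrix.kroneckerMap (fun a b => a * b) (Matrix.of fun i j => σ i (ω j : F))
      (1 : Matrix (Fin k) (Fin k) M)).det = (Matrix.of fun i j => σ i (ω j : F)).det ^ k := by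
    have h3 := Matrix.det_kronecker (Matrix.of fun i j => σ i (ω j : F)) (1 : Matrix (Fin k) (Fin k) M)
    rw [Matrix.det_one, one_pow, mul_one, Fintype.card_fin] at h3
    exact h3
  rw [h1, Matrix.det_mul, h2, map_mul, map_pow, mul_comm]
  refine mul_le_mul_of_nonneg_left ?_ (pow_nonneg (apply_nonneg v _) _)
  rw [← Equiv.prod_comp (finProdFinEquiv (m := m) (n := k)) B]
  refine v_det_le v _ _ fun x y => ?_
  rw [Matrix.of_apply]
  by_cases h : y.1 = e (finProdFinEquiv x)
  · rw [if_pos h]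
    exact hB _ _
  · rw [if_neg h, map_zero]
    exact hB0 _

theorem det_loc {F E M : Type} [Field F] [NumberField F] [Field E] [NumberField E] [Algebra F E]
    [Field M] [NumberField M] (v : FinitePlace M) (m k : ℕ) (σ : Fin m ≃ (F →+* M))
    (ω : Module.Basis (Fin m) ℤ (𝓞 F)) (u : Fin k → E) (z : Fin (m * k) → E)
    (hz : ∀ c, ∃ (n : ℤ) (f : Fin k → 𝓞 F), v (n : M) = 1 ∧ n • z c = ∑ j, f j • u j)
    (t : Fin (m * k) → (E →+* M)) (B : Fin (m * k) → ℝ) (hB0 : ∀ s, 0 ≤ B s)
    (hB : ∀ s j, v (t s (u j)) ≤ B s) :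
    v (Matrix.of fun i j => t i (z j)).det ≤
      v (Matrix.of fun i j => σ i (ω j : F)).det ^ k * ∏ s, B s := by
  classical
  choose n f hn hf using hz
  obtain ⟨e, he⟩ : ∃ e : Fin (m * k) → Fin m, ∀ s, σ (e s) = (t s).comp (algebraMap F E) :=
    ⟨fun s => σ.symm ((t s).comp (algebraMap F E)), fun s => σ.apply_symm_apply _⟩
  -- the integral matrix
  obtain ⟨G, hG⟩ : ∃ G : Matrix (Fin m × Fin k) (Fin m × Fin k) ℤ,
      ∀ y x, G y x = ω.repr (f (finProdFinEquiv x) y.2) y.1 := ⟨fun y x => _, fun _ _ => rfl⟩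
  have hval : ∀ s c, (n c : M) * t s (z c) =
      ∑ y : Fin m × Fin k, (σ (e s) (ω y.1 : F) * t s (u y.2)) * (ω.repr (f c y.2) y.1 : M) := by
    intro s c
    have h1 := congrArg (t s) (hf c)
    rw [zsmul_eq_mul, map_mul, map_intCast, map_sum] at h1
    rw [h1, Fintype.sum_prod_type, Finset.sum_comm]
    refine Finset.sum_congr rfl fun j _ => ?_
    have h2 : t s (f c j • u j) = σ (e s) (f c j : F) * t s (u j) := by
      have h3 : f c j • u j = algebraMap F E (f c j : F) * u j := by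
        rw [Algebra.smul_def]
        rfl
      rw [h3, map_mul, he]
      rfl
    have h4 : (f c j : F) = ∑ i, ((ω.repr (f c j) i : ℤ) : F) * (ω i : F) := by
      have h5 := congrArg (fun w : 𝓞 F => (w : F)) (ω.sum_repr (f c j))
      change ((∑ i, ω.repr (f c j) i • ω i : 𝓞 F) : F) = (f c j : F) at h5
      rw [← h5]
      change algebraMap (𝓞 F) F (∑ i, ω.repr (f c j) i • ω i) = _
      rw [map_sum]
      refine Finset.sum_congr rfl fun i _ => ?_
      rw [zsmul_eq_mul, map_mul, map_intCast]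
    rw [h2, h4, map_sum, Finset.sum_mul]
    refine Finset.sum_congr rfl fun i _ => ?_
    rw [map_mul, map_intCast]
    ring
  have hdet : v (Matrix.of fun i j => t i (z j)).det =
      v (Matrix.of fun i j => (n j : M) * t i (z j)).det := by
    have h1 : (Matrix.of fun i j => (n j : M) * t i (z j)) =
        Matrix.of fun i j => (n j : M) * ((Matrix.of fun i j => t i (z j)) i j) := rfl
    rw [h1, Matrix.det_mul_row, map_mul, map_prod, Finset.prod_congr rfl fun c _ => hn c, Finset.prod_const_one,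
      one_mul]
  have hdet2 : (Matrix.of fun i j => (n j : M) * t i (z j)).det =
      (Matrix.of fun (x y : Fin m × Fin k) =>
        σ (e (finProdFinEquiv x)) (ω y.1 : F) * t (finProdFinEquiv x) (u y.2)).det *
      (Matrix.of fun x y => ((G x y : ℤ) : M)).det := by
    rw [← Matrix.det_mul, ← Matrix.det_submatrix_equiv_self (finProdFinEquiv (m := m) (n := k))]
    congr 1
    ext x y
    rw [Matrix.submatrix_apply, Matrix.of_apply, hval, Matrix.mul_apply]
    refine Finset.sum_congr rfl fun w _ => ?_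
    rw [Matrix.of_apply, Matrix.of_apply, hG]
  rw [hdet, hdet2, map_mul]
  have h3 := det_fac v m k σ ω u t B hB0 hB e
  calc _ ≤ v (Matrix.of fun (x y : Fin m × Fin k) =>
        σ (e (finProdFinEquiv x)) (ω y.1 : F) * t (finProdFinEquiv x) (u y.2)).det * 1 :=
        mul_le_mul_of_nonneg_left (v_det_int v G) (apply_nonneg v _)
    _ ≤ _ := by
        rw [mul_one]
        exact h3

end Pool.Agent.H36.LE
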