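import Pool.Agent.H36.LE.Defs

/-!
# THEOREM L (MP_187c26_nt), chapter P: polynomials in two variables, basic facts

`k[X][Y]`: `C X` is the first variable, `X` the second. `dX P = (Bivariate.swap P).natDegree`. `BS k n L`: `deg_Y < L` and all coefficients of degree `< n`.
PROOFS. `coeff_swap`: `(swap P).coeff i).coeff j = (P.coeff j).coeff i` (induction on `P`, `Bivariate.swap_monomial_monomial`, or check on monomials). Hence `dX P` is the largest `i` with
`(P.coeff j).coeff i ≠ 0` for some `j`, `coeff_le_dX`, `mem_BS` (for `P ≠ 0`: `degree < L` iff `natDegree < L`; all `(P.coeff j).degree < n` iff `dX P < n`, `natDegree_lt_iff_degree_lt`).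
`finrank_BS`: `BS k n L` is linearly equivalent to `Fin L → degreeLT k n` or to `Fin L × Fin n → k` (coefficients). `dX_mul`: `map_mul` and `natDegree_mul`. `dX_C`: `Bivariate.swap_C`, `natDegree_map`.
`ex_eval`: both sides are `k`-algebra homomorphisms, equal on `C X` and `X` (ext; `Polynomial.algHom_ext`-type lemma or `aevalAevalEquiv`). `natDegree_ex`: `ex l P = (P.map of X ↦ X^l).comp (X^l)` (`Polynomial.expand`:
`ex l P = expand k[X] l (P.map (expand k l).toRingHom)`), `natDegree_expand`, `natDegree_map_eq_of_injective`. `dX_ex`: `swap (ex l P) = ex l (swap P)`. `ex_ne_zero`.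
-/

set_option autoImplicit false

open Polynomial NumberField IntermediateField
open scoped Polynomial.Bivariate

namespace Pool.Agent.H36.LE

variable {k : Type} [Field k]

theorem coeff_swap (P : k[X][Y]) (i j : ℕ) :
    ((Bivariate.swap P).coeff i).coeff j = (P.coeff j).coeff i := by
  induction P using Polynomial.induction_on' with
  | add p q hp hq => simp only [map_add, coeff_add, hp, hq]
  | monomial n a =>
    induction a using Polynomial.induction_on' with
    | add p q hp hq => simp only [map_add, coeff_add, hp, hq]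
    | monomial m r =>
      rw [Bivariate.swap_monomial_monomial, coeff_monomial, coeff_monomial]
      by_cases h1 : m = i
      · by_cases h2 : n = j
        · rw [if_pos h1, if_pos h2, coeff_monomial, coeff_monomial, if_pos h1, if_pos h2]
        · rw [if_pos h1, if_neg h2, coeff_monomial, if_neg h2, coeff_zero]
      · by_cases h2 : n = j
        · rw [if_neg h1, if_pos h2, coeff_monomial, if_neg h1, coeff_zero]
        · rw [if_neg h1, if_neg h2, coeff_zero, coeff_zero]

theorem coeff_le_dX (P : k[X][Y]) (j : ℕ) : (P.coeff j).natDegree ≤ dX P := by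
  by_cases h : P.coeff j = 0
  · rw [h, natDegree_zero]
    exact Nat.zero_le _
  · refine le_natDegree_of_ne_zero fun h0 => ?_
    have h1 := coeff_swap P (P.coeff j).natDegree j
    rw [h0, coeff_zero] at h1
    exact h (leadingCoeff_eq_zero.1 h1.symm)

theorem mem_BS (P : k[X][Y]) (n L : ℕ) :
    P ∈ BS k n L ↔ P = 0 ∨ (P.natDegree < L ∧ dX P < n) := by
  by_cases hP : P = 0
  · rw [hP]
    exact ⟨fun _ => Or.inl rfl, fun _ => Submodule.zero_mem _⟩
  · have hs : Bivariate.swap P ≠ 0 := fun h => hP (by
      rw [← Bivariate.swap_swap_apply P, h, map_zero])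
    have h1 : (∀ j, (P.coeff j).degree < n) ↔ dX P < n := by
      constructor
      · intro h
        have h2 : (Bivariate.swap P).coeff (dX P) ≠ 0 := fun h0 => hs (leadingCoeff_eq_zero.1 h0)
        obtain ⟨j, hj⟩ : ∃ j, ((Bivariate.swap P).coeff (dX P)).coeff j ≠ 0 := by
          by_contra hcon
          push Not at hcon
          exact h2 (Polynomial.ext fun j => by rw [hcon j, coeff_zero])
        rw [coeff_swap] at hj
        have h3 := (le_degree_of_ne_zero hj).trans_lt (h j)
        exact_mod_cast h3
      · intro h j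
        rw [degree_lt_iff_coeff_zero]
        intro m hm
        rw [← coeff_swap, coeff_eq_zero_of_natDegree_lt (lt_of_lt_of_le h hm), coeff_zero]
    show (P.degree < L ∧ ∀ j, (P.coeff j).degree < n) ↔ _
    rw [h1, natDegree_lt_iff_degree_lt hP]
    exact ⟨fun h => Or.inr h, fun h => h.resolve_left hP⟩

/-- the coefficients -/
private noncomputable def cf (k : Type) [Field k] (n L : ℕ) : BS k n L →ₗ[k] (Fin L × Fin n → k) where
  toFun P := fun x => ((P : k[X][Y]).coeff x.1).coeff x.2
  map_add' P Q := by
    funext x
    simp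
  map_smul' c P := by
    funext x
    simp

private theorem cf_bij (k : Type) [Field k] (n L : ℕ) : Function.Bijective (cf k n L) := by
  constructor
  · intro P Q hP
    refine Subtype.ext (Polynomial.ext fun j => Polynomial.ext fun i => ?_)
    by_cases hj : j < L
    · by_cases hi : i < n
      · exact congrFun hP (⟨j, hj⟩, ⟨i, hi⟩)
      · rw [(degree_lt_iff_coeff_zero _ _).1 (P.2.2 j) i (not_lt.1 hi),
          (degree_lt_iff_coeff_zero _ _).1 (Q.2.2 j) i (not_lt.1 hi)]
    · rw [(degree_lt_iff_coeff_zero _ _).1 P.2.1 j (not_lt.1 hj),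
        (degree_lt_iff_coeff_zero _ _).1 Q.2.1 j (not_lt.1 hj)]
  · intro f
    have hmem : ∀ (x : Fin L × Fin n) (c : k),
        monomial (x.1 : ℕ) (monomial (x.2 : ℕ) c) ∈ BS k n L := by
      intro x c
      refine ⟨(degree_monomial_le _ _).trans_lt (by exact_mod_cast x.1.2), fun j => ?_⟩
      rw [coeff_monomial]
      split_ifs
      · exact (degree_monomial_le _ _).trans_lt (by exact_mod_cast x.2.2)
      · rw [degree_zero]
        exact WithBot.bot_lt_coe _
    refine ⟨⟨∑ x : Fin L × Fin n, monomial (x.1 : ℕ) (monomial (x.2 : ℕ) (f x)),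
      Submodule.sum_mem _ fun x _ => hmem x _⟩, ?_⟩
    funext y
    show ((∑ x : Fin L × Fin n, monomial (x.1 : ℕ) (monomial (x.2 : ℕ) (f x)) : k[X][Y]).coeff
      y.1).coeff y.2 = f y
    rw [finsetSum_coeff, finsetSum_coeff, Finset.sum_eq_single y]
    · rw [coeff_monomial, if_pos rfl, coeff_monomial, if_pos rfl]
    · intro x _ hxy
      rw [coeff_monomial]
      split_ifs with h1
      · rw [coeff_monomial]
        split_ifs with h2
        · exact absurd (Prod.ext (Fin.ext h1) (Fin.ext h2)) hxy
        · rfl
      · rw [coeff_zero]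
    · intro h
      exact absurd (Finset.mem_univ y) h

instance finite_BS (n L : ℕ) : Module.Finite k (BS k n L) :=
  Module.Finite.of_injective (cf k n L) (cf_bij k n L).1

theorem finrank_BS (n L : ℕ) : Module.finrank k (BS k n L) = n * L := by
  rw [(LinearEquiv.ofBijective (cf k n L) (cf_bij k n L)).finrank_eq,
    Module.finrank_fintype_fun_eq_card, Fintype.card_prod, Fintype.card_fin, Fintype.card_fin,
    mul_comm]

theorem dX_mul (P Q : k[X][Y]) (hP : P ≠ 0) (hQ : Q ≠ 0) : dX (P * Q) = dX P + dX Q := by
  unfold dX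
  rw [map_mul]
  exact natDegree_mul ((map_ne_zero_iff _ (AlgEquiv.injective _)).2 hP)
    ((map_ne_zero_iff _ (AlgEquiv.injective _)).2 hQ)

theorem dX_C (f : k[X]) : dX (C f : k[X][Y]) = f.natDegree := by
  unfold dX
  rw [Bivariate.swap_C, natDegree_map_eq_of_injective C_injective]

theorem ex_eval {A : Type} [CommRing A] [Algebra k A] (l : ℕ) (u v : A) (P : k[X][Y]) :
    aevalAeval (R := k) u v (ex l P) = aevalAeval (R := k) (u ^ l) (v ^ l) P := by
  have h : (aevalAeval (R := k) u v).comp (ex l) = aevalAeval (R := k) (u ^ l) (v ^ l) := by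
    refine (aevalAevalEquiv k A).symm.injective ?_
    rw [aevalAevalEquiv_symm_apply, Equiv.symm_apply_apply]
    refine Prod.ext ?_ ?_
    · show aevalAeval (R := k) u v (ex l (C X)) = u ^ l
      rw [ex, aevalAeval_X, map_pow, aevalAeval_X]
    · show aevalAeval (R := k) u v (ex l Y) = v ^ l
      rw [ex, aevalAeval_Y, map_pow, aevalAeval_Y]
  exact DFunLike.congr_fun h P

private theorem ex_mono (l n m : ℕ) (r : k) :
    ex l (monomial n (monomial m r)) = monomial (n * l) (monomial (m * l) r) := by
  have h1 : ∀ (n m : ℕ), (monomial n (monomial m r) : k[X][Y]) =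
      algebraMap k k[X][Y] r * (C X) ^ m * X ^ n := by
    intro n m
    rw [← C_mul_X_pow_eq_monomial, ← C_mul_X_pow_eq_monomial, C_mul, C_pow]
    rfl
  rw [h1, h1, map_mul, map_mul, map_pow, map_pow, AlgHom.commutes, ex, aevalAeval_X,
    aevalAeval_Y, ← pow_mul, ← pow_mul, mul_comm l m, mul_comm l n]

private theorem ex_eq (l : ℕ) (P : k[X][Y]) :
    ex l P = expand k[X] l (P.map (expand k l).toRingHom) := by
  induction P using Polynomial.induction_on' with
  | add p q hp hq => rw [map_add, hp, hq, Polynomial.map_add, map_add]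
  | monomial n a =>
    induction a using Polynomial.induction_on' with
    | add p q hp hq =>
      rw [map_add, map_add, hp, hq, Polynomial.map_add, map_add]
    | monomial m r =>
      rw [ex_mono, map_monomial, expand_monomial]
      congr 1
      exact (expand_monomial l m r).symm

private theorem ex_swap (l : ℕ) (P : k[X][Y]) :
    Bivariate.swap (ex l P) = ex l (Bivariate.swap P) := by
  induction P using Polynomial.induction_on' with
  | add p q hp hq => rw [map_add, map_add, hp, hq, map_add, map_add]
  | monomial n a =>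
    induction a using Polynomial.induction_on' with
    | add p q hp hq =>
      rw [map_add, map_add, map_add, hp, hq, map_add, map_add]
    | monomial m r =>
      rw [ex_mono, Bivariate.swap_monomial_monomial, Bivariate.swap_monomial_monomial, ex_mono]

private theorem inj_ex (l : ℕ) (hl : 1 ≤ l) :
    Function.Injective ((expand k l).toRingHom : k[X] →+* k[X]) :=
  expand_injective hl

theorem ex_ne_zero (l : ℕ) (hl : 1 ≤ l) (P : k[X][Y]) (hP : P ≠ 0) : ex l P ≠ 0 := by
  rw [ex_eq, Ne, expand_eq_zero hl, Polynomial.map_eq_zero_iff (inj_ex l hl)]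
  exact hP

theorem natDegree_ex (l : ℕ) (hl : 1 ≤ l) (P : k[X][Y]) :
    (ex l P).natDegree = l * P.natDegree := by
  rw [ex_eq, natDegree_expand, natDegree_map_eq_of_injective (inj_ex l hl), mul_comm]

theorem dX_ex (l : ℕ) (hl : 1 ≤ l) (P : k[X][Y]) : dX (ex l P) = l * dX P := by
  unfold dX
  rw [ex_swap, natDegree_ex l hl]

end Pool.Agent.H36.LE
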