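import Pool.Agent.H36.LE.MiF
import Pool.Agent.H36.LE.PbA

/-!
# THEOREM L (MP_187c26_nt), the main inequality for spaces of polynomials

Imports `MiF` (`mi_cor`, the same statement in coordinates) and `PbA` (may be sorried).
PROOF. The linear map `(Fin n × Fin L → ℚ) → ℚ[X][Y]`, `c ↦ ∑_(j, l) c_(j,l) X^j Y^l` (`monomial l (monomial j c)`) is injective with range `BS ℚ n L` and `aevalAeval (x^γ) (a^γ)` of the image of `c` is `bz x a n L γ c` (`γ * j` and powers: `pow_mul`). So the image of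
`ker (bz g) ⊓ ⨅_(q ∈ 𝒬) ker (bz (g q))` is `Vs x a n L g 𝒬`, the dimensions are equal (`LinearEquiv.finrank_eq`, `Submodule.equivMapOfInjective`), and `mi_cor` is the claim (`𝒬 = ∅` for the right side).
-/

set_option autoImplicit false

open Polynomial NumberField IntermediateField
open scoped Polynomial.Bivariate

namespace Pool.Agent.H36.LE

/-- the polynomial with the coefficients `c` -/
private noncomputable def pl (n L : ℕ) : (Fin n × Fin L → ℚ) →ₗ[ℚ] ℚ[X][Y] where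
  toFun c := ∑ p : Fin n × Fin L, monomial (p.2 : ℕ) (monomial (p.1 : ℕ) (c p))
  map_add' c c' := by
    rw [← Finset.sum_add_distrib]
    refine Finset.sum_congr rfl fun p _ => ?_
    rw [Pi.add_apply, map_add, map_add]
  map_smul' r c := by
    rw [RingHom.id_apply, Finset.smul_sum]
    refine Finset.sum_congr rfl fun p _ => ?_
    rw [Pi.smul_apply, smul_monomial, smul_monomial]

private theorem pl_coeff (n L : ℕ) (c : Fin n × Fin L → ℚ) (p : Fin n × Fin L) :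
    ((pl n L c).coeff (p.2 : ℕ)).coeff (p.1 : ℕ) = c p := by
  show ((∑ q : Fin n × Fin L, monomial (q.2 : ℕ) (monomial (q.1 : ℕ) (c q)) : ℚ[X][Y]).coeff
    (p.2 : ℕ)).coeff (p.1 : ℕ) = c p
  rw [finsetSum_coeff, finsetSum_coeff, Finset.sum_eq_single p]
  · rw [coeff_monomial, if_pos rfl, coeff_monomial, if_pos rfl]
  · intro q _ hqp
    rw [coeff_monomial]
    split_ifs with h1
    · rw [coeff_monomial]
      split_ifs with h2
      · exact absurd (Prod.ext (Fin.ext h2) (Fin.ext h1)) hqp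
      · rfl
    · rw [coeff_zero]
  · intro h
    exact absurd (Finset.mem_univ p) h

private theorem pl_mem (n L : ℕ) (c : Fin n × Fin L → ℚ) : pl n L c ∈ BS ℚ n L := by
  refine Submodule.sum_mem _ fun p _ => ⟨(degree_monomial_le _ _).trans_lt (by exact_mod_cast p.2.2),
    fun j => ?_⟩
  rw [coeff_monomial]
  split_ifs
  · exact (degree_monomial_le _ _).trans_lt (by exact_mod_cast p.1.2)
  · rw [degree_zero]
    exact WithBot.bot_lt_coe _

private theorem pl_inj (n L : ℕ) : Function.Injective (pl n L) := by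
  intro c c' h
  funext p
  rw [← pl_coeff n L c p, h, pl_coeff]

private theorem pl_surj (n L : ℕ) {P : ℚ[X][Y]} (hP : P ∈ BS ℚ n L) : ∃ c, pl n L c = P := by
  refine ⟨fun p => (P.coeff (p.2 : ℕ)).coeff (p.1 : ℕ), ?_⟩
  have hm := pl_mem n L fun p => (P.coeff (p.2 : ℕ)).coeff (p.1 : ℕ)
  refine Polynomial.ext fun j => Polynomial.ext fun i => ?_
  by_cases hj : j < L
  · by_cases hi : i < n
    · exact pl_coeff n L _ (⟨i, hi⟩, ⟨j, hj⟩)
    · rw [(degree_lt_iff_coeff_zero _ _).1 (hP.2 j) i (not_lt.1 hi),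
        (degree_lt_iff_coeff_zero _ _).1 (hm.2 j) i (not_lt.1 hi)]
  · rw [(degree_lt_iff_coeff_zero _ _).1 hP.1 j (not_lt.1 hj),
      (degree_lt_iff_coeff_zero _ _).1 hm.1 j (not_lt.1 hj)]

private theorem pl_eval {E : Type} [Field E] [CharZero E] (x a : E) (n L γ : ℕ)
    (c : Fin n × Fin L → ℚ) :
    aevalAeval (R := ℚ) (x ^ γ) (a ^ γ) (pl n L c) = bz x a n L γ c := by
  show aevalAeval (R := ℚ) (x ^ γ) (a ^ γ)
    (∑ q : Fin n × Fin L, monomial (q.2 : ℕ) (monomial (q.1 : ℕ) (c q)) : ℚ[X][Y]) = _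
  have h1 : ∀ (n m : ℕ) (r : ℚ), (monomial n (monomial m r) : ℚ[X][Y]) =
      algebraMap ℚ ℚ[X][Y] r * (C X) ^ m * X ^ n := by
    intro n m r
    rw [← C_mul_X_pow_eq_monomial, ← C_mul_X_pow_eq_monomial, C_mul, C_pow]
    rfl
  rw [map_sum, bz, LinearMap.sum_apply]
  refine Finset.sum_congr rfl fun p _ => ?_
  rw [h1, map_mul, map_mul, map_pow, map_pow, AlgHom.commutes, aevalAeval_X, aevalAeval_Y, ← pow_mul,
    ← pow_mul, LinearMap.smulRight_apply, LinearMap.proj_apply, Algebra.smul_def, mul_assoc]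

private theorem pl_Vs {E : Type} [Field E] [CharZero E] (x a : E) (n L g : ℕ) (𝒬 : Finset ℕ) :
    Module.finrank ℚ (Vs (k := ℚ) x a n L g 𝒬) =
      Module.finrank ℚ (LinearMap.ker (bz x a n L g) ⊓
        ⨅ q ∈ 𝒬, LinearMap.ker (bz x a n L (g * q)) : Submodule ℚ (Fin n × Fin L → ℚ)) := by
  have h1 : Vs (k := ℚ) x a n L g 𝒬 = (LinearMap.ker (bz x a n L g) ⊓
        ⨅ q ∈ 𝒬, LinearMap.ker (bz x a n L (g * q)) : Submodule ℚ (Fin n × Fin L → ℚ)).map (pl n L) := by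
    ext P
    unfold Vs
    simp only [Submodule.mem_map, Submodule.mem_inf, Submodule.mem_iInf, LinearMap.mem_ker,
      AlgHom.toLinearMap_apply]
    constructor
    · rintro ⟨hP, h2, h3⟩
      obtain ⟨c, rfl⟩ := pl_surj n L hP
      rw [pl_eval] at h2
      refine ⟨c, ⟨h2, fun q hq => ?_⟩, rfl⟩
      have h4 := h3 q hq
      rwa [pl_eval] at h4
    · rintro ⟨c, ⟨h2, h3⟩, rfl⟩
      refine ⟨pl_mem n L c, by rw [pl_eval]; exact h2, fun q hq => ?_⟩
      rw [pl_eval]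
      exact h3 q hq
  rw [h1]
  exact (LinearEquiv.finrank_eq (Submodule.equivMapOfInjective (pl n L) (pl_inj n L) _)).symm

theorem cor {E : Type} [Field E] [NumberField E] {b m d : ℕ} {ι : ℝ} {x : E} (hx : Rd b m d ι x)
    (hι : 0 ≤ ι) (a : E) (n L g : ℕ) (hn1 : 1 ≤ n) (hn : n ≤ m) (hL : 1 ≤ L) (hg1 : 1 ≤ g)
    (hg : g.Coprime m) (𝒬 : Finset ℕ)
    (h𝒬 : ∀ q ∈ 𝒬, q.Prime ∧ ¬ q ∣ m ∧ (n - 1) * (g * q) ≤ m ∧
      8 * (2 * Real.log b + ι + Real.log (L * d) / 2 + 1) ≤ 7 * Real.log q ∧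
      (g * q * L : ℝ) * absLogHeight₁ a ≤ 1) :
    n * L - Module.finrank ℚ (Vs (k := ℚ) x a n L g 𝒬) ≤
      8 * (n * L - Module.finrank ℚ (Vs (k := ℚ) x a n L g ∅)) := by
  have h1 : (LinearMap.ker (bz x a n L g) ⊓
      ⨅ q ∈ (∅ : Finset ℕ), LinearMap.ker (bz x a n L (g * q)) : Submodule ℚ (Fin n × Fin L → ℚ)) =
      LinearMap.ker (bz x a n L g) := by
    simp
  rw [pl_Vs, pl_Vs, h1]
  exact mi_cor hx hι a n L g hn1 hn hL hg1 hg 𝒬 h𝒬

end Pool.Agent.H36.LE
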