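import Mathlib

/-!
# THEOREM L (MP_187c26_nt), definitions

Text of the whole proof: think 1543 (helper36); hostile reading of (N1): think 1556 (helper33).

THEOREM L. For `b ≥ 2` and `ι` there are `c > 0`, `C` with `c (d + s)^(-C) ≤ h(α)` for all `m ≥ 1`, `x^m = b`, `[ℚ(x) : ℚ] = m`, `m` with at most `s`
prime divisors, `log |disc ℚ(x)| ≥ m log m - 2 ι m`, and all `α ≠ 0` of degree at most `d` over `ℚ(x)` with `α^k ∉ b^ℤ` for all `k ≥ 1`.

Chapters: V (`Gd*`: Gram determinants), L (`Zb`, `Vl*`: covolumes), HN (`Hn`: abstract slope lemma), N (`Nm*`: the inequality (N1)),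
MI (`Mi*`: the main inequality, `Cor`), P (`Pb*`: polynomials in two variables), LQ (`Lq*`: Lehmer over `ℚ` with a polynomial bound), SA, SB, SC, SD: the steps
A to D, PR: primes, FIN: the end.
-/

set_option autoImplicit false

open Polynomial NumberField IntermediateField
open scoped Polynomial.Bivariate

namespace Pool.Agent.H36.LE

/-! ### Gram determinants and lattices -/

section Lattice

variable {H : Type} [NormedAddCommGroup H] [InnerProductSpace ℂ H]

/-- The Gram determinant of a finite family of vectors. -/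
noncomputable def gd {κ : Type} [Fintype κ] [DecidableEq κ] (z : κ → H) : ℝ :=
  (Matrix.gram ℂ z).det.re

variable {E : Type} [AddCommGroup E] [Module ℚ E]

/-- `z` is a basis of the lattice `Λ ∩ U`. -/
structure IsZB (Λ : Submodule ℤ E) (U : Submodule ℚ E) {κ : Type} (z : κ → E) : Prop where
  li : LinearIndependent ℚ z
  memL : ∀ i, z i ∈ Λ
  memU : ∀ i, z i ∈ U
  gen : ∀ y ∈ Λ, y ∈ U → y ∈ Submodule.span ℤ (Set.range z)

/-- `Λ` is a lattice of `E`, and `φ : E → H` maps `ℚ`-independent families to `ℂ`-independent ones. -/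
structure Lat (φ : E →+ H) (Λ : Submodule ℤ E) : Prop where
  fg : Λ.FG
  full : ∀ y : E, ∃ n : ℕ, n ≠ 0 ∧ n • y ∈ Λ
  ind : ∀ (r : ℕ) (z : Fin r → E), LinearIndependent ℚ z → LinearIndependent ℂ (fun i => φ (z i))

/-- The square of the covolume of `Λ ∩ U`: the infimum of the Gram determinants of all families of `dim U` independent elements
of `Λ ∩ U`. -/
noncomputable def vl (φ : E →+ H) (Λ : Submodule ℤ E) (U : Submodule ℚ E) : ℝ :=
  ⨅ z : {z : Fin (Module.finrank ℚ U) → E // LinearIndependent ℚ z ∧ ∀ i, z i ∈ Λ ∧ z i ∈ U},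
    gd (fun i => φ (z.1 i))

end Lattice

/-! ### Number fields -/

section NF

/-- `x ^ m = b`, `[ℚ(x) : ℚ] = m`, `[E : ℚ] = m d`, and `|disc ℚ(x)| ≥ (m / e^(2ι))^m`. -/
structure Rd {E : Type} [Field E] [NumberField E] (b m d : ℕ) (ι : ℝ) (x : E) : Prop where
  b1 : 1 ≤ b
  m1 : 1 ≤ m
  pow : x ^ m = (b : E)
  deg : Module.finrank ℚ ℚ⟮x⟯ = m
  fin : Module.finrank ℚ E = m * d
  disc : (m : ℝ) * Real.log m - 2 * ι * m ≤ Real.log |(NumberField.discr ℚ⟮x⟯ : ℝ)|

variable {E : Type} [Field E] [NumberField E]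

/-- `max(1, |τ a|)^(-K)`. -/
noncomputable def wt (a : E) (K : ℕ) (τ : E →+* ℂ) : ℝ := (max 1 ‖τ a‖ ^ K)⁻¹

/-- `y ↦ (τ y · max(1, |τ a|)^(-K) / √m)_τ`. -/
noncomputable def ph (m : ℕ) (a : E) (K : ℕ) : E →+ EuclideanSpace ℂ (E →+* ℂ) where
  toFun y := WithLp.toLp 2 fun τ => τ y * ((wt a K τ / Real.sqrt m : ℝ) : ℂ)
  map_zero' := by
    ext τ
    simp
  map_add' y z := by
    ext τ
    simp [add_mul]

/-- All `y ∈ E` with `|t(y)|_v ≤ max(1, |t(a)|_v)^K` for all finite places `v` of all number fields `M` and all `t : E → M`. -/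
def LK (a : E) (K : ℕ) : Submodule ℤ E where
  carrier := {y | ∀ (M : Type) [Field M] [NumberField M] (t : E →+* M) (v : FinitePlace M),
    v (t y) ≤ max 1 (v (t a)) ^ K}
  zero_mem' := by
    intro M _ _ t v
    rw [map_zero, map_zero]
    positivity
  add_mem' := by
    intro y z hy hz M _ _ t v
    rw [map_add]
    exact (FinitePlace.add_le v _ _).trans (max_le (hy M t v) (hz M t v))
  smul_mem' := by
    intro n y hy M _ _ t v
    have h1 : v (n : M) ≤ 1 := by
      have h2 := FinitePlace.norm_le_one M v.maximalIdeal (n : 𝓞 M)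
      rw [FinitePlace.norm_embedding_eq] at h2
      exact_mod_cast h2
    rw [zsmul_eq_mul, map_mul, map_mul, map_intCast]
    calc v (n : M) * v (t y) ≤ 1 * v (t y) :=
          mul_le_mul_of_nonneg_right h1 (apply_nonneg v _)
      _ ≤ max 1 (v (t a)) ^ K := by
          rw [one_mul]
          exact hy M t v

end NF

/-! ### Polynomials in two variables -/

section Poly

variable {k : Type} [Field k]

/-- The degree in the first variable `X` (the degree in the second variable `Y` is `natDegree`). -/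
noncomputable def dX (P : k[X][Y]) : ℕ := (Bivariate.swap P).natDegree

/-- The polynomials of degree less than `n` in `X` and less than `L` in `Y`. -/
def BS (k : Type) [Field k] (n L : ℕ) : Submodule k k[X][Y] where
  carrier := {P | P.degree < L ∧ ∀ j, (P.coeff j).degree < n}
  zero_mem' := by
    refine ⟨?_, fun j => ?_⟩
    · rw [degree_zero]; exact WithBot.bot_lt_coe _
    · rw [coeff_zero, degree_zero]; exact WithBot.bot_lt_coe _
  add_mem' := by
    intro P Q hP hQ
    refine ⟨(degree_add_le _ _).trans_lt (max_lt hP.1 hQ.1), fun j => ?_⟩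
    rw [coeff_add]
    exact (degree_add_le _ _).trans_lt (max_lt (hP.2 j) (hQ.2 j))
  smul_mem' := by
    intro c P hP
    refine ⟨(degree_smul_le _ _).trans_lt hP.1, fun j => ?_⟩
    rw [coeff_smul]
    exact (degree_smul_le _ _).trans_lt (hP.2 j)

/-- `P(X^l, Y^l)`. -/
noncomputable def ex (l : ℕ) : k[X][Y] →ₐ[k] k[X][Y] := aevalAeval ((C X) ^ l) (X ^ l)

/-- The polynomials of `BS n L` vanishing at `(x^g, a^g)` and at `(x^(gq), a^(gq))`, `q ∈ 𝒬`. -/
noncomputable def Vs {E : Type} [Field E] [Algebra k E] (x a : E) (n L g : ℕ) (𝒬 : Finset ℕ) :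
    Submodule k k[X][Y] :=
  BS k n L ⊓ (LinearMap.ker (aevalAeval (R := k) (x ^ g) (a ^ g)).toLinearMap ⊓
    ⨅ q ∈ 𝒬, LinearMap.ker (aevalAeval (R := k) (x ^ (g * q)) (a ^ (g * q))).toLinearMap)

end Poly

end Pool.Agent.H36.LE
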