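import Pool.Agent.H36.LE.Defs

/-!
# THEOREM L (MP_187c26_nt), definitions for the main inequality: coordinates of the box
-/

set_option autoImplicit false

open Polynomial NumberField IntermediateField
open scoped Polynomial.Bivariate

namespace Pool.Agent.H36.LE

/-- The value at `(x^γ, a^γ)` of the polynomial with coefficients `c`: `∑ c_(j,l) x^(γ j) a^(γ l)`. -/
noncomputable def bz {E : Type} [Field E] [CharZero E] (x a : E) (n L γ : ℕ) :
    (Fin n × Fin L → ℚ) →ₗ[ℚ] E :=
  ∑ p : Fin n × Fin L,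
    (LinearMap.proj p).smulRight (x ^ (γ * (p.1 : ℕ)) * a ^ (γ * (p.2 : ℕ)))

/-- The coefficients as complex numbers. -/
noncomputable def pc (n L : ℕ) : (Fin n × Fin L → ℚ) →+ EuclideanSpace ℂ (Fin n × Fin L) where
  toFun c := WithLp.toLp 2 fun p => ((c p : ℚ) : ℂ)
  map_zero' := by
    ext p
    simp
  map_add' y z := by
    ext p
    simp

/-- The integral vectors. -/
def Z0 (n L : ℕ) : Submodule ℤ (Fin n × Fin L → ℚ) where
  carrier := {c | ∀ p, ∃ z : ℤ, c p = z}
  zero_mem' := fun p => ⟨0, by simp⟩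
  add_mem' := by
    intro c c' hc hc' p
    obtain ⟨z, hz⟩ := hc p
    obtain ⟨z', hz'⟩ := hc' p
    exact ⟨z + z', by rw [Pi.add_apply, hz, hz', Int.cast_add]⟩
  smul_mem' := by
    intro n c hc p
    obtain ⟨z, hz⟩ := hc p
    exact ⟨n * z, by rw [Pi.smul_apply, hz, zsmul_eq_mul, Int.cast_mul]⟩

end Pool.Agent.H36.LE
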