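import Mathlib

/-!
# THEOREM L (MP_187c26_nt), chapters LQ, SC: exceptional primes

At most `log₂ [K(θ) : K]` primes `q` have `θ ∉ K(θ^q)`.
PROOF. Induction on `S` gives `2 ^ #S ≤ [K(θ) : K(θ^N)]`, `N = ∏_(q ∈ S) q`. Step: `q ∉ S`, `N' = q N`. `K(θ^(qN)) ≤ K(θ^N) ≤ K(θ)`. If `K(θ^(qN)) = K(θ^N)`, then `θ^N ∈ K(θ^(qN)) ≤ K(θ^q)`; also `θ^q ∈ K(θ^q)` and `gcd(N, q) = 1`,
so `θ ∈ K(θ^q)` (Bezout: `θ = (θ^N)^u (θ^q)^v` with integers `u, v`; if `θ = 0` it is clear), contradiction to `q ∈ S`. So the degree `[K(θ^N) : K(θ^(qN))] ≥ 2` and the degrees multiply: `relfinrank_mul_relfinrank`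
(`Mathlib/FieldTheory/Relrank.lean`), `relfinrank_eq_one_iff`; all degrees are finite (`θ` integral). Finally `[K(θ) : K(θ^N)]` divides `[K(θ) : K]`.
`exc'`: the same for powers: `K(θ^q)` is a proper subfield of `K(θ)`, that is `finrank K K⟮θ^q⟯ < finrank K K⟮θ⟯`: the two conditions are equivalent (`IntermediateField.eq_of_le_of_finrank_le`).
-/

set_option autoImplicit false

open IntermediateField

namespace Pool.Agent.H36.LE

private theorem exc_coprime {K Ω : Type} [Field K] [Field Ω] [Algebra K Ω] (θ : Ω) (F : IntermediateField K Ω)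
    (M q : ℕ) (hcop : Nat.Coprime M q) (h1 : θ ^ M ∈ F) (h2 : θ ^ q ∈ F) : θ ∈ F := by
  by_cases h0 : θ = 0
  · rw [h0]
    exact zero_mem F
  have e1 := Nat.gcd_eq_gcd_ab M q
  rw [Nat.Coprime.gcd_eq_one hcop] at e1
  have e2 : θ = (θ ^ M) ^ (Nat.gcdA M q) * (θ ^ q) ^ (Nat.gcdB M q) := by
    rw [← zpow_natCast, ← zpow_natCast, ← zpow_mul, ← zpow_mul, ← zpow_add₀ h0, ← e1, Nat.cast_one, zpow_one]
  rw [e2]
  exact mul_mem (zpow_mem h1 _) (zpow_mem h2 _)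

private theorem exc_aux {K Ω : Type} [Field K] [Field Ω] [Algebra K Ω] (θ : Ω) (hθ : IsIntegral K θ)
    (S : Finset ℕ) : (∀ q ∈ S, q.Prime ∧ θ ∉ K⟮θ ^ q⟯) →
    2 ^ S.card ≤ relfinrank K⟮θ ^ (∏ q ∈ S, q)⟯ K⟮θ⟯ := by
  classical
  induction S using Finset.induction_on with
  | empty =>
    intro _
    rw [Finset.card_empty, pow_zero, Finset.prod_empty, pow_one, relfinrank_self]
  | insert q S hq ih =>
    intro hS
    have ih' := ih fun r hr => hS r (Finset.mem_insert_of_mem hr)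
    obtain ⟨hqp, hqθ⟩ := hS q (Finset.mem_insert_self q S)
    rw [Finset.card_insert_of_notMem hq, Finset.prod_insert hq, pow_succ]
    set N := ∏ r ∈ S, r with hN
    have hcop : Nat.Coprime N q := by
      rw [hN]
      refine Nat.Coprime.prod_left fun r hr => ?_
      rw [Nat.coprime_primes (hS r (Finset.mem_insert_of_mem hr)).1 hqp]
      rintro rfl
      exact hq hr
    have hle1 : K⟮θ ^ (q * N)⟯ ≤ K⟮θ ^ N⟯ := by
      rw [adjoin_simple_le_iff, mul_comm, pow_mul]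
      exact pow_mem (mem_adjoin_simple_self K _) _
    have hle2 : K⟮θ ^ N⟯ ≤ K⟮θ⟯ := by
      rw [adjoin_simple_le_iff]
      exact pow_mem (mem_adjoin_simple_self K _) _
    have hle3 : K⟮θ ^ (q * N)⟯ ≤ K⟮θ ^ q⟯ := by
      rw [adjoin_simple_le_iff, pow_mul]
      exact pow_mem (mem_adjoin_simple_self K _) _
    have hmul := relfinrank_mul_relfinrank hle1 hle2
    have hfin : Module.finrank K K⟮θ ^ N⟯ ≠ 0 := by
      have : FiniteDimensional K K⟮θ ^ N⟯ := adjoin.finiteDimensional (hθ.pow N)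
      exact Module.finrank_pos.ne'
    have h0 : relfinrank K⟮θ ^ (q * N)⟯ K⟮θ ^ N⟯ ≠ 0 := by
      intro h
      have h1 := relfinrank_dvd_finrank_bot (A := K⟮θ ^ (q * N)⟯) (B := K⟮θ ^ N⟯)
      rw [h, Nat.zero_dvd] at h1
      exact hfin h1
    have h1 : relfinrank K⟮θ ^ (q * N)⟯ K⟮θ ^ N⟯ ≠ 1 := by
      intro h
      rw [relfinrank_eq_one_iff] at h
      apply hqθ
      refine exc_coprime θ _ N q hcop ?_ (mem_adjoin_simple_self K _)
      exact hle3 (h (mem_adjoin_simple_self K _))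
    have h2 : 2 ≤ relfinrank K⟮θ ^ (q * N)⟯ K⟮θ ^ N⟯ := by omega
    rw [← hmul, mul_comm]
    exact Nat.mul_le_mul h2 ih'

theorem exc {K Ω : Type} [Field K] [Field Ω] [Algebra K Ω] (θ : Ω) (hθ : IsIntegral K θ)
    (S : Finset ℕ) (hS : ∀ q ∈ S, q.Prime ∧ θ ∉ K⟮θ ^ q⟯) :
    2 ^ S.card ≤ Module.finrank K K⟮θ⟯ := by
  have hfin : Module.finrank K K⟮θ⟯ ≠ 0 := by
    have : FiniteDimensional K K⟮θ⟯ := adjoin.finiteDimensional hθ
    exact Module.finrank_pos.ne'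
  exact (exc_aux θ hθ S hS).trans (Nat.le_of_dvd (Nat.pos_of_ne_zero hfin) (relfinrank_dvd_finrank_bot _ _))

theorem exc' {K Ω : Type} [Field K] [Field Ω] [Algebra K Ω] (θ : Ω) (hθ : IsIntegral K θ)
    (S : Finset ℕ)
    (hS : ∀ q ∈ S, q.Prime ∧ Module.finrank K K⟮θ ^ q⟯ ≠ Module.finrank K K⟮θ⟯) :
    2 ^ S.card ≤ Module.finrank K K⟮θ⟯ := by
  refine exc θ hθ S fun q hq => ⟨(hS q hq).1, fun h => (hS q hq).2 ?_⟩
  have h1 : K⟮θ ^ q⟯ = K⟮θ⟯ := by
    apply le_antisymm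
    · rw [adjoin_simple_le_iff]
      exact pow_mem (mem_adjoin_simple_self K _) _
    · rw [adjoin_simple_le_iff]
      exact h
  rw [h1]

end Pool.Agent.H36.LE
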