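import Mathlib

/-!
# THEOREM L (MP_187c26_nt): minimal polynomials of the powers of `x`, `x ^ m = b`

PROOFS. `minpoly_pow`: `q` prime to `m`, `u q = 1 + w m` (`u ≥ 1`, `w ≥ 0`; for `m = 1` directly): `(x^q)^u = x * b^w`, so `x ∈ ℚ(x^q)` (`b ≠ 0`), `ℚ(x^q) = ℚ(x)` has degree `m` (`q ≥ 1` or `m = 1`), and `x^q` is a root of the monic polynomial `X^m - b^q` of degree `m`
(`minpoly.eq_of...`: the minimal polynomial divides it and has degree `m = finrank ℚ ℚ⟮x^q⟯`, both monic: `Polynomial.eq_of_monic_of_dvd_of_natDegree_le`). `q = 0` is possible only if `m = 1`: `x^0 = 1`, `X - 1`.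
`bad`: for different `q` prime to `m` the minimal polynomials `X^m - b^q` are different (`b ≥ 2`) irreducible monic, so pairwise coprime; each divides `ρ`, so the product divides `ρ` (`Finset.prod_dvd_of_coprime`), `m * card ≤ natDegree ρ`.
-/

set_option autoImplicit false

open Polynomial IntermediateField

namespace Pool.Agent.H36.LE

variable {E : Type} [Field E] [CharZero E] {b m : ℕ} {x : E}

theorem minpoly_pow (hb : 1 ≤ b) (hm : 1 ≤ m) (hx : x ^ m = (b : E))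
    (hdeg : Module.finrank ℚ ℚ⟮x⟯ = m) (q : ℕ) (hq : q.Coprime m) :
    minpoly ℚ (x ^ q) = X ^ m - C ((b : ℚ) ^ q) := by
  have hb0 : (b : E) ≠ 0 := Nat.cast_ne_zero.2 (by omega)
  have hx0 : x ≠ 0 := by
    rintro rfl
    rw [zero_pow (by omega)] at hx
    exact hb0 hx.symm
  have hi : IsIntegral ℚ (x ^ q) := by
    refine IsIntegral.pow (IsIntegral.of_pow (n := m) (by omega) ?_) q
    rw [hx]
    have h := isIntegral_algebraMap (R := ℚ) (A := E) (x := (b : ℚ))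
    rwa [map_natCast] at h
  have hmem : x ∈ ℚ⟮x ^ q⟯ := by
    obtain ⟨u, v, huv⟩ := Int.isCoprime_iff_gcd_eq_one.2
      (show Int.gcd (q : ℤ) (m : ℤ) = 1 from by rw [Int.gcd_natCast_natCast]; exact hq)
    have e : x = (x ^ q) ^ u * ((b : E)) ^ v := by
      have e1 : x ^ (u * (q : ℤ) + v * (m : ℤ)) = (x ^ q) ^ u * ((b : E)) ^ v := by
        rw [zpow_add₀ hx0, mul_comm u, mul_comm v, zpow_mul, zpow_mul, zpow_natCast, zpow_natCast,
          hx]
      rw [← e1, huv, zpow_one]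
    have h2 : (x ^ q) ^ u * ((b : E)) ^ v ∈ ℚ⟮x ^ q⟯ :=
      mul_mem (zpow_mem (mem_adjoin_simple_self ℚ _) u) (zpow_mem (_root_.natCast_mem _ b) v)
    rw [← e] at h2
    exact h2
  have hfield : ℚ⟮x ^ q⟯ = ℚ⟮x⟯ := by
    refine le_antisymm (adjoin_simple_le_iff.2 (pow_mem (mem_adjoin_simple_self ℚ x) q))
      (adjoin_simple_le_iff.2 hmem)
  have hnd : (minpoly ℚ (x ^ q)).natDegree = m := by
    rw [← adjoin.finrank hi, hfield, hdeg]
  refine (eq_of_monic_of_dvd_of_natDegree_le (minpoly.monic hi)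
    (monic_X_pow_sub_C _ (by omega)) (minpoly.dvd ℚ (x ^ q) ?_) ?_).symm
  · rw [map_sub, map_pow, aeval_X, aeval_C, map_pow, map_natCast, ← pow_mul, mul_comm q m, pow_mul,
      hx, sub_self]
  · rw [natDegree_X_pow_sub_C, hnd]

theorem isIntegral_x (hm : 1 ≤ m) (hx : x ^ m = (b : E)) (q : ℕ) : IsIntegral ℚ (x ^ q) := by
  refine IsIntegral.pow (IsIntegral.of_pow (n := m) (by omega) ?_) q
  rw [hx]
  have h := isIntegral_algebraMap (R := ℚ) (A := E) (x := (b : ℚ))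
  rwa [map_natCast] at h

theorem bad (hb : 2 ≤ b) (hm : 1 ≤ m) (hx : x ^ m = (b : E))
    (hdeg : Module.finrank ℚ ℚ⟮x⟯ = m) (S : Finset ℕ) (hS : ∀ q ∈ S, q.Coprime m) (ρ : ℚ[X])
    (hρ : ρ ≠ 0) (h0 : ∀ q ∈ S, aeval (x ^ q) ρ = 0) : m * S.card ≤ ρ.natDegree := by
  classical
  have h1 : ∀ q ∈ S, (X ^ m - C ((b : ℚ) ^ q)) ∣ ρ := by
    intro q hq
    rw [← minpoly_pow (by omega) hm hx hdeg q (hS q hq)]
    exact minpoly.dvd ℚ _ (h0 q hq)
  have h2 : (S : Set ℕ).Pairwise (Function.onFun IsCoprime fun q => X ^ m - C ((b : ℚ) ^ q)) := by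
    intro q _ q' _ hqq
    have h3 : (b : ℚ) ^ q' - (b : ℚ) ^ q ≠ 0 := by
      intro h4
      have h5 : (b : ℚ) ^ q' = (b : ℚ) ^ q := sub_eq_zero.1 h4
      have h6 : b ^ q' = b ^ q := by exact_mod_cast h5
      exact hqq (Nat.pow_right_injective hb h6).symm
    refine ⟨C (((b : ℚ) ^ q' - (b : ℚ) ^ q)⁻¹), - C (((b : ℚ) ^ q' - (b : ℚ) ^ q)⁻¹), ?_⟩
    have h7 : C (((b : ℚ) ^ q' - (b : ℚ) ^ q)⁻¹) * (X ^ m - C ((b : ℚ) ^ q)) +
        - C (((b : ℚ) ^ q' - (b : ℚ) ^ q)⁻¹) * (X ^ m - C ((b : ℚ) ^ q')) =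
        C (((b : ℚ) ^ q' - (b : ℚ) ^ q)⁻¹) * C ((b : ℚ) ^ q' - (b : ℚ) ^ q) := by
      rw [C_sub]
      ring
    rw [h7, ← C_mul, inv_mul_cancel₀ h3, C_1]
  have h8 := natDegree_le_of_dvd (Finset.prod_dvd_of_coprime h2 h1) hρ
  rw [natDegree_prod_of_monic _ _ (fun q _ => monic_X_pow_sub_C _ (by omega))] at h8
  simp only [natDegree_X_pow_sub_C, Finset.sum_const, smul_eq_mul] at h8
  rwa [mul_comm]

end Pool.Agent.H36.LE
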