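import Pool.Agent.H36.LE.PbA

/-!
# THEOREM L (MP_187c26_nt), chapter P: a resultant by a dimension count

Imports `PbA` (may be sorried).
PROOF. `n₁ = dX P`, `L₁ = natDegree P`, `n₂ = dX Q`, `L₂ = natDegree Q`, `s := n₁ (L₂ + 1) + n₂ (L₁ + 1)` (`≥ n₁ + n₂`). The linear map `(u, v) ↦ u P + v Q` from
`BS (s - n₁ + 1) (L₂ + 1) × BS (s - n₂ + 1) (L₁ + 1)` to `BS (s + 1) (L₁ + L₂ + 1)`. Its kernel: `u P = - v Q`, `P`, `Q` relatively prime (`k[X][Y]` is a unique factorization domain, so `IsRelPrime P Q` and `Q ∣ u P` give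
`Q ∣ u`: `IsRelPrime.dvd_of_dvd_mul_right`, DecompositionMonoid), `u = c Q`, so `v = - c P` and `natDegree c = 0`, `dX c ≤ s - n₁ - n₂`: the kernel is isomorphic to (at most) the polynomials `c ∈ k[X]` of degree
`≤ s - n₁ - n₂`, dimension `≤ s - n₁ - n₂ + 1`. So the image has dimension at least
`(s - n₁ + 1)(L₂ + 1) + (s - n₂ + 1)(L₁ + 1) - (s - n₁ - n₂ + 1) = (s + 1)(L₁ + L₂ + 1) - n₁ L₂ - n₂ L₁`, the subspace of the `C ρ`, `ρ` of degree `≤ s`, of `BS (s + 1) (L₁ + L₂ + 1)` has dimension `s + 1 > n₁ L₂ + n₂ L₁`.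
The sum of the two dimensions exceeds `(s + 1)(L₁ + L₂ + 1) = dim BS (s + 1) (L₁ + L₂ + 1)` (`finrank_BS`), so they meet: `C ρ = u P + v Q`, `ρ ≠ 0`, `natDegree ρ ≤ s`.
(Alternative: Mathlib `Polynomial.resultant` : `exists_mul_add_mul_eq_C_resultant`, nonvanishing over `RatFunc k` (`resultant_eq_zero_iff`, Gauss's lemma), degree bound from the determinant of the Sylvester matrix.)
`dvd_of_root`: if `G` does not divide `P`, then `G` irreducible and `P` are relatively prime, `C ρ = u G + v P`, evaluate at `(T, θ)`: `ρ(T) = 0`, contradiction to `T` transcendental (`aevalAeval_C`).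
`small_root`: the same with `minpoly k x` of degree `m > natDegree ρ` (`minpoly.dvd`, `natDegree_le_of_dvd`).
-/

set_option autoImplicit false

open Polynomial NumberField IntermediateField
open scoped Polynomial.Bivariate

namespace Pool.Agent.H36.LE

variable {k : Type} [Field k]

private theorem dim_aux (s n₁ n₂ L₁ L₂ : ℕ) (hs : s = n₁ * (L₂ + 1) + n₂ * (L₁ + 1)) :
    (s + 1) * (L₁ + L₂ + 1) + (s + 1) <
      (s - n₁ + 1) * (L₂ + 1) + ((s - n₂ + 1) * (L₁ + 1) + (s + 1)) := by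
  have h1 : n₁ ≤ s := by rw [hs]; nlinarith
  have h2 : n₂ ≤ s := by rw [hs]; nlinarith
  obtain ⟨a, ha⟩ := Nat.exists_eq_add_of_le h1
  obtain ⟨b, hb⟩ := Nat.exists_eq_add_of_le h2
  have e1 : s - n₁ = a := by omega
  have e2 : s - n₂ = b := by omega
  rw [e1, e2]
  have h3 : s * (L₂ + 1) = n₁ * (L₂ + 1) + a * (L₂ + 1) := by rw [← add_mul, ← ha]
  have h4 : s * (L₁ + 1) = n₂ * (L₁ + 1) + b * (L₁ + 1) := by rw [← add_mul, ← hb]
  nlinarith [h3, h4, hs]

private theorem mul_mem_BS (u P : k[X][Y]) (hP : P ≠ 0) (s L : ℕ) (h1 : dX P ≤ s)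
    (hu : u ∈ BS k (s - dX P + 1) (L + 1)) : u * P ∈ BS k (s + 1) (P.natDegree + L + 1) := by
  rw [mem_BS] at hu ⊢
  rcases hu with rfl | ⟨hu1, hu2⟩
  · left; rw [zero_mul]
  · by_cases hu0 : u = 0
    · left; rw [hu0, zero_mul]
    · right
      rw [natDegree_mul hu0 hP, dX_mul u P hu0 hP]
      omega

private theorem C_mem_BS (ρ : k[X]) (s L : ℕ) (h : ρ ∈ degreeLT k (s + 1)) :
    (C ρ : k[X][Y]) ∈ BS k (s + 1) (L + 1) := by
  rw [mem_BS]
  by_cases h0 : ρ = 0
  · left; rw [h0, C_0]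
  · right
    rw [natDegree_C, dX_C]
    refine ⟨by omega, ?_⟩
    rw [mem_degreeLT] at h
    exact (natDegree_lt_iff_degree_lt h0).mpr h

/-- A dimension count: `f a + g b = h d` has a solution with `d ≠ 0`. -/
private theorem ex_ker {M N : Type} [AddCommGroup M] [Module k M] [AddCommGroup N] [Module k N]
    (A B W : Submodule k M) (D : Submodule k N) [Module.Finite k A] [Module.Finite k B]
    [Module.Finite k D] [Module.Finite k W] (f g : M →ₗ[k] M) (h Ψ : N →ₗ[k] M)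
    (hf : ∀ a ∈ A, f a ∈ W) (hg : ∀ b ∈ B, g b ∈ W) (hh : ∀ d ∈ D, h d ∈ W)
    (hinj : ∀ b ∈ B, g b = 0 → b = 0)
    (hΨ : ∀ a ∈ A, ∀ b ∈ B, f a + g b = 0 → ∃ c ∈ D, a = Ψ c)
    (hdim : Module.finrank k W + Module.finrank k D <
      Module.finrank k A + (Module.finrank k B + Module.finrank k D)) :
    ∃ a ∈ A, ∃ b ∈ B, ∃ d ∈ D, d ≠ 0 ∧ h d = f a + g b := by
  let Φ : (A × B × D) →ₗ[k] M :=
    (f ∘ₗ A.subtype).coprod ((g ∘ₗ B.subtype).coprod (-(h ∘ₗ D.subtype)))
  have hΦ : ∀ x : A × B × D, Φ x = f x.1 + (g x.2.1 - h x.2.2) := by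
    intro x
    simp [Φ, sub_eq_add_neg]
  have hrange : LinearMap.range Φ ≤ W := by
    rintro _ ⟨x, rfl⟩
    rw [hΦ]
    exact Submodule.add_mem _ (hf _ x.1.2) (Submodule.sub_mem _ (hg _ x.2.1.2) (hh _ x.2.2.2))
  have hr : Module.finrank k (LinearMap.range Φ) ≤ Module.finrank k W :=
    Submodule.finrank_mono hrange
  have hdim2 : Module.finrank k (A × B × D) =
      Module.finrank k A + (Module.finrank k B + Module.finrank k D) := by
    rw [Module.finrank_prod, Module.finrank_prod]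
  have hrn := LinearMap.finrank_range_add_finrank_ker Φ
  have hk : Module.finrank k D < Module.finrank k (LinearMap.ker Φ) := by omega
  by_contra hcon
  push Not at hcon
  have hd : ∀ x ∈ LinearMap.ker Φ, (x.2.2 : N) = 0 := by
    intro x hx
    by_contra h0
    refine hcon x.1 x.1.2 x.2.1 x.2.1.2 x.2.2 x.2.2.2 h0 ?_
    have h1 : Φ x = 0 := hx
    rw [hΦ, ← add_sub_assoc] at h1
    exact (sub_eq_zero.mp h1).symm
  have hs : ∀ x ∈ LinearMap.ker Φ, f x.1 + g x.2.1 = 0 := by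
    intro x hx
    have h1 : Φ x = 0 := hx
    rw [hΦ, hd x hx, map_zero, sub_zero] at h1
    exact h1
  let Θ : LinearMap.ker Φ →ₗ[k] (D.map Ψ) :=
    (A.subtype ∘ₗ (LinearMap.fst k A (B × D)) ∘ₗ (LinearMap.ker Φ).subtype).codRestrict (D.map Ψ)
      (fun x => by
        obtain ⟨c, hc, hc2⟩ := hΨ x.1.1 x.1.1.2 x.1.2.1 x.1.2.1.2 (hs x.1 x.2)
        exact ⟨c, hc, hc2.symm⟩)
  have hΘ : Function.Injective Θ := by
    rw [injective_iff_map_eq_zero]
    intro x hx
    have h1 : (x.1.1 : M) = 0 := congrArg Subtype.val hx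
    have h2 := hs x.1 x.2
    rw [h1, map_zero, zero_add] at h2
    have h3 := hinj _ x.1.2.1.2 h2
    have h4 := hd x.1 x.2
    apply Subtype.ext
    refine Prod.ext (Subtype.ext h1) (Prod.ext (Subtype.ext h3) (Subtype.ext h4))
  have h5 := LinearMap.finrank_le_finrank_of_injective hΘ
  have h6 : Module.finrank k (D.map Ψ) ≤ Module.finrank k D := Submodule.finrank_map_le Ψ D
  omega

theorem res (P Q : k[X][Y]) (hP : P ≠ 0) (hQ : Q ≠ 0) (h : IsRelPrime P Q) :
    ∃ (ρ : k[X]) (u v : k[X][Y]), ρ ≠ 0 ∧ C ρ = u * P + v * Q ∧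
      ρ.natDegree ≤ dX P * (Q.natDegree + 1) + dX Q * (P.natDegree + 1) := by
  classical
  obtain ⟨s, hs⟩ : ∃ s, s = dX P * (Q.natDegree + 1) + dX Q * (P.natDegree + 1) := ⟨_, rfl⟩
  rw [← hs]
  have h1 : dX P ≤ s := by rw [hs]; nlinarith
  have h2 : dX Q ≤ s := by rw [hs]; nlinarith
  have hfin : Module.Finite k (degreeLT k (s + 1)) :=
    Module.Finite.equiv (degreeLTEquiv k (s + 1)).symm
  have hD : Module.finrank k (degreeLT k (s + 1)) = s + 1 := by
    rw [(degreeLTEquiv k (s + 1)).finrank_eq, Module.finrank_fin_fun]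
  let CL : k[X] →ₗ[k] k[X][Y] :=
    { toFun := fun ρ => C ρ
      map_add' := fun a b => C_add
      map_smul' := fun c a => by
        rw [RingHom.id_apply, smul_C] }
  obtain ⟨a, ha, b, hb, d, hd, hd0, heq⟩ := ex_ker (k := k)
    (BS k (s - dX P + 1) (Q.natDegree + 1)) (BS k (s - dX Q + 1) (P.natDegree + 1))
    (BS k (s + 1) (P.natDegree + Q.natDegree + 1)) (degreeLT k (s + 1))
    (LinearMap.mulRight k P) (LinearMap.mulRight k Q) CL (LinearMap.mulRight k Q ∘ₗ CL)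
    (fun a ha => mul_mem_BS a P hP s _ h1 ha)
    (fun b hb => by
      have := mul_mem_BS b Q hQ s _ h2 hb
      rwa [add_comm Q.natDegree P.natDegree] at this)
    (fun d hd => C_mem_BS d s _ hd)
    (fun b _ h0 => by
      have h3 : b * Q = 0 := h0
      exact (mul_eq_zero.mp h3).resolve_right hQ)
    (fun a ha b _ h0 => by
      have h3 : a * P + b * Q = 0 := h0
      have h4 : Q ∣ a * P := ⟨-b, by linear_combination h3⟩
      obtain ⟨c, hc⟩ : Q ∣ a := h.symm.dvd_of_dvd_mul_right h4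
      by_cases ha0 : a = 0
      · exact ⟨0, Submodule.zero_mem _, by rw [ha0, map_zero]⟩
      have hc0 : c ≠ 0 := by
        rintro rfl
        rw [mul_zero] at hc
        exact ha0 hc
      rw [mem_BS] at ha
      obtain ⟨h5, h6⟩ := ha.resolve_left ha0
      rw [hc, natDegree_mul hQ hc0] at h5
      rw [hc, dX_mul Q c hQ hc0] at h6
      have h7 : c.natDegree = 0 := by omega
      have h8 := eq_C_of_natDegree_eq_zero h7
      refine ⟨c.coeff 0, ?_, ?_⟩
      · rw [mem_degreeLT]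
        have h9 : c.coeff 0 ≠ 0 := by
          intro h10
          rw [h10, C_0] at h8
          exact hc0 h8
        rw [← natDegree_lt_iff_degree_lt h9]
        rw [h8, dX_C] at h6
        omega
      · show a = C (c.coeff 0) * Q
        rw [← h8, hc, mul_comm])
    (by
      rw [finrank_BS, finrank_BS, finrank_BS, hD]
      exact dim_aux s _ _ _ _ hs)
  refine ⟨d, a, b, hd0, heq, ?_⟩
  rw [mem_degreeLT, ← natDegree_lt_iff_degree_lt hd0] at hd
  omega

private theorem root_aux {Ω : Type} [Field Ω] [Algebra k Ω] (x a : Ω) (G P : k[X][Y])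
    (hG : Irreducible G) (hP : P ≠ 0) (h0 : aevalAeval (R := k) x a G = 0)
    (hP0 : aevalAeval (R := k) x a P = 0) (hnd : ¬ G ∣ P) :
    ∃ ρ : k[X], ρ ≠ 0 ∧ aeval x ρ = 0 ∧
      ρ.natDegree ≤ dX G * (P.natDegree + 1) + dX P * (G.natDegree + 1) := by
  obtain ⟨ρ, u, v, h1, h2, h3⟩ := res G P hG.ne_zero hP
    ((hG.isRelPrime_iff_not_dvd).mpr hnd)
  refine ⟨ρ, h1, ?_, h3⟩
  have h4 := congrArg (aevalAeval (R := k) x a) h2
  rw [map_add, map_mul, map_mul, h0, hP0, mul_zero, mul_zero, add_zero, aevalAeval_C] at h4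
  exact h4

theorem dvd_of_root {Ω : Type} [Field Ω] [Algebra k Ω] (T θ : Ω) (hT : Transcendental k T)
    (G P : k[X][Y]) (hG : Irreducible G) (h0 : aevalAeval (R := k) T θ G = 0)
    (hP : aevalAeval (R := k) T θ P = 0) : G ∣ P := by
  by_cases hP0 : P = 0
  · rw [hP0]; exact dvd_zero G
  by_contra hnd
  obtain ⟨ρ, h1, h2, _⟩ := root_aux T θ G P hG hP0 h0 hP hnd
  exact hT ⟨ρ, h1, h2⟩

/-- Two polynomials `G` (irreducible) and `P` with a common zero `(x, a)`, `x` of large degree. -/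
theorem small_root {Ω : Type} [Field Ω] [Algebra k Ω] (x a : Ω) (hx : IsIntegral k x)
    (G P : k[X][Y]) (hG : Irreducible G) (hP : P ≠ 0) (h0 : aevalAeval (R := k) x a G = 0)
    (hP0 : aevalAeval (R := k) x a P = 0)
    (hdeg : dX G * (P.natDegree + 1) + dX P * (G.natDegree + 1) < (minpoly k x).natDegree) :
    G ∣ P := by
  by_contra hnd
  obtain ⟨ρ, h1, h2, h3⟩ := root_aux x a G P hG hP h0 hP0 hnd
  have h4 := natDegree_le_of_dvd (minpoly.dvd k x h2) h1
  omega

end Pool.Agent.H36.LE
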