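import Pool.Agent.H36.LE.PbA

/-!
# THEOREM L (MP_187c26_nt), chapter P: greatest common divisor of a space of polynomials

Imports `PbA` (may be sorried).
PROOF. `V ≠ 0` finite dimensional. Take `G` a common divisor of all elements of `V` which is maximal: e.g. `G = gcd` of a basis (the `NormalizedGCDMonoid`/`GCDMonoid` structure of the unique factorization domain `k[X][Y]`,
`UniqueFactorizationMonoid.toGCDMonoid`, `Finset.gcd` or induction), or a common divisor with maximal number of irreducible factors (bounded by that of one nonzero element). `G ≠ 0`. Let `W = {P : G * P ∈ V}` (subspace, isomorphic to `V`,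
not `0`); there is no irreducible `f` dividing all elements of `W` (otherwise `G f` would be a common divisor). Take `0 ≠ P₁ ∈ W`. It has finitely many irreducible factors up to associates (`normalizedFactors` or `UniqueFactorizationMonoid.factors P₁`).
For each of them `{P ∈ W : f ∣ P}` is a proper subspace of `W`; `k` is infinite, so `W` is not the union of these finitely many subspaces (`Subspace.biUnion_ne_univ_of_top_notMem` for the subspaces of `W`). Take `P₂ ∈ W` outside of all of them; if `P₁` is a unit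
take `P₂ = P₁` (no factors: the union is empty, any `P₂`; choose `P₂ ≠ 0`). Then `P₁`, `P₂` have no common irreducible factor: `IsRelPrime` (`UniqueFactorizationMonoid` / `WfDvdMonoid.isRelPrime_of_no_irreducible_factors` or `isRelPrime_of_no_nonunits_factors`).
`P₂ ≠ 0`: if `P₁` is not a unit, `0` lies in the proper subspace; if `P₁` is a unit take `P₂ = P₁`.
-/

set_option autoImplicit false

open Polynomial NumberField IntermediateField
open scoped Polynomial.Bivariate

namespace Pool.Agent.H36.LE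

variable {k : Type} [Field k]

/-- The elements of `W` divisible by `f`, as a subspace of `W`. -/
private def dvdSub (W : Submodule k k[X][Y]) (f : k[X][Y]) : Submodule k W where
  carrier := {P | f ∣ (P : k[X][Y])}
  zero_mem' := dvd_zero f
  add_mem' := fun ha hb => dvd_add ha hb
  smul_mem' := fun c P hP => by
    show f ∣ c • (P : k[X][Y])
    rw [Algebra.smul_def]
    exact Dvd.dvd.mul_left hP _

/-- A common divisor without further common factors. -/
private theorem ex_gcd (V : Submodule k k[X][Y]) (hV : V ≠ ⊥) :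
    ∃ G H : k[X][Y], G ≠ 0 ∧ H ≠ 0 ∧ (∀ P ∈ V, G ∣ P) ∧ G * H ∈ V ∧
      ∀ f : k[X][Y], ¬ IsUnit f → ¬ ∀ P ∈ V, G * f ∣ P := by
  obtain ⟨P₀, hP₀, hne⟩ := Submodule.exists_mem_ne_zero_of_ne_bot hV
  obtain ⟨H, ⟨G, hG, hdiv⟩, hmin⟩ := (wellFounded_dvdNotUnit (α := k[X][Y])).has_min
    {H : k[X][Y] | ∃ G : k[X][Y], P₀ = G * H ∧ ∀ P ∈ V, G ∣ P}
    ⟨P₀, 1, (one_mul _).symm, fun P _ => one_dvd P⟩
  have hG0 : G ≠ 0 := by
    rintro rfl
    rw [zero_mul] at hG
    exact hne hG
  have hH0 : H ≠ 0 := by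
    rintro rfl
    rw [mul_zero] at hG
    exact hne hG
  refine ⟨G, H, hG0, hH0, hdiv, hG ▸ hP₀, ?_⟩
  intro f hf hall
  obtain ⟨H', hH'⟩ := hall P₀ hP₀
  have h1 : H = f * H' := by
    apply mul_left_cancel₀ hG0
    rw [← hG, hH', mul_assoc]
  have h2 : H' ≠ 0 := by
    rintro rfl
    rw [mul_zero] at h1
    exact hH0 h1
  refine hmin H' ⟨G * f, hH', hall⟩ ⟨h2, f, hf, ?_⟩
  rw [h1, mul_comm]

theorem gcd_two [Infinite k] (V : Submodule k k[X][Y]) [Module.Finite k V] (hV : V ≠ ⊥) :
    ∃ G P₁ P₂ : k[X][Y], G ≠ 0 ∧ (∀ P ∈ V, G ∣ P) ∧ G * P₁ ∈ V ∧ G * P₂ ∈ V ∧ P₁ ≠ 0 ∧ P₂ ≠ 0 ∧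
      IsRelPrime P₁ P₂ := by
  classical
  obtain ⟨G, H, hG0, hH0, hdiv, hGH, hno⟩ := ex_gcd V hV
  by_cases hu : IsUnit H
  · exact ⟨G, H, H, hG0, hdiv, hGH, hGH, hH0, hH0, hu.isRelPrime_left⟩
  let W : Submodule k k[X][Y] := V.comap (LinearMap.mulLeft k G)
  have hW : ∀ P, P ∈ W ↔ G * P ∈ V := fun P => Iff.rfl
  let s : Finset (Subspace k W) :=
    (UniqueFactorizationMonoid.factors H).toFinset.image (dvdSub W)
  have hs : (⊤ : Subspace k W) ∉ s := by
    intro htop
    obtain ⟨f, hf, hftop⟩ := Finset.mem_image.mp htop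
    rw [Multiset.mem_toFinset] at hf
    have hirr := UniqueFactorizationMonoid.irreducible_of_factor f hf
    apply hno f hirr.not_isUnit
    intro P hP
    obtain ⟨Q, rfl⟩ := hdiv P hP
    have hQ : (⟨Q, (hW Q).mpr hP⟩ : W) ∈ dvdSub W f := by
      rw [hftop]; exact Submodule.mem_top
    exact mul_dvd_mul_left G hQ
  have h1 := Subspace.biUnion_ne_univ_of_top_notMem hs
  obtain ⟨P, hP⟩ := (Set.ne_univ_iff_exists_notMem _).mp h1
  have hP2 : ∀ f ∈ UniqueFactorizationMonoid.factors H, ¬ f ∣ (P : k[X][Y]) := by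
    intro f hf hfP
    apply hP
    refine Set.mem_biUnion (x := dvdSub W f) ?_ ?_
    · exact Finset.mem_coe.mpr (Finset.mem_image_of_mem _ (Multiset.mem_toFinset.mpr hf))
    · exact hfP
  have hP0 : (P : k[X][Y]) ≠ 0 := by
    intro h0
    obtain ⟨f, hf, hfH⟩ := WfDvdMonoid.exists_irreducible_factor hu hH0
    obtain ⟨f', hf', _⟩ := UniqueFactorizationMonoid.exists_mem_factors_of_dvd hH0 hf hfH
    apply hP2 f' hf'
    rw [h0]
    exact dvd_zero _
  refine ⟨G, H, P, hG0, hdiv, hGH, (hW _).mp P.2, hH0, hP0, ?_⟩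
  apply WfDvdMonoid.isRelPrime_of_no_irreducible_factors (fun h => hH0 h.1)
  intro f hf hfH hfP
  obtain ⟨f', hf', hass⟩ := UniqueFactorizationMonoid.exists_mem_factors_of_dvd hH0 hf hfH
  exact hP2 f' hf' (hass.symm.dvd.trans hfP)

end Pool.Agent.H36.LE
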