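import Pool.Agent.H36.LE.PbB
import Pool.Agent.H36.LE.PbC
import Pool.Agent.H36.LE.PbD
import Pool.Agent.H36.LE.Mp

/-!
# THEOREM L (MP_187c26_nt), step A: a small curve through one of the points `(x^q, a^q)`

Imports may be sorried.
PROOF. `V := Vs x a n L 1 𝒬 ≤ BS ℚ n L`, `dim V ≥ n L - D > 0` (`finrank_BS`, `finite_BS`), so `V ≠ ⊥`. `gcd_two`: `G`, `P₁`, `P₂`. `n_G := dX G`, `L_G := natDegree G`. `finrank_le_of_dvd`: `n L - D ≤ dim V ≤ (n - n_G)(L - L_G)`; positive, so `n_G < n`, `L_G < L` and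
`n_G L + (n - n_G) L_G ≤ D` (`n L = (n - n_G)(L - L_G) + n_G L + (n - n_G) L_G`). `res P₁ P₂`: `ρ ≠ 0`, `C ρ = u P₁ + v P₂`, `natDegree ρ ≤ dX P₁ (natDegree P₂ + 1) + dX P₂ (natDegree P₁ + 1) ≤ 2 (n - 1) L < 2 n L` (`G P_i ∈ BS n L`, `mem_BS`, `dX_mul`, `natDegree_mul`: `dX P_i ≤ n - 1`,
`natDegree P_i ≤ L - 1`; `n ≥ 1`, `L ≥ 1` from `D < n L`). Suppose `G(x^q, a^q) ≠ 0` for all `q ∈ 𝒬`. `G P_i ∈ V` vanishes at `(x^q, a^q)` (`g = 1`, `1 * q`), so `P_i(x^q, a^q) = 0`, so `ρ(x^q) = 0` (`aevalAeval_C`) for all `q ∈ 𝒬`; `bad`: `m #𝒬 ≤ natDegree ρ < 2 n L`: contradiction. So some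
`q ∈ 𝒬` has `G(x^q, a^q) = 0`, and an irreducible factor `G₀` of `G` (`G` is not a unit) has `G₀(x^q, a^q) = 0`. `dX G₀ ≤ n_G`, `natDegree G₀ ≤ L_G`. The function `n' L + (n - n') L' = n' (L - L') + n L'` is increasing in `n' ≤ n`, `L' ≤ L`. `natDegree G₀ ≥ 1`: otherwise `G₀ = C f`, `f(x^q) = 0`, `f ≠ 0`,
`natDegree f = dX G₀ < n ≤ m` but the minimal polynomial of `x^q` has degree `m` (`minpoly_pow`).
-/

set_option autoImplicit false

open Polynomial NumberField IntermediateField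
open scoped Polynomial.Bivariate

namespace Pool.Agent.H36.LE

theorem stepA {E : Type} [Field E] [CharZero E] {b m : ℕ} {x : E} (hb : 2 ≤ b) (hm : 1 ≤ m)
    (hx : x ^ m = (b : E)) (hdeg : Module.finrank ℚ ℚ⟮x⟯ = m) (a : E) (n L D : ℕ)
    (𝒬 : Finset ℕ) (h𝒬 : ∀ q ∈ 𝒬, q.Coprime m) (hnm : n ≤ m)
    (hD : n * L - Module.finrank ℚ (Vs (k := ℚ) x a n L 1 𝒬) ≤ D) (hDn : D < n * L)
    (hc : 2 * n * L ≤ m * 𝒬.card) :
    ∃ q ∈ 𝒬, ∃ G : ℚ[X][Y], Irreducible G ∧ aevalAeval (R := ℚ) (x ^ q) (a ^ q) G = 0 ∧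
      dX G < n ∧ G.natDegree < L ∧ 1 ≤ G.natDegree ∧
      dX G * L + (n - dX G) * G.natDegree ≤ D := by
  classical
  obtain ⟨V, hV⟩ : ∃ V, V = Vs (k := ℚ) x a n L 1 𝒬 := ⟨_, rfl⟩
  rw [← hV] at hD
  have hVB : V ≤ BS ℚ n L := by
    rw [hV]
    exact inf_le_left
  have := isNoetherian_of_isNoetherianRing_of_finite ℚ (BS ℚ n L)
  have hfin : Module.Finite ℚ V :=
    Module.Finite.of_injective (Submodule.inclusion hVB) (Submodule.inclusion_injective hVB)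
  have hVne : V ≠ ⊥ := by
    intro h
    rw [h, finrank_bot] at hD
    omega
  obtain ⟨G, P₁, P₂, hG0, hGd, hG1, hG2, h1, h2, hrel⟩ := gcd_two V hVne
  have hle := finrank_le_of_dvd G hG0 n L V hVB hGd
  have hD' : n * L ≤ D + Module.finrank ℚ V := by omega
  have hpos : 0 < (n - dX G) * (L - G.natDegree) := by omega
  have hn1 : dX G < n := by
    by_contra h
    rw [Nat.sub_eq_zero_of_le (not_lt.1 h), zero_mul] at hpos
    exact lt_irrefl _ hpos
  have hL1 : G.natDegree < L := by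
    by_contra h
    rw [Nat.sub_eq_zero_of_le (not_lt.1 h), mul_zero] at hpos
    exact lt_irrefl _ hpos
  have hGD : dX G * L + (n - dX G) * G.natDegree ≤ D := by
    obtain ⟨n', hn'⟩ := Nat.exists_eq_add_of_le hn1.le
    obtain ⟨L', hL'⟩ := Nat.exists_eq_add_of_le hL1.le
    have e1 : n - dX G = n' := by omega
    have e2 : L - G.natDegree = L' := by omega
    rw [e1, e2] at hle
    rw [e1]
    have e3 : n * L = dX G * L + n' * G.natDegree + n' * L' := by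
      conv_lhs => rw [hn', add_mul]
      rw [add_assoc, ← mul_add, ← hL']
    omega
  have hbd : ∀ P, P ≠ 0 → G * P ∈ V → P.natDegree < L ∧ dX P < n := by
    intro P hP hPV
    rcases (mem_BS _ _ _).1 (hVB hPV) with h | ⟨h3, h4⟩
    · exact absurd h (mul_ne_zero hG0 hP)
    · rw [natDegree_mul hG0 hP] at h3
      rw [dX_mul G P hG0 hP] at h4
      omega
  obtain ⟨ρ, u, v, hρ, huv, hρd⟩ := res P₁ P₂ h1 h2 hrel
  obtain ⟨a1, a2⟩ := hbd P₁ h1 hG1
  obtain ⟨a3, a4⟩ := hbd P₂ h2 hG2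
  have hρ2 : ρ.natDegree < 2 * n * L := by
    have b1 : dX P₁ * (P₂.natDegree + 1) ≤ dX P₁ * L := Nat.mul_le_mul_left _ a3
    have b2 : dX P₂ * (P₁.natDegree + 1) ≤ dX P₂ * L := Nat.mul_le_mul_left _ a1
    have b3 : (dX P₁ + 1) * L ≤ n * L := Nat.mul_le_mul_right _ a2
    have b4 : (dX P₂ + 1) * L ≤ n * L := Nat.mul_le_mul_right _ a4
    rw [add_mul, one_mul] at b3 b4
    have b5 : 2 * n * L = n * L + n * L := by ring
    omega
  have hq : ∃ q ∈ 𝒬, aevalAeval (R := ℚ) (x ^ q) (a ^ q) G = 0 := by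
    by_contra hcon
    push Not at hcon
    have hz : ∀ q ∈ 𝒬, aeval (x ^ q) ρ = 0 := by
      intro q hq
      have hP : ∀ P, G * P ∈ V → aevalAeval (R := ℚ) (x ^ q) (a ^ q) P = 0 := by
        intro P hP
        rw [hV] at hP
        have h4 : aevalAeval (R := ℚ) (x ^ (1 * q)) (a ^ (1 * q)) (G * P) = 0 :=
          (Submodule.mem_iInf _).1 ((Submodule.mem_iInf _).1 hP.2.2 q) hq
        rw [one_mul, map_mul, mul_eq_zero] at h4
        exact h4.resolve_left (hcon q hq)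
      have h5 := congrArg (aevalAeval (R := ℚ) (x ^ q) (a ^ q)) huv
      rw [map_add, map_mul, map_mul, hP _ hG1, hP _ hG2, mul_zero, mul_zero, add_zero,
        aevalAeval_C] at h5
      exact h5
    have h5 := bad hb hm hx hdeg 𝒬 h𝒬 ρ hρ hz
    omega
  obtain ⟨q, hq, hq0⟩ := hq
  obtain ⟨G₀, hirr, hdvd, hG₀⟩ : ∃ G₀ : ℚ[X][Y], Irreducible G₀ ∧ G₀ ∣ G ∧
      aevalAeval (R := ℚ) (x ^ q) (a ^ q) G₀ = 0 := by
    have h3 : aevalAeval (R := ℚ) (x ^ q) (a ^ q) (UniqueFactorizationMonoid.factors G).prod = 0 := by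
      obtain ⟨w, hw⟩ := UniqueFactorizationMonoid.factors_prod hG0
      have h4 := congrArg (aevalAeval (R := ℚ) (x ^ q) (a ^ q)) hw
      rw [map_mul, hq0, mul_eq_zero] at h4
      exact h4.resolve_right (w.isUnit.map (aevalAeval (R := ℚ) (x ^ q) (a ^ q))).ne_zero
    rw [map_multiset_prod, Multiset.prod_eq_zero_iff, Multiset.mem_map] at h3
    obtain ⟨G₀, hm0, h4⟩ := h3
    exact ⟨G₀, UniqueFactorizationMonoid.irreducible_of_factor G₀ hm0,
      UniqueFactorizationMonoid.dvd_of_mem_factors hm0, h4⟩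
  have hG₀0 : G₀ ≠ 0 := hirr.ne_zero
  obtain ⟨R, hR⟩ := hdvd
  have hR0 : R ≠ 0 := by
    rintro rfl
    rw [mul_zero] at hR
    exact hG0 hR
  have hn2 : dX G = dX G₀ + dX R := by rw [hR, dX_mul G₀ R hG₀0 hR0]
  have hL2 : G.natDegree = G₀.natDegree + R.natDegree := by rw [hR, natDegree_mul hG₀0 hR0]
  refine ⟨q, hq, G₀, hirr, hG₀, by omega, by omega, ?_, ?_⟩
  · by_contra hcon
    have h3 : G₀.natDegree = 0 := by omega
    have h4 := eq_C_of_natDegree_eq_zero h3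
    obtain ⟨f, hf⟩ : ∃ f : ℚ[X], G₀ = C f := ⟨_, h4⟩
    have hf0 : f ≠ 0 := by
      rintro rfl
      rw [C_0] at hf
      exact hG₀0 hf
    rw [hf, aevalAeval_C] at hG₀
    have h5 := natDegree_le_of_dvd (minpoly.dvd ℚ (x ^ q) hG₀) hf0
    rw [minpoly_pow (by omega) hm hx hdeg q (h𝒬 q hq), natDegree_X_pow_sub_C] at h5
    have h6 : dX G₀ = f.natDegree := by rw [hf, dX_C]
    omega
  · refine le_trans ?_ hGD
    have e1 : n - dX G₀ = (n - dX G) + dX R := by omega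
    rw [e1, hn2, hL2]
    have e2 : dX R * G₀.natDegree ≤ dX R * L := Nat.mul_le_mul_left _ (by omega)
    have e3 : n - (dX G₀ + dX R) = n - dX G := by rw [hn2]
    rw [e3]
    have e4 : (n - dX G + dX R) * G₀.natDegree = (n - dX G) * G₀.natDegree + dX R * G₀.natDegree := by ring
    have e5 : (dX G₀ + dX R) * L = dX G₀ * L + dX R * L := by ring
    have e6 : (n - dX G) * (G₀.natDegree + R.natDegree) =
      (n - dX G) * G₀.natDegree + (n - dX G) * R.natDegree := by ring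
    rw [hn2] at e4 e6
    rw [hn2]
    omega

end Pool.Agent.H36.LE
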