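import Pool.Agent.H36.LE.Cor
import Pool.Agent.H36.LE.StA
import Pool.Agent.H36.LE.Pr

/-!
# THEOREM L (MP_187c26_nt), parameters, part 1

Imports may be sorried (`cor`, `stepA`, `many_primes`).
`primes_coprime`: from `many_primes`: `T ≥ T₀`, `s` primes excluded: the set `{p ∈ [1, T], p prime, T < 4 p, p ∤ m}` has at least `#(primes) - s` elements (those dividing `m` lie in `m.primeFactors`).
PROOF of `finA`. `N` = the parameter (`Y` in the text), `N ≥ N₀(b, ι)` large, `300 d ≤ N`, `#primeFactors m ≤ N`, `m ≥ N^90`, `N^141 h ≤ 1` (`h = absLogHeight₁ a`). `Q := N^52`, `L := d N^88`, `n := m / Q + 1`, `𝒬 := {q ∈ [1, Q] prime, Q < 4 q, q ∤ m}`, `#𝒬 ≥ N^39 - N ≥ N^38`, `D := 8 m d`.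
(1) conditions of `cor` with `g = 1`: `(n - 1) q = (m / Q) q ≤ m`; `n ≤ m`; `8 (2 log b + ι + log (L d)/2 + 1) ≤ 360 log N + 16 log b + 8 ι + 8 ≤ 7 (52 log N - log 4) ≤ 7 log q` (`L d = d^2 N^88 ≤ N^90`, `N ≥ N₀`); `q L h ≤ N^52 d N^88 h ≤ N^141 h ≤ 1`.
(2) `Vs ∅` is the kernel of a linear map from `BS ℚ n L` to `E` (dimension `m d`), so `n L - dim Vs ∅ ≤ m d` and `cor`: `n L - dim Vs 𝒬 ≤ 8 m d = D`. `D < n L`: `n Q > m`, so `n L Q > m d N^88`, `8 m d N^52 ≤ m d N^88`. `2 n L ≤ m #𝒬`: `n ≤ 2 m / Q` as `m ≥ Q`, so `2 n L ≤ 4 m d N^36 ≤ m N^38`.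
(3) `stepA`: `q₁`, `G`, `n₀ = dX G < n`, `L₀ = natDegree G ≥ 1`, `n₀ L + (n - n₀) L₀ ≤ 8 m d`. So `n₀ d N^88 ≤ 8 m d`: `n₀ N^88 ≤ 8 m` (`d ≥ 1`). `(n - n₀) ≥ m / (2 N^52)` (reals: `n > m / N^52`, `n₀ ≤ 8 m / N^88`), so `L₀ ≤ 16 d N^52 ≤ N^53`.
-/

set_option autoImplicit false

open Polynomial NumberField IntermediateField
open scoped Polynomial.Bivariate

namespace Pool.Agent.H36.LE

theorem primes_coprime : ∃ T₀ : ℕ, ∀ T m s : ℕ, T₀ ≤ T → 1 ≤ m → m.primeFactors.card ≤ s →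
    T ^ 3 ≤ (((Finset.Icc 1 T).filter fun p => p.Prime ∧ T < 4 * p ∧ ¬ p ∣ m).card + s) ^ 4 := by
  classical
  obtain ⟨T₀, hT₀⟩ := many_primes
  refine ⟨T₀, fun T m s hT hm hs => ?_⟩
  refine (hT₀ T hT).trans (Nat.pow_le_pow_left ?_ 4)
  have hsub : ((Finset.Icc 1 T).filter fun p => p.Prime ∧ T < 4 * p) ⊆
      ((Finset.Icc 1 T).filter fun p => p.Prime ∧ T < 4 * p ∧ ¬ p ∣ m) ∪ m.primeFactors := by
    intro p hp
    rw [Finset.mem_filter] at hp
    rw [Finset.mem_union, Finset.mem_filter, Nat.mem_primeFactors]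
    by_cases h : p ∣ m
    · exact Or.inr ⟨hp.2.1, h, by omega⟩
    · exact Or.inl ⟨hp.1, hp.2.1, hp.2.2, h⟩
  calc _ ≤ _ := Finset.card_le_card hsub
    _ ≤ _ := Finset.card_union_le _ _
    _ ≤ _ := Nat.add_le_add_left hs _

private theorem fina_h {E : Type} [Field E] [CharZero E] (a : E) : 0 ≤ absLogHeight₁ a := by
  unfold absLogHeight₁ absMulHeight₁
  split_ifs with hx
  · have : FiniteDimensional ℚ ℚ⟮a⟯ := adjoin.finiteDimensional hx
    have : NumberField ℚ⟮a⟯ := {}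
    refine Real.log_nonneg ?_
    exact Real.one_le_rpow (Height.one_le_mulHeight₁ _) (by positivity)
  · rw [Real.log_one]

private theorem fina_dim {k E : Type} [Field k] [Field E] [Algebra k E] [FiniteDimensional k E]
    (x a : E) (n L : ℕ) :
    n * L - Module.finrank k (Vs (k := k) x a n L 1 ∅) ≤ Module.finrank k E := by
  obtain ⟨f, hf⟩ : ∃ f : BS k n L →ₗ[k] E, f =
      (aevalAeval (R := k) (x ^ 1) (a ^ 1)).toLinearMap.comp (BS k n L).subtype := ⟨_, rfl⟩
  have h1 : Module.finrank k (LinearMap.range f) + Module.finrank k (LinearMap.ker f) =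
      Module.finrank k (BS k n L) := by
    let _ : AddCommGroup (BS k n L) := (BS k n L).addCommGroup
    exact LinearMap.finrank_range_add_finrank_ker f
  rw [finrank_BS] at h1
  have h2 : Module.finrank k (LinearMap.range f) ≤ Module.finrank k E := Submodule.finrank_le _
  have h3 : (LinearMap.ker f).map (BS k n L).subtype ≤ Vs (k := k) x a n L 1 ∅ := by
    rintro _ ⟨P, hP, rfl⟩
    refine ⟨P.2, ?_, ?_⟩
    · have h4 : f P = 0 := hP
      rw [hf] at h4
      exact h4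
    · simp
  have h4 : Module.finrank k (LinearMap.ker f) ≤ Module.finrank k (Vs (k := k) x a n L 1 ∅) := by
    rw [← Submodule.finrank_map_subtype_eq (BS k n L) (LinearMap.ker f)]
    have h5 : Module.Finite k (Vs (k := k) x a n L 1 ∅) := by
      have h6 : Vs (k := k) x a n L 1 ∅ ≤ BS k n L := inf_le_left
      have h7 : IsNoetherian k (BS k n L) := by
        let _ : AddCommGroup (BS k n L) := (BS k n L).addCommGroup
        exact isNoetherian_of_isNoetherianRing_of_finite k (BS k n L)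
      exact Module.Finite.of_injective (Submodule.inclusion h6) (Submodule.inclusion_injective h6)
    exact Submodule.finrank_mono h3
  omega

theorem finA (b : ℕ) (hb : 2 ≤ b) (ι : ℝ) (hι : 0 ≤ ι) : ∃ N₀ : ℕ, ∀ N : ℕ, N₀ ≤ N →
    ∀ (E : Type) [Field E] [NumberField E] (m d : ℕ) (x a : E), Rd b m d ι x → 300 * d ≤ N →
      m.primeFactors.card ≤ N → N ^ 90 ≤ m → (N : ℝ) ^ 141 * absLogHeight₁ a ≤ 1 →
      ∃ (q : ℕ) (G : ℚ[X][Y]), 1 ≤ q ∧ q ≤ N ^ 52 ∧ q.Coprime m ∧ Irreducible G ∧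
        aevalAeval (R := ℚ) (x ^ q) (a ^ q) G = 0 ∧ 1 ≤ G.natDegree ∧ G.natDegree ≤ N ^ 53 ∧
        dX G * N ^ 88 ≤ 8 * m := by
  obtain ⟨T₀, hT₀⟩ := primes_coprime
  refine ⟨max (max T₀ 16) ⌈Real.exp (4 * Real.log b + 2 * ι + 2 + 2 * Real.log 4)⌉₊, ?_⟩
  intro N hN E _ _ m d x a hx hd hpf hm hNh
  have hNT : T₀ ≤ N := (le_max_left _ _).trans ((le_max_left _ _).trans hN)
  have hN16 : 16 ≤ N := (le_max_right _ _).trans ((le_max_left _ _).trans hN)
  have hNe : Real.exp (4 * Real.log b + 2 * ι + 2 + 2 * Real.log 4) ≤ N := by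
    refine (Nat.le_ceil _).trans ?_
    exact_mod_cast (le_max_right _ _).trans hN
  have hN0 : (0 : ℝ) < N := by exact_mod_cast (lt_of_lt_of_le (by norm_num) hN16)
  have hlogN : 4 * Real.log b + 2 * ι + 2 + 2 * Real.log 4 ≤ Real.log N := by
    rw [Real.le_log_iff_exp_le hN0]
    exact hNe
  have hd1 : 1 ≤ d := by
    by_contra h0
    have h1 : d = 0 := by omega
    have h2 := hx.fin
    rw [h1, mul_zero] at h2
    have h3 : 0 < Module.finrank ℚ E := Module.finrank_pos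
    omega
  have hNpos : 1 ≤ N := by omega
  obtain ⟨Q, hQ⟩ : ∃ Q : ℕ, Q = N ^ 52 := ⟨_, rfl⟩
  obtain ⟨L, hL⟩ : ∃ L : ℕ, L = d * N ^ 88 := ⟨_, rfl⟩
  obtain ⟨n, hn⟩ : ∃ n : ℕ, n = m / Q + 1 := ⟨_, rfl⟩
  obtain ⟨S, hS⟩ : ∃ S : Finset ℕ, S = (Finset.Icc 1 Q).filter
    fun p => p.Prime ∧ Q < 4 * p ∧ ¬ p ∣ m := ⟨_, rfl⟩
  have hQN : N ≤ Q := by
    rw [hQ]
    exact Nat.le_self_pow (by norm_num) N
  have hQ1 : 1 ≤ Q := hNpos.trans hQN
  have hQm : Q ≤ m := by
    refine le_trans ?_ hm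
    rw [hQ]
    exact Nat.pow_le_pow_right hNpos (by norm_num)
  have hm1 : 1 ≤ m := hQ1.trans hQm
  have hL1 : 1 ≤ L := by
    rw [hL]
    exact Nat.mul_pos hd1 (Nat.pow_pos hNpos)
  -- the number of primes
  have hScard : N ^ 38 ≤ S.card := by
    have h1 := hT₀ Q m N (hNT.trans hQN) hm1 hpf
    rw [← hS] at h1
    have h2 : (N ^ 39) ^ 4 ≤ (S.card + N) ^ 4 := by
      refine le_trans (le_of_eq ?_) h1
      rw [hQ, ← pow_mul, ← pow_mul]
    have h3 : N ^ 39 ≤ S.card + N := (Nat.pow_le_pow_iff_left (by norm_num)).1 h2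
    have h4 : N ≤ N ^ 38 := Nat.le_self_pow (by norm_num) N
    have h5 : 2 * N ^ 38 ≤ N ^ 39 := by
      rw [pow_succ N 38, mul_comm (N ^ 38)]
      exact Nat.mul_le_mul_right _ (by omega)
    omega
  -- sizes
  have hdivQ : m / Q * Q ≤ m := Nat.div_mul_le_self m Q
  have hnQ : m < n * Q := by
    rw [hn]
    rw [mul_comm]
    exact Nat.lt_mul_div_succ m hQ1
  have hnQ2 : n * Q ≤ 2 * m := by
    rw [hn, add_mul, one_mul]
    omega
  have hnm : n ≤ m := by
    have hQ2 : 2 ≤ Q := le_trans (by omega) hQN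
    have h2 : n * 2 ≤ n * Q := Nat.mul_le_mul_left _ hQ2
    omega
  have hlogb : 0 ≤ Real.log b := Real.log_nonneg (by exact_mod_cast (by omega : 1 ≤ b))
  have hn1 : 1 ≤ n := by
    rw [hn]
    exact Nat.le_add_left _ _
  have hcor := cor hx hι a n L 1 hn1 hnm hL1 le_rfl (Nat.coprime_one_left m) S (by
    intro q hq
    rw [hS, Finset.mem_filter, Finset.mem_Icc] at hq
    obtain ⟨⟨hq1, hq2⟩, hqp, hq4, hqm⟩ := hq
    refine ⟨hqp, hqm, ?_, ?_, ?_⟩
    · rw [one_mul, hn, Nat.add_sub_cancel]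
      exact (Nat.mul_le_mul_left _ hq2).trans hdivQ
    · have h1 : Real.log ((L : ℝ) * d) ≤ 90 * Real.log N := by
        have h2 : (L : ℝ) * d ≤ (N : ℝ) ^ 90 := by
          have h3 : L * d ≤ N ^ 90 := by
            rw [hL]
            calc d * N ^ 88 * d = d * d * N ^ 88 := by ring
              _ ≤ N * N * N ^ 88 := Nat.mul_le_mul_right _ (Nat.mul_le_mul (by omega) (by omega))
              _ = N ^ 90 := by ring
          exact_mod_cast h3
        have h4 : (0 : ℝ) < (L : ℝ) * d := by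
          have h5 : (0 : ℝ) < L := by exact_mod_cast hL1
          have h6 : (0 : ℝ) < d := by exact_mod_cast hd1
          positivity
        have h5 := Real.log_le_log h4 h2
        rw [Real.log_pow] at h5
        exact_mod_cast h5
      have h2 : 52 * Real.log N ≤ Real.log q + Real.log 4 := by
        have h3 : (N : ℝ) ^ 52 ≤ q * 4 := by
          have h4 : N ^ 52 ≤ q * 4 := by
            rw [← hQ]
            omega
          exact_mod_cast h4
        have h5 := Real.log_le_log (by positivity) h3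
        have h6 : (q : ℝ) ≠ 0 := by
          have : q ≠ 0 := by omega
          exact_mod_cast this
        rw [Real.log_pow, Real.log_mul h6 (by norm_num)] at h5
        exact_mod_cast h5
      have h4 : 0 ≤ Real.log 4 := Real.log_nonneg (by norm_num)
      linarith
    · have h1 : (((1 : ℕ) : ℝ) * q * L) ≤ (N : ℝ) ^ 141 := by
        have h2 : 1 * q * L ≤ N ^ 141 := by
          rw [one_mul, hL]
          calc q * (d * N ^ 88) ≤ N ^ 52 * (N * N ^ 88) :=
                Nat.mul_le_mul (by rw [← hQ]; exact hq2) (Nat.mul_le_mul_right _ (by omega))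
            _ = N ^ 141 := by ring
        exact_mod_cast h2
      exact (mul_le_mul_of_nonneg_right h1 (fina_h a)).trans hNh)
  have hdim := fina_dim (k := ℚ) x a n L
  rw [hx.fin] at hdim
  have h36 : 16 ≤ N ^ 36 := hN16.trans (Nat.le_self_pow (by norm_num) N)
  obtain ⟨q, hq, G, hG, hG0, hGn, hGL, hG1, hGD⟩ := stepA hb hm1 hx.pow hx.deg a n L (8 * (m * d)) S
    (by
      intro q hq
      rw [hS, Finset.mem_filter] at hq
      exact (Nat.Prime.coprime_iff_not_dvd hq.2.1).2 hq.2.2.2) hnm (by omega)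
    (by
      rw [hL]
      calc 8 * (m * d) ≤ N ^ 36 * (m * d) := Nat.mul_le_mul_right _ (by omega)
        _ = m * (d * N ^ 36) := by ring
        _ < n * Q * (d * N ^ 36) :=
            Nat.mul_lt_mul_of_pos_right hnQ (Nat.mul_pos hd1 (Nat.pow_pos hNpos))
        _ = n * (d * N ^ 88) := by
            rw [hQ]
            ring)
    (by
      calc 2 * n * L = 2 * (n * Q) * (d * N ^ 36) := by
            rw [hL, hQ]
            ring
        _ ≤ 2 * (2 * m) * (d * N ^ 36) := Nat.mul_le_mul_right _ (Nat.mul_le_mul_left _ hnQ2)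
        _ = m * (4 * d * N ^ 36) := by ring
        _ ≤ m * (N * N ^ 36) :=
            Nat.mul_le_mul_left _ (Nat.mul_le_mul_right _ (by omega))
        _ ≤ m * N ^ 38 := by
            refine Nat.mul_le_mul_left _ ?_
            rw [← pow_succ']
            exact Nat.pow_le_pow_right hNpos (by norm_num)
        _ ≤ m * S.card := Nat.mul_le_mul_left _ hScard)
  have hq' := hq
  rw [hS, Finset.mem_filter, Finset.mem_Icc] at hq'
  obtain ⟨⟨hq1, hq2⟩, hqp, hq4, hqm⟩ := hq'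
  have hdX : dX G * N ^ 88 ≤ 8 * m := by
    have h1 : dX G * L ≤ 8 * (m * d) := le_trans (Nat.le_add_right _ _) hGD
    have h2 : d * (dX G * N ^ 88) ≤ d * (8 * m) := by
      rw [hL] at h1
      calc d * (dX G * N ^ 88) = dX G * (d * N ^ 88) := by ring
        _ ≤ 8 * (m * d) := h1
        _ = d * (8 * m) := by ring
    exact Nat.le_of_mul_le_mul_left h2 hd1
  refine ⟨q, G, hq1, by rw [← hQ]; exact hq2, (Nat.Prime.coprime_iff_not_dvd hqp).2 hqm, hG, hG0,
    hG1, ?_, hdX⟩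
  have h1 : (n - dX G) * G.natDegree ≤ 8 * (m * d) := le_trans (Nat.le_add_left _ _) hGD
  have h2 : 2 * (dX G * Q) ≤ m := by
    have h3 : N ^ 36 * (2 * (dX G * Q)) ≤ N ^ 36 * m := by
      calc N ^ 36 * (2 * (dX G * Q)) = 2 * (dX G * N ^ 88) := by
            rw [hQ]
            ring
        _ ≤ 2 * (8 * m) := Nat.mul_le_mul_left _ hdX
        _ = 16 * m := by ring
        _ ≤ N ^ 36 * m := Nat.mul_le_mul_right _ h36
    exact Nat.le_of_mul_le_mul_left h3 (by omega)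
  have h3 : m ≤ 2 * Q * (n - dX G) := by
    have h4 : 2 * Q * (n - dX G) = 2 * (n * Q) - 2 * (dX G * Q) := by
      rw [Nat.mul_sub]
      congr 1 <;> ring
    rw [h4]
    omega
  have h4 : m * G.natDegree ≤ m * (16 * d * Q) := by
    calc m * G.natDegree ≤ 2 * Q * (n - dX G) * G.natDegree := Nat.mul_le_mul_right _ h3
      _ = 2 * Q * ((n - dX G) * G.natDegree) := by ring
      _ ≤ 2 * Q * (8 * (m * d)) := Nat.mul_le_mul_left _ h1
      _ = m * (16 * d * Q) := by ring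
  have h5 : G.natDegree ≤ 16 * d * Q := Nat.le_of_mul_le_mul_left h4 hm1
  refine h5.trans ?_
  rw [hQ]
  calc 16 * d * N ^ 52 ≤ N * N ^ 52 := Nat.mul_le_mul_right _ (by omega)
    _ = N ^ 53 := by ring

end Pool.Agent.H36.LE
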