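import Pool.Agent.H36.LE.PbC

/-!
# THEOREM L (MP_187c26_nt), step C: the logarithmic derivative

`om T θ G = - T G_X(T, θ) / (θ G_Y(T, θ))` (`= (dθ/θ)/(dT/T)` on the curve `G(T, θ) = 0`).
Imports `PbA`, `PbC` (may be sorried); `k` of characteristic `0`, `T` transcendental, `G` irreducible of positive degree in `Y`, `G(T, θ) = 0`.
PROOFS. `deriv_ne`: otherwise `G ∣ derivative G` (`dvd_of_root`), of smaller degree in `Y` and not `0` (`natDegree ≥ 1`, characteristic `0`: `natDegree_eq_zero_of_derivative_eq_zero`), contradiction (`natDegree_le_of_dvd`).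
`om_mem`: field operations (`aevalAeval T θ P` lies in `adjoin k {T, θ}`: `P` is a sum of monomials).
`om_eq`: `(ex l H)(T, θ) = H(T^l, θ^l) = 0` (`ex_eval`), so `ex l H = G * K` (`dvd_of_root`). Chain rule: `derivative (ex l H) = l Y^(l-1) * ex l (derivative H)` and `dx (ex l H) = l (C X)^(l-1) * ex l (dx H)` (check on
monomials / induction on `H`; or evaluate). Product rule (`derivative_mul`; `dx` is a derivation too) at `(T, θ)` with `G(T, θ) = 0`:
`(dx G)(T, θ) K(T, θ) = l T^(l-1) (dx H)(T^l, θ^l)`, `(derivative G)(T, θ) K(T, θ) = l θ^(l-1) (derivative H)(T^l, θ^l)`. The right side of the second equation is not `0` (`deriv_ne` for `H` at `(T^l, θ^l)`, `T^l` transcendental, `θ ≠ 0`, `l ≠ 0` in `k`), so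
`K(T, θ) ≠ 0`; divide (multiply numerator and denominator by `T`, `θ`).
`dx_apply_lin`: used below: `dx` is `k`-linear, `dx (P Q) = dx P Q + P dx Q`.
-/

set_option autoImplicit false

open Polynomial NumberField IntermediateField
open scoped Polynomial.Bivariate

namespace Pool.Agent.H36.LE

variable {k Ω : Type} [Field k] [Field Ω] [Algebra k Ω]

/-- The derivative with respect to `X`. -/
noncomputable def dx (P : k[X][Y]) : k[X][Y] := Bivariate.swap (derivative (Bivariate.swap P))

/-- The logarithmic derivative of `θ` with respect to that of `T`. -/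
noncomputable def om (T θ : Ω) (G : k[X][Y]) : Ω :=
  -(T * aevalAeval (R := k) T θ (dx G)) / (θ * aevalAeval (R := k) T θ (derivative G))

theorem dx_mul (P Q : k[X][Y]) : dx (P * Q) = dx P * Q + P * dx Q := by
  unfold dx
  rw [map_mul, derivative_mul, map_add, map_mul, map_mul, Bivariate.swap_swap_apply,
    Bivariate.swap_swap_apply]

/-- The coefficients of `dx P`. -/
theorem coeff_dx (P : k[X][Y]) (j : ℕ) : (dx P).coeff j = derivative (P.coeff j) := by
  ext i
  unfold dx
  rw [coeff_swap, coeff_derivative, coeff_derivative, ← coeff_swap P (i + 1) j]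
  have h1 : ((i : k[X]) + 1) = C ((i : k) + 1) := by simp
  rw [h1, coeff_mul_C]

private theorem ev_hom {A B : Type} [CommRing A] [Algebra k A] [CommRing B] [Algebra k B]
    (f : A →ₐ[k] B) (x y : A) (P : k[X][Y]) :
    f (aevalAeval (R := k) x y P) = aevalAeval (R := k) (f x) (f y) P := by
  have h : f.comp (aevalAeval (R := k) x y) = aevalAeval (R := k) (f x) (f y) := by
    refine (aevalAevalEquiv k B).symm.injective ?_
    rw [aevalAevalEquiv_symm_apply, Equiv.symm_apply_apply]
    refine Prod.ext ?_ ?_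
    · show f (aevalAeval (R := k) x y (C X)) = f x
      rw [aevalAeval_X]
    · show f (aevalAeval (R := k) x y Y) = f y
      rw [aevalAeval_Y]
  exact DFunLike.congr_fun h P

private theorem ev_mem (T θ : Ω) (P : k[X][Y]) : aevalAeval (R := k) T θ P ∈ adjoin k {T, θ} := by
  have hT : T ∈ adjoin k {T, θ} := subset_adjoin k _ (Set.mem_insert _ _)
  have hθ : θ ∈ adjoin k {T, θ} := subset_adjoin k _ (Set.mem_insert_of_mem _ rfl)
  have h := ev_hom (k := k) (adjoin k {T, θ}).val ⟨T, hT⟩ ⟨θ, hθ⟩ P
  have h2 : aevalAeval (R := k) T θ P = (adjoin k {T, θ}).val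
    (aevalAeval (R := k) (⟨T, hT⟩ : adjoin k {T, θ}) ⟨θ, hθ⟩ P) := h.symm
  rw [h2]
  exact Subtype.mem _

theorem om_mem (T θ : Ω) (G : k[X][Y]) : om T θ G ∈ adjoin k {T, θ} := by
  have hT : T ∈ adjoin k {T, θ} := subset_adjoin k _ (Set.mem_insert _ _)
  have hθ : θ ∈ adjoin k {T, θ} := subset_adjoin k _ (Set.mem_insert_of_mem _ rfl)
  exact div_mem (neg_mem (mul_mem hT (ev_mem T θ _))) (mul_mem hθ (ev_mem T θ _))

theorem deriv_ne [CharZero k] (T θ : Ω) (hT : Transcendental k T) (G : k[X][Y])
    (hG : Irreducible G) (h1 : 1 ≤ G.natDegree) (h0 : aevalAeval (R := k) T θ G = 0) :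
    aevalAeval (R := k) T θ (derivative G) ≠ 0 := by
  intro h
  have h2 := dvd_of_root T θ hT G (derivative G) hG h0 h
  have h3 : derivative G ≠ 0 := by
    intro h4
    have := natDegree_eq_zero_of_derivative_eq_zero h4
    omega
  have h4 := natDegree_le_of_dvd h2 h3
  have h5 := natDegree_derivative_lt (p := G) (by omega)
  omega

private theorem sc_mono (l n m : ℕ) (r : k) :
    ex l (monomial n (monomial m r)) = monomial (n * l) (monomial (m * l) r) := by
  have h1 : ∀ (n m : ℕ), (monomial n (monomial m r) : k[X][Y]) =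
      algebraMap k k[X][Y] r * (C X) ^ m * X ^ n := by
    intro n m
    rw [← C_mul_X_pow_eq_monomial, ← C_mul_X_pow_eq_monomial, C_mul, C_pow]
    rfl
  rw [h1, h1, map_mul, map_mul, map_pow, map_pow, AlgHom.commutes, ex, aevalAeval_X,
    aevalAeval_Y, ← pow_mul, ← pow_mul, mul_comm l m, mul_comm l n]

private theorem sc_eq (l : ℕ) (P : k[X][Y]) :
    ex l P = expand k[X] l (P.map (expand k l).toRingHom) := by
  induction P using Polynomial.induction_on' with
  | add p q hp hq => rw [map_add, hp, hq, Polynomial.map_add, map_add]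
  | monomial n a =>
    induction a using Polynomial.induction_on' with
    | add p q hp hq =>
      rw [map_add, map_add, hp, hq, Polynomial.map_add, map_add]
    | monomial m r =>
      rw [sc_mono, map_monomial, expand_monomial]
      congr 1
      exact (expand_monomial l m r).symm

private theorem sc_swap (l : ℕ) (P : k[X][Y]) :
    Bivariate.swap (ex l P) = ex l (Bivariate.swap P) := by
  induction P using Polynomial.induction_on' with
  | add p q hp hq => rw [map_add, map_add, hp, hq, map_add, map_add]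
  | monomial n a =>
    induction a using Polynomial.induction_on' with
    | add p q hp hq =>
      rw [map_add, map_add, map_add, hp, hq, map_add, map_add]
    | monomial m r =>
      rw [sc_mono, Bivariate.swap_monomial_monomial, Bivariate.swap_monomial_monomial, sc_mono]

private theorem der_ex (l : ℕ) (P : k[X][Y]) :
    derivative (ex l P) = ex l (derivative P) * ((l : k[X][Y]) * X ^ (l - 1)) := by
  rw [sc_eq, derivative_expand, derivative_map, ← sc_eq]

private theorem dx_ex (l : ℕ) (P : k[X][Y]) :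
    dx (ex l P) = ex l (dx P) * ((l : k[X][Y]) * (C X) ^ (l - 1)) := by
  unfold dx
  rw [sc_swap, der_ex, map_mul, sc_swap, map_mul, map_natCast, map_pow, Bivariate.swap_Y]

theorem om_eq [CharZero k] (T θ : Ω) (hT : Transcendental k T) (hθ : θ ≠ 0) (G : k[X][Y])
    (hG : Irreducible G) (h1 : 1 ≤ G.natDegree) (h0 : aevalAeval (R := k) T θ G = 0) (l : ℕ)
    (hl : 1 ≤ l) (H : k[X][Y]) (hH : Irreducible H) (hH1 : 1 ≤ H.natDegree)
    (hH0 : aevalAeval (R := k) (T ^ l) (θ ^ l) H = 0) :
    om T θ G = om (T ^ l) (θ ^ l) H := by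
  have hT0 : T ≠ 0 := by
    rintro rfl
    exact hT (isAlgebraic_zero)
  have hTl : Transcendental k (T ^ l) := hT.pow hl
  obtain ⟨K, hK⟩ := dvd_of_root T θ hT G (ex l H) hG h0 (by rw [ex_eval]; exact hH0)
  obtain ⟨m, rfl⟩ : ∃ m, l = m + 1 := ⟨l - 1, by omega⟩
  have hl0 : ((m + 1 : ℕ) : Ω) ≠ 0 := by
    have : CharZero Ω := charZero_of_injective_algebraMap (algebraMap k Ω).injective
    exact_mod_cast Nat.succ_ne_zero m
  have e1 := congrArg (fun P => aevalAeval (R := k) T θ (derivative P)) hK
  have e2 := congrArg (fun P => aevalAeval (R := k) T θ (dx P)) hK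
  beta_reduce at e1 e2
  rw [der_ex, derivative_mul, map_mul, map_mul, map_add, map_mul, map_mul, h0, zero_mul, add_zero,
    ex_eval, map_natCast, map_pow, aevalAeval_Y, Nat.add_sub_cancel] at e1
  rw [dx_ex, dx_mul, map_mul, map_mul, map_add, map_mul, map_mul, h0, zero_mul, add_zero,
    ex_eval, map_natCast, map_pow, aevalAeval_X, Nat.add_sub_cancel] at e2
  have n1 := deriv_ne T θ hT G hG h1 h0
  have n2 := deriv_ne (T ^ (m + 1)) (θ ^ (m + 1)) hTl H hH hH1 hH0
  have nK : aevalAeval (R := k) T θ K ≠ 0 := by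
    intro hh
    rw [hh, mul_zero] at e1
    exact (mul_ne_zero n2 (mul_ne_zero hl0 (pow_ne_zero m hθ))) e1
  unfold om
  rw [div_eq_div_iff (mul_ne_zero hθ n1) (mul_ne_zero (pow_ne_zero _ hθ) n2)]
  have e3 : (-(T * aevalAeval (R := k) T θ (dx G)) * (θ ^ (m + 1) *
      aevalAeval (R := k) (T ^ (m + 1)) (θ ^ (m + 1)) (derivative H))) *
      (aevalAeval (R := k) T θ K * ((m + 1 : ℕ) : Ω)) =
      (-(T ^ (m + 1) * aevalAeval (R := k) (T ^ (m + 1)) (θ ^ (m + 1)) (dx H)) *
      (θ * aevalAeval (R := k) T θ (derivative G))) *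
      (aevalAeval (R := k) T θ K * ((m + 1 : ℕ) : Ω)) := by
    generalize aevalAeval (R := k) T θ (dx G) = a at *
    generalize aevalAeval (R := k) T θ (derivative G) = b at *
    generalize aevalAeval (R := k) T θ K = c at *
    generalize aevalAeval (R := k) (T ^ (m + 1)) (θ ^ (m + 1)) (dx H) = d at *
    generalize aevalAeval (R := k) (T ^ (m + 1)) (θ ^ (m + 1)) (derivative H) = e at *
    generalize ((m + 1 : ℕ) : Ω) = q at *
    have e4 : T ^ (m + 1) = T * T ^ m := pow_succ' T m
    have e5 : θ ^ (m + 1) = θ * θ ^ m := pow_succ' θ m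
    rw [e4, e5]
    linear_combination (T * θ * b * c) * e2 - (T * θ * a * c) * e1
  exact mul_right_cancel₀ (mul_ne_zero nK hl0) e3

end Pool.Agent.H36.LE
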