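import Pool.Agent.H36.LE.ScA
import Pool.Agent.H36.LE.ScC

/-!
# THEOREM L (MP_187c26_nt), step C: the logarithmic derivative is algebraic

Imports `PbA`, `PbC`, `ScA`, `ScC` (may be sorried).
PROOFS. `om_deg`: let `A := k[X][Y] ⧸ (H)`, a domain (`H` prime: irreducible in a UFD), `𝒦 := FractionRing A`. For a zero `(T', θ')` of `H` in `Ω`, `T'` transcendental, the evaluation `A → Ω` is injective (`dvd_of_root`), so it extends to
`j : 𝒦 →ₐ[k] Ω` (`IsFractionRing.liftAlgHom`), with `j x̄ = T'`, `j ȳ = θ'`; its range is `adjoin k {T', θ'}` (as `𝒦 = adjoin k {x̄, ȳ}`), and it maps `ω := om x̄ ȳ H ∈ 𝒦` to `om T' θ' H` (`om` is built from field operations and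
evaluations). So `relfinrank k⟮om T' θ' H⟯ (adjoin k {T', θ'}) = relfinrank (k⟮ω⟯.map j) (⊤.map j) = relfinrank k⟮ω⟯ ⊤ =: n` (`relfinrank_map_map`), independent of `(T', θ')`. (If no such pair exists take `n = 0`.) `Ω` is fixed.
`om_fin`: `ω ∈ L := adjoin k {T, θ}` transcendental over `k`. `θ` is algebraic over `k(T)`, so `ω` is; a relation `F(T, ω) = 0`, `F ∈ k[X][Y]`, `F ≠ 0` (clear denominators), shows that `T` is algebraic over `k(ω)`: `F` as a polynomial in `X` with coefficients in `k(ω)` (swap and evaluate at `ω`) is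
not `0` because `ω` is transcendental (or: exchange lemma for algebraic independence, `Algebra.trdeg`, `IsTranscendenceBasis`). So `T`, `θ` are algebraic over `k(ω)` and `L` is finite over `k(ω)` (finitely generated and algebraic), the degree is not `0`.
`om_alg`: suppose `ω := om T θ G` is transcendental (`om_mem`: `ω ∈ L`). `ω = om (T^l) (θ^l) H = om (T^l') (θ^l') H` (`om_eq`), `S_l := adjoin k {T^l, θ^l} ∋ ω` (`om_mem`). `n = [S_l : k(ω)] = [S_l' : k(ω)]` (`om_deg`), so
`n * [L : S_l] = [L : k(ω)] = n * [L : S_l']` (`relfinrank_mul_relfinrank`) is not `0` (`om_fin`), so `[L : S_l] = [L : S_l']`. But `[L : S_l] * natDegree H = l * natDegree G` and the same for `l'` (`tower`): `l * natDegree G = l' * natDegree G`, `l = l'`: contradiction.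
-/

set_option autoImplicit false

open Polynomial NumberField IntermediateField
open scoped Polynomial.Bivariate

namespace Pool.Agent.H36.LE

variable {k Ω : Type} [Field k] [Field Ω] [Algebra k Ω]

private theorem sd_hom {A B : Type} [CommRing A] [Algebra k A] [CommRing B] [Algebra k B]
    (f : A →ₐ[k] B) (x y : A) (P : k[X][Y]) :
    f (aevalAeval (R := k) x y P) = aevalAeval (R := k) (f x) (f y) P := by
  have h : f.comp (aevalAeval (R := k) x y) = aevalAeval (R := k) (f x) (f y) := by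
    refine (aevalAevalEquiv k B).symm.injective ?_
    rw [aevalAevalEquiv_symm_apply, Equiv.symm_apply_apply]
    refine Prod.ext ?_ ?_
    · show f (aevalAeval (R := k) x y (C X)) = f x
      rw [aevalAeval_X]
    · show f (aevalAeval (R := k) x y Y) = f y
      rw [aevalAeval_Y]
  exact DFunLike.congr_fun h P

private theorem om_hom {F : Type} [Field F] [Algebra k F] (f : F →ₐ[k] Ω) (x y : F)
    (G : k[X][Y]) : f (om x y G) = om (f x) (f y) G := by
  unfold om
  rw [map_div₀, map_neg, map_mul, map_mul, sd_hom, sd_hom]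

private theorem deg_aux (H : k[X][Y]) (hH : Irreducible H) {A F : Type} [CommRing A] [IsDomain A]
    [Algebra k A] [Field F] [Algebra A F] [Algebra k F] [IsScalarTower k A F] [IsFractionRing A F]
    (π : k[X][Y] →ₐ[k] A) (hπ : Function.Surjective π) (hπ0 : π H = 0)
    (T θ : Ω) (hT : Transcendental k T) (h0 : aevalAeval (R := k) T θ H = 0)
    (g : A →ₐ[k] Ω) (hgm : ∀ P, g (π P) = aevalAeval (R := k) T θ P) :
    relfinrank k⟮om T θ H⟯ (adjoin k {T, θ}) =
      relfinrank k⟮om (algebraMap A F (π (C X))) (algebraMap A F (π Y)) H⟯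
        (adjoin k {algebraMap A F (π (C X)), algebraMap A F (π Y)}) := by
  have hg : Function.Injective g := by
    rw [injective_iff_map_eq_zero]
    intro a ha
    obtain ⟨P, rfl⟩ := hπ a
    rw [hgm] at ha
    obtain ⟨Q, rfl⟩ := dvd_of_root T θ hT H P hH h0 ha
    rw [map_mul, hπ0, zero_mul]
  let j : F →ₐ[k] Ω := IsFractionRing.liftAlgHom hg
  have hj : ∀ a, j (algebraMap A F a) = g a :=
    fun a => IsFractionRing.lift_algebraMap hg a
  have hx : j (algebraMap A F (π (C X))) = T := by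
    rw [hj, hgm, aevalAeval_X]
  have hy : j (algebraMap A F (π Y)) = θ := by
    rw [hj, hgm, aevalAeval_Y]
  have h1 : (adjoin k {algebraMap A F (π (C X)), algebraMap A F (π Y)}).map j =
      adjoin k {T, θ} := by
    rw [adjoin_map, Set.image_pair, hx, hy]
  have h2 : k⟮om (algebraMap A F (π (C X))) (algebraMap A F (π Y)) H⟯.map j = k⟮om T θ H⟯ := by
    rw [adjoin_map, Set.image_singleton, om_hom, hx, hy]
  rw [← h1, ← h2, relfinrank_map_map]

private theorem deg_aux2 (H : k[X][Y]) (hH : Irreducible H) {A : Type} [CommRing A] [IsDomain A]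
    [Algebra k A] (π : k[X][Y] →ₐ[k] A) (hπ : Function.Surjective π) (hπ0 : π H = 0)
    (hl : ∀ T θ : Ω, aevalAeval (R := k) T θ H = 0 →
      ∃ g : A →ₐ[k] Ω, ∀ P, g (π P) = aevalAeval (R := k) T θ P) :
    ∃ n : ℕ, ∀ T θ : Ω, Transcendental k T → aevalAeval (R := k) T θ H = 0 →
      relfinrank k⟮om T θ H⟯ (adjoin k {T, θ}) = n := by
  refine ⟨relfinrank k⟮om (algebraMap A (FractionRing A) (π (C X)))
    (algebraMap A (FractionRing A) (π Y)) H⟯
    (adjoin k {algebraMap A (FractionRing A) (π (C X)), algebraMap A (FractionRing A) (π Y)}), ?_⟩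
  intro T θ hT h0
  obtain ⟨g, hg⟩ := hl T θ h0
  exact deg_aux H hH π hπ hπ0 T θ hT h0 g hg

private theorem lift_aux (H : k[X][Y]) (T θ : Ω) (h0 : aevalAeval (R := k) T θ H = 0) :
    ∃ g : (k[X][Y] ⧸ Ideal.span {H}) →ₐ[k] Ω, ∀ P, g (Ideal.Quotient.mkₐ k (Ideal.span {H}) P) =
      aevalAeval (R := k) T θ P := by
  refine ⟨Ideal.Quotient.liftₐ (Ideal.span {H}) (aevalAeval (R := k) T θ) ?_, fun P => rfl⟩
  intro a ha
  obtain ⟨b, rfl⟩ := Ideal.mem_span_singleton.1 ha
  rw [map_mul, h0, zero_mul]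

variable (Ω) in
theorem om_deg (H : k[X][Y]) (hH : Irreducible H) :
    ∃ n : ℕ, ∀ T θ : Ω, Transcendental k T → aevalAeval (R := k) T θ H = 0 →
      relfinrank k⟮om T θ H⟯ (adjoin k {T, θ}) = n := by
  have hprime : (Ideal.span {H}).IsPrime :=
    (Ideal.span_singleton_prime hH.ne_zero).2 hH.prime
  have hdom : IsDomain (k[X][Y] ⧸ Ideal.span {H}) := Ideal.Quotient.isDomain _
  have h1 : Function.Surjective (Ideal.Quotient.mkₐ k (Ideal.span {H})) :=
    Ideal.Quotient.mkₐ_surjective k (Ideal.span {H})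
  have h2 : (Ideal.Quotient.mkₐ k (Ideal.span {H})) H = 0 :=
    Ideal.Quotient.eq_zero_iff_mem.2 (Ideal.mem_span_singleton_self H)
  have h3 : ∀ T θ : Ω, aevalAeval (R := k) T θ H = 0 →
      ∃ g : (k[X][Y] ⧸ Ideal.span {H}) →ₐ[k] Ω, ∀ P, g (Ideal.Quotient.mkₐ k (Ideal.span {H}) P) =
      aevalAeval (R := k) T θ P := lift_aux H
  exact deg_aux2 (A := k[X][Y] ⧸ Ideal.span {H}) H hH (Ideal.Quotient.mkₐ k (Ideal.span {H}))
    h1 h2 h3

private theorem exch (T ω : Ω) (hω : Transcendental k ω)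
    (h : IsAlgebraic k⟮T⟯ ω) : IsAlgebraic k⟮ω⟯ T := by
  by_cases hne : T = ω
  · subst hne
    exact isAlgebraic_algebraMap (AdjoinSimple.gen k T)
  rw [isAlgebraic_adjoin_iff] at h ⊢
  by_contra hcon
  have h1 : AlgebraicIndepOn k (id : Ω → Ω) {ω} := by
    rw [AlgebraicIndepOn, algebraicIndependent_unique_type_iff]
    exact hω
  have h2 : AlgebraicIndepOn k (id : Ω → Ω) (insert T {ω}) :=
    (AlgebraicIndepOn.insert_iff (by simpa using hne)).2 ⟨h1, by
      rw [Set.image_id]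
      exact hcon⟩
  rw [Set.pair_comm] at h2
  have h3 := ((AlgebraicIndepOn.insert_iff (by simpa using Ne.symm hne)).1 h2).2
  rw [Set.image_id] at h3
  exact h3 h

private theorem ne_of_fd {A B : IntermediateField k Ω} (h : A ≤ B)
    (hf : FiniteDimensional A (extendScalars h)) : relfinrank A B ≠ 0 := by
  rw [relfinrank_eq_finrank_of_le h]
  exact Module.finrank_pos.ne'

private theorem alg_of_ne {A B : IntermediateField k Ω} (h : A ≤ B) (hf : relfinrank A B ≠ 0)
    (x : Ω) (hx : x ∈ B) : IsAlgebraic A x := by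
  rw [relfinrank_eq_finrank_of_le h] at hf
  have : FiniteDimensional A (extendScalars h) := FiniteDimensional.of_finrank_pos
    (Nat.pos_of_ne_zero hf)
  have h1 : IsAlgebraic A (⟨x, hx⟩ : extendScalars h) := Algebra.IsAlgebraic.isAlgebraic _
  exact h1.algebraMap

theorem om_fin (T θ : Ω) (hT : Transcendental k T) (G : k[X][Y]) (hG : Irreducible G)
    (h1 : 1 ≤ G.natDegree) (h0 : aevalAeval (R := k) T θ G = 0) (ω : Ω)
    (hω : ω ∈ adjoin k {T, θ}) (hω2 : Transcendental k ω) :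
    relfinrank k⟮ω⟯ (adjoin k {T, θ}) ≠ 0 := by
  have hTL : T ∈ adjoin k {T, θ} := subset_adjoin k _ (Set.mem_insert _ _)
  have e1 : k⟮T⟯ ≤ adjoin k {T, θ} := adjoin_simple_le_iff.2 hTL
  have r1 : relfinrank k⟮T⟯ (adjoin k {T, θ}) ≠ 0 := by
    rw [relfin_irred T θ hT G hG h1 h0]
    omega
  have a1 := alg_of_ne e1 r1 ω hω
  have a2 := exch T ω hω2 a1
  have e2 : k⟮T⟯ ≤ adjoin k {ω, T} :=
    adjoin_simple_le_iff.2 (subset_adjoin k _ (Set.mem_insert_of_mem _ rfl))
  have e3 : adjoin k {ω, T} ≤ adjoin k {T, θ} := by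
    rw [adjoin_le_iff]
    rintro x (rfl | rfl)
    · exact hω
    · exact hTL
  have e4 : k⟮ω⟯ ≤ adjoin k {ω, T} :=
    adjoin_simple_le_iff.2 (subset_adjoin k _ (Set.mem_insert _ _))
  have r2 : relfinrank (adjoin k {ω, T}) (adjoin k {T, θ}) ≠ 0 := by
    intro h
    apply r1
    rw [← relfinrank_mul_relfinrank e2 e3, h, mul_zero]
  have r3 : relfinrank k⟮ω⟯ (adjoin k {ω, T}) ≠ 0 := by
    apply ne_of_fd e4
    rw [extendScalars_adjoin]
    apply finiteDimensional_adjoin
    rintro x (rfl | rfl)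
    · exact isIntegral_algebraMap (x := AdjoinSimple.gen k x)
    · exact a2.isIntegral
  rw [← relfinrank_mul_relfinrank e4 e3]
  exact mul_ne_zero r3 r2

theorem om_alg [CharZero k] (T θ : Ω) (hT : Transcendental k T) (hθ : θ ≠ 0) (G : k[X][Y])
    (hG : Irreducible G) (h1 : 1 ≤ G.natDegree) (h0 : aevalAeval (R := k) T θ G = 0) (l l' : ℕ)
    (hl : 1 ≤ l) (hl' : 1 ≤ l') (hll : l ≠ l') (H : k[X][Y]) (hH : Irreducible H)
    (hH1 : 1 ≤ H.natDegree) (hH0 : aevalAeval (R := k) (T ^ l) (θ ^ l) H = 0)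
    (hH0' : aevalAeval (R := k) (T ^ l') (θ ^ l') H = 0) :
    IsAlgebraic k (om T θ G) := by
  by_contra htr
  obtain ⟨n, hn⟩ := om_deg Ω H hH
  have N := om_fin T θ hT G hG h1 h0 _ (om_mem T θ G) htr
  have key : ∀ m : ℕ, 1 ≤ m → aevalAeval (R := k) (T ^ m) (θ ^ m) H = 0 →
      n * relfinrank (adjoin k {T ^ m, θ ^ m}) (adjoin k {T, θ}) =
        relfinrank k⟮om T θ G⟯ (adjoin k {T, θ}) := by
    intro m hm hm0
    have e1 := om_eq T θ hT hθ G hG h1 h0 m hm H hH hH1 hm0
    have e2 := hn (T ^ m) (θ ^ m) (hT.pow hm) hm0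
    rw [← e1] at e2
    have e3 : k⟮om T θ G⟯ ≤ adjoin k {T ^ m, θ ^ m} := by
      rw [adjoin_simple_le_iff, e1]
      exact om_mem _ _ _
    have e4 : adjoin k {T ^ m, θ ^ m} ≤ adjoin k {T, θ} := by
      rw [adjoin_le_iff]
      rintro x (rfl | rfl)
      · exact pow_mem (subset_adjoin k {T, θ} (Set.mem_insert T {θ})) m
      · exact pow_mem (subset_adjoin k {T, θ} (Set.mem_insert_of_mem T (Set.mem_singleton θ))) m
    rw [← e2]
    exact relfinrank_mul_relfinrank e3 e4
  have k1 := key l hl hH0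
  have k2 := key l' hl' hH0'
  have hn0 : n ≠ 0 := by
    rintro rfl
    rw [zero_mul] at k1
    exact N k1.symm
  have k3 : relfinrank (adjoin k {T ^ l, θ ^ l}) (adjoin k {T, θ}) =
      relfinrank (adjoin k {T ^ l', θ ^ l'}) (adjoin k {T, θ}) :=
    Nat.eq_of_mul_eq_mul_left (Nat.pos_of_ne_zero hn0) (k1.trans k2.symm)
  have t1 := tower T θ hT G hG h1 h0 l hl H hH hH1 hH0
  have t2 := tower T θ hT G hG h1 h0 l' hl' H hH hH1 hH0'
  rw [k3, t2] at t1
  exact hll (Nat.eq_of_mul_eq_mul_right (by omega) t1).symm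

end Pool.Agent.H36.LE
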