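import Pool.Agent.H36.LE.ScC

/-!
# THEOREM L (MP_187c26_nt), step C: algebraic logarithmic derivative implies collinear support

Imports `PbA`, `PbC`, `ScC` (may be sorried).
PROOF. For a field `K ⊇ k` and `ω ∈ K` let `D P := (C X) * dx P + ω Y * derivative P` on `K[X][Y]` (`Y` = the variable `X` of the outer ring): a derivation, and the coefficient of `X^i Y^j` in `D P` is `(i + ω j)` times that of `P`
(`coeff_dx`, `coeff_derivative`); so `natDegree (D P) ≤ natDegree P`, `dX (D P) ≤ dX P`.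
(a) If `P ∣ D P`, `P ≠ 0`, then `D P = μ P` with a constant `μ ∈ K` (compare both degrees of the cofactor), so `i + ω j = μ` for all `(i, j)` with `(P.coeff j).coeff i ≠ 0`.
(b) `K := k⟮om T θ G⟯` (algebraic over `k`), `ω` = its generator. `T` is transcendental over `K` (`Transcendental` is stable under algebraic extensions of the base: `IsAlgebraic.trans`-type argument). Let `G₁` = image of `G` in `K[X][Y]`, `g` an irreducible factor of `G₁`
with `g(T, θ) = 0`, `G₁ = g h`. By definition of `ω` and `deriv_ne`: `(D G₁)(T, θ) = T G_X(T, θ) + ω θ G_Y(T, θ) = 0` (`θ ≠ 0`), and `D G₁ = D g h + g D h`, so `(D g)(T, θ) h(T, θ) = 0`. `h(T, θ) ≠ 0`: otherwise `derivative G₁ = derivative g h + g derivative h` vanishes at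
`(T, θ)`, contradiction to `deriv_ne`. So `(D g)(T, θ) = 0`, `g ∣ D g` (`dvd_of_root` over `K`), so `i + ω j = μ` on the support of `g` by (a). `natDegree g ≥ 1` (`T` transcendental over `K`) gives a point `(i₁, j₁)` with `j₁ ≥ 1`; `g.coeff 0 ≠ 0` (otherwise `Y ∣ g`, `g` is associated to `Y`,
`θ = 0`) gives a point `(i₂, 0)`. So `ω = (i₂ - i₁)/j₁` is rational: `ω = algebraMap k Ω r`, `r = (i₂ - i₁)/j₁ ∈ k`.
(c) Now `K = k`, `ω = r`: `(D G)(T, θ) = 0`, so `G ∣ D G` (`dvd_of_root`), so `i + r j = μ` in `k` for all points of the support of `G`, by (a). `G.coeff 0 ≠ 0` as above: a point `(i₀, 0)`, `μ = i₀`. The point `(i', L)`, `L = natDegree G`: `r L = i₀ - i'`. Put `u := i' - i₀ ∈ ℤ`. Then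
`L i = L i₀ - (r L) j = L i₀ + u j` in `k`, so in `ℤ` (characteristic `0`).
-/

set_option autoImplicit false

open Polynomial NumberField IntermediateField
open scoped Polynomial.Bivariate

namespace Pool.Agent.H36.LE

variable {k Ω : Type} [Field k] [Field Ω] [Algebra k Ω]

/-- The derivation `X ∂/∂X + ω Y ∂/∂Y`. -/
private noncomputable def DD (ω : k) (P : k[X][Y]) : k[X][Y] :=
  C X * dx P + C (C ω) * (X * derivative P)

private theorem DD_mul (ω : k) (P Q : k[X][Y]) : DD ω (P * Q) = DD ω P * Q + P * DD ω Q := by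
  unfold DD
  rw [dx_mul, derivative_mul]
  ring

private theorem coeff_X_der (p : k[X]) (i : ℕ) : (X * derivative p).coeff i = (i : k) * p.coeff i := by
  cases i with
  | zero => rw [coeff_X_mul_zero, Nat.cast_zero, zero_mul]
  | succ i =>
    rw [coeff_X_mul, coeff_derivative]
    push_cast
    ring

private theorem coeff_Y_der (p : k[X][Y]) (j : ℕ) :
    (X * derivative p).coeff j = (j : k[X]) * p.coeff j := by
  cases j with
  | zero => rw [coeff_X_mul_zero, Nat.cast_zero, zero_mul]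
  | succ i =>
    rw [coeff_X_mul, coeff_derivative]
    push_cast
    ring

private theorem coeff_DD (ω : k) (P : k[X][Y]) (i j : ℕ) :
    ((DD ω P).coeff j).coeff i = ((i : k) + ω * j) * (P.coeff j).coeff i := by
  unfold DD
  rw [coeff_add, coeff_C_mul, coeff_C_mul, coeff_dx, coeff_Y_der, coeff_add, coeff_X_der]
  have h1 : (C ω * ((j : k[X]) * P.coeff j)) = C (ω * j) * P.coeff j := by
    rw [C_mul, ← mul_assoc]
    congr 2
  rw [h1, coeff_C_mul]
  ring

private theorem natDegree_DD (ω : k) (P : k[X][Y]) : (DD ω P).natDegree ≤ P.natDegree := by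
  rw [natDegree_le_iff_coeff_eq_zero]
  intro j hj
  ext i
  rw [coeff_DD, coeff_eq_zero_of_natDegree_lt hj, coeff_zero, mul_zero]

private theorem dX_DD (ω : k) (P : k[X][Y]) : dX (DD ω P) ≤ dX P := by
  unfold dX
  rw [natDegree_le_iff_coeff_eq_zero]
  intro i hi
  ext j
  rw [coeff_swap, coeff_DD, ← coeff_swap P, coeff_eq_zero_of_natDegree_lt hi, coeff_zero, mul_zero]

/-- (a) -/
private theorem supp_of_dvd (ω : k) (P : k[X][Y]) (hP : P ≠ 0) (h : P ∣ DD ω P) :
    ∃ μ : k, ∀ i j : ℕ, (P.coeff j).coeff i ≠ 0 → (i : k) + ω * j = μ := by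
  have key : ∃ μ : k, DD ω P = C (C μ) * P := by
    by_cases h0 : DD ω P = 0
    · exact ⟨0, by rw [h0, C_0, C_0, zero_mul]⟩
    · obtain ⟨q, hq⟩ := h
      have hq0 : q ≠ 0 := by
        rintro rfl
        rw [mul_zero] at hq
        exact h0 hq
      have h1 := natDegree_DD ω P
      rw [hq, natDegree_mul hP hq0] at h1
      have h2 := dX_DD ω P
      rw [hq, dX_mul P q hP hq0] at h2
      have h3 : q.natDegree = 0 := by omega
      have h4 : dX q = 0 := by omega
      have h5 := eq_C_of_natDegree_eq_zero h3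
      rw [h5, dX_C] at h4
      have h6 := eq_C_of_natDegree_eq_zero h4
      refine ⟨(q.coeff 0).coeff 0, ?_⟩
      rw [← h6, ← h5, hq, mul_comm]
  obtain ⟨μ, hμ⟩ := key
  refine ⟨μ, fun i j hij => ?_⟩
  have h1 := coeff_DD ω P i j
  rw [hμ, coeff_C_mul, coeff_C_mul] at h1
  exact (mul_right_cancel₀ hij h1).symm

private theorem supp_of_root (T θ : Ω) (hT : Transcendental k T) (G : k[X][Y]) (hG : Irreducible G)
    (h0 : aevalAeval (R := k) T θ G = 0) (ω : k) (hD : aevalAeval (R := k) T θ (DD ω G) = 0) :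
    ∃ μ : k, ∀ i j : ℕ, (G.coeff j).coeff i ≠ 0 → (i : k) + ω * j = μ :=
  supp_of_dvd ω G hG.ne_zero (dvd_of_root T θ hT G _ hG h0 hD)

private theorem unit_ne (T θ : Ω) (u : k[X][Y]) (hu : IsUnit u) : aevalAeval (R := k) T θ u ≠ 0 :=
  (hu.map (aevalAeval (R := k) T θ)).ne_zero

private theorem coeff_zero_ne (T θ : Ω) (hθ : θ ≠ 0) (G : k[X][Y]) (hG : Irreducible G)
    (h0 : aevalAeval (R := k) T θ G = 0) : ∃ i : ℕ, (G.coeff 0).coeff i ≠ 0 := by
  by_contra hcon
  push Not at hcon
  have h1 : G.coeff 0 = 0 := Polynomial.ext fun i => by rw [hcon i, coeff_zero]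
  obtain ⟨q, hq⟩ := X_dvd_iff.2 h1
  have h2 : ¬ IsUnit (X : k[X][Y]) := Polynomial.not_isUnit_X
  have h3 : IsUnit q := (hG.isUnit_or_isUnit hq).resolve_left h2
  rw [hq, map_mul, aevalAeval_Y] at h0
  exact (mul_ne_zero hθ (unit_ne T θ q h3)) h0

private theorem ex_top (G : k[X][Y]) (hG : G ≠ 0) : ∃ i : ℕ, (G.coeff G.natDegree).coeff i ≠ 0 := by
  by_contra hcon
  push Not at hcon
  have h1 : G.coeff G.natDegree = 0 := Polynomial.ext fun i => by rw [hcon i, coeff_zero]
  exact hG (leadingCoeff_eq_zero.1 h1)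

private theorem ex_factor (T θ : Ω) (G : k[X][Y]) : G ≠ 0 → aevalAeval (R := k) T θ G = 0 →
    ∃ g h : k[X][Y], Irreducible g ∧ aevalAeval (R := k) T θ g = 0 ∧ G = g * h := by
  refine WfDvdMonoid.induction_on_irreducible G (fun h => absurd rfl h)
    (fun u hu _ h => absurd h (unit_ne T θ u hu)) fun a i ha hi ih _ h => ?_
  rw [map_mul, mul_eq_zero] at h
  rcases h with h | h
  · exact ⟨i, a, hi, h, rfl⟩
  · obtain ⟨g, h', h1, h2, h3⟩ := ih ha h
    exact ⟨g, i * h', h1, h2, by rw [h3]; ring⟩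

section base

variable {K : Type} [Field K] [Algebra k K] [Algebra K Ω] [IsScalarTower k K Ω]

/-- extension of the scalars -/
private noncomputable def bc (K : Type) [Field K] [Algebra k K] (G : k[X][Y]) : K[X][Y] :=
  G.map (mapRingHom (algebraMap k K))

private theorem bc_coeff (G : k[X][Y]) (i j : ℕ) :
    ((bc K G).coeff j).coeff i = algebraMap k K ((G.coeff j).coeff i) := by
  unfold bc
  rw [coeff_map, coe_mapRingHom, coeff_map]

private theorem bc_ev (T θ : Ω) (G : k[X][Y]) :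
    aevalAeval (R := K) T θ (bc K G) = aevalAeval (R := k) T θ G := by
  unfold bc
  induction G using Polynomial.induction_on' with
  | add p q hp hq => rw [Polynomial.map_add, map_add, map_add, hp, hq]
  | monomial n a =>
    rw [map_monomial, ← C_mul_X_pow_eq_monomial, ← C_mul_X_pow_eq_monomial, map_mul, map_mul,
      map_pow, map_pow, aevalAeval_Y, aevalAeval_Y, aevalAeval_C, aevalAeval_C, coe_mapRingHom,
      aeval_map_algebraMap]

private theorem bc_der (G : k[X][Y]) : derivative (bc K G) = bc K (derivative G) := by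
  unfold bc
  rw [derivative_map]

private theorem bc_dx (G : k[X][Y]) : dx (bc K G) = bc K (dx G) := by
  ext j i
  rw [coeff_dx, bc_coeff, coeff_dx, coeff_derivative, coeff_derivative, bc_coeff]
  simp

private theorem bc_ne (G : k[X][Y]) (hG : G ≠ 0) : bc K G ≠ 0 := by
  intro h
  obtain ⟨i, hi⟩ := ex_top G hG
  have h1 := bc_coeff (K := K) G i G.natDegree
  rw [h, coeff_zero, coeff_zero] at h1
  exact hi ((map_eq_zero (algebraMap k K)).1 h1.symm)

private theorem ev_DD (T θ : Ω) (ω : K) (G : K[X][Y]) : aevalAeval (R := K) T θ (DD ω G) =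
    T * aevalAeval (R := K) T θ (dx G) +
      algebraMap K Ω ω * (θ * aevalAeval (R := K) T θ (derivative G)) := by
  unfold DD
  rw [map_add, map_mul, map_mul, map_mul, aevalAeval_X, aevalAeval_Y, aevalAeval_C, aeval_C]

end base

/-- the evaluation at `(T, θ)` of the derivation belonging to `om T θ G` -/
private theorem om_zero (T θ : Ω) (hθ : θ ≠ 0) (G : k[X][Y])
    (h : aevalAeval (R := k) T θ (derivative G) ≠ 0) :
    T * aevalAeval (R := k) T θ (dx G) +
      om T θ G * (θ * aevalAeval (R := k) T θ (derivative G)) = 0 := by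
  unfold om
  rw [div_mul_cancel₀ _ (mul_ne_zero hθ h), add_neg_cancel]

/-- (b) -/
private theorem om_rat [CharZero k] (T θ : Ω) (hT : Transcendental k T) (hθ : θ ≠ 0) (G : k[X][Y])
    (hG : Irreducible G) (h1 : 1 ≤ G.natDegree) (h0 : aevalAeval (R := k) T θ G = 0)
    (hω : IsAlgebraic k (om T θ G)) : ∃ r : k, algebraMap k Ω r = om T θ G := by
  have hder := deriv_ne T θ hT G hG h1 h0
  have hint : IsIntegral k (om T θ G) := hω.isIntegral
  have halg : Algebra.IsAlgebraic k k⟮om T θ G⟯ := isAlgebraic_adjoin_simple hint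
  have hTK : Transcendental k⟮om T θ G⟯ T := fun h => hT (h.restrictScalars k)
  set K := k⟮om T θ G⟯ with hK
  set ω : K := AdjoinSimple.gen k (om T θ G) with hωdef
  have hωΩ : algebraMap K Ω ω = om T θ G := AdjoinSimple.algebraMap_gen k _
  have hG1 : aevalAeval (R := K) T θ (bc K G) = 0 := by rw [bc_ev, h0]
  obtain ⟨g, h, hg, hg0, hgh⟩ := ex_factor T θ (bc K G) (bc_ne G hG.ne_zero) hG1
  have hDG : aevalAeval (R := K) T θ (DD ω (bc K G)) = 0 := by
    rw [ev_DD, bc_dx, bc_der, bc_ev, bc_ev, hωΩ]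
    exact om_zero T θ hθ G hder
  have hh : aevalAeval (R := K) T θ h ≠ 0 := by
    intro hh
    apply hder
    rw [← bc_ev (K := K), ← bc_der, hgh, derivative_mul, map_add, map_mul, map_mul, hh, hg0,
      mul_zero, zero_mul, add_zero]
  have hDg : aevalAeval (R := K) T θ (DD ω g) = 0 := by
    rw [hgh, DD_mul, map_add, map_mul, map_mul, hg0, zero_mul, add_zero, mul_eq_zero] at hDG
    exact hDG.resolve_right hh
  obtain ⟨μ, hμ⟩ := supp_of_root T θ hTK g hg hg0 ω hDg
  have hgd : g.natDegree ≠ 0 := by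
    intro hd
    have h2 := eq_C_of_natDegree_eq_zero hd
    rw [h2, aevalAeval_C] at hg0
    have h3 : g.coeff 0 = 0 := by
      by_contra h4
      exact hTK ⟨_, h4, hg0⟩
    rw [h3, C_0] at h2
    exact hg.ne_zero h2
  obtain ⟨i1, hi1⟩ := ex_top g hg.ne_zero
  obtain ⟨i2, hi2⟩ := coeff_zero_ne T θ hθ g hg hg0
  have e1 := hμ _ _ hi1
  have e2 := hμ _ _ hi2
  have hK0 : CharZero K := charZero_of_injective_algebraMap (algebraMap k K).injective
  have hne : (g.natDegree : K) ≠ 0 := Nat.cast_ne_zero.2 hgd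
  have e3 : ω = ((i2 : K) - i1) / g.natDegree := by
    rw [eq_div_iff hne]
    rw [Nat.cast_zero, mul_zero, add_zero] at e2
    linear_combination e1 - e2
  refine ⟨((i2 : k) - i1) / g.natDegree, ?_⟩
  rw [← hωΩ, e3]
  simp

theorem collinear [CharZero k] (T θ : Ω) (hT : Transcendental k T) (hθ : θ ≠ 0) (G : k[X][Y])
    (hG : Irreducible G) (h1 : 1 ≤ G.natDegree) (h0 : aevalAeval (R := k) T θ G = 0)
    (hω : IsAlgebraic k (om T θ G)) :
    ∃ u i₀ : ℤ, ∀ i j : ℕ, (G.coeff j).coeff i ≠ 0 →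
      (G.natDegree : ℤ) * i = G.natDegree * i₀ + u * j := by
  obtain ⟨r, hr⟩ := om_rat T θ hT hθ G hG h1 h0 hω
  have hder := deriv_ne T θ hT G hG h1 h0
  have hD : aevalAeval (R := k) T θ (DD r G) = 0 := by
    rw [ev_DD (K := k), hr]
    exact om_zero T θ hθ G hder
  obtain ⟨μ, hμ⟩ := supp_of_root T θ hT G hG h0 r hD
  obtain ⟨i', hi'⟩ := ex_top G hG.ne_zero
  obtain ⟨i0, hi0⟩ := coeff_zero_ne T θ hθ G hG h0
  have e1 := hμ _ _ hi'
  have e2 := hμ _ _ hi0
  rw [Nat.cast_zero, mul_zero, add_zero] at e2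
  refine ⟨(i' : ℤ) - i0, i0, fun i j hij => ?_⟩
  have e3 := hμ _ _ hij
  have e4 : (G.natDegree : k) * i = G.natDegree * i0 + ((i' : k) - i0) * j := by
    linear_combination (G.natDegree : k) * e3 - (G.natDegree : k) * e2 - (j : k) * e1 + (j : k) * e2
  exact_mod_cast e4

end Pool.Agent.H36.LE
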