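import Pool.Agent.H36.LE.ScB
import Pool.Agent.H36.LE.ScD
import Pool.Agent.H36.LE.ScE

/-!
# THEOREM L (MP_187c26_nt), step C: conclusion

Imports may be sorried.
PROOFS. `num`: `L = natDegree G ≥ 1`, `g := gcd(L, u)`, `β := L / g`, `w' := u / g`. On the support `L i = L i₀ + u j`, so `β (i - i₀) = w' j`, `β ∣ j`, `j = β j'`, `i = i₀ + w' j'`. So in `E`: `0 = G(x, a) = ∑ c_ij x^i a^j = x^(i₀) ∑_j' c_(j') (x^(w') a^β)^j'`
(`zpow`; for every `j` at most one `i`), so `κ := a^β x^(w')` is a root of the nonzero polynomial `F = ∑_j' c_(j') Z^(j') ∈ ℚ[Z]` of degree `L/β ≤ L` (`c_(j')` = the unique nonzero coefficient of `G.coeff (β j')`, or `0`; for instance `F = ∑_(j' ≤ L/β) C ((G.coeff (β j')).coeff (i₀ + w' j').toNat) Z^j'`; it is not `0`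
because `G.coeff L ≠ 0`). So `κ` is integral (algebraic) over `ℚ`, and `finrank ℚ ℚ⟮κ⟯ = natDegree (minpoly) ≤ natDegree F ≤ L`.
`stepC`: `Ω := AlgebraicClosure (RatFunc ℚ)`, `T := algebraMap _ _ RatFunc.X` (transcendental over `ℚ`), `θ` a root of the image of `G` in `Ω[Y]` (degree `natDegree G ≥ 1`: the map `ℚ[X] → Ω`, `X ↦ T` is injective). `θ ≠ 0`: otherwise `G.coeff 0` vanishes at `T`, so `G.coeff 0 = 0`, `X ∣ G` in `ℚ[X][Y]`
(`X_dvd_iff`), `G` is associated to the variable `Y`, so `a = 0`. `two_primes`, `om_alg`, `collinear`, `num`.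
-/

set_option autoImplicit false

open Polynomial NumberField IntermediateField
open scoped Polynomial.Bivariate

namespace Pool.Agent.H36.LE

private theorem ev_sum {E : Type} [Field E] [Algebra ℚ E] (x a : E) (G : ℚ[X][Y]) :
    aevalAeval (R := ℚ) x a G =
      ∑ j ∈ Finset.range (G.natDegree + 1), aeval x (G.coeff j) * a ^ j := by
  conv_lhs => rw [G.as_sum_range_C_mul_X_pow]
  rw [map_sum]
  refine Finset.sum_congr rfl fun j _ => ?_
  rw [map_mul, map_pow, aevalAeval_C, aevalAeval_Y]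

theorem num {E : Type} [Field E] [CharZero E] (G : ℚ[X][Y]) (h1 : 1 ≤ G.natDegree) (u i₀ : ℤ)
    (hc : ∀ i j : ℕ, (G.coeff j).coeff i ≠ 0 → (G.natDegree : ℤ) * i = G.natDegree * i₀ + u * j)
    (x a : E) (hx : x ≠ 0) (ha : a ≠ 0) (h0 : aevalAeval (R := ℚ) x a G = 0) :
    ∃ (β : ℕ) (w : ℤ), 1 ≤ β ∧ β ≤ G.natDegree ∧ IsIntegral ℚ (a ^ β * x ^ w) ∧
      Module.finrank ℚ ℚ⟮a ^ β * x ^ w⟯ ≤ G.natDegree := by
  classical
  set L : ℕ := G.natDegree with hL
  have hL0 : (L : ℤ) ≠ 0 := by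
    have : 0 < L := h1
    exact_mod_cast this.ne'
  have hg0 : Int.gcd (L : ℤ) u ≠ 0 := by
    rw [Ne, Int.gcd_eq_zero_iff]
    exact fun h => hL0 h.1
  obtain ⟨g, hg⟩ : ∃ g : ℕ, g = Int.gcd (L : ℤ) u := ⟨_, rfl⟩
  rw [← hg] at hg0
  have hgL : (g : ℤ) ∣ L := by rw [hg]; exact Int.gcd_dvd_left _ _
  have hgu : (g : ℤ) ∣ u := by rw [hg]; exact Int.gcd_dvd_right _ _
  obtain ⟨β, hβ⟩ : g ∣ L := by exact_mod_cast hgL
  obtain ⟨w, hw⟩ := hgu
  have hgz : (g : ℤ) ≠ 0 := by exact_mod_cast hg0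
  have hβ1 : 1 ≤ β := by
    rcases Nat.eq_zero_or_pos β with h | h
    · rw [h, mul_zero] at hβ
      omega
    · exact h
  have hβL : β ≤ L := by
    rw [hβ]
    exact Nat.le_mul_of_pos_left β (Nat.pos_of_ne_zero hg0)
  have hcop : IsCoprime (β : ℤ) w := by
    have h2 : IsCoprime ((L : ℤ) / (Int.gcd (L : ℤ) u : ℕ)) (u / (Int.gcd (L : ℤ) u : ℕ)) :=
      Int.isCoprime_iff_gcd_eq_one.2 (Int.gcd_ediv_gcd_ediv_gcd
        (by rw [← hg]; exact Nat.pos_of_ne_zero hg0))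
    rw [← hg, hw, Int.mul_ediv_cancel_left _ hgz, hβ, Nat.cast_mul,
      Int.mul_ediv_cancel_left _ hgz] at h2
    exact h2
  have hs : ∀ i j : ℕ, (G.coeff j).coeff i ≠ 0 →
      β ∣ j ∧ (i : ℤ) = i₀ + w * ((j / β : ℕ) : ℤ) := by
    intro i j hij
    have h2 := hc i j hij
    have h3 : (β : ℤ) * (i - i₀) = w * j := by
      have h4 : (g : ℤ) * (β * (i - i₀)) = g * (w * j) := by
        have h5 : (L : ℤ) = g * β := by rw [hβ]; push_cast; ring
        rw [h5, hw] at h2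
        linear_combination h2
      exact mul_left_cancel₀ hgz h4
    have h4 : (β : ℤ) ∣ j := hcop.dvd_of_dvd_mul_left ⟨_, h3.symm⟩
    have h5 : β ∣ j := by exact_mod_cast h4
    refine ⟨h5, ?_⟩
    obtain ⟨t, rfl⟩ := h5
    rw [Nat.mul_div_cancel_left t (by omega)]
    have hβz : (β : ℤ) ≠ 0 := by
      have : 0 < β := hβ1
      exact_mod_cast this.ne'
    have h6 : (β : ℤ) * (i - i₀) = β * (w * t) := by
      rw [h3]
      push_cast
      ring
    have h7 := mul_left_cancel₀ hβz h6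
    linear_combination h7
  obtain ⟨cc, hcc⟩ : ∃ cc : ℕ → ℚ, ∀ j, cc j =
      (G.coeff j).coeff (i₀ + w * ((j / β : ℕ) : ℤ)).toNat := ⟨_, fun j => rfl⟩
  have hmon : ∀ j, G.coeff j ≠ 0 → cc j ≠ 0 ∧ β ∣ j ∧
      (((i₀ + w * ((j / β : ℕ) : ℤ)).toNat : ℕ) : ℤ) = i₀ + w * ((j / β : ℕ) : ℤ) ∧
      G.coeff j = monomial (i₀ + w * ((j / β : ℕ) : ℤ)).toNat (cc j) := by
    intro j hj
    obtain ⟨i₁, hi₁⟩ : ∃ i, (G.coeff j).coeff i ≠ 0 := by
      by_contra hcon
      push Not at hcon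
      exact hj (Polynomial.ext fun i => by rw [hcon i, coeff_zero])
    obtain ⟨h2, h3⟩ := hs i₁ j hi₁
    have h4 : (i₀ + w * ((j / β : ℕ) : ℤ)).toNat = i₁ := by
      rw [← h3, Int.toNat_natCast]
    refine ⟨?_, h2, ?_, ?_⟩
    · rw [hcc, h4]
      exact hi₁
    · rw [h4, h3]
    · ext i
      rw [coeff_monomial]
      split_ifs with h5
      · rw [hcc, h5]
      · by_contra h6
        obtain ⟨h7, h8⟩ := hs i j h6
        apply h5
        rw [← h8, Int.toNat_natCast]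
  obtain ⟨κ, hκ⟩ : ∃ κ : E, κ = a ^ β * x ^ w := ⟨_, rfl⟩
  have hkey : ∀ j, aeval x (G.coeff j) * a ^ j = x ^ i₀ * (algebraMap ℚ E (cc j) * κ ^ (j / β)) := by
    intro j
    by_cases hj : G.coeff j = 0
    · rw [hcc, hj, map_zero, coeff_zero, map_zero, zero_mul, zero_mul, mul_zero]
    · obtain ⟨-, h3, h4, h5⟩ := hmon j hj
      rw [h5, aeval_monomial, ← zpow_natCast x, h4, zpow_add₀ hx, zpow_mul, zpow_natCast, hκ,
        mul_pow, ← pow_mul]
      obtain ⟨t, rfl⟩ := h3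
      rw [Nat.mul_div_cancel_left t (by omega)]
      ring
  let F : ℚ[X] := ∑ j ∈ Finset.range (L + 1), C (cc j) * X ^ (j / β)
  have hFκ : aeval κ F = 0 := by
    have h2 : x ^ i₀ * aeval κ F = 0 := by
      rw [← h0, ev_sum, map_sum, Finset.mul_sum]
      refine Finset.sum_congr rfl fun j _ => ?_
      rw [hkey, map_mul, aeval_C, map_pow, aeval_X]
    exact (mul_eq_zero.1 h2).resolve_left (zpow_ne_zero _ hx)
  have hGL : G.coeff L ≠ 0 := by
    rw [hL, coeff_natDegree, Ne, leadingCoeff_eq_zero]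
    intro h
    rw [h, natDegree_zero] at hL
    omega
  have hβdL : β ∣ L := ⟨g, by rw [hβ, mul_comm]⟩
  have hF0 : F ≠ 0 := by
    intro hF
    have h2 : F.coeff (L / β) = cc L := by
      show (∑ j ∈ Finset.range (L + 1), C (cc j) * X ^ (j / β)).coeff (L / β) = cc L
      rw [finsetSum_coeff, Finset.sum_eq_single L]
      · rw [coeff_C_mul, coeff_X_pow, if_pos rfl, mul_one]
      · intro j _ hjL
        rw [coeff_C_mul, coeff_X_pow]
        split_ifs with h3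
        · by_cases hj : G.coeff j = 0
          · rw [hcc, hj, coeff_zero, zero_mul]
          · exfalso
            obtain ⟨-, h4, -, -⟩ := hmon j hj
            apply hjL
            rw [← Nat.mul_div_cancel' h4, ← h3, Nat.mul_div_cancel' hβdL]
        · rw [mul_zero]
      · intro h
        exact absurd (Finset.mem_range.2 (Nat.lt_succ_self L)) h
    rw [hF, coeff_zero] at h2
    exact (hmon L hGL).1 h2.symm
  have hFd : F.natDegree ≤ L := by
    refine natDegree_sum_le_of_forall_le _ _ fun j hj => ?_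
    refine (natDegree_C_mul_X_pow_le _ _).trans ((Nat.div_le_self j β).trans ?_)
    exact Nat.lt_succ_iff.1 (Finset.mem_range.1 hj)
  have hint : IsIntegral ℚ κ := isAlgebraic_iff_isIntegral.1 ⟨F, hF0, hFκ⟩
  refine ⟨β, w, hβ1, hβL, ?_, ?_⟩
  · rw [← hκ]
    exact hint
  · rw [← hκ, IntermediateField.adjoin.finrank hint]
    exact (natDegree_le_of_dvd (minpoly.dvd ℚ κ hFκ) hF0).trans hFd

theorem stepC {E : Type} [Field E] [CharZero E] (G P : ℚ[X][Y]) (hG : Irreducible G)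
    (h1 : 1 ≤ G.natDegree) (hP : P ≠ 0) (hPd : P.natDegree < 17 * (G.natDegree + 1))
    (ℛ : Finset ℕ) (hℛ : ∀ l ∈ ℛ, l.Prime ∧ G ∣ ex l P)
    (hc : 35 + Nat.log 2 G.natDegree ≤ ℛ.card)
    (x a : E) (hx : x ≠ 0) (ha : a ≠ 0) (h0 : aevalAeval (R := ℚ) x a G = 0) :
    ∃ (β : ℕ) (w : ℤ), 1 ≤ β ∧ β ≤ G.natDegree ∧ IsIntegral ℚ (a ^ β * x ^ w) ∧
      Module.finrank ℚ ℚ⟮a ^ β * x ^ w⟯ ≤ G.natDegree := by
  classical
  let Ω : Type := AlgebraicClosure (RatFunc ℚ)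
  let T : Ω := algebraMap (RatFunc ℚ) Ω RatFunc.X
  have hT : Transcendental ℚ T := by
    refine (transcendental_algebraMap_iff (algebraMap (RatFunc ℚ) Ω).injective).2 ?_
    rw [← RatFunc.algebraMap_X]
    exact (transcendental_algebraMap_iff (RatFunc.algebraMap_injective ℚ)).2
      (Polynomial.transcendental_X ℚ)
  have hinj : Function.Injective ((aeval (R := ℚ) T).toRingHom : ℚ[X] →+* Ω) :=
    transcendental_iff_injective.mp hT
  obtain ⟨θ, hθ0⟩ : ∃ θ : Ω, aevalAeval (R := ℚ) T θ G = 0 := by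
    have h2 : (G.map ((aeval (R := ℚ) T).toRingHom : ℚ[X] →+* Ω)).degree ≠ 0 := by
      rw [degree_map_eq_of_injective hinj]
      intro h3
      have h4 : G.natDegree = 0 := natDegree_eq_of_degree_eq_some (n := 0) h3
      omega
    obtain ⟨θ, hθ⟩ := IsAlgClosed.exists_root _ h2
    refine ⟨θ, ?_⟩
    rw [IsRoot.def, eval_map, eval₂_eq_sum_range] at hθ
    rw [ev_sum]
    exact hθ
  have hθ : θ ≠ 0 := by
    intro h2
    rw [h2] at hθ0
    have h3 : aeval T (G.coeff 0) = 0 := by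
      rw [← hθ0, ev_sum, Finset.sum_eq_single 0]
      · rw [pow_zero, mul_one]
      · intro j _ hj
        rw [zero_pow hj, mul_zero]
      · intro h
        exact absurd (Finset.mem_range.2 (Nat.succ_pos _)) h
    have h4 : G.coeff 0 = 0 := hinj (h3.trans (map_zero _).symm)
    obtain ⟨Q, hQ⟩ := X_dvd_iff.2 h4
    have h5 := (hG.isUnit_or_isUnit hQ).resolve_left not_isUnit_X
    have h6 := h5.map (aevalAeval (R := ℚ) x a)
    rw [hQ, map_mul, aevalAeval_Y] at h0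
    exact h6.ne_zero ((mul_eq_zero.1 h0).resolve_left ha)
  obtain ⟨l, hl, l', hl', hll, H, hH, hH1, hH0, hH0'⟩ :=
    two_primes T θ hT G hG h1 hθ0 P hP hPd ℛ hℛ hc
  have h2 := om_alg T θ hT hθ G hG h1 hθ0 l l' (hℛ l hl).1.one_lt.le (hℛ l' hl').1.one_lt.le hll H
    hH hH1 hH0 hH0'
  obtain ⟨u, i₀, h3⟩ := collinear T θ hT hθ G hG h1 hθ0 h2
  exact num G h1 u i₀ h3 x a hx ha h0

end Pool.Agent.H36.LE
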