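import Pool.Agent.H36.LE.PbB
import Pool.Agent.H36.LE.PbC
import Pool.Agent.H36.LE.Mp

/-!
# THEOREM L (MP_187c26_nt), step B: the curve divides the `P(X^l, Y^l)`

Imports may be sorried.
PROOF. `n₀ := dX G`, `L₀ := natDegree G`, `n := 17 (n₀ + 1)`, `L := 17 (L₀ + 1)`. `Vs x a n L q ∅` contains the multiples of `G` in the box (`ML G n L`), of dimension `(n - n₀)(L - L₀) = (16 n₀ + 17)(16 L₀ + 17)` (`finrank_ML`). So `n L - dim Vs ∅ ≤ 289 (n₀+1)(L₀+1) - (16 n₀ + 17)(16 L₀ + 17) = 33 n₀ L₀ + 17 n₀ + 17 L₀`, and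
`8 (33 n₀ L₀ + 17 n₀ + 17 L₀) = 264 n₀ L₀ + 136 n₀ + 136 L₀ < 289 (n₀ + 1)(L₀ + 1) = n L`, so `hcor` gives `dim Vs ℛ > 0`: `P ≠ 0` in `Vs x a n L q ℛ`; `natDegree P < L`, `dX P < n` (`mem_BS`). For `l ∈ ℛ`: `(ex l P)(x^q, a^q) = P(x^(ql), a^(ql)) = 0` (`ex_eval`, `pow_mul`). `small_root` for `G`, `ex l P` at `(x^q, a^q)`
(`minpoly_pow`: degree `m`; `ex_ne_zero`): `dX G (natDegree (ex l P) + 1) + dX (ex l P)(natDegree G + 1) ≤ n₀ (17 l (L₀ + 1)) + 17 l (n₀ + 1)(L₀ + 1) ≤ 35 l (n₀ + 1)(L₀ + 1) < m` (`natDegree (ex l P) = l natDegree P ≤ l (17 (L₀+1) - 1)`, `natDegree_ex`, `dX_ex`). So `G ∣ ex l P`.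
-/

set_option autoImplicit false

open Polynomial NumberField IntermediateField
open scoped Polynomial.Bivariate

namespace Pool.Agent.H36.LE

theorem stepB {E : Type} [Field E] [CharZero E] {b m : ℕ} {x : E} (hb : 1 ≤ b) (hm : 1 ≤ m)
    (hx : x ^ m = (b : E)) (hdeg : Module.finrank ℚ ℚ⟮x⟯ = m) (a : E) (q : ℕ)
    (hq : q.Coprime m) (G : ℚ[X][Y]) (hG : Irreducible G)
    (h0 : aevalAeval (R := ℚ) (x ^ q) (a ^ q) G = 0) (ℛ : Finset ℕ)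
    (hℛ : ∀ l ∈ ℛ, 1 ≤ l ∧ 35 * l * ((dX G + 1) * (G.natDegree + 1)) < m)
    (hcor : 17 * (dX G + 1) * (17 * (G.natDegree + 1)) - Module.finrank ℚ
        (Vs (k := ℚ) x a (17 * (dX G + 1)) (17 * (G.natDegree + 1)) q ℛ) ≤
      8 * (17 * (dX G + 1) * (17 * (G.natDegree + 1)) - Module.finrank ℚ
        (Vs (k := ℚ) x a (17 * (dX G + 1)) (17 * (G.natDegree + 1)) q ∅))) :
    ∃ P : ℚ[X][Y], P ≠ 0 ∧ P.natDegree < 17 * (G.natDegree + 1) ∧ ∀ l ∈ ℛ, G ∣ ex l P := by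
  classical
  obtain ⟨n₀, hn₀⟩ : ∃ n₀, n₀ = dX G := ⟨_, rfl⟩
  obtain ⟨L₀, hL₀⟩ : ∃ L₀, L₀ = G.natDegree := ⟨_, rfl⟩
  rw [← hn₀, ← hL₀] at hcor hℛ
  rw [← hL₀]
  obtain ⟨n, hn⟩ : ∃ n, n = 17 * (n₀ + 1) := ⟨_, rfl⟩
  obtain ⟨L, hL⟩ : ∃ L, L = 17 * (L₀ + 1) := ⟨_, rfl⟩
  rw [← hn, ← hL] at hcor
  rw [← hL]
  have := isNoetherian_of_isNoetherianRing_of_finite ℚ (BS ℚ n L)
  have hfin : ∀ V : Submodule ℚ ℚ[X][Y], V ≤ BS ℚ n L → Module.Finite ℚ V := fun V h =>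
    Module.Finite.of_injective (Submodule.inclusion h) (Submodule.inclusion_injective h)
  have h1 : (n - n₀) * (L - L₀) ≤ Module.finrank ℚ (Vs (k := ℚ) x a n L q ∅) := by
    have h2 := finrank_ML G hG.ne_zero n L
    rw [← hn₀, ← hL₀] at h2
    rw [← h2]
    have h3 := hfin (Vs (k := ℚ) x a n L q ∅) inf_le_left
    refine Submodule.finrank_mono ?_
    intro P hP
    refine ⟨hP.1, ?_, ?_⟩
    · obtain ⟨R, hR⟩ := hP.2
      change aevalAeval (R := ℚ) (x ^ q) (a ^ q) P = 0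
      rw [hR, map_mul, h0, zero_mul]
    · simp
  have h2 : 0 < Module.finrank ℚ (Vs (k := ℚ) x a n L q ℛ) := by
    have e1 : n - n₀ = 16 * n₀ + 17 := by omega
    have e2 : L - L₀ = 16 * L₀ + 17 := by omega
    rw [e1, e2] at h1
    have e3 : (16 * n₀ + 17) * (16 * L₀ + 17) = 256 * (n₀ * L₀) + 272 * n₀ + 272 * L₀ + 289 := by ring
    have e4 : n * L = 289 * (n₀ * L₀) + 289 * n₀ + 289 * L₀ + 289 := by
      rw [hn, hL]
      ring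
    omega
  have h3 : Vs (k := ℚ) x a n L q ℛ ≠ ⊥ := by
    intro h
    rw [h, finrank_bot] at h2
    exact lt_irrefl _ h2
  obtain ⟨P, hP, hP0⟩ := Submodule.exists_mem_ne_zero_of_ne_bot h3
  have hbd : P.natDegree < L ∧ dX P < n := ((mem_BS _ _ _).1 hP.1).resolve_left hP0
  refine ⟨P, hP0, hbd.1, fun l hl => ?_⟩
  have h5 : aevalAeval (R := ℚ) (x ^ (q * l)) (a ^ (q * l)) P = 0 :=
    (Submodule.mem_iInf _).1 ((Submodule.mem_iInf _).1 hP.2.2 l) hl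
  have hl1 := (hℛ l hl).1
  have hl2 := (hℛ l hl).2
  have h6 : aevalAeval (R := ℚ) (x ^ q) (a ^ q) (ex l P) = 0 := by
    rw [ex_eval, ← pow_mul, ← pow_mul]
    exact h5
  refine small_root (x ^ q) (a ^ q) (isIntegral_x hm hx q) G (ex l P) hG (ex_ne_zero l hl1 P hP0) h0 h6 ?_
  rw [minpoly_pow hb hm hx hdeg q hq, natDegree_X_pow_sub_C, natDegree_ex l hl1, dX_ex l hl1, ← hn₀,
    ← hL₀]
  refine lt_of_le_of_lt ?_ hl2
  have b1 : l * P.natDegree + 1 ≤ 17 * l * (L₀ + 1) := by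
    have : l * (P.natDegree + 1) ≤ l * (17 * (L₀ + 1)) := Nat.mul_le_mul_left _ (by omega)
    nlinarith
  have b2 : n₀ * (l * P.natDegree + 1) ≤ n₀ * (17 * l * (L₀ + 1)) := Nat.mul_le_mul_left _ b1
  have b3 : l * dX P * (L₀ + 1) ≤ l * (17 * (n₀ + 1)) * (L₀ + 1) :=
    Nat.mul_le_mul_right _ (Nat.mul_le_mul_left _ (by omega))
  nlinarith [Nat.zero_le (l * (L₀ + 1)), Nat.zero_le (l * ((n₀ + 1) * (L₀ + 1)))]

end Pool.Agent.H36.LE
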