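import Pool.Agent.H36.LE.LqB

/-!
# THEOREM L (MP_187c26_nt), step D: heights of `κ^m b^s`

Imports `LqB` (`lehmerQ`, may be sorried); height lemmas `Pool.Agent.H4.RR.absLogHeight_mul_le`, `absLogHeight_pow`, `absLogHeight_eq_of_minpoly_eq`, inverse: `absLogHeight₁ y⁻¹ = absLogHeight₁ y` (`Height.logHeight₁_inv` and `absLogHeight_eq`, or library).
PROOF. `w` a prime divisor of `b`, `v` := the `w`-adic valuation on `ℚ` (`padicValRat w`), `v(b) ≥ 1`. `N₁ := finrank ℚ ℚ⟮κ⟯ ≤ N`. `y := κ^m b^s ∈ ℚ(κ)`, `η := absLogHeight₁ y`. Norm from `ℚ(κ)` to `ℚ`: `ν := N(κ) ∈ ℚ`, `N(y) = ν^m b^(s N₁)`.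
(1) `h(N(y)) ≤ N₁ η`: the norm is the product of the `N₁` conjugates (in an algebraic closure), all of height `η` (`Algebra.norm_eq_prod_embeddings`, `absLogHeight_eq`, subadditivity; or Mathlib: `Height` of the norm).
(2) for `0 ≠ r ∈ ℚ`: `|v(r)| log 2 ≤ |v(r)| log w ≤ h(r)` (`h(A/B) = log max(|A|, |B|)`, `Rat` height in Mathlib/`Height.logHeight₁`; or the places: `h(r) ≥ log⁺ |r|_w` and `h(r) = h(r⁻¹)`).
So `e := v(N(y)) = m v(ν) + s N₁ v(b)` is an integer with `|e| log 2 ≤ N₁ η`.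
(3) `κ' := κ^(N₁ v(b)) b^(-v(ν))`: `κ'^m = (y b^(-s))^(N₁ v(b)) b^(-m v(ν)) = y^(N₁ v(b)) b^(-e)`. So `m h(κ') ≤ N₁ v(b) η + |e| log b ≤ N₁ η (v(b) + log b/log 2)`. `κ' ∈ ℚ(κ)` has degree `≤ N₁`, `κ' ≠ 0`, and it is not a root of unity: `κ'^k = 1` gives `κ^(k N₁ v(b)) = b^(k v(ν))`, excluded. `lehmerQ`:
`h(κ') ≥ c/N^4`. So `η ≥ c m/(N^5 (v(b) + log b/log 2))`.
-/

set_option autoImplicit false

open Polynomial NumberField IntermediateField

namespace Pool.Agent.H36.LE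

/-- (2) -/
private theorem val_le (w : ℕ) (hw : w.Prime) (r : ℚ) (hr : r ≠ 0) :
    |(padicValRat w r : ℝ)| * Real.log 2 ≤ Height.logHeight₁ r := by
  have hlog : Real.log 2 ≤ Real.log w := Real.log_le_log (by norm_num) (by exact_mod_cast hw.two_le)
  have hlog0 : 0 ≤ Real.log 2 := Real.log_nonneg (by norm_num)
  have key : ∀ n A : ℕ, n ≠ 0 → w ^ A ∣ n → n ≤ max r.num.natAbs r.den →
      (A : ℝ) * Real.log 2 ≤ Height.logHeight₁ r := by
    intro n A hn hA hle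
    rw [Rat.logHeight₁_eq_log_max]
    have h1 : w ^ A ≤ max r.num.natAbs r.den := (Nat.le_of_dvd (Nat.pos_of_ne_zero hn) hA).trans hle
    have hpos : 0 < w ^ A := pow_pos hw.pos A
    calc (A : ℝ) * Real.log 2 ≤ A * Real.log w := mul_le_mul_of_nonneg_left hlog (Nat.cast_nonneg _)
      _ = Real.log ((w ^ A : ℕ) : ℝ) := by
        push_cast
        rw [Real.log_pow]
      _ ≤ _ := Real.log_le_log (by exact_mod_cast hpos) (by exact_mod_cast h1)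
  have h1 := key r.num.natAbs (padicValNat w r.num.natAbs) (by
    rw [Ne, Int.natAbs_eq_zero, Rat.num_eq_zero]
    exact hr) pow_padicValNat_dvd (le_max_left _ _)
  have h2 := key r.den (padicValNat w r.den) r.den_nz pow_padicValNat_dvd (le_max_right _ _)
  have h3 : (padicValRat w r : ℝ) = (padicValNat w r.num.natAbs : ℝ) - (padicValNat w r.den : ℝ) := by
    rw [padicValRat_def, Int.cast_sub, Int.cast_natCast, Int.cast_natCast]
    rfl
  have h4 : 0 ≤ (padicValNat w r.num.natAbs : ℝ) := Nat.cast_nonneg _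
  have h5 : 0 ≤ (padicValNat w r.den : ℝ) := Nat.cast_nonneg _
  rw [h3]
  rcases abs_cases ((padicValNat w r.num.natAbs : ℝ) - (padicValNat w r.den : ℝ)) with ⟨h6, -⟩ | ⟨h6, -⟩
  · rw [h6]
    nlinarith
  · rw [h6]
    nlinarith

private theorem prod_le {Ω ι : Type} [Field Ω] [CharZero Ω] (s : Finset ι) (f : ι → Ω)
    (hf : ∀ i ∈ s, IsIntegral ℚ (f i)) :
    absLogHeight₁ (∏ i ∈ s, f i) ≤ ∑ i ∈ s, absLogHeight₁ (f i) := by
  classical
  induction s using Finset.induction_on with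
  | empty =>
    rw [Finset.prod_empty, Finset.sum_empty]
    have h1 := Pool.Agent.H4.RR.absLogHeight_pow Ω 1 isIntegral_one 0
    rw [pow_zero, Nat.cast_zero, zero_mul] at h1
    exact h1.le
  | insert a s ha ih =>
    rw [Finset.prod_insert ha, Finset.sum_insert ha]
    have h1 : IsIntegral ℚ (∏ i ∈ s, f i) :=
      IsIntegral.prod _ fun i hi => hf i (Finset.mem_insert_of_mem hi)
    exact (Pool.Agent.H4.RR.absLogHeight_mul_le Ω _ _ (hf a (Finset.mem_insert_self a s)) h1).trans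
      (add_le_add_right (ih fun i hi => hf i (Finset.mem_insert_of_mem hi)) _)

/-- (1) -/
private theorem norm_le (E : Type) [Field E] [NumberField E] (y : E) :
    Height.logHeight₁ (Algebra.norm ℚ y) ≤ Height.logHeight₁ y := by
  have h1 := Algebra.norm_eq_prod_embeddings ℚ ℂ y
  have h2 := Pool.Agent.H4.RR.absLogHeight_eq ℚ ℂ (algebraMap ℚ ℂ) (Algebra.norm ℚ y)
  rw [Module.finrank_self, Nat.cast_one, div_one, h1] at h2
  rw [← h2]
  have h3 : ∀ σ : E →ₐ[ℚ] ℂ, absLogHeight₁ (σ y) =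
      Height.logHeight₁ y / Module.finrank ℚ E := fun σ =>
    Pool.Agent.H4.RR.absLogHeight_eq E ℂ σ.toRingHom y
  refine (prod_le (Finset.univ : Finset (E →ₐ[ℚ] ℂ)) (fun σ => σ y) fun σ _ =>
    (Algebra.IsIntegral.isIntegral (R := ℚ) y).map σ).trans ?_
  simp only [h3]
  rw [Finset.sum_const, nsmul_eq_mul, Finset.card_univ, AlgHom.card ℚ E ℂ]
  have h4 : (Module.finrank ℚ E : ℝ) ≠ 0 := by
    exact_mod_cast (Module.finrank_pos (R := ℚ) (M := E)).ne'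
  rw [mul_div_cancel₀ _ h4]

private theorem norm_inv (E : Type) [Field E] [NumberField E] (x : E) :
    Algebra.norm ℚ x⁻¹ = (Algebra.norm ℚ x)⁻¹ := by
  by_cases h : x = 0
  · rw [h, inv_zero, Algebra.norm_zero, inv_zero]
  · apply eq_inv_of_mul_eq_one_left
    rw [← map_mul, inv_mul_cancel₀ h, map_one]

private theorem norm_zpow {E : Type} [Field E] [NumberField E] (x : E) (s : ℤ) :
    Algebra.norm ℚ (x ^ s) = Algebra.norm ℚ x ^ s :=
  map_zpow' (Algebra.norm ℚ) (norm_inv E) x s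

private theorem height_b (E : Type) [Field E] [NumberField E] (b : ℕ) (hb : 2 ≤ b) :
    Height.logHeight₁ (b : E) = Module.finrank ℚ E * Real.log b := by
  have hne : NeZero b := ⟨by omega⟩
  have h1 := Pool.Agent.H4.RR.mulHeight₁_algebraMap ℚ E (b : ℚ)
  rw [map_natCast, Rat.mulHeight₁_natCast] at h1
  rw [Height.logHeight₁_eq_log_mulHeight₁, h1, Real.log_pow]

theorem stepD (b : ℕ) (hb : 2 ≤ b) : ∃ c : ℝ, 0 < c ∧ ∀ (Ω : Type) [Field Ω] [CharZero Ω]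
    (κ : Ω), IsIntegral ℚ κ → κ ≠ 0 → (∀ k : ℕ, 1 ≤ k → ∀ j : ℤ, κ ^ k ≠ (b : Ω) ^ j) →
    ∀ N : ℕ, Module.finrank ℚ ℚ⟮κ⟯ ≤ N → ∀ (m : ℕ) (s : ℤ), 1 ≤ m →
      c * m / (N : ℝ) ^ 5 ≤ absLogHeight₁ (κ ^ m * (b : Ω) ^ s) := by
  obtain ⟨c0, hc0, hleh⟩ := lehmerQ
  obtain ⟨w, hw, hwb⟩ := Nat.exists_prime_and_dvd (show b ≠ 1 by omega)
  have hfact : Fact w.Prime := ⟨hw⟩
  obtain ⟨vb, hvb⟩ : ∃ vb, vb = padicValNat w b := ⟨_, rfl⟩
  have hvb1 : 1 ≤ vb := by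
    rw [hvb]
    exact one_le_padicValNat_of_dvd (by omega) hwb
  have hlog2 : 0 < Real.log 2 := Real.log_pos (by norm_num)
  have hlogb : 0 < Real.log b := Real.log_pos (by exact_mod_cast (show 1 < b by omega))
  have hA : 0 < (vb : ℝ) + Real.log b / Real.log 2 := by positivity
  refine ⟨c0 / ((vb : ℝ) + Real.log b / Real.log 2), by positivity, ?_⟩
  intro Ω _ _ κ hκ hκ0 hκb N hN m s hm
  have hfd : FiniteDimensional ℚ ℚ⟮κ⟯ := IntermediateField.adjoin.finiteDimensional hκ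
  have hnf : NumberField ℚ⟮κ⟯ := {}
  obtain ⟨E, hE⟩ : ∃ E, E = ℚ⟮κ⟯ := ⟨_, rfl⟩
  obtain ⟨k0, hk0⟩ : ∃ k0 : ℚ⟮κ⟯, k0 = AdjoinSimple.gen ℚ κ := ⟨_, rfl⟩
  let ι : ℚ⟮κ⟯ →+* Ω := (IntermediateField.val ℚ⟮κ⟯).toRingHom
  have hιk : ι k0 = κ := by
    rw [hk0]
    rfl
  have hk00 : k0 ≠ 0 := by
    intro h
    rw [h, map_zero] at hιk
    exact hκ0 hιk.symm
  have hb0 : (b : ℚ⟮κ⟯) ≠ 0 := Nat.cast_ne_zero.2 (by omega)
  have hbQ : (b : ℚ) ≠ 0 := Nat.cast_ne_zero.2 (by omega)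
  obtain ⟨N₁, hN₁⟩ : ∃ N₁, N₁ = Module.finrank ℚ ℚ⟮κ⟯ := ⟨_, rfl⟩
  have hN₁pos : 1 ≤ N₁ := by
    rw [hN₁]
    exact Module.finrank_pos
  rw [← hN₁] at hN
  obtain ⟨ν, hν⟩ : ∃ ν : ℚ, ν = Algebra.norm ℚ k0 := ⟨_, rfl⟩
  have hν0 : ν ≠ 0 := by
    rw [hν, Ne, Algebra.norm_eq_zero_iff]
    exact hk00
  obtain ⟨y, hy⟩ : ∃ y : ℚ⟮κ⟯, y = k0 ^ m * (b : ℚ⟮κ⟯) ^ s := ⟨_, rfl⟩
  have hιy : ι y = κ ^ m * (b : Ω) ^ s := by
    rw [hy, map_mul, map_pow, hιk, map_zpow₀, map_natCast]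
  have hNy : Algebra.norm ℚ y = ν ^ m * ((b : ℚ) ^ N₁) ^ s := by
    have h1 : Algebra.norm ℚ (b : ℚ⟮κ⟯) = (b : ℚ) ^ N₁ := by
      have h2 := Algebra.norm_algebraMap (R := ℚ) (S := ℚ⟮κ⟯) (b : ℚ)
      rw [map_natCast] at h2
      rw [h2, hN₁]
    rw [hy, map_mul, map_pow, norm_zpow, h1, ← hν]
  have hNy0 : Algebra.norm ℚ y ≠ 0 := by
    rw [hNy]
    exact mul_ne_zero (pow_ne_zero _ hν0) (zpow_ne_zero _ (pow_ne_zero _ hbQ))
  obtain ⟨e, he⟩ : ∃ e : ℤ, e = padicValRat w (Algebra.norm ℚ y) := ⟨_, rfl⟩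
  have he2 : e = m * padicValRat w ν + s * (N₁ * vb) := by
    rw [he, hNy, padicValRat.mul (pow_ne_zero _ hν0) (zpow_ne_zero _ (pow_ne_zero _ hbQ)),
      padicValRat.pow, padicValRat.zpow, padicValRat.pow, padicValRat.of_nat, ← hvb]
  have he3 : |(e : ℝ)| * Real.log 2 ≤ Height.logHeight₁ y := by
    rw [he]
    exact (val_le w hw _ hNy0).trans (norm_le _ y)
  -- the element `κ'`
  obtain ⟨k', hk'⟩ : ∃ k' : ℚ⟮κ⟯, k' = k0 ^ (N₁ * vb) * (b : ℚ⟮κ⟯) ^ (-padicValRat w ν) := ⟨_, rfl⟩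
  have hpow : k' ^ m = y ^ (N₁ * vb) * (b : ℚ⟮κ⟯) ^ (-e) := by
    have h1 : ((k0 ^ (N₁ * vb)) ^ m : ℚ⟮κ⟯) = (k0 ^ m) ^ (N₁ * vb) := by
      rw [← pow_mul, ← pow_mul, mul_comm]
    rw [hk', hy, mul_pow, mul_pow, h1, mul_assoc]
    congr 1
    rw [← zpow_natCast, ← zpow_mul, ← zpow_natCast, ← zpow_mul, ← zpow_add₀ hb0]
    congr 1
    rw [he2]
    push_cast
    ring
  have hk'0 : k' ≠ 0 := by
    rw [hk']
    exact mul_ne_zero (pow_ne_zero _ hk00) (zpow_ne_zero _ hb0)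
  have hHk : (m : ℝ) * Height.logHeight₁ k' ≤
      (N₁ : ℝ) * Height.logHeight₁ y * ((vb : ℝ) + Real.log b / Real.log 2) := by
    have h1 : (m : ℝ) * Height.logHeight₁ k' = Height.logHeight₁ (k' ^ m) := by
      rw [Height.logHeight₁_pow]
    have h2 := Height.logHeight₁_mul_le (y ^ (N₁ * vb)) ((b : ℚ⟮κ⟯) ^ (-e))
    rw [Height.logHeight₁_pow, Height.logHeight₁_zpow, height_b _ b hb, ← hN₁] at h2
    have h3 : (((-e).natAbs : ℕ) : ℝ) = |(e : ℝ)| := by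
      rw [Int.natAbs_neg, Nat.cast_natAbs]
      push_cast
      rfl
    rw [h3] at h2
    rw [h1, hpow]
    refine h2.trans ?_
    have h4 : |(e : ℝ)| ≤ Height.logHeight₁ y / Real.log 2 := by
      rw [le_div_iff₀ hlog2]
      exact he3
    have h5 : |(e : ℝ)| * ((N₁ : ℝ) * Real.log b) ≤
        Height.logHeight₁ y / Real.log 2 * ((N₁ : ℝ) * Real.log b) :=
      mul_le_mul_of_nonneg_right h4 (by positivity)
    have h6 : Height.logHeight₁ y / Real.log 2 * ((N₁ : ℝ) * Real.log b) =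
        (N₁ : ℝ) * Height.logHeight₁ y * (Real.log b / Real.log 2) := by
      field_simp
    rw [h6] at h5
    push_cast
    nlinarith [h5]
  -- Lehmer
  have hι' : IsIntegral ℚ (ι k') := (Algebra.IsIntegral.isIntegral (R := ℚ) k').map
    (IntermediateField.val ℚ⟮κ⟯)
  have hne : ι k' ≠ 0 := (map_ne_zero ι).2 hk'0
  have hroot : ∀ k : ℕ, 1 ≤ k → ι k' ^ k ≠ 1 := by
    intro k hk h
    rw [hk', map_mul, map_pow, map_zpow₀, hιk, map_natCast, mul_pow] at h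
    have hbΩ : (b : Ω) ≠ 0 := Nat.cast_ne_zero.2 (by omega)
    refine hκb (N₁ * vb * k) (Nat.mul_pos (Nat.mul_pos hN₁pos hvb1) hk) (padicValRat w ν * k) ?_
    rw [pow_mul]
    rw [zpow_neg, inv_pow] at h
    rw [zpow_mul, zpow_natCast]
    exact (mul_inv_eq_one₀ (pow_ne_zero _ (zpow_ne_zero _ hbΩ))).1 h
  have hdeg : Module.finrank ℚ ℚ⟮ι k'⟯ ≤ N := by
    refine le_trans ?_ hN
    rw [hN₁]
    have hle : ℚ⟮ι k'⟯ ≤ ℚ⟮κ⟯ := by
      rw [adjoin_simple_le_iff]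
      exact k'.2
    exact IntermediateField.finrank_le_of_le_right hle
  have h1 := hleh Ω (ι k') hι' hne hroot N hdeg
  have h2 := Pool.Agent.H4.RR.absLogHeight_eq ℚ⟮κ⟯ Ω ι k'
  have h3 := Pool.Agent.H4.RR.absLogHeight_eq ℚ⟮κ⟯ Ω ι y
  rw [h2, ← hN₁] at h1
  rw [← hιy, h3, ← hN₁]
  have hN₁R : (0 : ℝ) < N₁ := by exact_mod_cast hN₁pos
  have hNR : (0 : ℝ) < N := by
    have : 0 < N := by omega
    exact_mod_cast this
  have hNle : (N₁ : ℝ) ≤ N := by exact_mod_cast hN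
  have hHy : 0 ≤ Height.logHeight₁ y := Height.zero_le_logHeight₁ y
  have h4 : c0 * m * N₁ ≤ (N : ℝ) ^ 4 * ((N₁ : ℝ) * Height.logHeight₁ y *
      ((vb : ℝ) + Real.log b / Real.log 2)) := by
    rw [div_le_div_iff₀ (by positivity) hN₁R] at h1
    calc c0 * m * N₁ = m * (c0 * N₁) := by ring
      _ ≤ m * (Height.logHeight₁ k' * (N : ℝ) ^ 4) := mul_le_mul_of_nonneg_left h1 (Nat.cast_nonneg _)
      _ = (N : ℝ) ^ 4 * (m * Height.logHeight₁ k') := by ring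
      _ ≤ _ := mul_le_mul_of_nonneg_left hHk (by positivity)
  have h5 : c0 * m ≤ (N : ℝ) ^ 4 * (Height.logHeight₁ y * ((vb : ℝ) + Real.log b / Real.log 2)) := by
    have h6 : (N : ℝ) ^ 4 * ((N₁ : ℝ) * Height.logHeight₁ y *
        ((vb : ℝ) + Real.log b / Real.log 2)) = ((N : ℝ) ^ 4 * (Height.logHeight₁ y *
        ((vb : ℝ) + Real.log b / Real.log 2))) * N₁ := by ring
    rw [h6] at h4
    exact le_of_mul_le_mul_right h4 hN₁R
  rw [div_mul_eq_mul_div, div_div, div_le_div_iff₀ (by positivity) hN₁R]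
  calc c0 * m * N₁ ≤ ((N : ℝ) ^ 4 * (Height.logHeight₁ y * ((vb : ℝ) + Real.log b / Real.log 2))) * N :=
        mul_le_mul h5 hNle hN₁R.le (by positivity)
    _ = _ := by ring

end Pool.Agent.H36.LE
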