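import Pool.Agent.H36.LE.FinB
import Pool.Agent.H36.LE.SdA

/-!
# THEOREM L (MP_187c26_nt), the theorem for number fields `E`, `[E : ℚ(x)] = d`

Imports may be sorried (`finB`, `stepD`, `lehmerQ`).
PROOF. `N := N₀ * 300 * (d + s + 1)`-type parameter: `N := C (d + s)` with `C = 300 (N₀ + 1)` (so `N ≥ N₀`, `300 d ≤ N`, `s ≤ N`; `d ≥ 1`). `h := absLogHeight₁ a`.
(1) `N^141 h > 1`: `h > N^(-141)`. (2) `m < N^90`: `a` is not a root of unity (`j = 0`), of degree `≤ [E : ℚ] = m d ≤ N^91`: `lehmerQ` in `E`: `h ≥ c/N^364`. (3) otherwise `finB`: `κ := (a^q)^β (x^q)^w`, `κ^m = a^(q β m) b^(q w)` (`x^m = b`), so `a^(q β m) = κ^m b^(- q w)` and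
`q β m h = h(κ^m b^(-qw)) ≥ c m/(N^53)^5` (`stepD` in `E`; `absLogHeight_pow`; `κ ≠ 0`; `κ^k = b^j` would give `a^(q β m k) = b^(j m - q w k)`, excluded). So `h ≥ c/(N^52 N^53 N^265) = c/N^370`. In all cases `h ≥ c' N^(-370) = c' C^(-370) (d + s)^(-370) ≥ c'' (d + s)^(-400)`.
-/

set_option autoImplicit false

open Polynomial NumberField IntermediateField

namespace Pool.Agent.H36.LE

/-- the end: a bound in terms of `N` gives the bound in terms of `d + s` -/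
private theorem fc_end {c C₀ h : ℝ} {n : ℕ} (hC : 1 ≤ C₀) (hn : 1 ≤ n) (hh : 0 ≤ h)
    (hb : c ≤ (C₀ * n) ^ 370 * h) : c / C₀ ^ 370 ≤ (n : ℝ) ^ 400 * h := by
  have hn1 : (1 : ℝ) ≤ n := by exact_mod_cast hn
  rw [div_le_iff₀ (by positivity)]
  calc c ≤ (C₀ * n) ^ 370 * h := hb
    _ = (n : ℝ) ^ 370 * h * C₀ ^ 370 := by rw [mul_pow]; ring
    _ ≤ (n : ℝ) ^ 400 * h * C₀ ^ 370 := by
        have h1 : (n : ℝ) ^ 370 ≤ (n : ℝ) ^ 400 := pow_le_pow_right₀ hn1 (by norm_num)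
        exact mul_le_mul_of_nonneg_right (mul_le_mul_of_nonneg_right h1 hh) (by positivity)

/-- the third case: the auxiliary number of small degree -/
private theorem fc_three {E : Type} [Field E] [NumberField E] {b : ℕ} {cD : ℝ} (hb : 2 ≤ b)
    (hD : ∀ (κ : E), IsIntegral ℚ κ → κ ≠ 0 → (∀ k : ℕ, 1 ≤ k → ∀ j : ℤ, κ ^ k ≠ (b : E) ^ j) →
      ∀ N : ℕ, Module.finrank ℚ ℚ⟮κ⟯ ≤ N → ∀ (m : ℕ) (s : ℤ), 1 ≤ m →
        cD * m / (N : ℝ) ^ 5 ≤ absLogHeight₁ (κ ^ m * (b : E) ^ s))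
    {N m q β : ℕ} {w : ℤ} {x a : E} (hN : 1 ≤ N) (hm : 1 ≤ m) (hx : x ^ m = (b : E)) (ha : a ≠ 0)
    (hab : ∀ k : ℕ, 1 ≤ k → ∀ j : ℤ, a ^ k ≠ (b : E) ^ j) (hh : 0 ≤ absLogHeight₁ a)
    (hq : 1 ≤ q) (hqN : q ≤ N ^ 52) (hβ : 1 ≤ β) (hβN : β ≤ N ^ 53)
    (hint : IsIntegral ℚ ((a ^ q) ^ β * (x ^ q) ^ w))
    (hdeg : Module.finrank ℚ ℚ⟮(a ^ q) ^ β * (x ^ q) ^ w⟯ ≤ N ^ 53) :
    cD ≤ (N : ℝ) ^ 370 * absLogHeight₁ a := by
  have hb0 : (b : E) ≠ 0 := by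
    rw [Nat.cast_ne_zero]
    omega
  have hx0 : x ≠ 0 := by
    rintro rfl
    rw [zero_pow (by omega)] at hx
    exact hb0 hx.symm
  have hxq : x ^ q ≠ 0 := pow_ne_zero _ hx0
  have hpow : ∀ k : ℕ, ((a ^ q) ^ β * (x ^ q) ^ w) ^ (m * k) = a ^ (q * β * m * k) * (b : E) ^ ((q : ℤ) * w * k) := by
    intro k
    have e1 : ((a ^ q) ^ β) ^ (m * k) = a ^ (q * β * m * k) := by
      rw [← pow_mul, ← pow_mul]
      congr 1
      ring
    have e2 : ((x ^ q) ^ w) ^ (m * k) = (b : E) ^ ((q : ℤ) * w * k) := by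
      rw [← zpow_natCast ((x ^ q) ^ w), ← zpow_mul, ← zpow_natCast x q, ← zpow_mul, ← hx, ← zpow_natCast x m,
        ← zpow_mul]
      congr 1
      push_cast
      ring
    rw [mul_pow, e1, e2]
  have h1 := hD ((a ^ q) ^ β * (x ^ q) ^ w) hint (mul_ne_zero (pow_ne_zero _ (pow_ne_zero _ ha)) (zpow_ne_zero _ hxq))
    (fun k hk j h => by
      have h2 := hpow k
      rw [mul_comm m k, pow_mul, h, ← zpow_natCast ((b : E) ^ j), ← zpow_mul] at h2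
      have h3 : a ^ (q * β * m * k) = (b : E) ^ (j * (m : ℤ) - (q : ℤ) * w * k) := by
        rw [zpow_sub₀ hb0, h2, mul_div_cancel_right₀ _ (zpow_ne_zero _ hb0)]
      exact hab _ (Nat.one_le_iff_ne_zero.2 (by positivity)) _ h3) (N ^ 53) hdeg m (-((q : ℤ) * w)) hm
  have h2 : ((a ^ q) ^ β * (x ^ q) ^ w) ^ m * (b : E) ^ (-((q : ℤ) * w)) = a ^ (q * β * m) := by
    have h3 := hpow 1
    rw [mul_one, mul_one, Nat.cast_one, mul_one] at h3
    rw [h3, mul_assoc, ← zpow_add₀ hb0, add_neg_cancel, zpow_zero, mul_one]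
  rw [h2, Pool.Agent.H4.RR.absLogHeight_pow E a (Algebra.IsIntegral.isIntegral a)] at h1
  have hN1 : (1 : ℝ) ≤ N := by exact_mod_cast hN
  have hm1 : (0 : ℝ) < m := by exact_mod_cast hm
  rw [div_le_iff₀ (by positivity)] at h1
  have hq' : (q : ℝ) ≤ (N : ℝ) ^ 52 := by exact_mod_cast hqN
  have hβ' : (β : ℝ) ≤ (N : ℝ) ^ 53 := by exact_mod_cast hβN
  have h4 : cD * m ≤ ((N : ℝ) ^ 370 * absLogHeight₁ a) * m := by
    calc cD * m ≤ ((q * β * m : ℕ) : ℝ) * absLogHeight₁ a * ((N ^ 53 : ℕ) : ℝ) ^ 5 := h1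
      _ = (q * β : ℝ) * (m * absLogHeight₁ a * (N : ℝ) ^ 265) := by
          push_cast
          ring
      _ ≤ ((N : ℝ) ^ 52 * (N : ℝ) ^ 53) * (m * absLogHeight₁ a * (N : ℝ) ^ 265) := by
          refine mul_le_mul_of_nonneg_right (mul_le_mul hq' hβ' (by positivity) (by positivity)) (by positivity)
      _ = ((N : ℝ) ^ 370 * absLogHeight₁ a) * m := by ring
  exact le_of_mul_le_mul_right h4 hm1

theorem thmL (b : ℕ) (hb : 2 ≤ b) (ι : ℝ) (hι : 0 ≤ ι) : ∃ c : ℝ, 0 < c ∧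
    ∀ (E : Type) [Field E] [NumberField E] (m d s : ℕ) (x a : E), Rd b m d ι x →
      m.primeFactors.card ≤ s → a ≠ 0 → (∀ k : ℕ, 1 ≤ k → ∀ j : ℤ, a ^ k ≠ (b : E) ^ j) →
      c ≤ ((d + s : ℕ) : ℝ) ^ 400 * absLogHeight₁ a := by
  obtain ⟨N₀, hN₀⟩ := finB b hb ι hι
  obtain ⟨cD, hcD, hD⟩ := stepD b hb
  obtain ⟨cL, hcL, hL⟩ := lehmerQ
  refine ⟨min 1 (min cL cD) / (300 * (N₀ + 1) : ℝ) ^ 370, by positivity, ?_⟩
  intro E _ _ m d s x a hR hs ha hab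
  have hfin := hR.fin
  have hd : 1 ≤ d := by
    rcases Nat.eq_zero_or_pos d with h | h
    · rw [h, mul_zero] at hfin
      have := Module.finrank_pos (R := ℚ) (M := E)
      omega
    · exact h
  have hh : 0 ≤ absLogHeight₁ a := Pool.Agent.H72.PL.absHeight_nonneg a
  have hn1 : (1 : ℝ) ≤ (300 * (N₀ + 1) : ℝ) := by
    have : (0 : ℝ) ≤ N₀ := Nat.cast_nonneg _
    linarith
  refine fc_end hn1 (by omega) hh ?_
  obtain ⟨N, hN⟩ : ∃ N : ℕ, N = 300 * (N₀ + 1) * (d + s) := ⟨_, rfl⟩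
  have hNR : (300 * (N₀ + 1) : ℝ) * ((d + s : ℕ) : ℝ) = (N : ℝ) := by
    rw [hN]
    push_cast
    ring
  rw [hNR]
  have hNN : N₀ ≤ N := by
    rw [hN]
    nlinarith
  have hNd : 300 * d ≤ N := by
    rw [hN]
    nlinarith
  have hNs : s ≤ N := by
    rw [hN]
    nlinarith
  have hN1 : 1 ≤ N := by omega
  have hN1R : (1 : ℝ) ≤ N := by exact_mod_cast hN1
  by_cases hc1 : (N : ℝ) ^ 141 * absLogHeight₁ a ≤ 1
  · by_cases hc2 : N ^ 90 ≤ m
    · obtain ⟨q, β, w, hq, hqN, hβ, hβN, hint, hdeg⟩ := hN₀ N hNN E m d x a hR hNd (hs.trans hNs) hc2 hc1 ha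
      exact ((min_le_right _ _).trans (min_le_right _ _)).trans
        (fc_three hb (hD E) hN1 hR.m1 hR.pow ha hab hh hq hqN hβ hβN hint hdeg)
    · push Not at hc2
      have h1 := hL E a (Algebra.IsIntegral.isIntegral a) ha (fun k hk h => hab k hk 0 (by rw [h, zpow_zero]))
        (N ^ 91) (by
          have h2 : Module.finrank ℚ ℚ⟮a⟯ ≤ Module.finrank ℚ E := (ℚ⟮a⟯).toSubalgebra.toSubmodule.finrank_le
          refine h2.trans ?_
          rw [hfin, pow_succ]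
          exact Nat.mul_le_mul hc2.le (by omega))
      rw [div_le_iff₀ (by positivity)] at h1
      refine ((min_le_right _ _).trans (min_le_left _ _)).trans (h1.trans ?_)
      calc absLogHeight₁ a * ((N ^ 91 : ℕ) : ℝ) ^ 4 = (N : ℝ) ^ 364 * absLogHeight₁ a := by
            push_cast
            ring
        _ ≤ (N : ℝ) ^ 370 * absLogHeight₁ a :=
            mul_le_mul_of_nonneg_right (pow_le_pow_right₀ hN1R (by norm_num)) hh
  · push Not at hc1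
    refine (min_le_left _ _).trans (hc1.le.trans ?_)
    exact mul_le_mul_of_nonneg_right (pow_le_pow_right₀ hN1R (by norm_num)) hh

end Pool.Agent.H36.LE
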