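import Pool.Agent.H36.LE.Defs

/-!
# THEOREM L (MP_187c26_nt), chapter V: Gram determinants, basic properties

Mathlib: `Mathlib/Analysis/InnerProductSpace/GramMatrix.lean` (`Matrix.gram_apply : gram 𝕜 v i j = ⟪v i, v j⟫`, `isHermitian_gram`, `posSemidef_gram`,
`posDef_gram_iff_linearIndependent`, `det_gram_ne_zero_iff_linearIndependent`, `posSemidef_opNorm_smul_gram_sub_gram`).

PROOFS. `gd_real`: the determinant of a Hermitian matrix is real (`Matrix.IsHermitian.det_eq_prod_eigenvalues`, or `det_conjTranspose`). `gd_nonneg`: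
`Matrix.PosSemidef.det_nonneg`. `gd_pos_iff`: `det_gram_ne_zero_iff_linearIndependent` and `gd_nonneg`, `gd_real`. `gd_reindex`: `Matrix.det_submatrix_equiv_self`.
`gd_comb`: `gram (fun i => ∑ j, A i j • z j) = conj(A) * gram z * A^T` entrywise (`inner_sum`, `sum_inner`, `inner_smul_left`, `inner_smul_right`), so the determinant is
`conj(det A) * det (gram z) * det A`. `gd_smul`: `A` = scalar matrix (or directly). `gd_contr0`: `B ^ 2 • gram w - gram (T ∘ w)` is positive semidefinite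
(`star_dotProduct_gram_mulVec`: the quadratic form of `gram w` at `x` is `‖∑ x_i w_i‖ ^ 2`; or `posSemidef_opNorm_smul_gram_sub_gram`), and `0 ≤ M ≤ M'` (positive semidefinite)
implies `det M ≤ det M'`. For the last: if `det M = 0` clear; otherwise `M` is positive definite, `M = R^2` with `R` Hermitian invertible (`Matrix.PosSemidef.sqrt`) and
`M' = R (1 + S) R`, `S ≥ 0`, `det (1 + S) = ∏ (1 + s_i) ≥ 1` (see the private `one_le_det` in `Pool/Agent/H72/BE/Cova.lean`, copy it). (First `B = 0` or replace `B` by scaling: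
`det (B ^ 2 • gram w) = B ^ (2 card κ) det (gram w)`.)
-/

set_option autoImplicit false

open Polynomial NumberField IntermediateField

namespace Pool.Agent.H36.LE

variable {H H' : Type} [NormedAddCommGroup H] [InnerProductSpace ℂ H] [NormedAddCommGroup H']
  [InnerProductSpace ℂ H'] {κ κ' : Type} [Fintype κ] [DecidableEq κ] [Fintype κ'] [DecidableEq κ']

theorem gd_real (z : κ → H) : ((gd z : ℝ) : ℂ) = (Matrix.gram ℂ z).det := by
  have h1 : (starRingEnd ℂ) (Matrix.gram ℂ z).det = (Matrix.gram ℂ z).det := by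
    have h2 := (Matrix.isHermitian_gram ℂ z).eq
    calc (starRingEnd ℂ) (Matrix.gram ℂ z).det = (Matrix.gram ℂ z).conjTranspose.det := by
          rw [Matrix.det_conjTranspose]
          rfl
      _ = _ := by rw [h2]
  unfold gd
  exact Complex.conj_eq_iff_re.1 h1

open scoped ComplexOrder in
theorem gd_nonneg (z : κ → H) : 0 ≤ gd z := by
  have h1 := (Matrix.posSemidef_gram ℂ z).det_nonneg
  unfold gd
  exact (Complex.le_def.1 h1).1

theorem gd_pos_iff (z : κ → H) : 0 < gd z ↔ LinearIndependent ℂ z := by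
  rw [← Matrix.det_gram_ne_zero_iff_linearIndependent, ← gd_real]
  constructor
  · intro h h1
    exact h.ne' (Complex.ofReal_eq_zero.1 h1)
  · intro h
    refine lt_of_le_of_ne (gd_nonneg z) fun h1 => h ?_
    rw [← h1, Complex.ofReal_zero]

theorem gd_reindex (e : κ' ≃ κ) (z : κ → H) : gd (fun i => z (e i)) = gd z := by
  unfold gd
  have h1 : Matrix.gram ℂ (fun i => z (e i)) = (Matrix.gram ℂ z).submatrix e e := rfl
  rw [h1, Matrix.det_submatrix_equiv_self]

theorem gd_comb (A : Matrix κ κ ℂ) (z : κ → H) :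
    gd (fun i => ∑ j, A i j • z j) = ‖A.det‖ ^ 2 * gd z := by
  have h1 : Matrix.gram ℂ (fun i => ∑ j, A i j • z j) =
      A.map (starRingEnd ℂ) * Matrix.gram ℂ z * A.transpose := by
    ext i j
    rw [Matrix.gram_apply, sum_inner, Matrix.mul_apply]
    simp_rw [inner_sum, Matrix.mul_apply, Finset.sum_mul, inner_smul_left, inner_smul_right]
    rw [Finset.sum_comm]
    refine Finset.sum_congr rfl fun k _ => Finset.sum_congr rfl fun l _ => ?_
    rw [Matrix.map_apply, Matrix.gram_apply, Matrix.transpose_apply]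
    ring
  have h2 : (A.map (starRingEnd ℂ)).det = (starRingEnd ℂ) A.det :=
    (RingHom.map_det (starRingEnd ℂ) A).symm
  have h3 : ((gd (fun i => ∑ j, A i j • z j) : ℝ) : ℂ) = ((‖A.det‖ ^ 2 * gd z : ℝ) : ℂ) := by
    rw [gd_real, h1, Matrix.det_mul, Matrix.det_mul, h2, Matrix.det_transpose, ← gd_real]
    push_cast
    rw [← Complex.mul_conj']
    ring
  exact_mod_cast h3

theorem gd_smul (c : ℂ) (z : κ → H) :
    gd (fun i => c • z i) = ‖c‖ ^ (2 * Fintype.card κ) * gd z := by
  have h1 := gd_comb (Matrix.scalar κ c) z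
  have h2 : (fun i => ∑ j, (Matrix.scalar κ c) i j • z j) = fun i => c • z i := by
    funext i
    rw [Finset.sum_eq_single i]
    · rw [Matrix.scalar_apply, Matrix.diagonal_apply_eq]
    · intro j _ hj
      rw [Matrix.scalar_apply, Matrix.diagonal_apply_ne _ hj.symm, zero_smul]
    · intro h
      exact absurd (Finset.mem_univ i) h
  rw [h2] at h1
  rw [h1, Matrix.scalar_apply, Matrix.det_diagonal, Finset.prod_const, norm_pow, ← pow_mul, Finset.card_univ,
    mul_comm (Fintype.card κ)]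

open scoped ComplexOrder in
/-- A positive semidefinite matrix bounded by `b` has determinant at most `b ^ card`. -/
private theorem det_le_pow {N : Matrix κ κ ℂ} (hN : N.PosSemidef) {b : ℝ}
    (hb : ∀ x : κ → ℂ, (star x ⬝ᵥ N.mulVec x).re ≤ b * (star x ⬝ᵥ x).re) :
    N.det.re ≤ b ^ Fintype.card κ := by
  have hH := hN.isHermitian
  have h1 : ∀ i, 0 ≤ hH.eigenvalues i := hN.eigenvalues_nonneg
  have h2 : ∀ i, hH.eigenvalues i ≤ b := by
    intro i
    rw [hH.eigenvalues_eq]
    have h3 := hb ⇑(hH.eigenvectorBasis i)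
    have h4 : RCLike.re (star ⇑(hH.eigenvectorBasis i) ⬝ᵥ ⇑(hH.eigenvectorBasis i)) = (1 : ℝ) := by
      rw [dotProduct_comm, ← EuclideanSpace.inner_eq_star_dotProduct, inner_self_eq_norm_sq_to_K,
        hH.eigenvectorBasis.orthonormal.1 i]
      simp
    have h5 : (star ⇑(hH.eigenvectorBasis i) ⬝ᵥ ⇑(hH.eigenvectorBasis i)).re = (1 : ℝ) := h4
    rw [h5, mul_one] at h3
    exact h3
  rw [hH.det_eq_prod_eigenvalues]
  have h5 : ((∏ i, (hH.eigenvalues i : ℂ)) : ℂ).re = ∏ i, hH.eigenvalues i := by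
    rw [← Complex.ofReal_prod, Complex.ofReal_re]
  refine (le_of_eq h5).trans ?_
  calc ∏ i, hH.eigenvalues i ≤ ∏ _i : κ, b := Finset.prod_le_prod (fun i _ => h1 i) fun i _ => h2 i
    _ = b ^ Fintype.card κ := by rw [Finset.prod_const, Finset.card_univ]

open scoped ComplexOrder MatrixOrder in
private theorem ex_sqrt {M : Matrix κ κ ℂ} (hM : M.PosSemidef) : ∃ C : Matrix κ κ ℂ, M = C.conjTranspose * C := by
  obtain ⟨B, hB⟩ := CStarAlgebra.nonneg_iff_eq_star_mul_self.mp hM.nonneg
  exact ⟨B, hB⟩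

open scoped ComplexOrder in
/-- A linear map of norm at most `B` multiplies Gram determinants at most by `B ^ (2 card κ)`. -/
theorem gd_contr0 (T : H →ₗ[ℂ] H') (B : ℝ) (hB : 0 ≤ B) (hT : ∀ h, ‖T h‖ ≤ B * ‖h‖) (w : κ → H) :
    gd (fun i => T (w i)) ≤ B ^ (2 * Fintype.card κ) * gd w := by
  by_cases hw : LinearIndependent ℂ w
  swap
  · have h1 : gd (fun i => T (w i)) = 0 := by
      by_contra h2
      have h3 := (gd_pos_iff _).1 (lt_of_le_of_ne (gd_nonneg (fun i => T (w i))) (Ne.symm h2))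
      exact hw (LinearIndependent.of_comp T h3)
    rw [h1]
    exact mul_nonneg (pow_nonneg hB _) (gd_nonneg w)
  obtain ⟨C, hC⟩ := ex_sqrt (Matrix.posSemidef_gram ℂ w)
  have hC0 : C.det ≠ 0 := by
    intro h
    have h1 := (gd_pos_iff w).2 hw
    have h2 := gd_real w
    rw [hC, Matrix.det_mul, h, mul_zero] at h2
    exact h1.ne' (Complex.ofReal_eq_zero.1 h2)
  have hCu : IsUnit C.det := isUnit_iff_ne_zero.2 hC0
  have e1 : C * C⁻¹ = 1 := Matrix.mul_nonsing_inv C hCu
  have e2 : C⁻¹ * C = 1 := Matrix.nonsing_inv_mul C hCu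
  obtain ⟨N, hN⟩ : ∃ N : Matrix κ κ ℂ, N = (C⁻¹).conjTranspose * Matrix.gram ℂ (fun i => T (w i)) * C⁻¹ := ⟨_, rfl⟩
  have hNp : N.PosSemidef := by
    rw [hN]
    exact (Matrix.posSemidef_gram ℂ (fun i => T (w i))).conjTranspose_mul_mul_same C⁻¹
  have hG : Matrix.gram ℂ (fun i => T (w i)) = C.conjTranspose * N * C := by
    rw [hN]
    have e3 : C.conjTranspose * (C⁻¹).conjTranspose = 1 := by
      rw [← Matrix.conjTranspose_mul, e2, Matrix.conjTranspose_one]
    calc Matrix.gram ℂ (fun i => T (w i)) = 1 * Matrix.gram ℂ (fun i => T (w i)) * 1 := by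
          rw [Matrix.one_mul, Matrix.mul_one]
      _ = (C.conjTranspose * (C⁻¹).conjTranspose) * Matrix.gram ℂ (fun i => T (w i)) * (C⁻¹ * C) := by
          rw [e3, e2]
      _ = _ := by simp only [Matrix.mul_assoc]
  have hb : ∀ x : κ → ℂ, (star x ⬝ᵥ N.mulVec x).re ≤ B ^ 2 * (star x ⬝ᵥ x).re := by
    intro x
    obtain ⟨y, hy⟩ : ∃ y : κ → ℂ, y = C⁻¹.mulVec x := ⟨_, rfl⟩
    have hxy : x = C.mulVec y := by
      rw [hy, Matrix.mulVec_mulVec, e1, Matrix.one_mulVec]
    have h1 : star x ⬝ᵥ N.mulVec x = star y ⬝ᵥ (Matrix.gram ℂ (fun i => T (w i))).mulVec y := by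
      rw [hG, ← Matrix.mulVec_mulVec, ← Matrix.mulVec_mulVec, ← hxy, Matrix.dotProduct_mulVec (star y),
        ← Matrix.star_mulVec, ← hxy]
    have h2 : star x ⬝ᵥ x = star y ⬝ᵥ (Matrix.gram ℂ w).mulVec y := by
      rw [hC, ← Matrix.mulVec_mulVec, ← hxy, Matrix.dotProduct_mulVec (star y), ← Matrix.star_mulVec, ← hxy]
    rw [h1, h2, Matrix.star_dotProduct_gram_mulVec, Matrix.star_dotProduct_gram_mulVec]
    have h3 : ∑ i, y i • T (w i) = T (∑ i, y i • w i) := by
      rw [map_sum]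
      exact Finset.sum_congr rfl fun i _ => (T.map_smul _ _).symm
    have h4 : ∀ u : H', (inner ℂ u u).re = ‖u‖ ^ 2 := fun u => by
      have := inner_self_eq_norm_sq (𝕜 := ℂ) u
      exact this
    have h5 : ∀ u : H, (inner ℂ u u).re = ‖u‖ ^ 2 := fun u => by
      have := inner_self_eq_norm_sq (𝕜 := ℂ) u
      exact this
    rw [h3, h4, h5, ← mul_pow]
    exact pow_le_pow_left₀ (norm_nonneg _) (hT _) 2
  have h1 := det_le_pow hNp hb
  have h2 : gd (fun i => T (w i)) = ‖C.det‖ ^ 2 * N.det.re := by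
    have h3 : ((gd (fun i => T (w i)) : ℝ) : ℂ) = ((‖C.det‖ ^ 2 : ℝ) : ℂ) * N.det := by
      rw [gd_real, hG, Matrix.det_mul, Matrix.det_mul, Matrix.det_conjTranspose]
      push_cast
      rw [← Complex.mul_conj']
      show star C.det * N.det * C.det = C.det * star C.det * N.det
      ring
    have h4 := congrArg Complex.re h3
    rwa [Complex.ofReal_re, Complex.re_ofReal_mul] at h4
  have h3 : gd w = ‖C.det‖ ^ 2 := by
    have h4 : ((gd w : ℝ) : ℂ) = ((‖C.det‖ ^ 2 : ℝ) : ℂ) := by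
      rw [gd_real, hC, Matrix.det_mul, Matrix.det_conjTranspose]
      push_cast
      rw [← Complex.mul_conj']
      show star C.det * C.det = C.det * star C.det
      ring
    exact_mod_cast h4
  rw [h2, h3, mul_comm (B ^ _), pow_mul]
  exact mul_le_mul_of_nonneg_left h1 (by positivity)

end Pool.Agent.H36.LE
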