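import Pool.Agent.H36.LE.GdA

/-!
# THEOREM L (MP_187c26_nt), chapter V: Fischer's inequality, contractions which kill a subfamily

Imports `GdA` (may be sorried).
PROOFS. Let `W` be the span of the `z_i` (finite dimensional), `P : H →ₗ[ℂ] H` the orthogonal projection onto the orthogonal complement of `W` (`W.starProjection` of `Wᗮ`, or
`x - (orthogonal projection of x on W)`), `‖P x‖ ≤ ‖x‖`.
(S) `gd (Sum.elim z w) = gd z * gd (fun j => P (w j))`: `w_j = P w_j + ∑ i, c_ji z_i`; the family `(z, w)` is obtained from `(z, P w)` by the matrix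
`fromBlocks 1 0 c 1` of determinant 1 (`gd_comb`), and the Gram matrix of `(z, P w)` is `fromBlocks (gram z) 0 0 (gram (P w))` (`⟪z_i, P w_j⟫ = 0`), `Matrix.det_fromBlocks_zero₁₂`;
take real parts with `gd_real`.
`gd_contr`: `T w_j = T (P w_j)` because `T` kills the `z_i`; so `gd (T w) ≤ B ^ (2 card) gd (P w)` (`gd_contr0`); multiply by `gd z ≥ 0` and use (S).
`gd_fischer`: by (S) the claim is `gd z ^ 2 gd (P u, P w) ≤ gd z ^ 2 gd (P u) gd (P w)`; and for all families `gd (u', w') ≤ gd u' gd w'` by (S) for `u'` and `gd_contr0` for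
the projection (`B = 1`). `gd_reindex` for the associativity of the sums (here `Sum.elim z (Sum.elim u w)` is already of the form `(z, w'')`, `P (Sum.elim u w) = Sum.elim (P u) (P w)`).
-/

set_option autoImplicit false

open Polynomial NumberField IntermediateField

namespace Pool.Agent.H36.LE

variable {H H' : Type} [NormedAddCommGroup H] [InnerProductSpace ℂ H] [NormedAddCommGroup H']
  [InnerProductSpace ℂ H'] {κ κ₁ κ₂ : Type} [Fintype κ] [DecidableEq κ] [Fintype κ₁] [DecidableEq κ₁]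
  [Fintype κ₂] [DecidableEq κ₂]

/-- the projection onto the orthogonal complement of the span of `z` -/
private theorem gb_proj (z : κ → H) : ∃ P : H →ₗ[ℂ] H, (∀ h, ‖P h‖ ≤ ‖h‖) ∧
    (∀ i h, inner ℂ (z i) (P h) = 0) ∧ ∀ h, h - P h ∈ Submodule.span ℂ (Set.range z) := by
  have hfd : FiniteDimensional ℂ (Submodule.span ℂ (Set.range z)) :=
    FiniteDimensional.span_of_finite ℂ (Set.finite_range z)
  obtain ⟨W, hW⟩ : ∃ W : Submodule ℂ H, W = Submodule.span ℂ (Set.range z) := ⟨_, rfl⟩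
  rw [← hW] at hfd ⊢
  have hP : ∀ h, Wᗮ.starProjection h = h - W.starProjection h := fun h =>
    Submodule.starProjection_orthogonal_val h
  refine ⟨(Wᗮ.starProjection : H →ₗ[ℂ] H), fun h => Wᗮ.norm_starProjection_apply_le h, fun i h => ?_,
    fun h => ?_⟩
  · have h1 : (Wᗮ.starProjection : H →ₗ[ℂ] H) h ∈ Wᗮ := by
      show Wᗮ.starProjection h ∈ Wᗮ
      rw [hP]
      exact Submodule.sub_starProjection_mem_orthogonal h
    have h2 : z i ∈ W := by
      rw [hW]
      exact Submodule.subset_span ⟨i, rfl⟩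
    exact (Submodule.mem_orthogonal _ _).1 h1 _ h2
  · show h - Wᗮ.starProjection h ∈ W
    rw [hP, sub_sub_cancel]
    exact Submodule.starProjection_apply_mem W h

private theorem gb_S (z : κ → H) (w : κ₁ → H) (P : H →ₗ[ℂ] H) (hz : ∀ i h, inner ℂ (z i) (P h) = 0)
    (hP : ∀ h, h - P h ∈ Submodule.span ℂ (Set.range z)) :
    gd (Sum.elim z w) = gd z * gd (fun j => P (w j)) := by
  have hc : ∀ j, ∃ c : κ → ℂ, ∑ i, c i • z i = w j - P (w j) := fun j =>
    (Submodule.mem_span_range_iff_exists_fun ℂ).1 (hP (w j))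
  choose c hc using hc
  have h1 : Sum.elim z w = fun i => ∑ j, (Matrix.fromBlocks 1 0 (Matrix.of c) 1 : Matrix (κ ⊕ κ₁) (κ ⊕ κ₁) ℂ) i j •
      Sum.elim z (fun j => P (w j)) j := by
    funext i
    rcases i with i | i
    · simp [Matrix.one_apply]
    · rw [Fintype.sum_sum_type]
      simp only [Matrix.fromBlocks_apply₂₁, Matrix.fromBlocks_apply₂₂, Matrix.of_apply, Sum.elim_inl,
        Sum.elim_inr]
      rw [hc i]
      simp [Matrix.one_apply]
  have h2 : (Matrix.fromBlocks 1 0 (Matrix.of c) 1 : Matrix (κ ⊕ κ₁) (κ ⊕ κ₁) ℂ).det = 1 := by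
    rw [Matrix.det_fromBlocks_zero₁₂, Matrix.det_one, Matrix.det_one, one_mul]
  have h3 : Matrix.gram ℂ (Sum.elim z (fun j => P (w j))) =
      Matrix.fromBlocks (Matrix.gram ℂ z) 0 0 (Matrix.gram ℂ fun j => P (w j)) := by
    ext i j
    rcases i with i | i <;> rcases j with j | j
    · rfl
    · exact hz i (w j)
    · show inner ℂ (P (w i)) (z j) = 0
      rw [inner_eq_zero_symm]
      exact hz j (w i)
    · rfl
  have h4 : gd (Sum.elim z w) = gd (Sum.elim z (fun j => P (w j))) := by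
    rw [h1, gd_comb, h2, norm_one, one_pow, one_mul]
  rw [h4]
  have h5 : ((gd (Sum.elim z (fun j => P (w j))) : ℝ) : ℂ) = ((gd z * gd (fun j => P (w j)) : ℝ) : ℂ) := by
    rw [gd_real, h3, Matrix.det_fromBlocks_zero₁₂, Complex.ofReal_mul, gd_real, gd_real]
  exact_mod_cast h5

private theorem gb_two (u : κ₁ → H) (w : κ₂ → H) : gd (Sum.elim u w) ≤ gd u * gd w := by
  obtain ⟨P, hP1, hP2, hP3⟩ := gb_proj u
  rw [gb_S u w P hP2 hP3]
  refine mul_le_mul_of_nonneg_left ?_ (gd_nonneg u)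
  have h1 := gd_contr0 P 1 zero_le_one (fun h => by rw [one_mul]; exact hP1 h) w
  rwa [one_pow, one_mul] at h1

/-- Fischer's inequality relative to `z`. -/
theorem gd_fischer (z : κ → H) (u : κ₁ → H) (w : κ₂ → H) :
    gd (Sum.elim z (Sum.elim u w)) * gd z ≤ gd (Sum.elim z u) * gd (Sum.elim z w) := by
  obtain ⟨P, hP1, hP2, hP3⟩ := gb_proj z
  rw [gb_S z _ P hP2 hP3, gb_S z u P hP2 hP3, gb_S z w P hP2 hP3]
  have h1 : (fun j => P (Sum.elim u w j)) = Sum.elim (fun j => P (u j)) (fun j => P (w j)) := by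
    funext j
    rcases j with j | j <;> rfl
  rw [h1]
  have h2 := gb_two (fun j => P (u j)) (fun j => P (w j))
  have h3 := mul_le_mul_of_nonneg_left h2 (mul_nonneg (gd_nonneg z) (gd_nonneg z))
  linarith

/-- A linear map of norm at most `B` which kills the `z_i`. -/
theorem gd_contr (T : H →ₗ[ℂ] H') (B : ℝ) (hB : 0 ≤ B) (hT : ∀ h, ‖T h‖ ≤ B * ‖h‖) (z : κ → H)
    (w : κ₁ → H) (hz : ∀ i, T (z i) = 0) :
    gd z * gd (fun i => T (w i)) ≤ B ^ (2 * Fintype.card κ₁) * gd (Sum.elim z w) := by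
  obtain ⟨P, hP1, hP2, hP3⟩ := gb_proj z
  have h1 : (fun i => T (w i)) = fun i => T (P (w i)) := by
    funext i
    have h2 : Submodule.span ℂ (Set.range z) ≤ LinearMap.ker T := by
      rw [Submodule.span_le]
      rintro _ ⟨i, rfl⟩
      exact hz i
    have h3 : T (w i - P (w i)) = 0 := h2 (hP3 (w i))
    rw [map_sub, sub_eq_zero] at h3
    exact h3
  rw [gb_S z w P hP2 hP3, h1]
  have h4 := gd_contr0 T B hB hT (fun i => P (w i))
  have h5 := mul_le_mul_of_nonneg_left h4 (gd_nonneg z)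
  linarith

end Pool.Agent.H36.LE
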