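import Pool.Agent.H36.LE.GdA

/-!
# THEOREM L (MP_187c26_nt), chapter V: Gram determinants and minors, integer vectors

Imports `GdA` (may be sorried).
PROOFS. `gd_minor`: if `J` is not injective two columns are equal and the determinant is `0` (`Matrix.det_zero_of_column_eq`). Otherwise the map
`T : EuclideanSpace ℂ Ω → EuclideanSpace ℂ κ`, `(T h)_k = h (J k)` is linear with `‖T h‖ ≤ ‖h‖` (`EuclideanSpace.norm_eq`, a sub-sum), so `gd (T ∘ z) ≤ gd z` (`gd_contr0`, `B = 1`);
for a square family `gram (T ∘ z) = conj(M) * M^T`, `M i k = z i (J k)`, so `gd (T ∘ z) = ‖det M‖ ^ 2`.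
`gd_int`: the Gram matrix has integral entries, so its determinant is an integer `N` (`Matrix.map`, `Int.cast_det`), `N ≥ 0` (`gd_nonneg`) and `N ≠ 0`.
`gd_std`: the Gram matrix of the standard basis is the identity (`EuclideanSpace.basisFun`, `gram_eq_one_iff_orthonormal`).
-/

set_option autoImplicit false

open Polynomial NumberField IntermediateField

namespace Pool.Agent.H36.LE

variable {Ω : Type} [Fintype Ω] [DecidableEq Ω] {κ : Type} [Fintype κ] [DecidableEq κ]

theorem gd_minor (z : κ → EuclideanSpace ℂ Ω) (J : κ → Ω) :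
    ‖(Matrix.of fun i k => z i (J k)).det‖ ^ 2 ≤ gd z := by
  by_cases hJ : Function.Injective J
  swap
  · have h1 : (Matrix.of fun i k => z i (J k)).det = 0 := by
      obtain ⟨k, l, h2, h3⟩ : ∃ k l, J k = J l ∧ k ≠ l := by
        by_contra h4
        push Not at h4
        exact hJ fun k l h => h4 k l h
      refine Matrix.det_zero_of_column_eq h3 fun i => ?_
      rw [Matrix.of_apply, Matrix.of_apply, h2]
    rw [h1, norm_zero, zero_pow two_ne_zero]
    exact gd_nonneg z
  obtain ⟨T, hT⟩ : ∃ T : EuclideanSpace ℂ Ω →ₗ[ℂ] EuclideanSpace ℂ κ, ∀ h k, T h k = h (J k) :=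
    ⟨{ toFun := fun h => WithLp.toLp 2 fun k => h (J k)
       map_add' := fun x y => by
        ext k
        rfl
       map_smul' := fun c x => by
        ext k
        rfl }, fun h k => rfl⟩
  have h1 : ∀ h, ‖T h‖ ≤ 1 * ‖h‖ := by
    intro h
    rw [one_mul, EuclideanSpace.norm_eq, EuclideanSpace.norm_eq]
    refine Real.sqrt_le_sqrt ?_
    calc ∑ k, ‖T h k‖ ^ 2 = ∑ k, ‖h (J k)‖ ^ 2 := Finset.sum_congr rfl fun k _ => by rw [hT]
      _ = ∑ t ∈ Finset.univ.map ⟨J, hJ⟩, ‖h t‖ ^ 2 := by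
        rw [Finset.sum_map]
        rfl
      _ ≤ ∑ t, ‖h t‖ ^ 2 := Finset.sum_le_sum_of_subset_of_nonneg (Finset.subset_univ _) fun _ _ _ => by positivity
  have h2 := gd_contr0 T 1 zero_le_one h1 z
  rw [one_pow, one_mul] at h2
  refine le_trans (le_of_eq ?_) h2
  obtain ⟨M, hM⟩ : ∃ M : Matrix κ κ ℂ, M = Matrix.of fun i k => z i (J k) := ⟨_, rfl⟩
  have h3 : Matrix.gram ℂ (fun i => T (z i)) = M.map (starRingEnd ℂ) * M.transpose := by
    ext i j
    rw [Matrix.gram_apply, Matrix.mul_apply, PiLp.inner_apply]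
    refine Finset.sum_congr rfl fun k _ => ?_
    rw [hT, hT, Matrix.map_apply, Matrix.transpose_apply, hM, Matrix.of_apply, Matrix.of_apply, RCLike.inner_apply, mul_comm]
  have h4 : (M.map (starRingEnd ℂ)).det = (starRingEnd ℂ) M.det :=
    (RingHom.map_det (starRingEnd ℂ) M).symm
  rw [← hM]
  have h5 : ((‖M.det‖ ^ 2 : ℝ) : ℂ) = ((gd (fun i => T (z i)) : ℝ) : ℂ) := by
    rw [gd_real, h3, Matrix.det_mul, h4, Matrix.det_transpose]
    push_cast
    rw [← Complex.mul_conj']
    ring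
  exact_mod_cast h5

theorem gd_int (z : κ → EuclideanSpace ℂ Ω) (hz : ∀ i t, ∃ n : ℤ, z i t = (n : ℂ))
    (h : gd z ≠ 0) : 1 ≤ gd z := by
  choose n hn using hz
  obtain ⟨A, hA⟩ : ∃ A : Matrix κ κ ℤ, A = Matrix.of fun i j => ∑ t, n i t * n j t := ⟨_, rfl⟩
  have h1 : Matrix.gram ℂ z = A.map (Int.castRingHom ℂ) := by
    ext i j
    rw [Matrix.gram_apply, PiLp.inner_apply, Matrix.map_apply, hA, Matrix.of_apply, map_sum]
    refine Finset.sum_congr rfl fun t _ => ?_
    rw [hn, hn, RCLike.inner_apply, map_mul, mul_comm]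
    simp
  have h2 : (Matrix.gram ℂ z).det = (A.det : ℂ) := by
    rw [h1]
    exact (RingHom.map_det (Int.castRingHom ℂ) A).symm
  have h3 : gd z = (A.det : ℝ) := by
    refine Complex.ofReal_injective ?_
    rw [gd_real z, h2, Complex.ofReal_intCast]
  have h5 : 0 < gd z := lt_of_le_of_ne (gd_nonneg z) (Ne.symm h)
  rw [h3] at h5 ⊢
  have h6 : (0 : ℤ) < A.det := by exact_mod_cast h5
  exact_mod_cast h6

theorem gd_std : gd (fun i : Ω => (EuclideanSpace.single i 1 : EuclideanSpace ℂ Ω)) = 1 := by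
  have h1 : Matrix.gram ℂ (fun i : Ω => (EuclideanSpace.single i 1 : EuclideanSpace ℂ Ω)) = 1 := by
    rw [Matrix.gram_eq_one_iff_orthonormal]
    exact EuclideanSpace.orthonormal_single
  unfold gd
  rw [h1, Matrix.det_one, Complex.one_re]

end Pool.Agent.H36.LE
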