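import Mathlib

/-!
# THEOREM L (MP_187c26_nt), chapter HN: the abstract slope lemma

`f` is a submodular function on the subspaces of `E`, `θ` an automorphism of `E` with `θ^m U = U` for all `U`, `f (θ U) ≤ f U + (β/m) dim U`, `f ≥ -c dim` on the `θ`-stable subspaces and `f` is bounded
below. Then `f U ≥ -(c + β) dim U` for ALL `U`.

PROOF. Let `S U = θ U` (`Submodule.map`), `dim S U = dim U`, `S (U ⊔ U') = S U ⊔ S U'`, `S (U ⊓ U') = S U ⊓ S U'` (`θ` injective: `Submodule.map_inf`). `G U := (1/m) ∑_(j<m) f (S^j U)`.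
(a) `f (S^j U) ≤ f U + (jβ/m) dim U`, so `G U ≤ f U + β dim U` (`j ≤ m`). (b) `G (S U) = G U` (cyclic sum, `S^m U = U`: `Finset.sum_range_succ` and `sum_range_succ'`). (c) `G` is submodular. (d) `G U = f U` if `S U = U`.
Put `F U := G U + c dim U`: submodular (`Submodule.finrank_sup_add_finrank_inf_eq`), `F (S U) = F U`, `F ≥ 0` on stable subspaces, `F ≥ M - |c| dim E` bounded below. CLAIM: `F ≥ 0` everywhere; then
`f U ≥ G U - β dim U ≥ -(c + β) dim U`.
Proof of the claim: suppose `F U₀ < 0`; `μ := inf F < 0` (over all `U`; `sInf` of a nonempty set bounded below). For `k ≤ dim E` say `k` is good if for all `ε > 0` some `U` of dimension `k` has `F U < μ + ε`. Some `k`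
is good (finitely many dimensions; otherwise take the minimum of the finitely many `ε_k`). Let `k` be the largest good one: there is `ε > 0` with `μ + ε ≤ 0` and `F U' ≥ μ + 2 ε`
for all `U'` of dimension `> k` (each such dimension is not good; `ε` = half the minimum). Take `U` of dimension `k` with `F U < μ + ε`. Then `F (U ⊔ S U) ≤ F U + F (S U) - F (U ⊓ S U) < 2 (μ + ε) - μ = μ + 2 ε`,
so `dim (U ⊔ S U) ≤ k`, so `U ⊔ S U = U` (`Submodule.eq_of_le_of_finrank_le`), `S U ≤ U`, `S U = U` (same dimension), so `F U ≥ 0 ≥ μ + ε`: contradiction.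
-/

set_option autoImplicit false

namespace Pool.Agent.H36.LE

theorem hn {E : Type} [AddCommGroup E] [Module ℚ E] [Module.Finite ℚ E] (θ : E ≃ₗ[ℚ] E) (m : ℕ)
    (hm : 1 ≤ m)
    (hθ : ∀ U : Submodule ℚ E, (fun V : Submodule ℚ E => V.map (θ : E →ₗ[ℚ] E))^[m] U = U)
    (f : Submodule ℚ E → ℝ) (β c M : ℝ) (hβ : 0 ≤ β)
    (hsub : ∀ U U' : Submodule ℚ E, f (U ⊔ U') + f (U ⊓ U') ≤ f U + f U')
    (hmap : ∀ U : Submodule ℚ E, f (U.map (θ : E →ₗ[ℚ] E)) ≤ f U + β / m * Module.finrank ℚ U)
    (hc : ∀ U : Submodule ℚ E, U.map (θ : E →ₗ[ℚ] E) = U → -(c * Module.finrank ℚ U) ≤ f U)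
    (hM : ∀ U : Submodule ℚ E, M ≤ f U) (U : Submodule ℚ E) :
    -((c + β) * Module.finrank ℚ U) ≤ f U := by
  classical
  set S : Submodule ℚ E → Submodule ℚ E := fun V : Submodule ℚ E => V.map (θ : E →ₗ[ℚ] E) with hS
  have hm0 : (0 : ℝ) < m := by exact_mod_cast hm
  have hd : ∀ V : Submodule ℚ E, Module.finrank ℚ (S V) = Module.finrank ℚ V := fun V =>
    LinearEquiv.finrank_map_eq θ V
  have hdj : ∀ (j : ℕ) (V : Submodule ℚ E), Module.finrank ℚ (S^[j] V) = Module.finrank ℚ V := by
    intro j
    induction j with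
    | zero => intro V; rfl
    | succ j ih => intro V; rw [Function.iterate_succ_apply', hd, ih]
  have hsupj : ∀ (j : ℕ) (V W : Submodule ℚ E), S^[j] (V ⊔ W) = S^[j] V ⊔ S^[j] W := by
    intro j
    induction j with
    | zero => intro V W; rfl
    | succ j ih =>
      intro V W
      rw [Function.iterate_succ_apply', Function.iterate_succ_apply', Function.iterate_succ_apply',
        ih]
      exact Submodule.map_sup _ _ _
  have hinfj : ∀ (j : ℕ) (V W : Submodule ℚ E), S^[j] (V ⊓ W) = S^[j] V ⊓ S^[j] W := by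
    intro j
    induction j with
    | zero => intro V W; rfl
    | succ j ih =>
      intro V W
      rw [Function.iterate_succ_apply', Function.iterate_succ_apply', Function.iterate_succ_apply',
        ih]
      exact Submodule.map_inf _ θ.injective
  have hfj : ∀ (j : ℕ) (V : Submodule ℚ E),
      f (S^[j] V) ≤ f V + (j : ℝ) * (β / m * Module.finrank ℚ V) := by
    intro j V
    induction j with
    | zero => simp
    | succ j ih =>
      rw [Function.iterate_succ_apply']
      have h1 := hmap (S^[j] V)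
      rw [hdj j V] at h1
      have h2 : f (S (S^[j] V)) ≤ f (S^[j] V) + β / m * Module.finrank ℚ V := h1
      push_cast
      linarith
  set G : Submodule ℚ E → ℝ := fun V => (1 / (m : ℝ)) * ∑ j ∈ Finset.range m, f (S^[j] V) with hG
  have hGf : ∀ V, G V ≤ f V + β * Module.finrank ℚ V := by
    intro V
    have h1 : ∑ j ∈ Finset.range m, f (S^[j] V) ≤
        ∑ _j ∈ Finset.range m, (f V + β * Module.finrank ℚ V) := by
      apply Finset.sum_le_sum
      intro j hj
      have hj' : (j : ℝ) ≤ m := by exact_mod_cast (Finset.mem_range.1 hj).le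
      refine (hfj j V).trans ?_
      have h3 : (j : ℝ) * (β / m * Module.finrank ℚ V) ≤ (m : ℝ) * (β / m * Module.finrank ℚ V) :=
        mul_le_mul_of_nonneg_right hj' (by positivity)
      have h4 : (m : ℝ) * (β / m * Module.finrank ℚ V) = β * Module.finrank ℚ V := by
        field_simp
      linarith
    rw [Finset.sum_const, Finset.card_range, nsmul_eq_mul] at h1
    have h2 : G V ≤ (1 / (m : ℝ)) * (m * (f V + β * Module.finrank ℚ V)) :=
      mul_le_mul_of_nonneg_left h1 (by positivity)
    refine h2.trans (le_of_eq ?_)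
    field_simp
  have hGS : ∀ V, G (S V) = G V := by
    intro V
    have h1 : ∑ j ∈ Finset.range m, f (S^[j] (S V)) = ∑ j ∈ Finset.range m, f (S^[j] V) := by
      have h2 := Finset.sum_range_succ (fun j => f (S^[j] V)) m
      have h3 := Finset.sum_range_succ' (fun j => f (S^[j] V)) m
      have h4 : S^[m] V = V := hθ V
      have h5 : ∀ j, S^[j] (S V) = S^[j + 1] V := fun j => by
        rw [Function.iterate_succ_apply]
      simp only [h5]
      simp only [h4, Function.iterate_zero, id_eq] at h2 h3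
      linarith
    simp only [hG, h1]
  have hGsub : ∀ V W, G (V ⊔ W) + G (V ⊓ W) ≤ G V + G W := by
    intro V W
    have h1 : ∑ j ∈ Finset.range m, f (S^[j] (V ⊔ W)) + ∑ j ∈ Finset.range m, f (S^[j] (V ⊓ W)) ≤
        ∑ j ∈ Finset.range m, f (S^[j] V) + ∑ j ∈ Finset.range m, f (S^[j] W) := by
      rw [← Finset.sum_add_distrib, ← Finset.sum_add_distrib]
      apply Finset.sum_le_sum
      intro j _
      rw [hsupj, hinfj]
      exact hsub _ _
    have h2 := mul_le_mul_of_nonneg_left h1 (by positivity : (0 : ℝ) ≤ 1 / (m : ℝ))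
    simp only [hG]
    linarith
  have hGfix : ∀ V, S V = V → G V = f V := by
    intro V hV
    have h1 : ∀ j, S^[j] V = V := fun j => Function.iterate_fixed hV j
    simp only [hG, h1, Finset.sum_const, Finset.card_range, nsmul_eq_mul]
    field_simp
  have hGM : ∀ V, M ≤ G V := by
    intro V
    have h1 : ∑ _j ∈ Finset.range m, M ≤ ∑ j ∈ Finset.range m, f (S^[j] V) :=
      Finset.sum_le_sum fun j _ => hM _
    rw [Finset.sum_const, Finset.card_range, nsmul_eq_mul] at h1
    have h2 : (1 / (m : ℝ)) * (m * M) ≤ G V := mul_le_mul_of_nonneg_left h1 (by positivity)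
    have h3 : (1 / (m : ℝ)) * (m * M) = M := by field_simp
    linarith
  set F : Submodule ℚ E → ℝ := fun V => G V + c * Module.finrank ℚ V with hF
  have hFS : ∀ V, F (S V) = F V := by
    intro V
    simp only [hF, hGS, hd]
  have hFsub : ∀ V W, F (V ⊔ W) + F (V ⊓ W) ≤ F V + F W := by
    intro V W
    have h1 : (Module.finrank ℚ (V ⊔ W : Submodule ℚ E) : ℝ) +
        Module.finrank ℚ (V ⊓ W : Submodule ℚ E) = Module.finrank ℚ V + Module.finrank ℚ W := by
      exact_mod_cast Submodule.finrank_sup_add_finrank_inf_eq V W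
    have h2 := hGsub V W
    have h3 : c * (Module.finrank ℚ (V ⊔ W : Submodule ℚ E) : ℝ) +
        c * Module.finrank ℚ (V ⊓ W : Submodule ℚ E) =
        c * Module.finrank ℚ V + c * Module.finrank ℚ W := by
      rw [← mul_add, h1, mul_add]
    simp only [hF]
    linarith
  have hFfix : ∀ V, S V = V → 0 ≤ F V := by
    intro V hV
    have h1 := hc V hV
    simp only [hF, hGfix V hV]
    linarith
  have hFM : ∀ V, M - |c| * Module.finrank ℚ E ≤ F V := by
    intro V
    have h1 := hGM V
    have h2 : (Module.finrank ℚ V : ℝ) ≤ Module.finrank ℚ E := by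
      exact_mod_cast Submodule.finrank_le V
    have h3 : -(|c| * Module.finrank ℚ E) ≤ c * Module.finrank ℚ V := by
      have h4 : -|c| ≤ c := neg_abs_le c
      have h5 : (0 : ℝ) ≤ Module.finrank ℚ V := by positivity
      have h6 : -|c| * Module.finrank ℚ V ≤ c * Module.finrank ℚ V :=
        mul_le_mul_of_nonneg_right h4 h5
      have h7 : |c| * (Module.finrank ℚ V : ℝ) ≤ |c| * Module.finrank ℚ E :=
        mul_le_mul_of_nonneg_left h2 (abs_nonneg c)
      linarith
    simp only [hF]
    linarith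
  have hclaim : ∀ V, 0 ≤ F V := by
    by_contra hcon
    push Not at hcon
    obtain ⟨U₀, hU₀⟩ := hcon
    have hbdd : BddBelow (Set.range F) := ⟨M - |c| * Module.finrank ℚ E, by
      rintro _ ⟨V, rfl⟩
      exact hFM V⟩
    set μ : ℝ := sInf (Set.range F) with hμ
    have hμle : ∀ V, μ ≤ F V := fun V => csInf_le hbdd ⟨V, rfl⟩
    have hμ0 : μ < 0 := lt_of_le_of_lt (hμle U₀) hU₀
    let P : ℕ → Prop := fun k => ∀ ε : ℝ, 0 < ε → ∃ V : Submodule ℚ E,
      k ≤ Module.finrank ℚ V ∧ F V < μ + ε
    have hP0 : P 0 := by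
      intro ε hε
      obtain ⟨_, ⟨V, rfl⟩, hV⟩ := exists_lt_of_csInf_lt (Set.range_nonempty F)
        (show sInf (Set.range F) < μ + ε by rw [← hμ]; linarith)
      exact ⟨V, Nat.zero_le _, hV⟩
    have hPn : ¬ P (Module.finrank ℚ E + 1) := by
      intro h
      obtain ⟨V, hV, _⟩ := h 1 one_pos
      have := Submodule.finrank_le V
      omega
    have hk : ∃ k, P k ∧ ¬ P (k + 1) := by
      by_contra hno
      push Not at hno
      exact hPn (Nat.rec hP0 (fun k ih => hno k ih) (Module.finrank ℚ E + 1))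
    obtain ⟨k, hPk, hPk1⟩ := hk
    have hPk2 : ∃ ε : ℝ, 0 < ε ∧ ∀ V : Submodule ℚ E, k + 1 ≤ Module.finrank ℚ V → μ + ε ≤ F V := by
      by_contra hno
      apply hPk1
      intro ε hε
      by_contra hn2
      apply hno
      refine ⟨ε, hε, fun V hV => ?_⟩
      by_contra hlt
      exact hn2 ⟨V, hV, not_le.1 hlt⟩
    obtain ⟨ε₀, hε₀, hbig⟩ := hPk2
    obtain ⟨V, hkV, hFV⟩ := hPk (min (ε₀ / 2) (-μ)) (lt_min (by linarith) (by linarith))
    have hε1 : min (ε₀ / 2) (-μ) ≤ ε₀ / 2 := min_le_left _ _
    have hε2 : min (ε₀ / 2) (-μ) ≤ -μ := min_le_right _ _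
    have hdimV : Module.finrank ℚ V = k := by
      by_contra hne
      have h1 : k + 1 ≤ Module.finrank ℚ V := by omega
      have h2 := hbig V h1
      linarith
    have hsupV : Module.finrank ℚ (V ⊔ S V : Submodule ℚ E) ≤ k := by
      by_contra hne
      have h1 : k + 1 ≤ Module.finrank ℚ (V ⊔ S V : Submodule ℚ E) := by omega
      have h2 := hbig _ h1
      have h3 := hFsub V (S V)
      have h4 := hμle (V ⊓ S V)
      rw [hFS V] at h3
      linarith
    have hVS : V = V ⊔ S V :=
      Submodule.eq_of_le_of_finrank_le le_sup_left (by rw [hdimV]; exact hsupV)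
    have hSV : S V ≤ V := by
      rw [hVS]
      exact le_sup_of_le_right (by rw [← hVS])
    have hSVe : S V = V :=
      Submodule.eq_of_le_of_finrank_le hSV (by rw [hd V])
    have h1 := hFfix V hSVe
    linarith
  have h1 := hclaim U
  have h2 := hGf U
  simp only [hF] at h1
  have h3 : (c + β) * (Module.finrank ℚ U : ℝ) = c * Module.finrank ℚ U + β * Module.finrank ℚ U := by
    ring
  linarith

end Pool.Agent.H36.LE
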