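import Pool.Agent.H36.LE.Cor
import Pool.Agent.H36.LE.Exc
import Pool.Agent.H72.PL.HtL

/-!
# THEOREM L (MP_187c26_nt), chapter LQ: Lehmer over `ℚ` with a polynomial bound

Imports `Cor` (`cor`), `Exc` (`exc'`), may be sorried. Known result (Dobrowolski is much better), only used as a lemma; here it is the case `m = n = 1`, `b = 1`, `x = 1` of the main inequality.
PROOFS. `rd_one`: `Rd 1 1 N 0 (1 : E)`, `N = [E : ℚ]`: `1 ^ 1 = 1`, `ℚ⟮1⟯ = ⊥` has degree 1, `log |disc| ≥ 0` (a nonzero integer).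
`lehmer_aux`: `E := ℚ⟮κ⟯`, `a := gen`, `N := [E : ℚ]`, `L := 9 N`, `S` = 8 primes `q` with `[ℚ(κ^q) : ℚ] = N`, `8 (log (L N)/2 + 1) ≤ 7 log q`, `q L h ≤ 1`. `cor` (`n = 1`, `m = 1`, `g = 1`): `L - dim Vs S ≤ 8 (L - dim Vs ∅)`. Identify `BS ℚ 1 L` with the polynomials `P(Y)` of degree `< L` with constant coefficients
(`P = p.map C`; `aevalAeval 1 a (p.map C) = aeval a p`). `Vs ∅` = multiples of the minimal polynomial `f₁` of `κ` (degree `N`): `L - dim Vs ∅ ≤ N` (the kernel of a linear map to `E`, of dimension `N`: rank-nullity, no need of more). `Vs S = 0`: the minimal polynomials of `κ` and of `κ^q`, `q ∈ S`, have degree `N`, are pairwise different: the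
heights `h`, `q h` are different (`h > 0` by Kronecker: `Pool.Agent.H72.PL.height_pos`; equal minimal polynomials give equal heights: `Pool.Agent.H4.RR.absLogHeight_eq_of_minpoly_eq`, `absLogHeight_pow`), so their product, of degree `9 N = L`, divides every `p` with `P ∈ Vs S`: `p = 0`. So `9 N ≤ 8 N`, contradiction: not all the conditions hold.
`lehmerQ`: `T := C N^2` with `7 log T ≥ 8 (log (9 N^2)/2 + 1)` (for `C` large, e.g. `C = 1000`), so every prime `q > T` satisfies the second condition. Bertrand (`Nat.exists_prime_lt_and_le_two_mul`) gives primes `q_i ∈ (2^i T, 2^(i+1) T]`, `i < 9 + log₂ N`; at most `log₂ N` of them have `[ℚ(κ^q) : ℚ] ≠ N` (`exc'`,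
`finrank K K⟮κ⟯ = N`, `2^s ≤ N`), so 8 good ones remain, all `≤ 2^(9 + log₂ N) T ≤ 512 N T`. By `lehmer_aux` some `q L h > 1`: `h > 1/(9 N * 512 N T) ≥ c/N^4`. If `finrank ℚ ℚ⟮κ⟯ = N₁ ≤ N` then `c/N^4 ≤ c/N₁^4`.
-/

set_option autoImplicit false

open Polynomial NumberField IntermediateField
open scoped Polynomial.Bivariate

namespace Pool.Agent.H36.LE

theorem rd_one (E : Type) [Field E] [NumberField E] :
    Rd 1 1 (Module.finrank ℚ E) 0 (1 : E) := by
  refine ⟨le_rfl, le_rfl, by simp, ?_, by rw [one_mul], ?_⟩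
  · rw [IntermediateField.adjoin_one, IntermediateField.finrank_bot]
  · have h1 : (1 : ℝ) ≤ |((NumberField.discr ℚ⟮(1 : E)⟯ : ℤ) : ℝ)| := by
      have h2 := Int.one_le_abs (NumberField.discr_ne_zero ℚ⟮(1 : E)⟯)
      exact_mod_cast h2
    have h3 := Real.log_nonneg h1
    simpa using h3

/-- constants in the first variable -/
private theorem eval_map_C {E : Type} [Field E] [Algebra ℚ E] (x y : E) (p : ℚ[X]) :
    aevalAeval x y (p.map C) = aeval y p := by
  induction p using Polynomial.induction_on' with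
  | add p q hp hq => rw [Polynomial.map_add, map_add, map_add, hp, hq]
  | monomial n r =>
    rw [Polynomial.map_monomial, ← C_mul_X_pow_eq_monomial, ← C_mul_X_pow_eq_monomial, map_mul, map_mul,
      map_pow, map_pow, aevalAeval_C, aevalAeval_Y, aeval_C, aeval_C, aeval_X]

private theorem of_BS {P : ℚ[X][Y]} {L : ℕ} (hP : P ∈ BS ℚ 1 L) :
    ∃ p : ℚ[X], P = p.map C ∧ p.degree < L := by
  refine ⟨P.map (evalRingHom 0), ?_, ?_⟩
  · ext j : 1
    rw [coeff_map, coeff_map]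
    have h1 := hP.2 j
    have h2 : P.coeff j = C ((P.coeff j).coeff 0) := by
      refine eq_C_of_degree_le_zero ?_
      by_contra hcon
      push Not at hcon
      have h3 : (1 : WithBot ℕ) ≤ (P.coeff j).degree := by
        have h4 : ((0 : ℕ) : WithBot ℕ) < (P.coeff j).degree := by exact_mod_cast hcon
        have h5 := Nat.WithBot.add_one_le_of_lt h4
        simpa using h5
      have h6 : (P.coeff j).degree < 1 := by exact_mod_cast h1
      exact absurd h6 (not_lt.2 h3)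
    rw [h2, coe_evalRingHom, eval_C]
  · exact (degree_map_le).trans_lt hP.1

/-- the product of different minimal polynomials -/
private theorem prod_dvd {Ω : Type} [Field Ω] [Algebra ℚ Ω] (S : Finset ℕ) (κ : ℕ → Ω)
    (hκ : ∀ q ∈ S, IsIntegral ℚ (κ q)) (hinj : ∀ q ∈ S, ∀ q' ∈ S, q ≠ q' → minpoly ℚ (κ q) ≠ minpoly ℚ (κ q'))
    (p : ℚ[X]) (hp : ∀ q ∈ S, aeval (κ q) p = 0) : ∏ q ∈ S, minpoly ℚ (κ q) ∣ p := by
  refine Finset.prod_dvd_of_coprime ?_ fun q hq => minpoly.dvd ℚ _ (hp q hq)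
  intro q hq q' hq' hne
  have h1 := minpoly.irreducible (hκ q hq)
  have h2 := minpoly.irreducible (hκ q' hq')
  refine (h1.coprime_iff_not_dvd).2 fun h3 => hinj q hq q' hq' hne ?_
  exact eq_of_monic_of_associated (minpoly.monic (hκ q hq)) (minpoly.monic (hκ q' hq'))
    (h1.associated_of_dvd h2 h3)

private theorem rk_bound {k V W : Type} [Field k] [AddCommGroup V] [Module k V] [AddCommGroup W] [Module k W]
    [FiniteDimensional k W] (B : Submodule k V) (hB : 0 < Module.finrank k B) (φ : V →ₗ[k] W)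
    (C : Submodule k V) (hC : B ⊓ LinearMap.ker φ ≤ C) (hCB : C ≤ B) :
    Module.finrank k B ≤ Module.finrank k C + Module.finrank k W := by
  have hbf : Module.Finite k B := Module.finite_of_finrank_pos hB
  have hCf : Module.Finite k C := Submodule.finiteDimensional_of_le hCB
  have h2 := LinearMap.finrank_range_add_finrank_ker (φ.domRestrict B)
  have h3 : Module.finrank k (LinearMap.range (φ.domRestrict B)) ≤ Module.finrank k W :=
    Submodule.finrank_le _
  have h4 : Module.finrank k (LinearMap.ker (φ.domRestrict B)) ≤ Module.finrank k C := by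
    let θ : LinearMap.ker (φ.domRestrict B) →ₗ[k] C :=
      LinearMap.codRestrict _ (B.subtype ∘ₗ (LinearMap.ker (φ.domRestrict B)).subtype) (by
        rintro ⟨⟨P, hP⟩, hP2⟩
        exact hC ⟨hP, hP2⟩)
    refine LinearMap.finrank_le_finrank_of_injective (f := θ) ?_
    rintro ⟨⟨P, hP⟩, hP2⟩ ⟨⟨P', hP'⟩, hP2'⟩ h
    have h5 : P = P' := congrArg Subtype.val h
    subst h5
    rfl
  omega

/-- If 8 primes satisfy the conditions then the height is large. -/
theorem lehmer_aux {Ω : Type} [Field Ω] [CharZero Ω] (κ : Ω) (hκ : IsIntegral ℚ κ) (h0 : κ ≠ 0)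
    (h1 : ∀ k : ℕ, 1 ≤ k → κ ^ k ≠ 1) (N : ℕ) (hN : Module.finrank ℚ ℚ⟮κ⟯ = N) (S : Finset ℕ)
    (hS : S.card = 8) (hS2 : ∀ q ∈ S, q.Prime ∧ Module.finrank ℚ ℚ⟮κ ^ q⟯ = N ∧
      8 * (Real.log (9 * N * N) / 2 + 1) ≤ 7 * Real.log q) :
    ∃ q ∈ S, 1 < (q * (9 * N) : ℝ) * absLogHeight₁ κ := by
  classical
  by_contra hcon
  push Not at hcon
  have hfd : FiniteDimensional ℚ ℚ⟮κ⟯ := adjoin.finiteDimensional hκ
  have hnf : NumberField ℚ⟮κ⟯ := {}
  obtain ⟨a, ha⟩ : ∃ a : ℚ⟮κ⟯, a = AdjoinSimple.gen ℚ κ := ⟨_, rfl⟩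
  have haκ : algebraMap ℚ⟮κ⟯ Ω a = κ := by
    rw [ha]
    rfl
  have hN1 : 1 ≤ N := by
    rw [← hN]
    exact Module.finrank_pos
  have ha0 : a ≠ 0 := by
    rintro rfl
    rw [map_zero] at haκ
    exact h0 haκ.symm
  have ha1 : ∀ n : ℕ, 1 ≤ n → a ^ n ≠ 1 := by
    intro n hn h
    apply h1 n hn
    rw [← haκ, ← map_pow, h, map_one]
  have hha : absLogHeight₁ a = absLogHeight₁ κ := by
    have e1 := Pool.Agent.H4.RR.absLogHeight_eq ℚ⟮κ⟯ ℚ⟮κ⟯ (RingHom.id _) a
    have e2 := Pool.Agent.H4.RR.absLogHeight_eq ℚ⟮κ⟯ Ω (algebraMap ℚ⟮κ⟯ Ω) a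
    rw [haκ] at e2
    rw [e2, ← e1]
    rfl
  have hpos : 0 < absLogHeight₁ κ := by
    rw [← hha]
    exact Pool.Agent.H72.PL.height_pos a ha0 ha1
  have hSp : ∀ q ∈ S, 0 < q := fun q hq => (hS2 q hq).1.pos
  have key := cor (rd_one ℚ⟮κ⟯) le_rfl a 1 (9 * N) 1 le_rfl le_rfl (by omega) le_rfl
    (Nat.coprime_one_right 1) S (by
      intro q hq
      obtain ⟨h2, -, h3⟩ := hS2 q hq
      refine ⟨h2, fun h => h2.one_lt.ne' (Nat.dvd_one.1 h), by omega, ?_, ?_⟩
      · rw [hN]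
        push_cast
        rw [Real.log_one]
        linarith
      · rw [hha]
        have h4 := hcon q hq
        push_cast
        rw [one_mul]
        exact h4)
  have hV0 : Vs (k := ℚ) (1 : ℚ⟮κ⟯) a 1 (9 * N) 1 S = ⊥ := by
    rw [Submodule.eq_bot_iff]
    intro P hP
    obtain ⟨hP1, hP2, hP3⟩ := hP
    obtain ⟨p, rfl, hpd⟩ := of_BS hP1
    have hp1 : ∀ q ∈ insert 1 S, aeval (κ ^ q) p = 0 := by
      intro q hq
      have h2 : aeval (a ^ q) p = 0 := by
        rcases Finset.mem_insert.1 hq with rfl | hq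
        · have h3 : aevalAeval (R := ℚ) ((1 : ℚ⟮κ⟯) ^ 1) (a ^ 1) (p.map C) = 0 := hP2
          rw [eval_map_C] at h3
          exact h3
        · have h3 := (Submodule.mem_iInf _).1 ((Submodule.mem_iInf _).1 hP3 q) hq
          have h4 : aevalAeval (R := ℚ) ((1 : ℚ⟮κ⟯) ^ (1 * q)) (a ^ (1 * q)) (p.map C) = 0 := h3
          rw [eval_map_C, one_mul] at h4
          exact h4
      have h3 := congrArg (algebraMap ℚ⟮κ⟯ Ω) h2
      rw [map_zero, ← aeval_algebraMap_apply, map_pow, haκ] at h3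
      exact h3
    have hint : ∀ q ∈ insert 1 S, IsIntegral ℚ (κ ^ q) := fun q _ => hκ.pow q
    have hq0 : ∀ q ∈ insert 1 S, 0 < q := by
      intro q hq
      rcases Finset.mem_insert.1 hq with rfl | hq
      · exact one_pos
      · exact hSp q hq
    have hd := prod_dvd (insert 1 S) (fun q => κ ^ q) hint (fun q hq q' hq' hne h => by
      have h2 := Pool.Agent.H4.RR.absLogHeight_eq_of_minpoly_eq Ω _ _ (hint q hq) h
      rw [Pool.Agent.H4.RR.absLogHeight_pow Ω κ hκ, Pool.Agent.H4.RR.absLogHeight_pow Ω κ hκ] at h2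
      have h3 := mul_right_cancel₀ hpos.ne' h2
      exact hne (by exact_mod_cast h3)) p hp1
    have hdeg : (∏ q ∈ insert 1 S, minpoly ℚ (κ ^ q)).natDegree = 9 * N := by
      rw [natDegree_prod_of_monic _ _ fun q hq => minpoly.monic (hint q hq)]
      have h2 : ∀ q ∈ insert 1 S, (minpoly ℚ (κ ^ q)).natDegree = N := by
        intro q hq
        rw [← adjoin.finrank (hint q hq)]
        rcases Finset.mem_insert.1 hq with rfl | hq
        · rw [pow_one]
          exact hN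
        · exact (hS2 q hq).2.1
      rw [Finset.sum_congr rfl h2, Finset.sum_const, smul_eq_mul, Finset.card_insert_of_notMem, hS]
      intro h
      exact Nat.not_prime_one (hS2 1 h).1
    have hp0 : p = 0 := by
      by_contra hp
      have h2 := natDegree_le_of_dvd hd hp
      rw [hdeg] at h2
      rw [degree_eq_natDegree hp] at hpd
      have h3 : p.natDegree < 9 * N := by exact_mod_cast hpd
      omega
    rw [hp0, Polynomial.map_zero]
  have hV1 : 1 * (9 * N) - Module.finrank ℚ (Vs (k := ℚ) (1 : ℚ⟮κ⟯) a 1 (9 * N) 1 ∅) ≤ N := by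
    have hb := finrank_BS (k := ℚ) 1 (9 * N)
    have h2 := rk_bound (BS ℚ 1 (9 * N)) (by rw [hb]; omega)
      (aevalAeval (R := ℚ) ((1 : ℚ⟮κ⟯) ^ 1) (a ^ 1)).toLinearMap
      (Vs (k := ℚ) (1 : ℚ⟮κ⟯) a 1 (9 * N) 1 ∅) (by
        rintro P ⟨hP1, hP2⟩
        exact ⟨hP1, hP2, by simp⟩) inf_le_left
    rw [hb, hN] at h2
    omega
  rw [hV0, finrank_bot] at key
  omega

theorem lehmerQ : ∃ c : ℝ, 0 < c ∧ ∀ (Ω : Type) [Field Ω] [CharZero Ω] (κ : Ω),
    IsIntegral ℚ κ → κ ≠ 0 → (∀ k : ℕ, 1 ≤ k → κ ^ k ≠ 1) →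
    ∀ N : ℕ, Module.finrank ℚ ℚ⟮κ⟯ ≤ N → c / (N : ℝ) ^ 4 ≤ absLogHeight₁ κ := by
  classical
  refine ⟨1 / 1679616, by norm_num, ?_⟩
  intro Ω _ _ κ hκ h0 h1 N' hN'
  obtain ⟨N, hN⟩ : ∃ N, N = Module.finrank ℚ ℚ⟮κ⟯ := ⟨_, rfl⟩
  rw [← hN] at hN'
  have hN1 : 1 ≤ N := by
    rw [hN]
    have : FiniteDimensional ℚ ℚ⟮κ⟯ := adjoin.finiteDimensional hκ
    exact Module.finrank_pos
  have hN0 : (0 : ℝ) < N := by exact_mod_cast hN1
  obtain ⟨T, hT⟩ : ∃ T, T = 729 * N ^ 2 := ⟨_, rfl⟩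
  have hT0 : 0 < T := by
    rw [hT]
    positivity
  have hB : ∀ i : ℕ, ∃ q : ℕ, q.Prime ∧ 2 ^ i * T < q ∧ q ≤ 2 * (2 ^ i * T) := fun i =>
    Nat.exists_prime_lt_and_le_two_mul (2 ^ i * T) (by positivity)
  choose q hq1 hq2 hq3 using hB
  have hmono : StrictMono q := strictMono_nat_of_lt_succ fun i => (hq3 i).trans_lt (by
    have h2 := hq2 (i + 1)
    have h3 : 2 ^ (i + 1) * T = 2 * (2 ^ i * T) := by ring
    omega)
  obtain ⟨A, hA⟩ : ∃ A, A = (Finset.range (8 + Nat.log 2 N)).image q := ⟨_, rfl⟩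
  have hAc : A.card = 8 + Nat.log 2 N := by
    rw [hA, Finset.card_image_of_injective _ hmono.injective, Finset.card_range]
  have hAp : ∀ p ∈ A, p.Prime ∧ T < p ∧ p ≤ 256 * N * T := by
    intro p hp
    rw [hA] at hp
    obtain ⟨i, hi, rfl⟩ := Finset.mem_image.1 hp
    rw [Finset.mem_range] at hi
    refine ⟨hq1 i, lt_of_le_of_lt ?_ (hq2 i), (hq3 i).trans ?_⟩
    · exact Nat.le_mul_of_pos_left T (by positivity)
    · have h2 : 2 ^ (i + 1) ≤ 2 ^ (8 + Nat.log 2 N) := Nat.pow_le_pow_right two_pos (by omega)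
      have h3 : 2 ^ (8 + Nat.log 2 N) ≤ 256 * N := by
        rw [pow_add]
        exact Nat.mul_le_mul (by norm_num) (Nat.pow_log_le_self 2 (by omega))
      calc 2 * (2 ^ i * T) = 2 ^ (i + 1) * T := by ring
        _ ≤ 256 * N * T := Nat.mul_le_mul_right T (h2.trans h3)
  have hBc : (A.filter fun p => ¬ Module.finrank ℚ ℚ⟮κ ^ p⟯ = N).card ≤ Nat.log 2 N := by
    refine Nat.le_log_of_pow_le one_lt_two ?_
    have h2 := exc' κ hκ (A.filter fun p => ¬ Module.finrank ℚ ℚ⟮κ ^ p⟯ = N) (fun p hp => by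
      rw [Finset.mem_filter] at hp
      exact ⟨(hAp p hp.1).1, by rw [← hN]; exact hp.2⟩)
    rw [← hN] at h2
    exact h2
  have hG : 8 ≤ (A.filter fun p => Module.finrank ℚ ℚ⟮κ ^ p⟯ = N).card := by
    have h2 := Finset.card_filter_add_card_filter_not (s := A)
      (fun p => Module.finrank ℚ ℚ⟮κ ^ p⟯ = N)
    omega
  obtain ⟨S, hSA, hSc⟩ := Finset.exists_subset_card_eq hG
  have hl3 : 1 < Real.log 3 := by
    rw [Real.lt_log_iff_exp_lt (by norm_num)]
    exact Real.exp_one_lt_d9.trans (by norm_num)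
  have hlN : 0 ≤ Real.log N := Real.log_natCast_nonneg N
  obtain ⟨p, hp, hlt⟩ := lehmer_aux κ hκ h0 h1 N hN.symm S hSc (fun p hp => by
    have h2 := Finset.mem_filter.1 (hSA hp)
    obtain ⟨h3, h4, h5⟩ := hAp p h2.1
    refine ⟨h3, h2.2, ?_⟩
    have h6 : Real.log (9 * N * N) = 2 * Real.log 3 + 2 * Real.log N := by
      rw [show (9 * N * N : ℝ) = 3 ^ 2 * N ^ 2 by ring, Real.log_mul (by norm_num) (by positivity),
        Real.log_pow, Real.log_pow]
      push_cast
      ring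
    have h7 : Real.log T = 6 * Real.log 3 + 2 * Real.log N := by
      rw [hT]
      push_cast
      rw [show (729 * N ^ 2 : ℝ) = 3 ^ 6 * N ^ 2 by ring, Real.log_mul (by norm_num) (by positivity),
        Real.log_pow, Real.log_pow]
      push_cast
      ring
    have h8 : Real.log T ≤ Real.log p := Real.log_le_log (by exact_mod_cast hT0) (by exact_mod_cast h4.le)
    rw [h6]
    linarith)
  have hpA := hAp p (Finset.mem_filter.1 (hSA hp)).1
  have hp3 : (p : ℝ) ≤ 256 * N * (729 * N ^ 2) := by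
    have h2 := hpA.2.2
    rw [hT] at h2
    exact_mod_cast h2
  have hh : 0 < absLogHeight₁ κ := by
    by_contra hneg
    push Not at hneg
    have h2 : (p * (9 * N) : ℝ) * absLogHeight₁ κ ≤ 0 :=
      mul_nonpos_of_nonneg_of_nonpos (by positivity) hneg
    linarith
  have h9 : 1 < 1679616 * (N : ℝ) ^ 4 * absLogHeight₁ κ := by
    refine hlt.trans_le (mul_le_mul_of_nonneg_right ?_ hh.le)
    calc (p * (9 * N) : ℝ) ≤ 256 * N * (729 * N ^ 2) * (9 * N) :=
          mul_le_mul_of_nonneg_right hp3 (by positivity)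
      _ = 1679616 * (N : ℝ) ^ 4 := by ring
  have h10 : (1 / 1679616 : ℝ) / (N : ℝ) ^ 4 ≤ absLogHeight₁ κ := by
    rw [div_div, div_le_iff₀ (by positivity)]
    linarith
  refine le_trans ?_ h10
  have h11 : (N : ℝ) ≤ N' := by exact_mod_cast hN'
  exact div_le_div_of_nonneg_left (by norm_num) (by positivity) (pow_le_pow_left₀ hN0.le h11 4)

end Pool.Agent.H36.LE
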