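import Pool.Agent.H36.LE.DefsB

/-!
# THEOREM L (MP_187c26_nt), chapter MI: integrality of the values

`c ∈ Z0 n L` are the coefficients of `P ∈ ℤ[X][Y]`, `deg_Y P ≤ L - 1`, and `bz x a n L γ c = P(x^γ, a^γ)`.
PROOFS. `lk_eval` (private): if `R ∈ ℤ[X][Y]` has `natDegree R ≤ e` and `γ e ≤ K` then `R(x^γ, a^γ) ∈ LK a K`: for `t : E → M` and `v` a finite place: every term is an integer times `t(x)^(γ i) t(a)^(γ j)`, `v(integer) ≤ 1`, `v (t x) ≤ 1` (`x` integral: `t x ∈ 𝓞 M`,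
`FinitePlace.norm_le_one` as in `LK.smul_mem'` of `Defs`), `v(t a)^(γ j) ≤ max(1, v(t a))^K`; `v` is nonarchimedean (`FinitePlace.add_le`); or use that `LK a K` is closed under addition and integers, so it is enough to treat `x^(γ i) a^(γ j)`.
`ev_int0`: directly (`LK` is a `ℤ`-submodule and contains `x^(γ j) a^(γ l)`, `l ≤ L - 1`).
`ev_int`: `P(X^l, Y^l) = P^l + l R` in `ℤ[X][Y]` for the prime `l`: reduce modulo `l`: over `(ZMod l)[X][Y]` the map `Q ↦ Q(X^l, Y^l)` is the Frobenius (`Polynomial.map_frobenius_expand`/`expand_char` over the ring `(ZMod l)[X]` of characteristic `l`, and `ZMod.expand_card` for the coefficients; or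
`MvPolynomial.expand_zmod` and `MvPolynomial.C_dvd_iff_zmod` over `MvPolynomial (Fin 2) ℤ`); all coefficients of the difference are divisible by `l`, and `natDegree R ≤ l (L - 1)`. Evaluate at `(x^g, a^g)`: `P(x^g, a^g) = 0`, so `P(x^(gl), a^(gl)) = l R(x^g, a^g)`, and `y := R(x^g, a^g) ∈ LK a (g l (L - 1))`.
(You may instead prove it by induction/multinomials; only the two statements below are used.)
-/

set_option autoImplicit false

open Polynomial NumberField IntermediateField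
open scoped Polynomial.Bivariate

namespace Pool.Agent.H36.LE

variable {E : Type} [Field E] [NumberField E]

private theorem lk_mul {a u v : E} {K K' : ℕ} (hu : u ∈ LK a K) (hv : v ∈ LK a K') :
    u * v ∈ LK a (K + K') := by
  intro M _ _ t w
  rw [map_mul, map_mul, pow_add]
  exact mul_le_mul (hu M t w) (hv M t w) (apply_nonneg w _) (by positivity)

private theorem lk_pow {a u : E} {K : ℕ} (hu : u ∈ LK a K) (k : ℕ) : u ^ k ∈ LK a (k * K) := by
  intro M _ _ t w
  rw [map_pow, map_pow, mul_comm k K, pow_mul]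
  exact pow_le_pow_left₀ (apply_nonneg w _) (hu M t w) k

private theorem lk_mono {a u : E} {K K' : ℕ} (h : K ≤ K') (hu : u ∈ LK a K) : u ∈ LK a K' := by
  intro M _ _ t w
  exact (hu M t w).trans (pow_le_pow_right₀ (le_max_left _ _) h)

private theorem lk_self (a : E) : a ∈ LK a 1 := by
  intro M _ _ t w
  rw [pow_one]
  exact le_max_right _ _

private theorem lk_int {a x : E} (hx : IsIntegral ℤ x) : x ∈ LK a 0 := by
  intro M _ _ t w
  rw [pow_zero]
  have h1 : IsIntegral ℤ (t x) := map_isIntegral_int t hx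
  have h2 := FinitePlace.norm_le_one M w.maximalIdeal (⟨t x, h1⟩ : 𝓞 M)
  rw [FinitePlace.norm_embedding_eq] at h2
  exact h2

private theorem lk_zmul {a u : E} {K : ℕ} (hu : u ∈ LK a K) (z : ℤ) : (z : E) * u ∈ LK a K := by
  rw [← zsmul_eq_mul]
  exact (LK a K).smul_mem z hu

private theorem lk_term (x a : E) (hx : IsIntegral ℤ x) (L γ j l : ℕ) (hl : l < L) :
    x ^ (γ * j) * a ^ (γ * l) ∈ LK a (γ * (L - 1)) := by
  have h1 : x ^ (γ * j) ∈ LK a (γ * j * 0) := lk_pow (lk_int hx) _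
  have h2 : a ^ (γ * l) ∈ LK a (γ * l * 1) := lk_pow (lk_self a) _
  refine lk_mono ?_ (lk_mul h1 h2)
  rw [Nat.mul_zero, Nat.zero_add, Nat.mul_one]
  exact Nat.mul_le_mul_left _ (by omega)

private theorem bz_eq (x a : E) (n L γ : ℕ) (c : Fin n × Fin L → ℚ) (z : Fin n × Fin L → ℤ)
    (hz : ∀ p, c p = z p) :
    bz x a n L γ c = ∑ p : Fin n × Fin L, (z p : E) * (x ^ (γ * (p.1 : ℕ)) * a ^ (γ * (p.2 : ℕ))) := by
  unfold bz
  rw [LinearMap.sum_apply]
  refine Finset.sum_congr rfl fun p _ => ?_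
  rw [LinearMap.smulRight_apply, LinearMap.proj_apply, hz p, Algebra.smul_def,
    map_intCast]

theorem ev_int0 (x a : E) (hx : IsIntegral ℤ x) (n L γ : ℕ) (c : Fin n × Fin L → ℚ)
    (hc : c ∈ Z0 n L) : bz x a n L γ c ∈ LK a (γ * (L - 1)) := by
  have hc' : ∀ p, ∃ z : ℤ, c p = z := hc
  choose z hz using hc'
  rw [bz_eq x a n L γ c z hz]
  exact Submodule.sum_mem _ fun p _ => lk_zmul (lk_term x a hx L γ p.1 p.2 p.2.2) (z p)

private theorem lk_frob {a : E} {K l : ℕ} (hl : l.Prime) {ι : Type} (s : Finset ι) (u : ι → E)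
    (hu : ∀ i ∈ s, u i ∈ LK a K) :
    ∃ y ∈ LK a (l * K), (∑ i ∈ s, u i) ^ l = ∑ i ∈ s, u i ^ l + (l : E) * y := by
  classical
  induction s using Finset.induction_on with
  | empty =>
    refine ⟨0, Submodule.zero_mem _, ?_⟩
    rw [Finset.sum_empty, Finset.sum_empty, zero_pow hl.ne_zero, mul_zero, add_zero]
  | insert i s hi ih =>
    obtain ⟨y, hy, he⟩ := ih fun j hj => hu j (Finset.mem_insert_of_mem hj)
    have h1 : u i ∈ LK a K := hu i (Finset.mem_insert_self i s)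
    have h2 : ∑ j ∈ s, u j ∈ LK a K :=
      Submodule.sum_mem _ fun j hj => hu j (Finset.mem_insert_of_mem hj)
    refine ⟨y + ∑ k ∈ Finset.Ioo 0 l, u i ^ k * (∑ j ∈ s, u j) ^ (l - k) * ((l.choose k / l : ℕ) : E),
      Submodule.add_mem _ hy (Submodule.sum_mem _ fun k hk => ?_), ?_⟩
    · have hk := Finset.mem_Ioo.1 hk
      have h3 := lk_mul (lk_pow h1 k) (lk_pow h2 (l - k))
      have h4 : k * K + (l - k) * K = l * K := by
        rw [← Nat.add_mul]
        congr 1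
        omega
      rw [h4] at h3
      rw [mul_comm (u i ^ k * (∑ j ∈ s, u j) ^ (l - k))]
      exact_mod_cast lk_zmul h3 ((l.choose k / l : ℕ) : ℤ)
    · rw [Finset.sum_insert hi, Finset.sum_insert hi, add_pow_prime_eq' hl, he]
      ring

theorem ev_int (x a : E) (hx : IsIntegral ℤ x) (n L g l : ℕ) (hl : l.Prime)
    (c : Fin n × Fin L → ℚ) (hc : c ∈ Z0 n L) (h0 : bz x a n L g c = 0) :
    ∃ y ∈ LK a (g * l * (L - 1)), bz x a n L (g * l) c = l • y := by
  have hc' : ∀ p, ∃ z : ℤ, c p = z := hc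
  choose z hz using hc'
  have hu : ∀ p : Fin n × Fin L, x ^ (g * (p.1 : ℕ)) * a ^ (g * (p.2 : ℕ)) ∈ LK a (g * (L - 1)) :=
    fun p => lk_term x a hx L g p.1 p.2 p.2.2
  have hK : l * (g * (L - 1)) = g * l * (L - 1) := by ring
  obtain ⟨y, hy, he⟩ := lk_frob hl Finset.univ
    (fun p : Fin n × Fin L => (z p : E) * (x ^ (g * (p.1 : ℕ)) * a ^ (g * (p.2 : ℕ))))
    fun p _ => lk_zmul (hu p) (z p)
  rw [← bz_eq x a n L g c z hz, h0, zero_pow hl.ne_zero] at he
  have hf : ∀ p : Fin n × Fin L, ∃ w : ℤ, z p ^ l = z p + l * w := by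
    intro p
    have : Fact l.Prime := ⟨hl⟩
    have h1 : ((z p ^ l - z p : ℤ) : ZMod l) = 0 := by
      push_cast
      rw [ZMod.pow_card, sub_self]
    obtain ⟨w, hw⟩ := (ZMod.intCast_zmod_eq_zero_iff_dvd _ _).1 h1
    exact ⟨w, by linarith⟩
  choose w hw using hf
  refine ⟨-(y + ∑ p : Fin n × Fin L, (w p : E) * (x ^ (g * (p.1 : ℕ)) * a ^ (g * (p.2 : ℕ))) ^ l),
    Submodule.neg_mem _ (Submodule.add_mem _ (hK ▸ hy) (Submodule.sum_mem _ fun p _ => ?_)), ?_⟩
  · refine lk_zmul ?_ (w p)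
    rw [← hK]
    exact lk_pow (hu p) l
  · rw [bz_eq x a n L (g * l) c z hz, nsmul_eq_mul]
    have e1 : ∀ p : Fin n × Fin L, (z p : E) * (x ^ (g * l * (p.1 : ℕ)) * a ^ (g * l * (p.2 : ℕ))) =
        ((z p : E) * (x ^ (g * (p.1 : ℕ)) * a ^ (g * (p.2 : ℕ)))) ^ l -
          (l : E) * ((w p : E) * (x ^ (g * (p.1 : ℕ)) * a ^ (g * (p.2 : ℕ))) ^ l) := by
      intro p
      have e2 : (x ^ (g * (p.1 : ℕ)) * a ^ (g * (p.2 : ℕ))) ^ l =
          x ^ (g * l * (p.1 : ℕ)) * a ^ (g * l * (p.2 : ℕ)) := by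
        rw [mul_pow, ← pow_mul, ← pow_mul]
        congr 2 <;> ring
      have e3 : (z p : E) ^ l = z p + l * w p := by exact_mod_cast congrArg (Int.cast : ℤ → E) (hw p)
      rw [mul_pow, e3, e2]
      ring
    rw [Finset.sum_congr rfl fun p _ => e1 p, Finset.sum_sub_distrib, ← Finset.mul_sum]
    linear_combination -he

end Pool.Agent.H36.LE
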