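import Pool.Agent.H36.LE.MiC

/-!
# THEOREM L (MP_187c26_nt), chapter MI: the evaluation map has norm at most `b √(L d)`

Imports `MiC` (may be sorried).
PROOF. `(T h)_τ := ∑_p h_p (τ x)^(γ p₁) (τ a)^(γ p₂) wt a K τ / √m` (linear; `T (pc c) = ph m a K (bz x a n L γ c)` by `map_sum`, `map_ratCast`). Norm: `‖T h‖^2 = ∑_τ |..|^2`. For fixed `τ`: `|∑_l (τ a)^(γ l) wt ∑_j h_jl (τ x)^(γ j)|^2 ≤ L ∑_l |∑_j h_jl (τ x)^(γ j)|^2` (Cauchy-Schwarz
`(∑_(l<L) |u_l|)^2 ≤ L ∑ |u_l|^2`, and `|(τ a)^(γ l)| wt a K τ ≤ 1` because `γ l ≤ γ (L - 1) ≤ K`). Sum over `τ`, divide by `m`, `sum_emb` for each `l`: `‖T h‖^2 ≤ L (1/m)(m d) ∑_(j,l) ρ^(2 γ j) |h_jl|^2 ≤ L d b^2 ‖h‖^2` (`rho_pow_le`).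
-/

set_option autoImplicit false

open Polynomial NumberField IntermediateField

namespace Pool.Agent.H36.LE

variable {E : Type} [Field E] [NumberField E] {b m d : ℕ} {ι : ℝ} {x : E}

private theorem wt_pos (a : E) (K : ℕ) (τ : E →+* ℂ) : 0 < wt a K τ := by
  unfold wt
  positivity

private theorem wt_le (a : E) (K γ L : ℕ) (hK : γ * (L - 1) ≤ K) (τ : E →+* ℂ) (l : Fin L) :
    ‖τ a‖ ^ (γ * (l : ℕ)) * wt a K τ ≤ 1 := by
  have h1 : (1 : ℝ) ≤ max 1 ‖τ a‖ := le_max_left _ _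
  have h2 : γ * (l : ℕ) ≤ K := by
    have h3 : (l : ℕ) ≤ L - 1 := by have := l.2; omega
    exact (Nat.mul_le_mul_left _ h3).trans hK
  unfold wt
  rw [mul_inv_le_iff₀ (by positivity), one_mul]
  calc ‖τ a‖ ^ (γ * (l : ℕ)) ≤ max 1 ‖τ a‖ ^ (γ * (l : ℕ)) :=
        pow_le_pow_left₀ (norm_nonneg _) (le_max_right _ _) _
    _ ≤ max 1 ‖τ a‖ ^ K := pow_le_pow_right₀ h1 h2

theorem exists_T (hx : Rd b m d ι x) (a : E) (n L γ K : ℕ) (hn : n ≤ m) (hγ : γ.Coprime m)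
    (hnγ : (n - 1) * γ ≤ m) (hK : γ * (L - 1) ≤ K) :
    ∃ T : EuclideanSpace ℂ (Fin n × Fin L) →ₗ[ℂ] EuclideanSpace ℂ (E →+* ℂ),
      (∀ h, ‖T h‖ ≤ (b * Real.sqrt (L * d)) * ‖h‖) ∧
      ∀ c : Fin n × Fin L → ℚ, T (pc n L c) = ph m a K (bz x a n L γ c) := by
  have hm : (0 : ℝ) < m := by exact_mod_cast hx.m1
  obtain ⟨w, hw⟩ : ∃ w : (E →+* ℂ) → Fin n × Fin L → ℂ, w = fun τ p =>
      τ x ^ (γ * (p.1 : ℕ)) * τ a ^ (γ * (p.2 : ℕ)) * ((wt a K τ / Real.sqrt m : ℝ) : ℂ) := ⟨_, rfl⟩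
  let T : EuclideanSpace ℂ (Fin n × Fin L) →ₗ[ℂ] EuclideanSpace ℂ (E →+* ℂ) :=
    { toFun := fun h => WithLp.toLp 2 fun τ => ∑ p, h p * w τ p
      map_add' := by
        intro h h'
        ext τ
        simp [add_mul, Finset.sum_add_distrib]
      map_smul' := by
        intro c h
        ext τ
        simp [Finset.mul_sum, mul_assoc] }
  have hT : ∀ h τ, (T h) τ = ∑ p, h p * w τ p := fun h τ => rfl
  refine ⟨T, ?_, ?_⟩
  · intro h
    have hbound : ∀ τ : E →+* ℂ, ‖(T h) τ‖ ^ 2 ≤ (L : ℝ) / m *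
        ∑ l : Fin L, ‖∑ j : Fin n, h (j, l) * τ x ^ (γ * (j : ℕ))‖ ^ 2 := by
      intro τ
      have h1 : (T h) τ = ((1 / Real.sqrt m : ℝ) : ℂ) * ∑ l : Fin L, (τ a ^ (γ * (l : ℕ)) *
          ((wt a K τ : ℝ) : ℂ)) * ∑ j : Fin n, h (j, l) * τ x ^ (γ * (j : ℕ)) := by
        rw [hT, Fintype.sum_prod_type_right, Finset.mul_sum]
        refine Finset.sum_congr rfl fun l _ => ?_
        rw [Finset.mul_sum, Finset.mul_sum]
        refine Finset.sum_congr rfl fun j _ => ?_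
        rw [hw]
        push_cast
        ring
      rw [h1, norm_mul, mul_pow]
      have h2 : ‖((1 / Real.sqrt m : ℝ) : ℂ)‖ ^ 2 = 1 / m := by
        rw [Complex.norm_real, Real.norm_eq_abs, sq_abs, div_pow, Real.sq_sqrt hm.le, one_pow]
      rw [h2]
      have h3 : ‖∑ l : Fin L, (τ a ^ (γ * (l : ℕ)) * ((wt a K τ : ℝ) : ℂ)) *
          ∑ j : Fin n, h (j, l) * τ x ^ (γ * (j : ℕ))‖ ≤
          ∑ l : Fin L, ‖∑ j : Fin n, h (j, l) * τ x ^ (γ * (j : ℕ))‖ := by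
        refine (norm_sum_le _ _).trans (Finset.sum_le_sum fun l _ => ?_)
        rw [norm_mul, norm_mul, norm_pow, Complex.norm_real, Real.norm_eq_abs,
          abs_of_pos (wt_pos a K τ)]
        exact mul_le_of_le_one_left (norm_nonneg _) (wt_le a K γ L hK τ l)
      have h4 : ‖∑ l : Fin L, (τ a ^ (γ * (l : ℕ)) * ((wt a K τ : ℝ) : ℂ)) *
          ∑ j : Fin n, h (j, l) * τ x ^ (γ * (j : ℕ))‖ ^ 2 ≤
          (L : ℝ) * ∑ l : Fin L, ‖∑ j : Fin n, h (j, l) * τ x ^ (γ * (j : ℕ))‖ ^ 2 := by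
        refine (pow_le_pow_left₀ (norm_nonneg _) h3 2).trans ?_
        have h5 := sq_sum_le_card_mul_sum_sq (s := (Finset.univ : Finset (Fin L)))
          (f := fun l => ‖∑ j : Fin n, h (j, l) * τ x ^ (γ * (j : ℕ))‖)
        rw [Finset.card_univ, Fintype.card_fin] at h5
        exact h5
      calc 1 / (m : ℝ) * _ ≤ 1 / (m : ℝ) * ((L : ℝ) *
            ∑ l : Fin L, ‖∑ j : Fin n, h (j, l) * τ x ^ (γ * (j : ℕ))‖ ^ 2) :=
            mul_le_mul_of_nonneg_left h4 (by positivity)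
        _ = _ := by ring
    have hsq : ‖T h‖ ^ 2 ≤ (b * Real.sqrt (L * d) * ‖h‖) ^ 2 := by
      rw [EuclideanSpace.norm_sq_eq]
      refine (Finset.sum_le_sum fun τ _ => hbound τ).trans ?_
      rw [← Finset.mul_sum, Finset.sum_comm]
      have h1 : ∀ l : Fin L, ∑ τ : E →+* ℂ, ‖∑ j : Fin n, h (j, l) * τ x ^ (γ * (j : ℕ))‖ ^ 2 ≤
          (m * d : ℝ) * ((b : ℝ) ^ 2 * ∑ j : Fin n, ‖h (j, l)‖ ^ 2) := by
        intro l
        rw [sum_emb hx n γ hn hγ (fun j => h (j, l))]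
        refine mul_le_mul_of_nonneg_left ?_ (by positivity)
        rw [Finset.mul_sum]
        refine Finset.sum_le_sum fun j _ => ?_
        exact mul_le_mul_of_nonneg_right (rho_pow_le hx n γ hnγ j) (by positivity)
      calc (L : ℝ) / m * ∑ l : Fin L, ∑ τ : E →+* ℂ, ‖∑ j : Fin n, h (j, l) * τ x ^ (γ * (j : ℕ))‖ ^ 2
          ≤ (L : ℝ) / m * ∑ l : Fin L, (m * d : ℝ) * ((b : ℝ) ^ 2 * ∑ j : Fin n, ‖h (j, l)‖ ^ 2) :=
            mul_le_mul_of_nonneg_left (Finset.sum_le_sum fun l _ => h1 l) (by positivity)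
        _ = (L * d : ℝ) * (b : ℝ) ^ 2 * ‖h‖ ^ 2 := by
            rw [EuclideanSpace.norm_sq_eq, Fintype.sum_prod_type_right, ← Finset.mul_sum,
              ← Finset.mul_sum]
            field_simp
        _ = (b * Real.sqrt (L * d) * ‖h‖) ^ 2 := by
            rw [mul_pow, mul_pow, Real.sq_sqrt (by positivity)]
            ring
    have h0 : 0 ≤ b * Real.sqrt (L * d) * ‖h‖ := by positivity
    exact (pow_le_pow_iff_left₀ (norm_nonneg _) h0 two_ne_zero).1 hsq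
  · intro c
    ext τ
    rw [hT]
    have h1 : (ph m a K (bz x a n L γ c)) τ = τ (bz x a n L γ c) * ((wt a K τ / Real.sqrt m : ℝ) : ℂ) := rfl
    have h2 : ∀ p, (pc n L c) p = ((c p : ℚ) : ℂ) := fun p => rfl
    have h3 : bz x a n L γ c = ∑ p : Fin n × Fin L, c p • (x ^ (γ * (p.1 : ℕ)) * a ^ (γ * (p.2 : ℕ))) := by
      unfold bz
      rw [LinearMap.sum_apply]
      rfl
    rw [h1, h3, map_sum, Finset.sum_mul]
    refine Finset.sum_congr rfl fun p _ => ?_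
    rw [h2, hw, Algebra.smul_def, map_mul, map_mul, map_pow, map_pow]
    have h4 : τ (algebraMap ℚ E (c p)) = ((c p : ℚ) : ℂ) := by
      rw [eq_ratCast, map_ratCast]
    rw [h4]
    ring

end Pool.Agent.H36.LE
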