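import Pool.Agent.H36.LE.DefsB
import Pool.Agent.H36.LE.VlA
import Pool.Agent.H36.LE.GdC

/-!
# THEOREM L (MP_187c26_nt), chapter MI: the integral lattice of the box

Imports `Zb`, `VlA`, `GdA`, `GdC` (may be sorried).
PROOFS. `lat_pc`: `fg`: `Z0` is generated by the standard vectors (`Pi.single p 1`); or `Z0` is the range of `(Fin n × Fin L → ℤ) →ₗ[ℤ] _`. `full`: common denominator (`n = ∏ p, (y p).den`). `ind`: `ℚ`-independent vectors of `ℚ^N` are `ℂ`-independent in `ℂ^N`
(`LinearIndependent` of the columns of a rational matrix: a nonzero minor stays nonzero; or extend to a basis of `ℚ^N` and the determinant of the base change is not `0`; Mathlib: `LinearIndependent.map_...`/`linearIndependent_algebraMap`-type lemmas, `Matrix.rank_map`).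
`vl_ge_one`: `vl` = Gram determinant of a `ℤ`-basis (`exists_zb`, `vl_eq`), positive (`vl_pos`), entries integers: `gd_int`. `vl_top_le`: `vl_le` for the standard basis (reindexed by `Fin (finrank)` or with `κ = Fin n × Fin L`, `vl_le` allows any index type), `gd_std`.
-/

set_option autoImplicit false

open Polynomial NumberField IntermediateField

namespace Pool.Agent.H36.LE

theorem lat_pc (n L : ℕ) : Lat (pc n L) (Z0 n L) := by
  refine ⟨?_, ?_, ?_⟩
  · obtain ⟨ψ, hψ⟩ : ∃ ψ : (Fin n × Fin L → ℤ) →ₗ[ℤ] (Fin n × Fin L → ℚ),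
        ψ = ((Int.castAddHom ℚ).compLeft (Fin n × Fin L)).toIntLinearMap := ⟨_, rfl⟩
    have h1 : Z0 n L = LinearMap.range ψ := by
      ext c
      rw [LinearMap.mem_range]
      constructor
      · intro hc
        choose z hz using hc
        refine ⟨z, ?_⟩
        funext p
        rw [hψ, hz p]
        rfl
      · rintro ⟨z, rfl⟩ p
        refine ⟨z p, ?_⟩
        rw [hψ]
        rfl
    rw [h1, LinearMap.range_eq_map]
    exact Submodule.FG.map ψ Module.Finite.fg_top
  · intro y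
    refine ⟨∏ p, (y p).den, Finset.prod_ne_zero_iff.2 fun p _ => (y p).den_nz, fun p => ?_⟩
    obtain ⟨k, hk⟩ := Finset.dvd_prod_of_mem (fun p => (y p).den) (Finset.mem_univ p)
    refine ⟨k * (y p).num, ?_⟩
    rw [Pi.smul_apply, nsmul_eq_mul, hk]
    have h2 := Rat.mul_den_eq_num (y p)
    push_cast
    rw [← h2]
    ring
  · intro r z hz
    have h1 := (linearIndependent_algebraMap_comp_iff (R := ℚ) (S := ℂ)).2 hz
    have h2 := h1.map' ((WithLp.linearEquiv 2 ℂ (Fin n × Fin L → ℂ)).symm :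
      (Fin n × Fin L → ℂ) →ₗ[ℂ] EuclideanSpace ℂ (Fin n × Fin L)) (LinearEquiv.ker _)
    have h3 : (fun i => pc n L (z i)) = ((WithLp.linearEquiv 2 ℂ (Fin n × Fin L → ℂ)).symm :
      (Fin n × Fin L → ℂ) →ₗ[ℂ] EuclideanSpace ℂ (Fin n × Fin L)) ∘
        fun i => (algebraMap ℚ ℂ) ∘ z i := by
      funext i
      rfl
    rw [h3]
    exact h2

theorem vl_ge_one (n L : ℕ) (U : Submodule ℚ (Fin n × Fin L → ℚ)) :
    1 ≤ vl (pc n L) (Z0 n L) U := by
  have h := lat_pc n L
  obtain ⟨z, hz⟩ := h.exists_zb U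
  have h1 := h.vl_pos U
  rw [h.vl_eq hz] at h1 ⊢
  refine gd_int _ (fun i t => ?_) h1.ne'
  obtain ⟨k, hk⟩ := hz.memL i t
  refine ⟨k, ?_⟩
  change (((z i t : ℚ)) : ℂ) = (k : ℂ)
  rw [hk, Rat.cast_intCast]

theorem vl_top_le (n L : ℕ) : vl (pc n L) (Z0 n L) ⊤ ≤ 1 := by
  have h := lat_pc n L
  have h1 := h.vl_le (U := ⊤) (fun p : Fin n × Fin L => (Pi.single p 1 : Fin n × Fin L → ℚ)) (by
    rw [finrank_top, Module.finrank_fintype_fun_eq_card]) (by
    have h2 := (Pi.basisFun ℚ (Fin n × Fin L)).linearIndependent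
    have h3 : (fun p : Fin n × Fin L => (Pi.single p 1 : Fin n × Fin L → ℚ)) =
        Pi.basisFun ℚ (Fin n × Fin L) := by
      funext p
      rw [Pi.basisFun_apply]
    rw [h3]
    exact h2) (fun p => ⟨fun q => by
      by_cases hq : q = p
      · exact ⟨1, by rw [hq, Pi.single_eq_same, Int.cast_one]⟩
      · exact ⟨0, by rw [Pi.single_eq_of_ne hq, Int.cast_zero]⟩, Submodule.mem_top⟩)
  refine h1.trans (le_of_eq ?_)
  rw [← gd_std (Ω := Fin n × Fin L)]
  congr 1
  funext p
  ext q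
  change (((Pi.single p 1 : Fin n × Fin L → ℚ) q : ℚ) : ℂ) = _
  by_cases hq : q = p
  · subst hq
    simp
  · rw [Pi.single_eq_of_ne hq]
    simp [hq]

end Pool.Agent.H36.LE
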