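import Pool.Agent.H36.LE.NmC
import Pool.Agent.H36.LE.NmE
import Pool.Agent.H36.LE.NmF
import Pool.Agent.H36.LE.VlA

/-!
# THEOREM L (MP_187c26_nt), chapter N: the bound for `ℚ(x)`-subspaces

Imports may be sorried (`exists_M`, `gd_ph_ge`, `lat_ph`, `lk_mul`, `loc_free`, `det_loc`, `exists_prime_below`, `vl_eq`, `exists_zb`).
PROOF. `F := ℚ⟮x⟯`, `[F : ℚ] = m`. `U` is stable under `x`, so it is an `F`-subspace `U_F` (`F = ℚ[x]`: `IntermediateField.adjoin_simple_toSubalgebra_of_integral`, `Algebra.adjoin_induction`). `k := dim_F U_F`, `r := dim_ℚ U = m k`. `N := {y ∈ LK a K, y ∈ U}` is an `𝓞 F`-submodule of `E` (`lk_mul`), finitely generated (already over `ℤ`: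
submodule of the f.g. `ℤ`-module `LK a K`), and spans `U_F` over `F` (`Lat.full`). `z : Fin (m k) → E` a basis of `LK ∩ U` (`exists_zb`, cast `r = m k`). `M`, `t` from `exists_M F E`: `det (t_i z_j) ≠ 0`, `Nat.card (F →+* M) = m`, so `σ : Fin m ≃ (F →+* M)`. `ω` := a `ℤ`-basis of `𝓞 F` indexed by `Fin m`
(`RingOfIntegers.basis F` reindexed). `D₀ := det (σ_i(ω_j))`. For `φ : M →+* ℂ`: `φ ∘ σ_i` are all the embeddings of `F` into `ℂ` (injective, same cardinality), so `φ(D₀)^2 = discr F` (`Algebra.discr_eq_det_embeddingsMatrixReindex_pow_two`, `NumberField.discr`, basis independence `NumberField.discr_eq_discr`), `‖φ D₀‖ = |discr F|^(1/2)`.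
For a finite place `v` of `M`: `ℓ` from `exists_prime_below`, `u` from `loc_free` for `N` and `ℓ`; the hypotheses of `det_loc` hold with `B s := max(1, v(t_s a))^K` (`u_j ∈ LK a K`). So `gd_ph_ge` applies with `D := D₀^k`, `A := |discr F|^(k/2)` (`= (|discr F|^(1/2))^k`):
`|discr F|^k m^(-mk) exp (-2 K r h) ≤ gd (ph ∘ z) = vl U`, and `k log |discr F| - m k log m ≥ - 2 ι m k = - 2 ι r` (`Rd.disc`).
-/

set_option autoImplicit false

open Polynomial NumberField IntermediateField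

namespace Pool.Agent.H36.LE

/-- the determinant of a basis of the integers and the discriminant -/
private theorem disc_abs {F M : Type} [Field F] [NumberField F] [Field M] [NumberField M] {m : ℕ}
    (σ : Fin m ≃ (F →+* M)) (hm : Module.finrank ℚ F = m) (ω : Module.Basis (Fin m) ℤ (𝓞 F))
    (φ : M →+* ℂ) :
    ‖φ (Matrix.of fun i j => σ i (ω j : F)).det‖ ^ 2 = |(NumberField.discr F : ℝ)| := by
  classical
  have hb : Function.Bijective (fun i : Fin m => ((φ.comp (σ i)).toRatAlgHom : F →ₐ[ℚ] ℂ)) := by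
    rw [Fintype.bijective_iff_injective_and_card]
    constructor
    · intro i j hij
      apply σ.injective
      ext y
      have h1 := congrArg (fun g : F →ₐ[ℚ] ℂ => g y) hij
      exact φ.injective h1
    · rw [Fintype.card_fin, AlgHom.card, hm]
  obtain ⟨e, he⟩ : ∃ e : Fin m ≃ (F →ₐ[ℚ] ℂ), ∀ i y, e i y = φ (σ i y) :=
    ⟨Equiv.ofBijective _ hb, fun i y => rfl⟩
  have h1 := Algebra.discr_eq_det_embeddingsMatrixReindex_pow_two ℚ ℂ (fun j => (ω j : F)) e
  have h2 : Algebra.discr ℚ (fun j => (ω j : F)) = (NumberField.discr F : ℚ) := by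
    have h3 := Algebra.discr_localizationLocalization ℤ (nonZeroDivisors ℤ) F ω (Rₘ := ℚ)
    have h4 : (⇑(ω.localizationLocalization ℚ (nonZeroDivisors ℤ) F) : Fin m → F) =
        fun j => (ω j : F) := by
      funext j
      exact Module.Basis.localizationLocalization_apply _ _ _ _ _
    rw [h4, NumberField.discr_eq_discr] at h3
    exact h3
  have h3 : Algebra.embeddingsMatrixReindex ℚ ℂ (fun j => (ω j : F)) e =
      ((Matrix.of fun i j => φ (σ i (ω j : F))).transpose) := by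
    ext i j
    rw [Matrix.transpose_apply, Matrix.of_apply, ← he]
    rfl
  rw [h2, h3, Matrix.det_transpose] at h1
  have h4 : φ (Matrix.of fun i j => σ i (ω j : F)).det =
      (Matrix.of fun i j => φ (σ i (ω j : F))).det := by
    rw [RingHom.map_det]
    rfl
  rw [h4, ← norm_pow, ← h1]
  have h5 : algebraMap ℚ ℂ (NumberField.discr F : ℚ) = (((NumberField.discr F : ℤ) : ℝ) : ℂ) := by
    rw [map_intCast]
    push_cast
    rfl
  rw [h5, Complex.norm_real, Real.norm_eq_abs]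

/-- the assembly for an abstract field -/
private theorem fb {F E : Type} [Field F] [NumberField F] [Field E] [NumberField E] [Algebra F E]
    [IsScalarTower ℚ F E] {m : ℕ} (hm1 : 1 ≤ m) (hm : Module.finrank ℚ F = m) (a : E) (K : ℕ)
    (U : Submodule F E) {k : ℕ} (hk : Module.finrank F U = k) :
    |(NumberField.discr F : ℝ)| ^ k * ((m : ℝ) ^ (m * k))⁻¹ *
      Real.exp (-(2 * K * (m * k : ℕ) * absLogHeight₁ a)) ≤
      vl (ph m a K) (LK a K) (U.restrictScalars ℚ) := by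
  classical
  have hL := lat_ph m K hm1 a
  have hfg : (LK a K).FG := hL.fg
  -- the module
  obtain ⟨N, hN⟩ : ∃ N : Submodule (𝓞 F) E, ∀ y, y ∈ N ↔ y ∈ LK a K ∧ y ∈ U :=
    ⟨{ carrier := {y | y ∈ LK a K ∧ y ∈ U}
       zero_mem' := ⟨Submodule.zero_mem _, Submodule.zero_mem _⟩
       add_mem' := fun hx hy => ⟨Submodule.add_mem _ hx.1 hy.1, Submodule.add_mem _ hx.2 hy.2⟩
       smul_mem' := fun c y hy => by
        have e1 : c • y = algebraMap F E (c : F) * y := by
          rw [Algebra.smul_def]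
          rfl
        have e2 : c • y = (c : F) • y := by
          rw [e1, Algebra.smul_def]
        refine ⟨?_, ?_⟩
        · rw [e1]
          exact lk_mul a K _ y ((RingOfIntegers.isIntegral_coe c).map (algebraMap F E).toIntAlgHom) hy.1
        · rw [e2]
          exact U.smul_mem _ hy.2 }, fun y => Iff.rfl⟩
  have hNfg : N.FG := by
    apply Submodule.FG.of_restrictScalars ℤ
    have h1 : IsNoetherian ℤ (LK a K) := isNoetherian_of_fg_of_noetherian _ hfg
    have h2 : (N.restrictScalars ℤ) = ((N.restrictScalars ℤ).comap (LK a K).subtype).map (LK a K).subtype := by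
      rw [Submodule.map_comap_eq, Submodule.range_subtype, eq_comm, inf_eq_right]
      intro y hy
      exact ((hN y).1 hy).1
    rw [h2]
    exact (IsNoetherian.noetherian _).map _
  have hspan : Submodule.span F (N : Set E) = U := by
    refine le_antisymm (Submodule.span_le.2 fun y hy => ((hN y).1 hy).2) fun y hy => ?_
    obtain ⟨n, hn0, hn⟩ := hL.full y
    have h1 : n • y ∈ N := (hN _).2 ⟨hn, U.smul_of_tower_mem n hy⟩
    have h2 : y = ((n : F)⁻¹) • (n • y) := by
      rw [← Nat.cast_smul_eq_nsmul F, smul_smul, inv_mul_cancel₀ (Nat.cast_ne_zero.2 hn0), one_smul]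
    rw [h2]
    exact Submodule.smul_mem _ _ (Submodule.subset_span h1)
  have hkN : Module.finrank F (Submodule.span F (N : Set E)) = k := by rw [hspan, hk]
  -- the dimension
  have hdim : Module.finrank ℚ (U.restrictScalars ℚ) = m * k := by
    have h1 := Module.finrank_mul_finrank ℚ F U
    rw [hm, hk] at h1
    exact h1.symm
  obtain ⟨z, hz⟩ : ∃ z : Fin (m * k) → E, IsZB (LK a K) (U.restrictScalars ℚ) z := by
    rw [← hdim]
    exact hL.exists_zb _
  rw [hL.vl_eq hz]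
  obtain ⟨M, hM1, hM2, hcard, hM⟩ := exists_M F E
  obtain ⟨t, ht⟩ := hM (m * k) z hz.li
  rw [hm] at hcard
  have hfin : Finite (F →+* M) := Nat.finite_of_card_ne_zero (by rw [hcard]; omega)
  obtain ⟨σ⟩ : Nonempty (Fin m ≃ (F →+* M)) := ⟨(Finite.equivFinOfCardEq hcard).symm⟩
  obtain ⟨ω⟩ : Nonempty (Module.Basis (Fin m) ℤ (𝓞 F)) :=
    ⟨Module.finBasisOfFinrankEq ℤ (𝓞 F) (by rw [RingOfIntegers.rank, hm])⟩
  obtain ⟨D, hD⟩ : ∃ D : M, D = (Matrix.of fun i j => σ i (ω j : F)).det := ⟨_, rfl⟩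
  obtain ⟨Δ, hΔ⟩ : ∃ Δ : ℝ, Δ = |(NumberField.discr F : ℝ)| := ⟨_, rfl⟩
  have hΔ0 : 0 < Δ := by
    rw [hΔ, abs_pos]
    exact_mod_cast NumberField.discr_ne_zero F
  have hn : ∀ φ : M →+* ℂ, ‖φ D‖ = Real.sqrt Δ := by
    intro φ
    rw [hD, hΔ, ← disc_abs σ hm ω φ, Real.sqrt_sq (norm_nonneg _)]
  have key := gd_ph_ge m K hm1 a z t (D ^ k) (Real.sqrt Δ ^ k) (pow_pos (Real.sqrt_pos.2 hΔ0) _)
    (fun φ => by rw [map_pow, norm_pow, hn]) ht ?_
  · rw [← hΔ]
    have e1 : (Real.sqrt Δ ^ k) ^ 2 = Δ ^ k := by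
      rw [← pow_mul, mul_comm, pow_mul, Real.sq_sqrt hΔ0.le]
    rw [e1] at key
    exact key
  · intro v
    obtain ⟨ℓ, hℓ, hℓ1⟩ := exists_prime_below v
    obtain ⟨u, hu1, hu2, hu3⟩ := loc_free N hNfg k hkN ℓ hℓ
    rw [map_pow, hD]
    refine det_loc v m k σ ω u z ?_ t (fun s => max 1 (v (t s a)) ^ K) (fun s => by positivity) ?_
    · intro c
      obtain ⟨n, f, h1, h2⟩ := hu3 (z c) ((hN _).2 ⟨hz.memL c, hz.memU c⟩)
      exact ⟨n, f, hℓ1 n h1, h2⟩
    · intro s j
      exact ((hN _).1 (hu2 j)).1 M (t s) v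

theorem fbound {E : Type} [Field E] [NumberField E] {b m d : ℕ} {ι : ℝ} {x : E}
    (hx : Rd b m d ι x) (a : E) (K : ℕ) (U : Submodule ℚ E) (hU : ∀ y ∈ U, x * y ∈ U) :
    Real.exp (-(2 * (K * absLogHeight₁ a + ι) * Module.finrank ℚ U)) ≤
      vl (ph m a K) (LK a K) U := by
  classical
  have hint : IsIntegral ℚ x := Algebra.IsIntegral.isIntegral x
  have hF0 : ∀ f : E, f ∈ Algebra.adjoin ℚ {x} → ∀ y ∈ U, f * y ∈ U := by
    intro f h1
    induction h1 using Algebra.adjoin_induction with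
    | mem y hy =>
      rw [Set.mem_singleton_iff] at hy
      rw [hy]
      exact hU
    | algebraMap r =>
      intro y hy
      rw [← Algebra.smul_def]
      exact U.smul_mem _ hy
    | add y z _ _ h2 h3 =>
      intro w hw
      rw [add_mul]
      exact U.add_mem (h2 w hw) (h3 w hw)
    | mul y z _ _ h2 h3 =>
      intro w hw
      rw [mul_assoc]
      exact h2 _ (h3 w hw)
  have hF : ∀ f : ℚ⟮x⟯, ∀ y ∈ U, (f : E) * y ∈ U := by
    intro f
    refine hF0 (f : E) ?_
    rw [← IntermediateField.adjoin_simple_toSubalgebra_of_isAlgebraic hint.isAlgebraic]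
    exact f.2
  obtain ⟨V, hV⟩ : ∃ V : Submodule ℚ⟮x⟯ E, V.restrictScalars ℚ = U :=
    ⟨{ carrier := U
       zero_mem' := U.zero_mem
       add_mem' := fun h1 h2 => U.add_mem h1 h2
       smul_mem' := fun c y hy => by
        have e1 : c • y = (c : E) * y := rfl
        rw [e1]
        exact hF c y hy }, by
      ext y
      exact Iff.rfl⟩
  obtain ⟨k, hk⟩ : ∃ k : ℕ, Module.finrank ℚ⟮x⟯ V = k := ⟨_, rfl⟩
  have key := fb hx.m1 hx.deg a K V hk
  have hdim : Module.finrank ℚ U = m * k := by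
    have h1 := Module.finrank_mul_finrank ℚ ℚ⟮x⟯ V
    rw [hx.deg, hk] at h1
    rw [← hV]
    exact h1.symm
  rw [hV] at key
  refine le_trans ?_ key
  have hm0 : (0 : ℝ) < m := by exact_mod_cast hx.m1
  obtain ⟨Δ, hΔ⟩ : ∃ Δ : ℝ, Δ = |(NumberField.discr ℚ⟮x⟯ : ℝ)| := ⟨_, rfl⟩
  have hΔ0 : 0 < Δ := by
    rw [hΔ, abs_pos]
    exact_mod_cast NumberField.discr_ne_zero ℚ⟮x⟯
  have hd := hx.disc
  rw [← hΔ] at hd ⊢
  have e1 : Δ ^ k * ((m : ℝ) ^ (m * k))⁻¹ * Real.exp (-(2 * K * (m * k : ℕ) * absLogHeight₁ a)) =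
      Real.exp (k * Real.log Δ - (m * k : ℕ) * Real.log m - 2 * K * (m * k : ℕ) * absLogHeight₁ a) := by
    rw [Real.exp_sub, Real.exp_sub, Real.exp_nat_mul, Real.exp_nat_mul, Real.exp_log hΔ0,
      Real.exp_log hm0, Real.exp_neg, div_eq_mul_inv, div_eq_mul_inv]
  rw [e1, hdim]
  refine Real.exp_le_exp.2 ?_
  push_cast
  have h3 := mul_le_mul_of_nonneg_left hd (Nat.cast_nonneg k : (0 : ℝ) ≤ k)
  nlinarith [h3]

end Pool.Agent.H36.LE
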