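import Pool.Agent.H36.LE.NmD
import Pool.Agent.H36.LE.NmG
import Pool.Agent.H36.LE.Hn

/-!
# THEOREM L (MP_187c26_nt), chapter N: the inequality (N1) for all `ℚ`-subspaces

Imports may be sorried (`hn`, `crude`, `fbound`, `mulx`, `lat_ph`, `lk_mul`, `vl_sub`, `vl_map`, `vl_pos`, `log_rho`).
PROOF. `f U := log (vl (ph m a K) (LK a K) U) / 2`, `θ` := multiplication by `x` (`x ≠ 0`; `LinearEquiv`), `h := absLogHeight₁ a`. `hn` with `β := log b`, `c := K h + ι`: `hθ`: the `m`-fold iterate is the map of multiplication by `x^m = b`, a nonzero rational number, so it fixes every subspace. `hsub`: logarithm of `vl_sub` (`vl_pos`).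
`hmap`: `vl_map` with `T` from `mulx`, `ρ = rho b m`: `f (θ U) ≤ f U + dim U log ρ`, `log ρ = log b / m` (`log_rho`); `x y ∈ LK` for `y ∈ LK`: `lk_mul` (`x` is integral: `x^m = b`). `hc`: `θ U = U` gives `x y ∈ U` for `y ∈ U`: `fbound`. `hM`: `crude`: `f U ≥ -dim U (log m / 2 + K h) ≥ -dim E (log m / 2 + K h)`.
Conclusion `f U ≥ -(K h + ι + log b) dim U`; exponentiate.
-/

set_option autoImplicit false

open Polynomial NumberField IntermediateField

namespace Pool.Agent.H36.LE

private theorem ht_nn {E : Type} [Field E] [NumberField E] (a : E) : 0 ≤ absLogHeight₁ a := by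
  have h1 := Pool.Agent.H4.RR.absLogHeight_eq E E (RingHom.id E) a
  rw [RingHom.id_apply] at h1
  rw [h1]
  exact div_nonneg (Height.zero_le_logHeight₁ a) (Nat.cast_nonneg _)

private theorem map_iter {E : Type} [Field E] [Algebra ℚ E] (θ : E ≃ₗ[ℚ] E) (x : E)
    (hθ : ∀ y, θ y = x * y) (U : Submodule ℚ E) (j : ℕ) (z : E) :
    z ∈ (fun V : Submodule ℚ E => V.map (θ : E →ₗ[ℚ] E))^[j] U ↔ ∃ y ∈ U, z = x ^ j * y := by
  induction j generalizing z with
  | zero =>
    rw [Function.iterate_zero, id_eq]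
    constructor
    · intro h
      exact ⟨z, h, by rw [pow_zero, one_mul]⟩
    · rintro ⟨y, hy, h⟩
      rw [pow_zero, one_mul] at h
      rw [h]
      exact hy
  | succ j ih =>
    rw [Function.iterate_succ_apply']
    constructor
    · intro h
      obtain ⟨w, hw, rfl⟩ := Submodule.mem_map.1 h
      obtain ⟨y, hy, rfl⟩ := (ih w).1 hw
      refine ⟨y, hy, ?_⟩
      have h2 : (θ : E →ₗ[ℚ] E) (x ^ j * y) = x * (x ^ j * y) := hθ _
      rw [h2, pow_succ']
      ring
    · rintro ⟨y, hy, rfl⟩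
      refine Submodule.mem_map.2 ⟨x ^ j * y, (ih _).2 ⟨y, hy, rfl⟩, ?_⟩
      have h2 : (θ : E →ₗ[ℚ] E) (x ^ j * y) = x * (x ^ j * y) := hθ _
      rw [h2, pow_succ']
      ring

/-- The inequality (N1). -/
theorem n1 {E : Type} [Field E] [NumberField E] {b m d : ℕ} {ι : ℝ} {x : E}
    (hx : Rd b m d ι x) (a : E) (K : ℕ) (U : Submodule ℚ E) :
    Real.exp (-(2 * (K * absLogHeight₁ a + ι + Real.log b) * Module.finrank ℚ U)) ≤
      vl (ph m a K) (LK a K) U := by
  have hL : Lat (ph m a K) (LK a K) := lat_ph m K hx.m1 a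
  have hm1 := hx.m1
  have hm0 : (0 : ℝ) < m := by exact_mod_cast hx.m1
  have hb0 : (b : E) ≠ 0 := Nat.cast_ne_zero.2 (by have := hx.b1; omega)
  have hx0 : x ≠ 0 := by
    rintro rfl
    have h1 := hx.pow
    rw [zero_pow (by omega)] at h1
    exact hb0 h1.symm
  have hh := ht_nn a
  obtain ⟨T, hT1, hT2⟩ := mulx hx a K
  have hint : IsIntegral ℤ x := by
    refine IsIntegral.of_pow (n := m) (by omega) ?_
    rw [hx.pow]
    exact (isIntegral_algebraMap (R := ℤ) (A := E) (x := (b : ℤ))) |> fun h => by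
      simpa using h
  have hrho0 : 0 < rho b m := Real.rpow_pos_of_pos (by exact_mod_cast hx.b1) _
  let θ : E ≃ₗ[ℚ] E := LinearEquiv.ofBijective (LinearMap.mulLeft ℚ x)
    ⟨fun y z h => mul_left_cancel₀ hx0 h, fun y => ⟨x⁻¹ * y, mul_inv_cancel_left₀ hx0 y⟩⟩
  have hθy : ∀ y, θ y = x * y := fun y => rfl
  have key := hn θ m hx.m1 ?_ (fun U => Real.log (vl (ph m a K) (LK a K) U) / 2) (Real.log b)
    (K * absLogHeight₁ a + ι) (-(Module.finrank ℚ E * (Real.log m / 2 + K * absLogHeight₁ a)))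
    (Real.log_natCast_nonneg b) ?_ ?_ ?_ ?_ U
  · have hv := hL.vl_pos U
    rw [← Real.le_log_iff_exp_le hv]
    have h1 : -((K * absLogHeight₁ a + ι + Real.log b) * (Module.finrank ℚ U : ℝ)) ≤
      Real.log (vl (ph m a K) (LK a K) U) / 2 := key
    linarith
  · intro U
    ext z
    rw [map_iter θ x hθy U m z, hx.pow]
    constructor
    · rintro ⟨y, hy, rfl⟩
      have h1 : (b : E) * y = (b : ℚ) • y := by
        rw [Algebra.smul_def, map_natCast]
      rw [h1]
      exact U.smul_mem _ hy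
    · intro hz
      refine ⟨(b : ℚ)⁻¹ • z, U.smul_mem _ hz, ?_⟩
      rw [Algebra.smul_def, map_inv₀, map_natCast, mul_inv_cancel_left₀ hb0]
  · intro U U'
    have h1 := hL.vl_sub U U'
    have h2 := hL.vl_pos (U ⊔ U')
    have h3 := hL.vl_pos (U ⊓ U')
    have h4 := Real.log_le_log (mul_pos h2 h3) h1
    rw [Real.log_mul h2.ne' h3.ne', Real.log_mul (hL.vl_pos U).ne' (hL.vl_pos U').ne'] at h4
    show Real.log _ / 2 + Real.log _ / 2 ≤ Real.log _ / 2 + Real.log _ / 2
    linarith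
  · intro U
    have h1 := hL.vl_map θ T (rho b m) hrho0.le hT1 (fun y hy => lk_mul a K x y hint hy)
      (fun y => hT2 y) U
    have h2 := Real.log_le_log (hL.vl_pos _) h1
    rw [Real.log_mul (pow_pos hrho0 _).ne' (hL.vl_pos U).ne', Real.log_pow, log_rho hx] at h2
    show Real.log _ / 2 ≤ Real.log _ / 2 + _
    push_cast at h2
    have h3 : Real.log b / m * (Module.finrank ℚ U : ℝ) =
        (2 * (Module.finrank ℚ U : ℝ) * (Real.log b / m)) / 2 := by ring
    linarith
  · intro U hU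
    have h1 := fbound hx a K U (fun y hy => by
      have h2 : (θ : E →ₗ[ℚ] E) y ∈ U.map (θ : E →ₗ[ℚ] E) := Submodule.mem_map_of_mem hy
      rw [hU] at h2
      exact h2)
    have h2 := (Real.le_log_iff_exp_le (hL.vl_pos U)).2 h1
    show _ ≤ Real.log _ / 2
    linarith
  · intro U
    have h1 := crude m K hx.m1 a U
    have hp : 0 < ((m : ℝ) ^ Module.finrank ℚ U)⁻¹ := inv_pos.2 (pow_pos hm0 _)
    have h2 := Real.log_le_log (mul_pos hp (Real.exp_pos _)) h1
    rw [Real.log_mul hp.ne' (Real.exp_pos _).ne', Real.log_exp, Real.log_inv, Real.log_pow] at h2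
    have h3 : (Module.finrank ℚ U : ℝ) ≤ Module.finrank ℚ E := by
      exact_mod_cast Submodule.finrank_le U
    have h4 : 0 ≤ Real.log m / 2 + K * absLogHeight₁ a :=
      add_nonneg (div_nonneg (Real.log_natCast_nonneg m) zero_le_two) (mul_nonneg (Nat.cast_nonneg _) hh)
    have h5 := mul_le_mul_of_nonneg_right h3 h4
    show _ ≤ Real.log _ / 2
    have h6 : (Module.finrank ℚ U : ℝ) * (Real.log m / 2 + K * absLogHeight₁ a) =
        ((Module.finrank ℚ U : ℝ) * Real.log m + 2 * K * (Module.finrank ℚ U : ℝ) * absLogHeight₁ a) / 2 := by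
      ring
    linarith

end Pool.Agent.H36.LE
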