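import Pool.Agent.H36.LE.MiB
import Pool.Agent.H36.LE.MiA
import Pool.Agent.H36.LE.MiD
import Pool.Agent.H36.LE.NmH
import Pool.Agent.H36.LE.VlA

/-!
# THEOREM L (MP_187c26_nt), the main inequality: one prime

Imports `MiA` (`ev_int`, `ev_int0`), `MiB` (`exists_T`), `MiD` (`lat_pc`), `NmH` (`n1`), `NmC` (`lat_ph`), `VlA` (`vl_filt`, `vl_le`), may be sorried.
PROOF. `γ := g l`, `K := γ (L - 1)`, `V' := V ⊓ ker (bz γ)`, `r := dim V - dim V'`, `T` from `exists_T` (norm at most `B = b √(L d)`, `T (pc c) = ph m a K (bz γ c)`). `vl_filt` for `lat_pc` with `X := l^(2r) exp (-2 (K h + ι + log b) r)`: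
hypothesis `h0`: `T (pc c) = ph (bz γ c) = 0` for `c ∈ V'`. Hypothesis `hX`: let `w_i ∈ Z0 ∩ V` be independent modulo `V'`; then the `bz γ w_i` are `ℚ`-independent in `E` (a relation gives `∑ c_i w_i ∈ ker (bz γ) ⊓ V = V'`). `bz γ w_i = l • y_i` with `y_i ∈ LK a K`
(`l = 1`: `ev_int0`; `l` prime: `V ≤ ker (bz g)` and `ev_int`). The `y_i` are independent, `U := span ℚ (y_i)`, `dim U = r`, so `exp (-2 (K h + ι + log b) r) ≤ vl (ph m a K) (LK a K) U ≤ gd (ph ∘ y)` (`n1`, `vl_le`), and `ph (bz γ w_i) = (l : ℂ) • ph y_i`, so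
`gd (T ∘ pc ∘ w) = l^(2r) gd (ph ∘ y) ≥ X` (`gd_smul`). The conclusion of `vl_filt`: `vl V' * X ≤ B^(2r) vl V`. Take logarithms (`vl > 0`) and divide by 2:
`λ V' ≤ λ V + r (log b + log (L d)/2 + K h + ι + log b - log l)`, and `K h ≤ g l L h` (`h ≥ 0`).
-/

set_option autoImplicit false

open Polynomial NumberField IntermediateField

namespace Pool.Agent.H36.LE

private theorem mie_h {E : Type} [Field E] [CharZero E] (a : E) : 0 ≤ absLogHeight₁ a := by
  unfold absLogHeight₁ absMulHeight₁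
  split_ifs with hx
  · have : FiniteDimensional ℚ ℚ⟮a⟯ := adjoin.finiteDimensional hx
    have : NumberField ℚ⟮a⟯ := {}
    refine Real.log_nonneg ?_
    exact Real.one_le_rpow (Height.one_le_mulHeight₁ _) (by positivity)
  · rw [Real.log_one]

private theorem mie_li {V₀ E : Type} [AddCommGroup V₀] [Module ℚ V₀] [AddCommGroup E] [Module ℚ E]
    (D : V₀ →ₗ[ℚ] E) (V : Submodule ℚ V₀) {r : ℕ} (w : Fin r → V₀) (hw : ∀ i, w i ∈ V)
    (hi : LinearIndependent ℚ (fun i => (V ⊓ LinearMap.ker D).mkQ (w i))) (l : ℕ) (y : Fin r → E)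
    (hy : ∀ i, D (w i) = l • y i) : LinearIndependent ℚ y := by
  rw [Fintype.linearIndependent_iff] at hi ⊢
  intro c hc
  apply hi c
  have h1 : ∑ i, c i • w i ∈ V ⊓ LinearMap.ker D := by
    refine ⟨Submodule.sum_mem _ fun i _ => Submodule.smul_mem _ _ (hw i), ?_⟩
    show D (∑ i, c i • w i) = 0
    rw [map_sum]
    have h2 : ∀ i, D (c i • w i) = l • (c i • y i) := by
      intro i
      rw [map_smul, hy, smul_comm]
    rw [Finset.sum_congr rfl fun i _ => h2 i, ← Finset.smul_sum, hc, smul_zero]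
  have h3 : (V ⊓ LinearMap.ker D).mkQ (∑ i, c i • w i) = 0 := by
    rw [← LinearMap.mem_ker, Submodule.ker_mkQ]
    exact h1
  rw [map_sum] at h3
  rw [← h3]
  exact Finset.sum_congr rfl fun i _ => (map_smul _ _ _).symm

theorem mi_step {E : Type} [Field E] [NumberField E] {b m d : ℕ} {ι : ℝ} {x : E}
    (hx : Rd b m d ι x) (a : E) (n L g l : ℕ) (hn1 : 1 ≤ n) (hn : n ≤ m) (hL : 1 ≤ L)
    (hg1 : 1 ≤ g) (hg : g.Coprime m) (hl : l = 1 ∨ (l.Prime ∧ ¬ l ∣ m))
    (hnl : (n - 1) * (g * l) ≤ m) (V : Submodule ℚ (Fin n × Fin L → ℚ))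
    (hV : l ≠ 1 → V ≤ LinearMap.ker (bz x a n L g)) :
    Real.log (vl (pc n L) (Z0 n L) (V ⊓ LinearMap.ker (bz x a n L (g * l)))) / 2 ≤
      Real.log (vl (pc n L) (Z0 n L) V) / 2 +
      ((Module.finrank ℚ V - Module.finrank ℚ
        (V ⊓ LinearMap.ker (bz x a n L (g * l)) : Submodule ℚ (Fin n × Fin L → ℚ)) : ℕ) : ℝ) *
      (2 * Real.log b + ι + Real.log (L * d) / 2 + (g * l * L : ℝ) * absLogHeight₁ a -
        Real.log l) := by
  have hlm : l.Coprime m := by
    rcases hl with rfl | ⟨h1, h2⟩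
    · exact Nat.coprime_one_left m
    · exact (Nat.Prime.coprime_iff_not_dvd h1).2 h2
  have hl1 : 1 ≤ l := by
    rcases hl with rfl | ⟨h1, h2⟩
    · exact le_rfl
    · exact h1.one_lt.le
  have hγ : (g * l).Coprime m := Nat.Coprime.mul_left hg hlm
  have hxi : IsIntegral ℤ x := by
    refine IsIntegral.of_pow (lt_of_lt_of_le Nat.one_pos hx.m1) ?_
    rw [hx.pow]
    exact isIntegral_natCast (b : ℕ)
  obtain ⟨K, hK⟩ : ∃ K : ℕ, K = g * l * (L - 1) := ⟨_, rfl⟩
  obtain ⟨T, hT, hTc⟩ := exists_T hx a n L (g * l) K hn hγ hnl hK.ge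
  obtain ⟨h, hh⟩ : ∃ h : ℝ, h = absLogHeight₁ a := ⟨_, rfl⟩
  have hh0 : 0 ≤ h := by
    rw [hh]
    exact mie_h a
  obtain ⟨V', hV'⟩ : ∃ V', V' = V ⊓ LinearMap.ker (bz x a n L (g * l)) := ⟨_, rfl⟩
  have hVV : V' ≤ V := by
    rw [hV']
    exact inf_le_left
  obtain ⟨r, hr⟩ : ∃ r : ℕ, r = Module.finrank ℚ V - Module.finrank ℚ V' := ⟨_, rfl⟩
  obtain ⟨X, hX⟩ : ∃ X : ℝ, X = (l : ℝ) ^ (2 * r) *
    Real.exp (-(2 * (K * h + ι + Real.log b) * r)) := ⟨_, rfl⟩
  have hb0 : (0 : ℝ) < b := by exact_mod_cast hx.b1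
  have hl0 : (0 : ℝ) < l := by exact_mod_cast hl1
  have hd : 1 ≤ d := by
    by_contra h0
    have h1 : d = 0 := by omega
    have h2 := hx.fin
    rw [h1, mul_zero] at h2
    have h3 : 0 < Module.finrank ℚ E := Module.finrank_pos
    omega
  have hLd : (0 : ℝ) < L * d := by
    have h1 : (0 : ℝ) < L := by exact_mod_cast hL
    have h2 : (0 : ℝ) < d := by exact_mod_cast hd
    positivity
  have hB0 : (0 : ℝ) < b * Real.sqrt (L * d) := mul_pos hb0 (Real.sqrt_pos.2 hLd)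
  have hX0 : 0 < X := by
    rw [hX]
    positivity
  have hf := (lat_pc n L).vl_filt T (b * Real.sqrt (L * d)) hB0.le hT hVV
    (by
      intro y hy
      rw [hV'] at hy
      rw [hTc, LinearMap.mem_ker.1 hy.2, map_zero]) X
    (by
      intro w hw hi
      have hy : ∀ i, ∃ y ∈ LK a K, bz x a n L (g * l) (w i) = l • y := by
        intro i
        rcases hl with h1 | ⟨h1, h2⟩
        · refine ⟨bz x a n L (g * l) (w i), ?_, ?_⟩
          · rw [hK]
            exact ev_int0 x a hxi n L (g * l) (w i) (hw i).1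
          · rw [h1, one_smul]
        · rw [hK]
          exact ev_int x a hxi n L g l h1 (w i) (hw i).1
            (LinearMap.mem_ker.1 (hV h1.one_lt.ne' (hw i).2))
      choose y hy1 hy2 using hy
      have hli : LinearIndependent ℚ y := by
        refine mie_li (bz x a n L (g * l)) V w (fun i => (hw i).2) ?_ l y hy2
        rw [← hV']
        exact hi
      obtain ⟨U, hU⟩ : ∃ U, U = Submodule.span ℚ (Set.range y) := ⟨_, rfl⟩
      have hUr : Module.finrank ℚ U = r := by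
        rw [hU, finrank_span_eq_card hli, Fintype.card_fin, hr]
      have h1 := n1 hx a K U
      have h2 := (lat_ph m K hx.m1 a).vl_le (U := U) y (by rw [Fintype.card_fin, hUr, hr]) hli
        (fun i => ⟨hy1 i, by rw [hU]; exact Submodule.subset_span ⟨i, rfl⟩⟩)
      have h3 : (fun i => T (pc n L (w i))) = fun i => (l : ℂ) • (ph m a K (y i)) := by
        funext i
        rw [hTc, hy2, map_nsmul]
        exact (Nat.cast_smul_eq_nsmul ℂ l _).symm
      have e : (l : ℝ) ^ (2 * (Module.finrank ℚ V - Module.finrank ℚ V')) = (l : ℝ) ^ (2 * r) := by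
        rw [hr]
      rw [h3, gd_smul, Complex.norm_natCast, Fintype.card_fin, hX, e]
      refine mul_le_mul_of_nonneg_left ?_ (by positivity)
      refine le_trans (le_of_eq ?_) (h1.trans h2)
      rw [hUr, hh])
  rw [← hr] at hf
  rw [← hV', ← hr, ← hh]
  have hp1 := (lat_pc n L).vl_pos V'
  have hp2 := (lat_pc n L).vl_pos V
  have hlog := Real.log_le_log (mul_pos hp1 hX0) hf
  rw [Real.log_mul hp1.ne' hX0.ne', Real.log_mul (by positivity) hp2.ne', Real.log_pow,
    Real.log_mul hb0.ne' (Real.sqrt_pos.2 hLd).ne', Real.log_sqrt hLd.le, hX,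
    Real.log_mul (by positivity) (Real.exp_pos _).ne', Real.log_exp, Real.log_pow] at hlog
  push_cast at hlog
  have hKh : (K : ℝ) * h ≤ (g * l * L : ℝ) * h := by
    refine mul_le_mul_of_nonneg_right ?_ hh0
    have h1 : K ≤ g * l * L := by
      rw [hK]
      exact Nat.mul_le_mul_left _ (Nat.sub_le _ _)
    exact_mod_cast h1
  have hr0 : (0 : ℝ) ≤ r := Nat.cast_nonneg r
  have h4 := mul_le_mul_of_nonneg_left hKh hr0
  nlinarith [hlog, h4]

end Pool.Agent.H36.LE
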