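import Pool.Agent.H36.LE.MiE

/-!
# THEOREM L (MP_187c26_nt), the main inequality in coordinates

Imports `MiE` (`mi_step`: one prime), `MiD` (`vl_ge_one`, `vl_top_le`), may be sorried.
PROOF. `W S := ker (bz g) ⊓ ⨅ q ∈ S, ker (bz (g q))`. If `𝒬 = ∅` the claim is `r ≤ 8 r`. Otherwise `g L h ≤ g q L h ≤ 1` for some `q`. `A := 2 log b + ι + log (L d)/2 ≥ 0` (`b ≥ 1`, `L ≥ 1`, `d ≥ 1`: `d = 0` is impossible because `[E : ℚ] = m d > 0`). `λ V := log (vl pc Z0 V)/2`.
(0) `mi_step` with `l = 1`, `V = ⊤` (`(n - 1) * (g * 1) ≤ (n-1) * (g q) ≤ m`): `λ (W ∅) ≤ λ ⊤ + r₀ (A + g L h) ≤ r₀ (A + 1)`, `r₀ = n L - dim W ∅` (`finrank ⊤ = n L`, `λ ⊤ ≤ 0`).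
(1) induction on `S ⊆ 𝒬`: `λ (W S) ≤ r₀ (A + 1) - (dim W ∅ - dim W S)(A + 1)/7`: for `q ∉ S`, `W (insert q S) = W S ⊓ ker (bz (g q))` (`Finset.iInf_insert`), `mi_step` with `l = q`, and `A + g q L h - log q ≤ A + 1 - (8/7)(A + 1) = -(A + 1)/7`.
(2) `0 ≤ λ (W 𝒬)` (`vl_ge_one`), so `dim W ∅ - dim W 𝒬 ≤ 7 r₀` (`A + 1 > 0`), so `n L - dim W 𝒬 ≤ 8 r₀`.
-/

set_option autoImplicit false

open Polynomial NumberField IntermediateField

namespace Pool.Agent.H36.LE

private theorem alh_nonneg {E : Type} [Field E] [CharZero E] (a : E) : 0 ≤ absLogHeight₁ a := by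
  unfold absLogHeight₁ absMulHeight₁
  refine Real.log_nonneg ?_
  split_ifs with h
  · have h1 : FiniteDimensional ℚ ℚ⟮a⟯ := adjoin.finiteDimensional h
    have h2 : NumberField ℚ⟮a⟯ := {}
    exact Real.one_le_rpow (Height.one_le_mulHeight₁ (AdjoinSimple.gen ℚ a)) (by positivity)
  · exact le_rfl

theorem mi_cor {E : Type} [Field E] [NumberField E] {b m d : ℕ} {ι : ℝ} {x : E}
    (hx : Rd b m d ι x) (hι : 0 ≤ ι) (a : E) (n L g : ℕ) (hn1 : 1 ≤ n) (hn : n ≤ m) (hL : 1 ≤ L)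
    (hg1 : 1 ≤ g) (hg : g.Coprime m) (𝒬 : Finset ℕ)
    (h𝒬 : ∀ q ∈ 𝒬, q.Prime ∧ ¬ q ∣ m ∧ (n - 1) * (g * q) ≤ m ∧
      8 * (2 * Real.log b + ι + Real.log (L * d) / 2 + 1) ≤ 7 * Real.log q ∧
      (g * q * L : ℝ) * absLogHeight₁ a ≤ 1) :
    n * L - Module.finrank ℚ (LinearMap.ker (bz x a n L g) ⊓
        ⨅ q ∈ 𝒬, LinearMap.ker (bz x a n L (g * q)) : Submodule ℚ (Fin n × Fin L → ℚ)) ≤
      8 * (n * L - Module.finrank ℚ (LinearMap.ker (bz x a n L g))) := by
  classical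
  rcases Finset.eq_empty_or_nonempty 𝒬 with h0 | ⟨q₀, hq₀⟩
  · subst h0
    have h1 : (LinearMap.ker (bz x a n L g) ⊓
        ⨅ q ∈ (∅ : Finset ℕ), LinearMap.ker (bz x a n L (g * q)) : Submodule ℚ (Fin n × Fin L → ℚ)) =
        LinearMap.ker (bz x a n L g) := by
      simp
    rw [h1]
    omega
  · obtain ⟨W, hW⟩ : ∃ W : Finset ℕ → Submodule ℚ (Fin n × Fin L → ℚ), ∀ S, W S =
      LinearMap.ker (bz x a n L g) ⊓ ⨅ q ∈ S, LinearMap.ker (bz x a n L (g * q)) := ⟨_, fun S => rfl⟩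
    obtain ⟨lam, hlam⟩ : ∃ lam : Submodule ℚ (Fin n × Fin L → ℚ) → ℝ, ∀ V, lam V =
      Real.log (vl (pc n L) (Z0 n L) V) / 2 := ⟨_, fun V => rfl⟩
    obtain ⟨A, hA⟩ : ∃ A : ℝ, A = 2 * Real.log b + ι + Real.log (L * d) / 2 := ⟨_, rfl⟩
    have hd : 1 ≤ d := by
      have h1 : 0 < Module.finrank ℚ E := Module.finrank_pos
      rw [hx.fin] at h1
      exact Nat.pos_of_mul_pos_left h1
    have hA0 : 0 ≤ A := by
      have h1 : 0 ≤ Real.log b := Real.log_nonneg (by exact_mod_cast hx.b1)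
      have h2 : 0 ≤ Real.log (L * d) := Real.log_nonneg (by
        have : 1 ≤ L * d := Nat.mul_pos hL hd
        exact_mod_cast this)
      rw [hA]
      linarith
    have hh : 0 ≤ absLogHeight₁ a := alh_nonneg a
    have hWe : W ∅ = LinearMap.ker (bz x a n L g) := by
      rw [hW]
      simp
    have hlge : ∀ V, 0 ≤ lam V := fun V => by
      rw [hlam]
      exact div_nonneg (Real.log_nonneg (vl_ge_one n L V)) (by norm_num)
    have hlt : lam ⊤ ≤ 0 := by
      rw [hlam]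
      exact div_nonpos_of_nonpos_of_nonneg
        (Real.log_nonpos (zero_le_one.trans (vl_ge_one n L ⊤)) (vl_top_le n L)) (by norm_num)
    have hft : Module.finrank ℚ (⊤ : Submodule ℚ (Fin n × Fin L → ℚ)) = n * L := by
      rw [finrank_top, Module.finrank_fintype_fun_eq_card, Fintype.card_prod, Fintype.card_fin,
        Fintype.card_fin]
    obtain ⟨r₀, hr₀⟩ : ∃ r₀ : ℕ, r₀ = n * L - Module.finrank ℚ (W ∅) := ⟨_, rfl⟩
    -- step 0
    have hs0 : lam (W ∅) ≤ r₀ * (A + 1) := by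
      obtain ⟨hq1, -, hq3, -, hq5⟩ := h𝒬 q₀ hq₀
      have h1 := mi_step hx a n L g 1 hn1 hn hL hg1 hg (Or.inl rfl)
        ((Nat.mul_le_mul_left _ (Nat.mul_le_mul_left _ hq1.one_lt.le)).trans hq3) ⊤
        (fun h => absurd rfl h)
      rw [← hlam, ← hlam, mul_one, top_inf_eq, hft, ← hWe, ← hr₀, Nat.cast_one, Real.log_one, sub_zero,
        ← hA, mul_one] at h1
      refine h1.trans ?_
      have h2 : (g * L : ℝ) * absLogHeight₁ a ≤ 1 := by
        refine le_trans ?_ hq5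
        refine mul_le_mul_of_nonneg_right ?_ hh
        have h3 : (1 : ℝ) ≤ q₀ := by exact_mod_cast hq1.one_lt.le
        have h4 : (0 : ℝ) ≤ (g : ℝ) * L := by positivity
        nlinarith
      have h3 : (r₀ : ℝ) * (A + (g * L : ℝ) * absLogHeight₁ a) ≤ r₀ * (A + 1) :=
        mul_le_mul_of_nonneg_left (by linarith) (Nat.cast_nonneg _)
      linarith
    -- steps
    have hstep : ∀ S : Finset ℕ, S ⊆ 𝒬 → lam (W S) ≤ r₀ * (A + 1) -
        ((Module.finrank ℚ (W ∅) : ℝ) - Module.finrank ℚ (W S)) * ((A + 1) / 7) := by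
      intro S
      induction S using Finset.induction_on with
      | empty =>
        intro _
        rw [sub_self, zero_mul, sub_zero]
        exact hs0
      | insert q S hq ih =>
        intro hS
        have ih1 := ih ((Finset.subset_insert q S).trans hS)
        obtain ⟨hq1, hq2, hq3, hq4, hq5⟩ := h𝒬 q (hS (Finset.mem_insert_self q S))
        have hWi : W (insert q S) = W S ⊓ LinearMap.ker (bz x a n L (g * q)) := by
          rw [hW, hW, Finset.iInf_insert, inf_assoc, inf_comm (LinearMap.ker (bz x a n L (g * q)))]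
        have h1 := mi_step hx a n L g q hn1 hn hL hg1 hg (Or.inr ⟨hq1, hq2⟩) hq3 (W S)
          (fun _ => by rw [hW]; exact inf_le_left)
        rw [← hlam, ← hlam, ← hWi, ← hA] at h1
        rw [← hA] at hq4
        have h2 : Module.finrank ℚ (W (insert q S)) ≤ Module.finrank ℚ (W S) := by
          rw [hWi]
          exact Submodule.finrank_mono inf_le_left
        rw [Nat.cast_sub h2] at h1
        have h3 : (0 : ℝ) ≤ (Module.finrank ℚ (W S) : ℝ) - Module.finrank ℚ (W (insert q S)) :=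
          sub_nonneg.2 (by exact_mod_cast h2)
        have h4 : A + (g * q * L : ℝ) * absLogHeight₁ a - Real.log q ≤ -((A + 1) / 7) := by linarith
        have h5 := mul_le_mul_of_nonneg_left h4 h3
        linarith
    have hfin := hstep 𝒬 subset_rfl
    have h1 := hlge (W 𝒬)
    have hmono : Module.finrank ℚ (W 𝒬) ≤ Module.finrank ℚ (W ∅) := by
      rw [hWe, hW]
      exact Submodule.finrank_mono inf_le_left
    have hle : Module.finrank ℚ (W ∅) ≤ n * L := by
      rw [← hft, finrank_top]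
      exact Submodule.finrank_le _
    have h2 : ((Module.finrank ℚ (W ∅) : ℝ) - Module.finrank ℚ (W 𝒬)) * (A + 1) ≤ (7 * r₀) * (A + 1) := by
      linarith
    have h3 := le_of_mul_le_mul_right h2 (by linarith)
    have h4 : Module.finrank ℚ (W ∅) ≤ 7 * r₀ + Module.finrank ℚ (W 𝒬) := by
      have h5 : (Module.finrank ℚ (W ∅) : ℝ) ≤ 7 * r₀ + Module.finrank ℚ (W 𝒬) := by linarith
      exact_mod_cast h5
    rw [← hW, ← hWe, ← hr₀]
    omega

end Pool.Agent.H36.LE
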