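import Mathlib

/-!
# THEOREM L (MP_187c26_nt), chapter N: independence under the complex embeddings, a number field containing all conjugates

PROOFS. `emb_ind`: extend `z` to a `ℚ`-basis of `E` (or: the whole matrix of a basis has nonzero determinant: `Algebra.discr_not_zero_of_basis`, `Algebra.discr_eq_det_embeddingsMatrixReindex_pow_two`; or Dedekind: the embeddings are linearly independent characters, so the `[E:ℚ] × [E:ℚ]` matrix `τ (e_j)` has
independent rows, hence it is invertible and its columns are independent); a subfamily of an independent family is independent.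
`exists_M`: `M` := the subfield of `ℂ` generated by the images of all `τ : E → ℂ` (for instance `normalClosure ℚ E ℂ`, or `adjoin ℚ` of the union of the ranges, finite dimensional). Every `τ : E → ℂ` has values in `M`, so it is `ι ∘ t`, `ι : M ⊂ ℂ`, `t : E →+* M`. The family `(τ (z_j))_τ`, `j < r`, is independent, so some
`r × r` minor of the matrix `(τ (z_j))` is not zero (rank `r`: choose `r` independent rows; see the private `ex_minor` in `Pool/Agent/H72/BE/Cova.lean`), rows `τ_i = ι ∘ t_i`. `Nat.card (F →+* M) = [F : ℚ]`: every `σ : F → ℂ` extends to `E → ℂ` (`algebraMap F E`), so it has values in `M`; composition with `ι` is a bijection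
`(F →+* M) ≃ (F →+* ℂ)` and `NumberField.Embeddings.card F ℂ`.
-/

set_option autoImplicit false

open Polynomial NumberField IntermediateField

namespace Pool.Agent.H36.LE

/-- dual elements for the trace form -/
private theorem dual_el {E : Type} [Field E] [NumberField E] {r : ℕ} (z : Fin r → E)
    (hz : LinearIndependent ℚ z) (i : Fin r) :
    ∃ y : E, ∀ j, ∑ τ : E →+* ℂ, τ y * τ (z j) = if j = i then 1 else 0 := by
  classical
  obtain ⟨g, hg⟩ := (Fintype.linearCombination ℚ z).exists_leftInverse_of_injective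
    (LinearMap.ker_eq_bot.2 (linearIndependent_iff_injective_fintypeLinearCombination.1 hz))
  refine ⟨((Algebra.traceForm ℚ E).toDual (traceForm_nondegenerate ℚ E)).symm
    ((LinearMap.proj i) ∘ₗ g), fun j => ?_⟩
  have h1 : Algebra.traceForm ℚ E (((Algebra.traceForm ℚ E).toDual
      (traceForm_nondegenerate ℚ E)).symm ((LinearMap.proj i) ∘ₗ g)) (z j) = if j = i then 1 else 0 := by
    rw [LinearMap.BilinForm.apply_toDual_symm_apply]
    have h2 : g (z j) = Pi.single j 1 := by
      have h3 := LinearMap.congr_fun hg (Pi.single j 1)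
      rw [LinearMap.comp_apply, Fintype.linearCombination_apply_single, one_smul] at h3
      exact h3
    rw [LinearMap.comp_apply, h2, LinearMap.proj_apply, Pi.single_apply]
    simp only [eq_comm]
  rw [Algebra.traceForm_apply] at h1
  have h4 := congrArg (algebraMap ℚ ℂ) h1
  rw [trace_eq_sum_embeddings ℂ] at h4
  have h5 : ∀ y : E, ∑ τ : E →+* ℂ, τ y * τ (z j) = ∑ σ : E →ₐ[ℚ] ℂ, σ (y * z j) := by
    intro y
    refine Fintype.sum_equiv (RingHom.equivRatAlgHom E ℂ) _ _ fun τ => ?_
    rw [map_mul]
    rfl
  rw [h5, h4]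
  split_ifs <;> simp

theorem emb_ind {E : Type} [Field E] [NumberField E] {r : ℕ} (z : Fin r → E)
    (hz : LinearIndependent ℚ z) :
    LinearIndependent ℂ (fun j => (fun τ : E →+* ℂ => τ (z j))) := by
  classical
  rw [Fintype.linearIndependent_iff]
  intro c hc i
  obtain ⟨y, hy⟩ := dual_el z hz i
  have h1 : ∑ τ : E →+* ℂ, τ y * (∑ j, c j * τ (z j)) = c i := by
    have h2 : ∀ τ : E →+* ℂ, τ y * (∑ j, c j * τ (z j)) = ∑ j, c j * (τ y * τ (z j)) := by
      intro τ
      rw [Finset.mul_sum]
      exact Finset.sum_congr rfl fun j _ => by ring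
    rw [Finset.sum_congr rfl fun τ _ => h2 τ, Finset.sum_comm]
    have h3 : ∀ j, ∑ τ : E →+* ℂ, c j * (τ y * τ (z j)) = if j = i then c j else 0 := by
      intro j
      rw [← Finset.mul_sum, hy j]
      split_ifs <;> simp
    rw [Finset.sum_congr rfl fun j _ => h3 j, Finset.sum_ite_eq' Finset.univ i c,
      if_pos (Finset.mem_univ i)]
  rw [← h1]
  refine Finset.sum_eq_zero fun τ _ => ?_
  have h4 := congrFun hc τ
  rw [Finset.sum_apply] at h4
  have h5 : ∑ j, c j * τ (z j) = 0 := h4
  rw [h5, mul_zero]

private theorem ex_minor {F κ Ξ : Type} [Field F] [Fintype κ] [DecidableEq κ] [Fintype Ξ]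
    (M : Matrix κ Ξ F) (h : LinearIndependent F M.row) :
    ∃ J : κ → Ξ, (M.submatrix id J).det ≠ 0 := by
  classical
  have hr := h.rank_matrix
  rw [Matrix.rank_eq_finrank_span_cols] at hr
  obtain ⟨ι, a, ha, hsp, hli⟩ := exists_linearIndependent' F M.col
  have hfi : Finite ι := Finite.of_injective a ha
  have _ : Fintype ι := Fintype.ofFinite ι
  have h1 := finrank_span_eq_card hli
  rw [hsp, hr] at h1
  let e : κ ≃ ι := Fintype.equivOfCardEq h1
  refine ⟨a ∘ e, ?_⟩
  have h2 : LinearIndependent F (M.submatrix id (a ∘ e)).col := hli.comp e e.injective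
  rw [Matrix.linearIndependent_cols_iff_isUnit, Matrix.isUnit_iff_isUnit_det] at h2
  exact h2.ne_zero

/-- every embedding of a subfield extends -/
private theorem extd (F E : Type) [Field F] [NumberField F] [Field E] [NumberField E] [Algebra F E]
    (σ : F →+* ℂ) : ∃ τ : E →+* ℂ, ∀ x, τ (algebraMap F E x) = σ x := by
  have : Module.Finite F E := Module.Finite.of_restrictScalars_finite ℚ F E
  have : Algebra.IsAlgebraic F E := Algebra.IsAlgebraic.of_finite F E
  let _ : Algebra F ℂ := σ.toAlgebra
  exact ⟨(IsAlgClosed.lift : E →ₐ[F] ℂ).toRingHom, fun x => (IsAlgClosed.lift : E →ₐ[F] ℂ).commutes x⟩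

theorem exists_M (F E : Type) [Field F] [NumberField F] [Field E] [NumberField E] [Algebra F E] :
    ∃ (M : Type) (_ : Field M) (_ : NumberField M), Nat.card (F →+* M) = Module.finrank ℚ F ∧
      ∀ (r : ℕ) (z : Fin r → E), LinearIndependent ℚ z →
        ∃ t : Fin r → (E →+* M), (Matrix.of fun i j => t i (z j)).det ≠ 0 := by
  classical
  have hmem : ∀ (τ : E →+* ℂ) (x : E), τ x ∈ normalClosure ℚ E ℂ := fun τ x =>
    τ.toRatAlgHom.fieldRange_le_normalClosure ⟨x, rfl⟩
  refine ⟨normalClosure ℚ E ℂ, inferInstance, ⟨⟩, ?_, fun r z hz => ?_⟩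
  · have hb : Function.Bijective (fun (σ : F →+* (normalClosure ℚ E ℂ : IntermediateField ℚ ℂ)) =>
        ((normalClosure ℚ E ℂ).val.toRingHom.comp σ : F →+* ℂ)) := by
      constructor
      · intro σ σ' h
        ext x
        exact RingHom.congr_fun h x
      · intro σ
        obtain ⟨τ, hτ⟩ := extd F E σ
        refine ⟨σ.codRestrict (normalClosure ℚ E ℂ) fun x => ?_, ?_⟩
        · rw [← hτ]
          exact hmem τ _
        · ext x
          rfl
    rw [Nat.card_eq_of_bijective _ hb, Nat.card_eq_fintype_card, NumberField.Embeddings.card]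
  · obtain ⟨J, hJ⟩ := ex_minor (Matrix.of fun (j : Fin r) (τ : E →+* ℂ) => τ (z j)) (emb_ind z hz)
    refine ⟨fun i => (J i).codRestrict (normalClosure ℚ E ℂ) fun x => hmem (J i) x, fun h0 => hJ ?_⟩
    have h1 := congrArg (normalClosure ℚ E ℂ).val.toRingHom h0
    rw [RingHom.map_det, map_zero] at h1
    rw [← Matrix.det_transpose, ← h1]
    rfl

end Pool.Agent.H36.LE
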