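import Pool.Agent.H36.LE.GdC
import Pool.Agent.H4.RR.AbsHeight
import Pool.Agent.H72.BE.Fin

/-!
# THEOREM L (MP_187c26_nt), chapter N: lower bound of the Gram determinant by one minor and all its conjugates

Imports `GdC` (`gd_minor`, may be sorried), the height formula `Pool.Agent.H4.RR.absLogHeight_eq`, the product formula `Pool.Agent.H72.BE.prod_formula` (`∏_σ ‖σ y‖ * ∏ᶠ_v v y = 1`).
PROOFS. `v_det_le`: `det = ∑ ± ∏`, `v` is nonarchimedean (`FinitePlace.add_le`), `v` of a product is the product.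
`gd_ph_ge`: `δ := det (t_i (z_j))`, `h := absLogHeight₁ a`. For every `σ : M →+* ℂ` let `J i := σ ∘ t_i : E →+* ℂ`: `gd_minor` gives `‖det (ph (z_j)_(J i))‖^2 ≤ gd`, and `ph (z_j)_(J i) = σ(t_i z_j) wt a K (J i) / √m`, so `gd ≥ m^(-r) ‖σ δ‖^2 ∏_i max(1, ‖σ (t_i a)‖)^(-2K)`
(determinant with the rows scaled: `Matrix.det_mul_column`/`det_mul_row`; transpose). Multiply over all `N = [M : ℚ]` embeddings `σ`: `gd^N ≥ m^(-rN) (∏_σ ‖σ δ‖)^2 ∏_i (∏_σ max(1, ‖σ(t_i a)‖))^(-2K)`. Product formula: `∏_σ ‖σ δ‖ = (∏ᶠ_v v δ)^(-1)`; by `hv` (all factors positive, finite supports: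
`FinitePlace.hasFiniteMulSupport` for `δ`, `D`; `max 1 (v (t_i a))` is `1` for almost all `v`) `∏ᶠ_v v δ ≤ ∏ᶠ_v v D * ∏_i (∏ᶠ_v max(1, v(t_i a)))^K`, and `∏ᶠ_v v D = (∏_σ ‖σ D‖)^(-1) = A^(-N)`. So `gd^N ≥ m^(-rN) A^(2N) ∏_i (∏_σ max(1, ‖σ(t_i a)‖) ∏ᶠ_v max(1, v(t_i a)))^(-2K)` and each factor
is `mulHeight₁ (t_i a) = exp (N h)` (`Height.mulHeight₁`, `logHeight₁`, Mathlib `NumberTheory/Height/NumberField.lean`; `absLogHeight₁ (a) = absLogHeight₁ (t_i a) = logHeight₁ (t_i a)/N` by `absLogHeight_eq E M t_i a`, `absLogHeight_eq E E id`, `absLogHeight_eq M M id (t_i a)`; the product over infinite places with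
multiplicity is the product over the embeddings as in `prod_formula`). Take `N`-th roots.
-/

set_option autoImplicit false

open Polynomial NumberField IntermediateField

namespace Pool.Agent.H36.LE

private theorem v_neg {M : Type} [Field M] [NumberField M] (v : FinitePlace M) (x : M) :
    v (-x) = v x := map_neg_eq_map v x

private theorem v_sum_le {M : Type} [Field M] [NumberField M] (v : FinitePlace M) {ι : Type}
    (s : Finset ι) (f : ι → M) (C : ℝ) (hC : 0 ≤ C) (h : ∀ i ∈ s, v (f i) ≤ C) :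
    v (∑ i ∈ s, f i) ≤ C := by
  classical
  induction s using Finset.induction_on with
  | empty => rw [Finset.sum_empty, map_zero]; exact hC
  | insert a s ha ih =>
    rw [Finset.sum_insert ha]
    exact (FinitePlace.add_le v _ _).trans (max_le (h a (Finset.mem_insert_self _ _))
      (ih fun i hi => h i (Finset.mem_insert_of_mem hi)))

theorem v_det_le {M : Type} [Field M] [NumberField M] (v : FinitePlace M) {κ : Type} [Fintype κ]
    [DecidableEq κ] (A : Matrix κ κ M) (B : κ → ℝ) (hB : ∀ i j, v (A i j) ≤ B i) :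
    v A.det ≤ ∏ i, B i := by
  have hB0 : ∀ i, 0 ≤ B i := fun i => (apply_nonneg v (A i i)).trans (hB i i)
  rw [Matrix.det_apply]
  refine v_sum_le v _ _ _ (Finset.prod_nonneg fun i _ => hB0 i) fun σ _ => ?_
  have h1 : v (Equiv.Perm.sign σ • ∏ i, A (σ i) i) = v (∏ i, A (σ i) i) := by
    rcases Int.units_eq_one_or (Equiv.Perm.sign σ) with h | h
    · rw [h, one_smul]
    · rw [h, Units.neg_smul, one_smul, v_neg]
  rw [h1, map_prod, ← Equiv.prod_comp σ B]
  exact Finset.prod_le_prod (fun i _ => apply_nonneg v _) fun i _ => hB _ _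

section aux

variable {M : Type} [Field M] [NumberField M]

private theorem sup_max (y : M) :
    (Function.mulSupport fun v : FinitePlace M => max 1 (v y)).Finite := by
  by_cases hy : y = 0
  · have h1 : (Function.mulSupport fun v : FinitePlace M => max 1 (v y)) = ∅ := by
      rw [Function.mulSupport_eq_empty_iff]
      funext v
      rw [hy, map_zero, max_eq_left zero_le_one]
      rfl
    rw [h1]
    exact Set.finite_empty
  · refine (FinitePlace.hasFiniteMulSupport hy).subset fun v hv => ?_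
    by_contra h1
    apply hv
    rw [Function.notMem_mulSupport] at h1
    change max 1 (v y) = 1
    rw [h1, max_self]

private theorem mh (y : M) : (∏ σ : M →+* ℂ, max 1 ‖σ y‖) * ∏ᶠ v : FinitePlace M, max 1 (v y) =
    Height.mulHeight₁ y := by
  rw [NumberField.mulHeight₁_eq]
  congr 1
  · classical
    rw [← Finset.prod_fiberwise Finset.univ InfinitePlace.mk (fun φ : M →+* ℂ => max 1 ‖φ y‖)]
    refine Finset.prod_congr rfl fun w _ => ?_
    have h2 : ∀ φ ∈ Finset.univ.filter (fun φ : M →+* ℂ => InfinitePlace.mk φ = w),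
        max 1 ‖φ y‖ = max (w y) 1 := by
      intro φ hφ
      rw [← (Finset.mem_filter.mp hφ).2, InfinitePlace.apply, max_comm]
    rw [Finset.prod_congr rfl h2, Finset.prod_const, InfinitePlace.card_filter_mk_eq]
  · exact finprod_congr fun v => max_comm _ _

private theorem mh_exp {E : Type} [Field E] [NumberField E] (t : E →+* M) (a : E) :
    Height.mulHeight₁ (t a) = Real.exp (Module.finrank ℚ M * absLogHeight₁ a) := by
  have h1 := Pool.Agent.H4.RR.absLogHeight_eq E M t a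
  have h2 := Pool.Agent.H4.RR.absLogHeight_eq E E (RingHom.id E) a
  have h3 := Pool.Agent.H4.RR.absLogHeight_eq M M (RingHom.id M) (t a)
  rw [RingHom.id_apply] at h2 h3
  have hN : (Module.finrank ℚ M : ℝ) ≠ 0 := by
    have := Module.finrank_pos (R := ℚ) (M := M)
    positivity
  have h4 : Height.logHeight₁ (t a) = Module.finrank ℚ M * absLogHeight₁ a := by
    rw [h2, ← h1, h3]
    field_simp
  rw [← h4, Height.logHeight₁_eq_log_mulHeight₁, Real.exp_log (Height.mulHeight₁_pos _)]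

/-- the local estimates imply a lower bound of the archimedean product -/
private theorem arch_ge {r K : ℕ} (δ D : M) (hδ : δ ≠ 0) (hD : D ≠ 0) (a : Fin r → M)
    (hv : ∀ v : FinitePlace M, v δ ≤ v D * ∏ i, max 1 (v (a i)) ^ K) :
    (∏ σ : M →+* ℂ, ‖σ D‖) * ∏ i, ((∏ᶠ v : FinitePlace M, max 1 (v (a i))) ^ K)⁻¹ ≤
      ∏ σ : M →+* ℂ, ‖σ δ‖ := by
  classical
  have f1 : (Function.mulSupport fun v : FinitePlace M => v δ).Finite :=
    FinitePlace.hasFiniteMulSupport hδ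
  have f2 : (Function.mulSupport fun v : FinitePlace M => v D).Finite :=
    FinitePlace.hasFiniteMulSupport hD
  have f3 : (⋃ i, Function.mulSupport fun v : FinitePlace M => max 1 (v (a i))).Finite :=
    Set.finite_iUnion fun i => sup_max (a i)
  obtain ⟨T, hT⟩ : ∃ T : Finset (FinitePlace M), (T : Set (FinitePlace M)) =
      (Function.mulSupport fun v : FinitePlace M => v δ) ∪
      (Function.mulSupport fun v : FinitePlace M => v D) ∪
      ⋃ i, Function.mulSupport fun v : FinitePlace M => max 1 (v (a i)) :=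
    ⟨((f1.union f2).union f3).toFinset, Set.Finite.coe_toFinset _⟩
  have g1 : ∏ᶠ v : FinitePlace M, v δ = ∏ v ∈ T, v δ :=
    finprod_eq_prod_of_mulSupport_subset _ (by
      rw [hT]; exact fun v hv => Or.inl (Or.inl hv))
  have g2 : ∏ᶠ v : FinitePlace M, v D = ∏ v ∈ T, v D :=
    finprod_eq_prod_of_mulSupport_subset _ (by
      rw [hT]; exact fun v hv => Or.inl (Or.inr hv))
  have g3 : ∀ i, ∏ᶠ v : FinitePlace M, max 1 (v (a i)) = ∏ v ∈ T, max 1 (v (a i)) := fun i =>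
    finprod_eq_prod_of_mulSupport_subset _ (by
      rw [hT]; exact fun v hv => Or.inr (Set.mem_iUnion.2 ⟨i, hv⟩))
  have p1 := H72.BE.prod_formula δ hδ
  have p2 := H72.BE.prod_formula D hD
  rw [g1] at p1
  rw [g2] at p2
  have q1 : ∏ v ∈ T, v δ ≤ (∏ v ∈ T, v D) * ∏ i, (∏ v ∈ T, max 1 (v (a i))) ^ K := by
    calc ∏ v ∈ T, v δ ≤ ∏ v ∈ T, (v D * ∏ i, max 1 (v (a i)) ^ K) :=
          Finset.prod_le_prod (fun v _ => apply_nonneg v _) fun v _ => hv v
      _ = (∏ v ∈ T, v D) * ∏ i, (∏ v ∈ T, max 1 (v (a i))) ^ K := by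
          rw [Finset.prod_mul_distrib, Finset.prod_comm]
          congr 1
          exact Finset.prod_congr rfl fun i _ => Finset.prod_pow _ _ _
  have e1 : ∏ i, ((∏ᶠ v : FinitePlace M, max 1 (v (a i))) ^ K)⁻¹ =
      (∏ i, (∏ v ∈ T, max 1 (v (a i))) ^ K)⁻¹ := by
    rw [← Finset.prod_inv_distrib]
    exact Finset.prod_congr rfl fun i _ => by rw [g3]
  rw [e1]
  have pos1 : 0 < ∏ v ∈ T, v δ := Finset.prod_pos fun v _ => FinitePlace.pos_iff.2 hδ
  have pos2 : 0 < ∏ v ∈ T, v D := Finset.prod_pos fun v _ => FinitePlace.pos_iff.2 hD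
  have pos3 : 0 < ∏ i, (∏ v ∈ T, max 1 (v (a i))) ^ K :=
    Finset.prod_pos fun i _ => pow_pos (Finset.prod_pos fun v _ => by positivity) _
  have s1 : (∏ σ : M →+* ℂ, ‖σ δ‖) = (∏ v ∈ T, v δ)⁻¹ := eq_inv_of_mul_eq_one_left p1
  have s2 : (∏ σ : M →+* ℂ, ‖σ D‖) = (∏ v ∈ T, v D)⁻¹ := eq_inv_of_mul_eq_one_left p2
  rw [s1, s2, ← mul_inv]
  exact inv_anti₀ pos1 q1

end aux

/-- the estimate for one embedding -/
private theorem one_emb {E : Type} [Field E] [NumberField E] (m K : ℕ) (a : E) {r : ℕ}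
    (z : Fin r → E) {M : Type} [Field M] [NumberField M] (t : Fin r → (E →+* M)) (σ : M →+* ℂ) :
    ((m : ℝ) ^ r)⁻¹ * ‖σ (Matrix.of fun i j => t i (z j)).det‖ ^ 2 *
      ∏ i, ((max 1 ‖σ (t i a)‖ ^ K)⁻¹) ^ 2 ≤ gd (fun j => ph m a K (z j)) := by
  classical
  have h1 := gd_minor (fun j => ph m a K (z j)) (fun i => σ.comp (t i))
  refine le_trans (le_of_eq ?_) h1
  have h2 : (Matrix.of fun i k => (ph m a K (z i)) (σ.comp (t k))) =
      Matrix.of fun i k => ((wt a K (σ.comp (t k)) / Real.sqrt m : ℝ) : ℂ) *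
        ((Matrix.of fun i k => σ (t k (z i))) i k) := by
    ext i k
    rw [Matrix.of_apply, Matrix.of_apply, Matrix.of_apply, mul_comm]
    rfl
  have h3 : (Matrix.of fun i k => σ (t k (z i))).det = σ (Matrix.of fun i j => t i (z j)).det := by
    rw [RingHom.map_det, ← Matrix.det_transpose]
    rfl
  rw [h2, Matrix.det_mul_row, h3, norm_mul, mul_pow, norm_prod, ← Finset.prod_pow]
  have h4 : ∀ i, ‖((wt a K (σ.comp (t i)) / Real.sqrt m : ℝ) : ℂ)‖ ^ 2 =
      (m : ℝ)⁻¹ * ((max 1 ‖σ (t i a)‖ ^ K)⁻¹) ^ 2 := by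
    intro i
    rw [Complex.norm_real, Real.norm_eq_abs, sq_abs, div_pow, Real.sq_sqrt (Nat.cast_nonneg _)]
    unfold wt
    rw [RingHom.comp_apply, div_eq_mul_inv, mul_comm]
  rw [Finset.prod_congr rfl fun i _ => h4 i, Finset.prod_mul_distrib, Finset.prod_const,
    Finset.card_univ, Fintype.card_fin, inv_pow]
  ring

theorem gd_ph_ge {E : Type} [Field E] [NumberField E] (m K : ℕ) (hm : 1 ≤ m) (a : E) {r : ℕ}
    (z : Fin r → E) {M : Type} [Field M] [NumberField M] (t : Fin r → (E →+* M)) (D : M) (A : ℝ)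
    (hA : 0 < A) (hD : ∀ σ : M →+* ℂ, ‖σ D‖ = A)
    (hδ : (Matrix.of fun i j => t i (z j)).det ≠ 0)
    (hv : ∀ v : FinitePlace M, v (Matrix.of fun i j => t i (z j)).det ≤
      v D * ∏ i, max 1 (v (t i a)) ^ K) :
    A ^ 2 * ((m : ℝ) ^ r)⁻¹ * Real.exp (-(2 * K * r * absLogHeight₁ a)) ≤
      gd (fun j => ph m a K (z j)) := by
  classical
  obtain ⟨δ, hδ'⟩ : ∃ δ : M, δ = (Matrix.of fun i j => t i (z j)).det := ⟨_, rfl⟩
  rw [← hδ'] at hδ hv
  obtain ⟨N, hN⟩ : ∃ N : ℕ, N = Module.finrank ℚ M := ⟨_, rfl⟩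
  have hN0 : N ≠ 0 := by
    rw [hN]
    exact (Module.finrank_pos (R := ℚ) (M := M)).ne'
  have hcard : Fintype.card (M →+* ℂ) = N := by
    rw [hN]
    exact NumberField.Embeddings.card M ℂ
  have hD0 : D ≠ 0 := by
    rintro rfl
    have h1 : Nonempty (M →+* ℂ) := Fintype.card_pos_iff.1 (by rw [hcard]; exact Nat.pos_of_ne_zero hN0)
    obtain ⟨σ⟩ := h1
    have h2 := hD σ
    rw [map_zero, norm_zero] at h2
    exact hA.ne h2
  have hm0 : (0 : ℝ) < m := by exact_mod_cast hm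
  have key := arch_ge δ D hδ hD0 (fun i => t i a) hv
  rw [Finset.prod_congr rfl fun σ _ => hD σ, Finset.prod_const, Finset.card_univ, hcard] at key
  -- the product of all embeddings
  have h1 : (∏ σ : M →+* ℂ, (((m : ℝ) ^ r)⁻¹ * ‖σ δ‖ ^ 2 * ∏ i, ((max 1 ‖σ (t i a)‖ ^ K)⁻¹) ^ 2)) ≤
      gd (fun j => ph m a K (z j)) ^ N := by
    rw [← hcard, ← Finset.card_univ, ← Finset.prod_const]
    refine Finset.prod_le_prod (fun σ _ => by positivity) fun σ _ => ?_
    rw [hδ']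
    exact one_emb m K a z t σ
  have h2 : (∏ σ : M →+* ℂ, (((m : ℝ) ^ r)⁻¹ * ‖σ δ‖ ^ 2 * ∏ i, ((max 1 ‖σ (t i a)‖ ^ K)⁻¹) ^ 2)) =
      (((m : ℝ) ^ r)⁻¹) ^ N * (∏ σ : M →+* ℂ, ‖σ δ‖) ^ 2 *
        ∏ i, (((∏ σ : M →+* ℂ, max 1 ‖σ (t i a)‖) ^ K)⁻¹) ^ 2 := by
    rw [Finset.prod_mul_distrib, Finset.prod_mul_distrib, Finset.prod_const, Finset.card_univ, hcard,
      Finset.prod_pow, Finset.prod_comm]
    congr 1
    refine Finset.prod_congr rfl fun i _ => ?_
    rw [Finset.prod_pow, Finset.prod_inv_distrib, Finset.prod_pow]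
  rw [h2] at h1
  have h3 : (A ^ N * ∏ i, ((∏ᶠ v : FinitePlace M, max 1 (v (t i a))) ^ K)⁻¹) ^ 2 ≤
      (∏ σ : M →+* ℂ, ‖σ δ‖) ^ 2 := by
    refine pow_le_pow_left₀ (mul_nonneg (pow_nonneg hA.le _) (Finset.prod_nonneg fun i _ => ?_)) key 2
    exact inv_nonneg.2 (pow_nonneg (finprod_nonneg fun v => by positivity) _)
  have h4 : (((m : ℝ) ^ r)⁻¹) ^ N * (A ^ N * ∏ i, ((∏ᶠ v : FinitePlace M, max 1 (v (t i a))) ^ K)⁻¹) ^ 2 *
      ∏ i, (((∏ σ : M →+* ℂ, max 1 ‖σ (t i a)‖) ^ K)⁻¹) ^ 2 ≤ gd (fun j => ph m a K (z j)) ^ N := by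
    refine le_trans ?_ h1
    refine mul_le_mul_of_nonneg_right (mul_le_mul_of_nonneg_left h3 (by positivity))
      (Finset.prod_nonneg fun i _ => sq_nonneg _)
  have h5 : (((m : ℝ) ^ r)⁻¹) ^ N * (A ^ N * ∏ i, ((∏ᶠ v : FinitePlace M, max 1 (v (t i a))) ^ K)⁻¹) ^ 2 *
      ∏ i, (((∏ σ : M →+* ℂ, max 1 ‖σ (t i a)‖) ^ K)⁻¹) ^ 2 =
      (A ^ 2 * ((m : ℝ) ^ r)⁻¹ * Real.exp (-(2 * K * r * absLogHeight₁ a))) ^ N := by
    have h6 : ∀ i, ((((∏ᶠ v : FinitePlace M, max 1 (v (t i a))) ^ K)⁻¹) ^ 2) *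
        (((∏ σ : M →+* ℂ, max 1 ‖σ (t i a)‖) ^ K)⁻¹) ^ 2 =
        Real.exp (-(2 * K * (N * absLogHeight₁ a))) := by
      intro i
      rw [← mul_pow, ← mul_inv, ← mul_pow, mul_comm (∏ᶠ v : FinitePlace M, max 1 (v (t i a))), mh, mh_exp,
        ← hN, ← Real.exp_nat_mul, ← Real.exp_neg, ← Real.exp_nat_mul]
      congr 1
      push_cast
      ring
    rw [mul_pow (A ^ N), ← Finset.prod_pow]
    calc _ = (((m : ℝ) ^ r)⁻¹) ^ N * (A ^ N) ^ 2 *
          ∏ i : Fin r, ((((∏ᶠ v : FinitePlace M, max 1 (v (t i a))) ^ K)⁻¹) ^ 2 *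
            (((∏ σ : M →+* ℂ, max 1 ‖σ (t i a)‖) ^ K)⁻¹) ^ 2) := by
          rw [Finset.prod_mul_distrib]
          ring
      _ = _ := by
          rw [Finset.prod_congr rfl fun i _ => h6 i, Finset.prod_const, Finset.card_univ,
            Fintype.card_fin, ← Real.exp_nat_mul, mul_pow, mul_pow, ← Real.exp_nat_mul]
          have e1 : (r : ℝ) * -(2 * K * (N * absLogHeight₁ a)) =
              (N : ℝ) * -(2 * K * r * absLogHeight₁ a) := by ring
          rw [e1]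
          ring
  rw [h5] at h4
  refine le_of_pow_le_pow_left₀ hN0 (gd_nonneg _) h4

end Pool.Agent.H36.LE
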