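import Pool.Agent.H36.LE.PbC

/-!
# THEOREM L (MP_187c26_nt), step C: degrees

`T` transcendental over `k`, `G ∈ k[X][Y]` irreducible of positive degree in `Y`, `G(T, θ) = 0`.
PROOFS. `relfin_irred`: `K := k⟮T⟯`; `k[X] → K`, `X ↦ T` is injective and `K` is its fraction field (`T` transcendental: `Algebra.adjoin k {T} ≃ k[X]` and `IntermediateField.adjoin` is the fraction field of `Algebra.adjoin`; or use
`RatFunc`: `IsFractionRing k[X] K`, e.g. `IntermediateField.algebraAdjoinAdjoin.instIsFractionRing`-type instance). By Gauss's lemma `G` is irreducible in `K[Y]` (`Polynomial.IsPrimitive.irreducible_iff_irreducible_map_fraction_map`; `G` is primitive because it is irreducible of positive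
degree: `Irreducible.isPrimitive`), `θ` is a root, so `[K(θ) : K] = natDegree G` (minimal polynomial up to a unit: `minpoly.eq_of_irreducible`, `adjoin.finrank`). `adjoin k {T, θ}` is `K(θ)` restricted to `k` (`IntermediateField.adjoin_adjoin_left`/`restrictScalars`,
`extendScalars`; `relfinrank_eq_finrank_of_le`).
`relfin_pow`: `relfin_irred` for `T^l` in the place of `T`, `θ := T`, `G := Y^l - C X`: irreducible (`Polynomial.X_pow_sub_C`: Eisenstein at the prime `X` of `k[X]`, or linear in `X`: a linear polynomial in `X` (swap) which is primitive),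
`natDegree = l`, and `adjoin k {T^l, T} = k⟮T⟯`.
`tower`: `k(T^l) ≤ k(T^l, θ^l) ≤ k(T, θ)` and `k(T^l) ≤ k(T) ≤ k(T, θ)`: `relfinrank k⟮T^l⟯ (k(T,θ))` computed in two ways (`relfinrank_mul_relfinrank`): `natDegree H * relfinrank (k(T^l, θ^l)) (k(T, θ)) = l * natDegree G`
(`relfin_irred` for `(T^l, θ^l, H)`; `T^l` is transcendental).
-/

set_option autoImplicit false

open Polynomial NumberField IntermediateField
open scoped Polynomial.Bivariate

namespace Pool.Agent.H36.LE

variable {k Ω : Type} [Field k] [Field Ω] [Algebra k Ω]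

/-- The embedding `k[X] → k(T)`, `X ↦ T`. -/
private noncomputable def emb (T : Ω) : k[X] →+* k⟮T⟯ :=
  (aeval (R := k) (AdjoinSimple.gen k T)).toRingHom

private theorem emb_coe (T : Ω) (f : k[X]) : ((emb T f : k⟮T⟯) : Ω) = aeval T f := by
  have h : (k⟮T⟯).val (aeval (AdjoinSimple.gen k T) f) = aeval ((k⟮T⟯).val (AdjoinSimple.gen k T)) f :=
    (aeval_algHom_apply _ _ _).symm
  simpa [emb] using h

private theorem emb_inj (T : Ω) (hT : Transcendental k T) : Function.Injective (emb (k := k) T) := by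
  intro f g h
  have h1 : aeval T f = aeval T g := by rw [← emb_coe, ← emb_coe, h]
  exact (transcendental_iff_injective.mp hT) h1

private theorem map_irred (T : Ω) (hT : Transcendental k T) (G : k[X][Y]) (hG : Irreducible G)
    (h1 : 1 ≤ G.natDegree) : Irreducible (G.map (emb (k := k) T)) := by
  let _ : Algebra k[X] k⟮T⟯ := (emb (k := k) T).toAlgebra
  have : FaithfulSMul k[X] k⟮T⟯ :=
    (faithfulSMul_iff_algebraMap_injective k[X] k⟮T⟯).mpr (emb_inj T hT)
  have : IsFractionRing k[X] k⟮T⟯ := by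
    refine IsFractionRing.of_field _ _ fun z => ?_
    obtain ⟨r, s, hrs⟩ := (mem_adjoin_simple_iff k (z : Ω)).mp z.2
    refine ⟨r, s, Subtype.ext ?_⟩
    rw [hrs]
    change _ = (((emb T r : k⟮T⟯) / (emb T s : k⟮T⟯) : k⟮T⟯) : Ω)
    rw [IntermediateField.coe_div, emb_coe, emb_coe]
  exact ((hG.isPrimitive (by omega)).irreducible_iff_irreducible_map_fraction_map
    (K := k⟮T⟯)).mp hG

private theorem map_eval (T θ : Ω) (G : k[X][Y]) :
    aeval (R := k⟮T⟯) θ (G.map (emb (k := k) T)) = aevalAeval (R := k) T θ G := by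
  have h : ((aeval (R := k⟮T⟯) θ).toRingHom.comp (mapRingHom (emb (k := k) T))) =
      (aevalAeval (R := k) T θ).toRingHom := by
    refine Polynomial.ringHom_ext (fun a => ?_) ?_
    · change aeval θ ((C a).map (emb T)) = aevalAeval T θ (C a)
      rw [map_C, aeval_C, aevalAeval_C]
      exact emb_coe T a
    · change aeval θ ((X : k[X][Y]).map (emb T)) = aevalAeval T θ (X : k[X][Y])
      rw [map_X, aeval_X, aevalAeval_Y]
  exact congrArg (fun f : k[X][Y] →+* Ω => f G) h

theorem relfin_irred (T θ : Ω) (hT : Transcendental k T) (G : k[X][Y]) (hG : Irreducible G)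
    (h1 : 1 ≤ G.natDegree) (h0 : aevalAeval (R := k) T θ G = 0) :
    relfinrank k⟮T⟯ (adjoin k {T, θ}) = G.natDegree := by
  have hle : k⟮T⟯ ≤ adjoin k {T, θ} := adjoin.mono k _ _ (by simp)
  have hirr := map_irred T hT G hG h1
  have hroot : aeval (R := k⟮T⟯) θ (G.map (emb (k := k) T)) = 0 := by rw [map_eval, h0]
  have hint : IsIntegral k⟮T⟯ θ := by
    rw [← isAlgebraic_iff_isIntegral]
    exact ⟨_, hirr.ne_zero, hroot⟩
  have hmin := minpoly.eq_of_irreducible hirr hroot
  rw [relfinrank_eq_finrank_of_le hle, extendScalars_adjoin hle]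
  have h2 : (adjoin k⟮T⟯ ({T, θ} : Set Ω)) = k⟮T⟯⟮θ⟯ := by
    apply le_antisymm
    · rw [adjoin_le_iff]
      rintro x hx
      rcases hx with rfl | hx
      · exact (k⟮x⟯⟮θ⟯).algebraMap_mem (AdjoinSimple.gen k x)
      · rw [Set.mem_singleton_iff.mp hx]
        exact mem_adjoin_simple_self _ _
    · exact adjoin.mono _ _ _ (by simp)
  rw [h2, adjoin.finrank hint, ← hmin]
  have hlc : (G.map (emb (k := k) T)).leadingCoeff⁻¹ ≠ 0 :=
    inv_ne_zero (leadingCoeff_ne_zero.mpr hirr.ne_zero)
  rw [natDegree_mul_C hlc, natDegree_map_eq_of_injective (emb_inj T hT)]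

theorem relfin_pow (T : Ω) (hT : Transcendental k T) (l : ℕ) (hl : 1 ≤ l) :
    relfinrank k⟮T ^ l⟯ k⟮T⟯ = l := by
  have hd : ((X : k[X][Y]) ^ l - C (X : k[X])).natDegree = l := natDegree_X_pow_sub_C
  have hmon : ((X : k[X][Y]) ^ l - C (X : k[X])).Monic := monic_X_pow_sub_C _ (by omega)
  have hprime : Prime (X : k[X]) := prime_X
  have hirr : Irreducible ((X : k[X][Y]) ^ l - C (X : k[X])) := by
    refine irreducible_of_eisenstein_criterion (P := Ideal.span {(X : k[X])})
      ((Ideal.span_singleton_prime X_ne_zero).mpr hprime) ?_ ?_ ?_ ?_ hmon.isPrimitive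
    · rw [hmon.leadingCoeff, ← Ideal.eq_top_iff_one]
      exact ((Ideal.span_singleton_prime X_ne_zero).mpr hprime).ne_top
    · intro n hn
      have hn2 : n < l := by
        rw [degree_X_pow_sub_C (by omega)] at hn
        exact_mod_cast hn
      rw [coeff_sub, coeff_X_pow, if_neg (by omega), coeff_C, zero_sub]
      split_ifs
      · exact neg_mem (Ideal.mem_span_singleton_self _)
      · simp
    · rw [degree_X_pow_sub_C (by omega)]
      exact_mod_cast hl
    · rw [coeff_sub, coeff_X_pow, if_neg (by omega), coeff_C_zero, zero_sub, neg_mem_iff,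
        Ideal.span_singleton_pow, Ideal.mem_span_singleton]
      intro hdvd
      have h3 : (X : k[X]) * X ∣ X * 1 := by rwa [mul_one, ← pow_two]
      exact hprime.not_isUnit (isUnit_of_dvd_one ((mul_dvd_mul_iff_left X_ne_zero).mp h3))
  have h0 : aevalAeval (R := k) (T ^ l) T ((X : k[X][Y]) ^ l - C (X : k[X])) = 0 := by
    rw [map_sub, map_pow, aevalAeval_Y, aevalAeval_C, aeval_X, sub_self]
  have h := relfin_irred (T ^ l) T (hT.pow (by omega)) _ hirr (by omega) h0
  rw [hd] at h
  have h4 : adjoin k ({T ^ l, T} : Set Ω) = k⟮T⟯ := by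
    apply le_antisymm
    · rw [adjoin_le_iff]
      rintro x hx
      rcases hx with rfl | hx
      · exact pow_mem (mem_adjoin_simple_self k T) l
      · rw [Set.mem_singleton_iff.mp hx]
        exact mem_adjoin_simple_self _ _
    · exact adjoin.mono _ _ _ (by simp)
  rw [h4] at h
  exact h

theorem tower (T θ : Ω) (hT : Transcendental k T) (G : k[X][Y]) (hG : Irreducible G)
    (h1 : 1 ≤ G.natDegree) (h0 : aevalAeval (R := k) T θ G = 0) (l : ℕ) (hl : 1 ≤ l)
    (H : k[X][Y]) (hH : Irreducible H) (hH1 : 1 ≤ H.natDegree)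
    (hH0 : aevalAeval (R := k) (T ^ l) (θ ^ l) H = 0) :
    relfinrank (adjoin k {T ^ l, θ ^ l}) (adjoin k {T, θ}) * H.natDegree = l * G.natDegree := by
  have e1 : k⟮T ^ l⟯ ≤ adjoin k {T ^ l, θ ^ l} := adjoin.mono k _ _ (by simp)
  have e2 : adjoin k {T ^ l, θ ^ l} ≤ adjoin k {T, θ} := by
    rw [adjoin_le_iff]
    rintro x hx
    rcases hx with rfl | hx
    · exact pow_mem (subset_adjoin k _ (by simp)) l
    · rw [Set.mem_singleton_iff.mp hx]
      exact pow_mem (subset_adjoin k _ (by simp)) l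
  have e3 : k⟮T ^ l⟯ ≤ k⟮T⟯ := by
    rw [adjoin_simple_le_iff]
    exact pow_mem (mem_adjoin_simple_self k T) l
  have e4 : k⟮T⟯ ≤ adjoin k {T, θ} := adjoin.mono k _ _ (by simp)
  have h2 := relfinrank_mul_relfinrank e1 e2
  have h3 := relfinrank_mul_relfinrank e3 e4
  rw [relfin_irred (T ^ l) (θ ^ l) (hT.pow (by omega)) H hH hH1 hH0] at h2
  rw [relfin_irred T θ hT G hG h1 h0, relfin_pow T hT l hl] at h3
  rw [mul_comm, h2, ← h3]

end Pool.Agent.H36.LE
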